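import Pool.Agent.Lib_helper59.SZ.W
import Pool.Agent.Lib_helper26.SD.Page
import Pool.Agent.Lib_helper3.FGP.E19F
import Pool.Agent.Lib_helper3.FGP.P01
import Pool.Agent.Lib_helper3.FGP.P03
import Pool.Agent.Lib_helper3.FGP.P03b
import Pool.Agent.Lib_helper3.FGP.P18
import Pool.Agent.Lib_helper3.FGP.P18b
import Pool.Agent.Lib_helper3.FGP.WantedE
import Pool.Agent.Lib_helper59.LHM.LH
import Pool.Agent.Lib_helper59.LHM.ZB

/-!
# SZ: blocks Z1, Z2, S18p, S18, S18g of sd_block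
-/

set_option autoImplicit false

/-! ## Block Z1 (helper26) -/

namespace Pool.Agent.SZ

open Finset

theorem Z1_pr : Z1 := by
  obtain ⟨c₀, hc₀, h⟩ := SD.page
  obtain ⟨hZF, hD⟩ := h c₀ hc₀ le_rfl
  refine ⟨c₀, hZF, fun D hD2 => ?_⟩
  rcases hD D hD2 with hn | ⟨q₁, χ₁, β₁, hE⟩
  · refine le_trans (le_of_eq ?_) zero_le_one
    refine Finset.sum_eq_zero fun q hq => Finset.sum_eq_zero fun χ hχ => ?_
    rw [hn q hq χ hχ, Finset.sum_empty]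
  · have h1 : ∑ q ∈ Icc 1 D, ∑ χ ∈ GA.Prm q, ∑ ρ ∈ LHM.BZ c₀ D χ, GA.mlt (GA.LF χ) ρ =
        ∑ χ ∈ GA.Prm q₁, ∑ ρ ∈ LHM.BZ c₀ D χ, GA.mlt (GA.LF χ) ρ := by
      refine Finset.sum_eq_single q₁ (fun q hq hne => ?_) (fun h => absurd hE.hq h)
      refine Finset.sum_eq_zero fun χ hχ => ?_
      rw [hE.hoth q hq χ hχ (fun h => hne (congrArg Sigma.fst h)), Finset.sum_empty]
    have h2 : ∑ χ ∈ GA.Prm q₁, ∑ ρ ∈ LHM.BZ c₀ D χ, GA.mlt (GA.LF χ) ρ =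
        ∑ ρ ∈ LHM.BZ c₀ D χ₁, GA.mlt (GA.LF χ₁) ρ := by
      refine Finset.sum_eq_single χ₁ (fun χ hχ hne => ?_) (fun h => absurd hE.hχ h)
      rw [hE.hoth q₁ hE.hq χ hχ (fun h => hne (by simpa using h)), Finset.sum_empty]
    rw [h1, h2, hE.hB, Finset.sum_singleton, hE.hm]

end Pool.Agent.SZ

/-! ## Block Z2 (helper35) -/

namespace Pool.Agent.SZ

open Finset Pool.Agent.Var35 Pool.Agent.Var73 Pool.Agent.PV Pool.Agent.FGP
open scoped ArithmeticFunction ArithmeticFunction.Moebius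

/-! ### numerical part -/

theorem z2_sqrt (N : ℕ) : ∑ m ∈ Icc 1 N, 1 / Real.sqrt m ≤ 2 * Real.sqrt N := by
  induction N with
  | zero => simp
  | succ n ih =>
    rw [sum_Icc_succ_top (by omega)]
    refine (add_le_add_left ih _).trans ?_
    have h0 : (0 : ℝ) ≤ n := Nat.cast_nonneg n
    have hs1 : 0 < Real.sqrt ((n + 1 : ℕ) : ℝ) := Real.sqrt_pos.2 (by positivity)
    have hs0 : 0 ≤ Real.sqrt (n : ℝ) := Real.sqrt_nonneg _
    have e1 : Real.sqrt ((n + 1 : ℕ) : ℝ) ^ 2 = n + 1 := by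
      rw [Real.sq_sqrt (by positivity)]
      push_cast
      ring
    have e0 : Real.sqrt (n : ℝ) ^ 2 = n := Real.sq_sqrt h0
    have hle : Real.sqrt (n : ℝ) ≤ Real.sqrt ((n + 1 : ℕ) : ℝ) :=
      Real.sqrt_le_sqrt (by push_cast; linarith)
    set a := Real.sqrt ((n + 1 : ℕ) : ℝ) with ha
    set b := Real.sqrt (n : ℝ) with hb
    have h1 : 1 / a ≤ 2 * (a - b) := by
      rw [div_le_iff₀ hs1]
      have h2 : (a - b) * (a + b) = 1 := by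
        have : (a - b) * (a + b) = a ^ 2 - b ^ 2 := by ring
        rw [this, e1, e0]
        ring
      nlinarith [mul_nonneg (sub_nonneg.2 hle) hs0, mul_nonneg (sub_nonneg.2 hle) (sub_nonneg.2 hle)]
    linarith

theorem z2_term {N m : ℕ} (hm : 1 ≤ m) (hmN : m ≤ N) {κ : ℝ} (hκ : 0 ≤ κ) :
    ((N : ℝ) ^ (-κ) - (m : ℝ) ^ (-κ)) ^ 2 ≤ κ ^ 2 * (16 * (Real.sqrt N / Real.sqrt m)) := by
  have hm0 : (0 : ℝ) < m := by exact_mod_cast hm
  have hm1 : (1 : ℝ) ≤ m := by exact_mod_cast hm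
  have hmN' : (m : ℝ) ≤ N := by exact_mod_cast hmN
  have hN0 : (0 : ℝ) < N := lt_of_lt_of_le hm0 hmN'
  have hx1 : (1 : ℝ) ≤ N / m := by rw [le_div_iff₀ hm0]; linarith
  have hx0 : (0 : ℝ) < N / m := by positivity
  set L := Real.log ((N : ℝ) / m) with hL
  have hL0 : 0 ≤ L := Real.log_nonneg hx1
  have e1 : (N : ℝ) ^ (-κ) = (m : ℝ) ^ (-κ) * Real.exp (-(κ * L)) := by
    have h1 : (N : ℝ) = m * (N / m) := by field_simp
    rw [h1, Real.mul_rpow hm0.le hx0.le]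
    congr 1
    · rw [Real.rpow_def_of_pos hx0, ← hL]
      congr 1
      ring
  have h2 : (m : ℝ) ^ (-κ) ≤ 1 := Real.rpow_le_one_of_one_le_of_nonpos hm1 (by linarith)
  have h3 : 0 < (m : ℝ) ^ (-κ) := Real.rpow_pos_of_pos hm0 _
  have h4 : 1 - Real.exp (-(κ * L)) ≤ κ * L := by
    have := Real.add_one_le_exp (-(κ * L))
    linarith
  have h5 : 0 ≤ 1 - Real.exp (-(κ * L)) := by
    have : Real.exp (-(κ * L)) ≤ 1 := Real.exp_le_one_iff.2 (by nlinarith [mul_nonneg hκ hL0])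
    linarith
  have h6 : ((N : ℝ) ^ (-κ) - (m : ℝ) ^ (-κ)) ^ 2 ≤ (κ * L) ^ 2 := by
    have e2 : ((N : ℝ) ^ (-κ) - (m : ℝ) ^ (-κ)) ^ 2 =
        ((m : ℝ) ^ (-κ) * (1 - Real.exp (-(κ * L)))) ^ 2 := by
      rw [e1]
      ring
    rw [e2]
    refine pow_le_pow_left₀ (mul_nonneg h3.le h5) ?_ 2
    calc (m : ℝ) ^ (-κ) * (1 - Real.exp (-(κ * L))) ≤ 1 * (1 - Real.exp (-(κ * L))) :=
          mul_le_mul_of_nonneg_right h2 h5
      _ ≤ κ * L := by linarith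
  have h7 : L ≤ 4 * ((N : ℝ) / m) ^ (1 / 4 : ℝ) := by
    have := Real.log_le_rpow_div hx0.le (show (0 : ℝ) < 1 / 4 by norm_num)
    rw [← hL] at this
    linarith
  have h8 : L ^ 2 ≤ 16 * (Real.sqrt N / Real.sqrt m) := by
    have h9 : L ^ 2 ≤ (4 * ((N : ℝ) / m) ^ (1 / 4 : ℝ)) ^ 2 := pow_le_pow_left₀ hL0 h7 2
    have h10 : (4 * ((N : ℝ) / m) ^ (1 / 4 : ℝ)) ^ 2 = 16 * (Real.sqrt N / Real.sqrt m) := by
      rw [mul_pow, ← Real.sqrt_div hN0.le, Real.sqrt_eq_rpow, ← Real.rpow_natCast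
        (((N : ℝ) / m) ^ (1 / 4 : ℝ)) 2, ← Real.rpow_mul hx0.le]
      norm_num
    linarith
  calc ((N : ℝ) ^ (-κ) - (m : ℝ) ^ (-κ)) ^ 2 ≤ (κ * L) ^ 2 := h6
    _ = κ ^ 2 * L ^ 2 := by ring
    _ ≤ _ := mul_le_mul_of_nonneg_left h8 (by positivity)

theorem z2_sum (N : ℕ) {κ : ℝ} (hκ : 0 ≤ κ) :
    ∑ m ∈ Icc 1 N, ((N : ℝ) ^ (-κ) - (m : ℝ) ^ (-κ)) ^ 2 ≤ 32 * κ ^ 2 * N := by
  calc ∑ m ∈ Icc 1 N, ((N : ℝ) ^ (-κ) - (m : ℝ) ^ (-κ)) ^ 2
      ≤ ∑ m ∈ Icc 1 N, κ ^ 2 * (16 * (Real.sqrt N / Real.sqrt m)) := by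
        refine sum_le_sum fun m hm => ?_
        rw [mem_Icc] at hm
        exact z2_term hm.1 hm.2 hκ
    _ = 16 * κ ^ 2 * Real.sqrt N * ∑ m ∈ Icc 1 N, 1 / Real.sqrt m := by
        rw [mul_sum]
        refine sum_congr rfl fun m _ => ?_
        ring
    _ ≤ 16 * κ ^ 2 * Real.sqrt N * (2 * Real.sqrt N) :=
        mul_le_mul_of_nonneg_left (z2_sqrt N) (by positivity)
    _ = 32 * κ ^ 2 * (Real.sqrt N * Real.sqrt N) := by ring
    _ = 32 * κ ^ 2 * N := by rw [Real.mul_self_sqrt (Nat.cast_nonneg N)]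

/-- Jensen -/
theorem z2_jensen {N K : ℕ} (h0 : ∀ m, 0 ≤ vw N K m) (h1 : ∑ m ∈ Iw N K, vw N K m = 1)
    (f : ℕ → ℝ) :
    ∑ n ∈ Icc (1 - (Mw N K : ℤ)) ((N : ℤ) + Mw N K),
      (∑ m ∈ Icc 1 N, f m * vw N K ((m : ℤ) - n)) ^ 2 ≤ ∑ m ∈ Icc 1 N, f m ^ 2 := by
  calc ∑ n ∈ Icc (1 - (Mw N K : ℤ)) ((N : ℤ) + Mw N K),
        (∑ m ∈ Icc 1 N, f m * vw N K ((m : ℤ) - n)) ^ 2
      ≤ ∑ n ∈ Icc (1 - (Mw N K : ℤ)) ((N : ℤ) + Mw N K),
        ∑ m ∈ Icc 1 N, f m ^ 2 * vw N K ((m : ℤ) - n) := by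
        refine sum_le_sum fun n _ => ?_
        have h2 := Finset.sum_sq_le_sum_mul_sum_of_sq_le_mul (Icc 1 N)
          (r := fun m : ℕ => f m * vw N K ((m : ℤ) - n))
          (f := fun m : ℕ => vw N K ((m : ℤ) - n))
          (g := fun m : ℕ => f m ^ 2 * vw N K ((m : ℤ) - n))
          (fun m _ => h0 _) (fun m _ => mul_nonneg (sq_nonneg _) (h0 _)) (fun m _ => le_of_eq (by ring))
        refine h2.trans ?_
        have h3 := (p03b_mass h0 h1 n).2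
        have h4 : 0 ≤ ∑ m ∈ Icc 1 N, f m ^ 2 * vw N K ((m : ℤ) - n) :=
          sum_nonneg fun m _ => mul_nonneg (sq_nonneg _) (h0 _)
        calc (∑ m ∈ Icc 1 N, vw N K ((m : ℤ) - n)) * ∑ m ∈ Icc 1 N, f m ^ 2 * vw N K ((m : ℤ) - n)
            ≤ 1 * ∑ m ∈ Icc 1 N, f m ^ 2 * vw N K ((m : ℤ) - n) :=
              mul_le_mul_of_nonneg_right h3 h4
          _ = _ := one_mul _
    _ = ∑ m ∈ Icc 1 N, f m ^ 2 := by
        rw [sum_comm]
        refine sum_congr rfl fun m hm => ?_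
        rw [← mul_sum, LHM.lh_vw h1 hm, mul_one]

/-! ### the bad zeros -/

/-- the same primitive character -/
theorem z2_same {q : ℕ} (hq : 1 ≤ q) {χ ψ : DirichletCharacter ℂ q} (h : Same χ ψ) : χ = ψ := by
  have : NeZero q := ⟨by omega⟩
  apply MulChar.ext'
  intro a
  have h1 := h.2 a.val
  rw [ZMod.natCast_val, ZMod.cast_id] at h1
  exact h1

/-- a bad zero has multiplicity at least one -/
theorem z2_one {q : ℕ} (hq : 1 ≤ q) {χ : DirichletCharacter ℂ q} (hχ : χ ∈ GA.Prm q) {c : ℝ}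
    {D : ℕ} {ρ : ℂ} (h : ρ ∈ LHM.BZ c D χ) : 1 ≤ GA.mlt (GA.LF χ) ρ := by
  have : NeZero q := ⟨by omega⟩
  have h1 := (GA.mem_Prm.1 hχ).2
  have h2 : GA.LF χ 2 ≠ 0 := GA.LF_ne_zero h1 (by norm_num)
  exact GA.one_le_mlt (GA.LF_diff h1) h2 ((LHM.zb_mem hq hχ).1 h).1.1

/-- there is one bad zero at most: the other characters have none -/
theorem z2_empty {c : ℝ} {D : ℕ}
    (hs : ∑ q ∈ Icc 1 D, ∑ χ ∈ GA.Prm q, ∑ ρ ∈ LHM.BZ c D χ, GA.mlt (GA.LF χ) ρ ≤ 1)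
    {q₁ : ℕ} {χ : DirichletCharacter ℂ q₁} (hq₁ : q₁ ∈ Icc 1 D) (hχ : χ ∈ GA.Prm q₁) {β : ℂ}
    (hβ : β ∈ LHM.BZ c D χ) {q : ℕ} {ψ : DirichletCharacter ℂ q} (hq : q ∈ Icc 1 D)
    (hψ : ψ ∈ GA.Prm q) (hne : ¬ Same χ ψ) : LHM.BZ c D ψ = ∅ := by
  classical
  by_contra hcon
  obtain ⟨ρ, hρ⟩ := Finset.nonempty_iff_ne_empty.2 hcon
  have hg0 : ∀ (q : ℕ) (ψ : DirichletCharacter ℂ q),
      0 ≤ ∑ ρ ∈ LHM.BZ c D ψ, GA.mlt (GA.LF ψ) ρ :=
    fun q ψ => sum_nonneg fun ρ _ => LHM.zb_mlt _ _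
  have hge : ∀ (q : ℕ), q ∈ Icc 1 D → ∀ (ψ : DirichletCharacter ℂ q), ψ ∈ GA.Prm q →
      ∀ ρ ∈ LHM.BZ c D ψ, 1 ≤ ∑ ρ ∈ LHM.BZ c D ψ, GA.mlt (GA.LF ψ) ρ := by
    intro q hq ψ hψ ρ hρ
    refine (z2_one (mem_Icc.1 hq).1 hψ hρ).trans ?_
    exact single_le_sum (f := fun ρ => GA.mlt (GA.LF ψ) ρ) (fun ρ _ => LHM.zb_mlt _ _) hρ
  have h1 := hge q₁ hq₁ χ hχ β hβ
  have h2 := hge q hq ψ hψ ρ hρ
  by_cases hqq : q₁ = q
  · subst hqq
    have hne' : χ ≠ ψ := by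
      rintro rfl
      exact hne ⟨rfl, fun _ => rfl⟩
    have h3 : ({χ, ψ} : Finset (DirichletCharacter ℂ q₁)) ⊆ GA.Prm q₁ := by
      intro x hx
      rw [mem_insert, mem_singleton] at hx
      rcases hx with rfl | rfl
      · exact hχ
      · exact hψ
    have h4 := sum_le_sum_of_subset_of_nonneg
      (f := fun ψ => ∑ ρ ∈ LHM.BZ c D ψ, GA.mlt (GA.LF ψ) ρ) h3 (fun ψ _ _ => hg0 q₁ ψ)
    rw [sum_pair hne'] at h4
    have h5 := single_le_sum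
      (f := fun q => ∑ ψ ∈ GA.Prm q, ∑ ρ ∈ LHM.BZ c D ψ, GA.mlt (GA.LF ψ) ρ)
      (fun q _ => sum_nonneg fun ψ _ => hg0 q ψ) hq₁
    linarith
  · have h3 : ({q₁, q} : Finset ℕ) ⊆ Icc 1 D := by
      intro x hx
      rw [mem_insert, mem_singleton] at hx
      rcases hx with rfl | rfl
      · exact hq₁
      · exact hq
    have h4 := sum_le_sum_of_subset_of_nonneg
      (f := fun q => ∑ ψ ∈ GA.Prm q, ∑ ρ ∈ LHM.BZ c D ψ, GA.mlt (GA.LF ψ) ρ) h3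
      (fun q _ _ => sum_nonneg fun ψ _ => hg0 q ψ)
    rw [sum_pair hqq] at h4
    have h5 := single_le_sum (f := fun ψ => ∑ ρ ∈ LHM.BZ c D ψ, GA.mlt (GA.LF ψ) ρ)
      (fun ψ _ => hg0 q₁ ψ) hχ
    have h6 := single_le_sum (f := fun ψ => ∑ ρ ∈ LHM.BZ c D ψ, GA.mlt (GA.LF ψ) ρ)
      (fun ψ _ => hg0 q ψ) hψ
    linarith

/-- the exceptional character has exactly one bad zero, simple -/
theorem z2_wz {c : ℝ} {D : ℕ}
    (hs : ∑ q ∈ Icc 1 D, ∑ χ ∈ GA.Prm q, ∑ ρ ∈ LHM.BZ c D χ, GA.mlt (GA.LF χ) ρ ≤ 1)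
    {q₁ : ℕ} {χ : DirichletCharacter ℂ q₁} (hq₁ : q₁ ∈ Icc 1 D) (hχ : χ ∈ GA.Prm q₁) {β : ℝ}
    (hβ : (β : ℂ) ∈ LHM.BZ c D χ) (x : ℝ) : LHM.wz c D χ x = x ^ (β - 1) := by
  classical
  have hg0 : ∀ (q : ℕ) (ψ : DirichletCharacter ℂ q),
      0 ≤ ∑ ρ ∈ LHM.BZ c D ψ, GA.mlt (GA.LF ψ) ρ :=
    fun q ψ => sum_nonneg fun ρ _ => LHM.zb_mlt _ _
  have h0 : ∑ ρ ∈ LHM.BZ c D χ, GA.mlt (GA.LF χ) ρ ≤ 1 := by
    have h5 := single_le_sum (f := fun ψ => ∑ ρ ∈ LHM.BZ c D ψ, GA.mlt (GA.LF ψ) ρ)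
      (fun ψ _ => hg0 q₁ ψ) hχ
    have h6 := single_le_sum
      (f := fun q => ∑ ψ ∈ GA.Prm q, ∑ ρ ∈ LHM.BZ c D ψ, GA.mlt (GA.LF ψ) ρ)
      (fun q _ => sum_nonneg fun ψ _ => hg0 q ψ) hq₁
    linarith
  have hq := (mem_Icc.1 hq₁).1
  have h1 : LHM.BZ c D χ = {(β : ℂ)} := by
    refine Finset.eq_singleton_iff_unique_mem.2 ⟨hβ, fun ρ hρ => ?_⟩
    by_contra hne
    have h3 : ({(β : ℂ), ρ} : Finset ℂ) ⊆ LHM.BZ c D χ := by
      intro x hx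
      rw [mem_insert, mem_singleton] at hx
      rcases hx with rfl | rfl
      · exact hβ
      · exact hρ
    have h4 := sum_le_sum_of_subset_of_nonneg (f := fun ρ => GA.mlt (GA.LF χ) ρ) h3
      (fun ρ _ _ => LHM.zb_mlt _ _)
    rw [sum_pair (Ne.symm hne)] at h4
    have h5 := z2_one hq hχ hβ
    have h6 := z2_one hq hχ hρ
    linarith
  have h2 : GA.mlt (GA.LF χ) (β : ℂ) = 1 := by
    rw [h1, sum_singleton] at h0
    exact le_antisymm h0 (z2_one hq hχ hβ)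
  unfold LHM.wz
  rw [h1, sum_singleton, h2, one_mul, Complex.ofReal_re]

/-! ### the energy -/

theorem z2_sq (a b : ℂ) : ‖a + b‖ ^ 2 ≤ 2 * ‖a‖ ^ 2 + 2 * ‖b‖ ^ 2 := by
  have h1 := norm_add_le a b
  have h2 : ‖a + b‖ ^ 2 ≤ (‖a‖ + ‖b‖) ^ 2 := pow_le_pow_left₀ (norm_nonneg _) h1 2
  nlinarith [sq_nonneg (‖a‖ - ‖b‖)]

/-- one window -/
theorem z2_EW {c : ℝ} {K : ℕ}
    (hs : ∑ q ∈ Icc 1 (K ^ 20), ∑ χ ∈ GA.Prm q, ∑ ρ ∈ LHM.BZ c (K ^ 20) χ,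
      GA.mlt (GA.LF χ) ρ ≤ 1)
    {q₁ : ℕ} {χ : DirichletCharacter ℂ q₁} (hq1 : 1 ≤ q₁) (hq1K : q₁ ≤ K) (hχ : χ ∈ GA.Prm q₁)
    {β : ℝ} (hβ : (β : ℂ) ∈ LHM.BZ c (K ^ 20) χ) (w : ℝ) (N : ℕ) (n : ℤ) :
    EW χ w N K n ≤ 2 * LHM.EX c N K n +
      2 * (∑ m ∈ Icc 1 N, (w - (m : ℝ) ^ (β - 1)) * vw N K ((m : ℤ) - n)) ^ 2 := by
  classical
  have hKD : K ≤ K ^ 20 := Nat.le_self_pow (by norm_num) K
  have hq₁D : q₁ ∈ Icc 1 (K ^ 20) := mem_Icc.2 ⟨hq1, hq1K.trans hKD⟩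
  set g : ℝ := ∑ m ∈ Icc 1 N, (w - (m : ℝ) ^ (β - 1)) * vw N K ((m : ℤ) - n) with hg
  have hterm : ∀ q ∈ Ioc 1 K, ∀ ψ ∈ Pr q, ‖TW χ w ψ N K n‖ ^ 2 ≤
      2 * ‖LHM.TX c ψ N K n‖ ^ 2 + (if Same χ ψ then 2 * g ^ 2 else 0) := by
    intro q hq ψ hψ
    rw [mem_Ioc] at hq
    have hψP : ψ ∈ GA.Prm q := p03_Prm q hq.1 hψ
    have hqD : q ∈ Icc 1 (K ^ 20) := mem_Icc.2 ⟨by omega, hq.2.trans hKD⟩
    by_cases hsame : Same χ ψ
    · rw [if_pos hsame]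
      obtain ⟨hqq, hval⟩ := id hsame
      subst hqq
      have hχψ : χ = ψ := z2_same hq1 hsame
      subst hχψ
      have e1 : TW χ w χ N K n = LHM.TX c χ N K n + ((g : ℝ) : ℂ) := by
        unfold TW LHM.TX
        rw [if_pos hsame, add_assoc, ← Complex.ofReal_add]
        congr 2
        rw [hg, mul_sum, ← sum_add_distrib]
        refine sum_congr rfl fun m _ => ?_
        rw [z2_wz hs hq₁D hχ hβ]
        ring
      rw [e1]
      have h1 := z2_sq (LHM.TX c χ N K n) ((g : ℝ) : ℂ)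
      rw [Complex.norm_real, Real.norm_eq_abs, sq_abs] at h1
      exact h1
    · rw [if_neg hsame, add_zero]
      have h1 : LHM.BZ c (K ^ 20) ψ = ∅ := z2_empty hs hq₁D hχ hβ hqD hψP hsame
      have e1 : TW χ w ψ N K n = LHM.TX c ψ N K n := by
        unfold TW LHM.TX
        rw [if_neg hsame]
        congr 1
        have h2 : ∀ x : ℝ, LHM.wz c (K ^ 20) ψ x = 0 := by
          intro x
          unfold LHM.wz
          rw [h1, sum_empty]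
        rw [sum_congr rfl (fun m _ => by rw [h2, zero_mul]), sum_const_zero, Complex.ofReal_zero]
      rw [e1]
      have : 0 ≤ ‖LHM.TX c ψ N K n‖ ^ 2 := by positivity
      linarith
  have hq1' : 1 < q₁ := by
    by_contra hcon
    have h1 : q₁ = 1 := by omega
    subst h1
    exact (GA.mem_Prm.1 hχ).2 (DirichletCharacter.level_one χ)
  have hmark : ∑ q ∈ Ioc 1 K, ∑ ψ ∈ Pr q, (if Same χ ψ then 2 * g ^ 2 else 0) ≤ 2 * g ^ 2 := by
    rw [sum_eq_single_of_mem q₁ (mem_Ioc.2 ⟨hq1', hq1K⟩)]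
    · calc ∑ ψ ∈ Pr q₁, (if Same χ ψ then 2 * g ^ 2 else 0)
          ≤ ∑ ψ ∈ Pr q₁, (if ψ = χ then 2 * g ^ 2 else 0) := by
            refine sum_le_sum fun ψ _ => ?_
            by_cases h : Same χ ψ
            · rw [if_pos h, if_pos (z2_same hq1 h).symm]
            · rw [if_neg h]
              split_ifs
              · positivity
              · exact le_rfl
        _ ≤ 2 * g ^ 2 := by
            rw [sum_ite_eq']
            split_ifs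
            · exact le_rfl
            · positivity
    · intro q _ hne
      refine sum_eq_zero fun ψ _ => ?_
      rw [if_neg (fun h => hne h.1.symm)]
  have hsum := sum_le_sum fun q hq => sum_le_sum fun ψ hψ => hterm q hq ψ hψ
  unfold EW LHM.EX
  have e2 : ∑ q ∈ Ioc 1 K, ∑ ψ ∈ Pr q, (2 * ‖LHM.TX c ψ N K n‖ ^ 2 +
      (if Same χ ψ then 2 * g ^ 2 else 0)) = 2 * (∑ q ∈ Ioc 1 K, ∑ ψ ∈ Pr q,
      ‖LHM.TX c ψ N K n‖ ^ 2) +
      ∑ q ∈ Ioc 1 K, ∑ ψ ∈ Pr q, (if Same χ ψ then 2 * g ^ 2 else 0) := by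
    simp only [sum_add_distrib, mul_sum]
  rw [e2] at hsum
  have h0 : 0 ≤ T0 N K n ^ 2 := sq_nonneg _
  linarith

theorem Z2_pr (h1 : Z1) (hE : ∀ c, LHM.ZF c → LHM.ZE c) : Z2 := by
  classical
  obtain ⟨c₀, hZF, hsum⟩ := h1
  obtain ⟨C, c, B, hC, hc, hB, K0, hE⟩ := hE c₀ hZF
  have hc0 : 0 < c₀ := hZF.1
  have hc1 : c₀ ≤ 1 / 32 := hZF.2.1
  obtain ⟨C1, -, K1, hW⟩ := W01_pr
  refine ⟨2 * C + 64, c, B, c₀ / 40, by positivity, hc, hB, by positivity, max K0 (max K1 10),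
    fun K hK N hR hKN q₁ χ β hQd hq₁K hLF hβ => ?_⟩
  have hK0 : K0 ≤ K := (le_max_left _ _).trans hK
  have hK1 : K1 ≤ K := (le_max_left _ _).trans ((le_max_right _ _).trans hK)
  have hK10 : 10 ≤ K := (le_max_right _ _).trans ((le_max_right _ _).trans hK)
  obtain ⟨hv, hv1, -⟩ := hW K hK1 N hR
  have hv0 : ∀ m, 0 ≤ vw N K m := fun m => (hv m).1
  obtain ⟨hχP, -, hq1⟩ := hQd
  have : NeZero q₁ := ⟨by omega⟩
  have hχ1 := (GA.mem_Prm.1 hχP).2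
  have hβ1 : β < 1 := by
    have := GA.z3_zero_re hχ1 hLF
    rwa [Complex.ofReal_re] at this
  have hKr : (10 : ℝ) ≤ K := by exact_mod_cast hK10
  have hlogK : 1 ≤ Real.log K := by
    rw [Real.le_log_iff_exp_le (by linarith)]
    have := Real.exp_one_lt_d9
    linarith
  have hlogD : Real.log ((K ^ 20 : ℕ) : ℝ) = 20 * Real.log K := by
    push_cast
    rw [Real.log_pow]
    norm_num
  have hD2 : 2 ≤ K ^ 20 := by
    calc 2 ≤ K := by omega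
      _ ≤ K ^ 20 := Nat.le_self_pow (by norm_num) K
  have hκ0 : 0 < 1 - β := by linarith
  have hκ1 : 1 - β ≤ c₀ / 40 := by
    calc 1 - β = (1 - β) * 1 := by ring
      _ ≤ (1 - β) * Real.log K := mul_le_mul_of_nonneg_left hlogK hκ0.le
      _ ≤ _ := hβ
  have hmem : (β : ℂ) ∈ LHM.BZ c₀ (K ^ 20) χ := by
    rw [LHM.zb_mem hq1 hχP]
    refine ⟨⟨hLF, ?_, ?_, ?_⟩, ?_⟩
    · rw [Complex.ofReal_re]
      linarith
    · rw [Complex.ofReal_re]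
      exact hβ1.le
    · rw [Complex.ofReal_im, abs_zero]
      exact Nat.cast_nonneg _
    · rw [Complex.ofReal_re, hlogD]
      have h2 : 1 - β < c₀ / (20 * Real.log K) := by
        rw [lt_div_iff₀ (by linarith)]
        nlinarith
      linarith
  have hs := hsum (K ^ 20) hD2
  -- the sum over the windows
  have hEEW : EEW χ ((N : ℝ) ^ (β - 1)) N K ≤ 2 * LHM.EEX c₀ N K +
      2 * ∑ m ∈ Icc 1 N, ((N : ℝ) ^ (β - 1) - (m : ℝ) ^ (β - 1)) ^ 2 := by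
    have h2 := z2_jensen hv0 hv1 (fun m => (N : ℝ) ^ (β - 1) - (m : ℝ) ^ (β - 1))
    unfold EEW LHM.EEX
    calc ∑ n ∈ Icc (1 - (Mw N K : ℤ)) ((N : ℤ) + Mw N K), EW χ ((N : ℝ) ^ (β - 1)) N K n
        ≤ ∑ n ∈ Icc (1 - (Mw N K : ℤ)) ((N : ℤ) + Mw N K), (2 * LHM.EX c₀ N K n +
          2 * (∑ m ∈ Icc 1 N, ((N : ℝ) ^ (β - 1) - (m : ℝ) ^ (β - 1)) *
            vw N K ((m : ℤ) - n)) ^ 2) :=
          sum_le_sum fun n _ => z2_EW hs hq1 hq₁K hχP hmem _ N n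
      _ = 2 * (∑ n ∈ Icc (1 - (Mw N K : ℤ)) ((N : ℤ) + Mw N K), LHM.EX c₀ N K n) +
          2 * ∑ n ∈ Icc (1 - (Mw N K : ℤ)) ((N : ℤ) + Mw N K),
            (∑ m ∈ Icc 1 N, ((N : ℝ) ^ (β - 1) - (m : ℝ) ^ (β - 1)) *
            vw N K ((m : ℤ) - n)) ^ 2 := by
          rw [sum_add_distrib, mul_sum, mul_sum]
      _ ≤ _ := by linarith
  have h3 := hE K hK0 N hR hKN
  have h4 := z2_sum N hκ0.le
  rw [show -(1 - β) = β - 1 by ring] at h4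
  have hN0 : (0 : ℝ) ≤ N := Nat.cast_nonneg N
  set E := Real.exp (-(c * Real.log N / Real.log K)) + 1 / Real.sqrt K with hEdef
  have hE0 : 0 ≤ E := by positivity
  have h5 : 0 ≤ C * N * (1 - β) ^ 2 := by positivity
  have h6 : 0 ≤ N * E := by positivity
  calc EEW χ ((N : ℝ) ^ (β - 1)) N K ≤ 2 * (C * N * E) + 2 * (32 * (1 - β) ^ 2 * N) := by
        linarith
    _ ≤ (2 * C + 64) * N * (E + (1 - β) ^ 2) := by nlinarith

end Pool.Agent.SZ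

/-! ## Block S18p (helper5) -/

set_option exponentiation.threshold 500

namespace Pool.Agent.SZ

open Finset Pool.Agent.Var35 Pool.Agent.Var73 Pool.Agent.PV Pool.Agent.FGP
open scoped ArithmeticFunction ArithmeticFunction.Moebius

theorem s18p_const :
    |- Real.eulerMascheroniConstant - Real.log (2 * Real.pi)| ≤ 3 := by
  have h3 := Real.one_half_lt_eulerMascheroniConstant
  have h4 := Real.eulerMascheroniConstant_lt_two_thirds
  have h5 : 0 ≤ Real.log (2 * Real.pi) := by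
    apply Real.log_nonneg
    nlinarith [Real.pi_gt_three]
  have h6 : Real.log (2 * Real.pi) ≤ 2 := by
    rw [Real.log_le_iff_le_exp (by positivity)]
    have h7 : Real.exp 2 = Real.exp 1 * Real.exp 1 := by
      rw [← Real.exp_add]
      norm_num
    have := Real.exp_one_gt_d9
    have h8 := Real.pi_lt_d2
    have h9 : (7 : ℝ) ≤ Real.exp 1 * Real.exp 1 := by nlinarith
    linarith
  rw [abs_le]
  constructor <;> linarith

theorem s18p_pt (N Q w L : ℝ) (hN : 0 < N) (hQ : 0 < Q) (hw0 : 0 ≤ w) (hw1 : w ≤ 1)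
    (VQp VAp VAg msp msg A P0 S1 S2 S3 S e b13 b14 b4 b5 b16 b15 b17 : ℝ)
    (hV : VQp = VAp - P0 / Q)
    (hS : S = Q * S1 + w ^ 2 * (Q * S2) + w * (e * (Q * S3)))
    (h13 : |VAg - msg - 2 * S| ≤ b13)
    (h14 : |S1 - mainT (N / Q)| ≤ b14)
    (h4 : |S2 + (N / Q) / 2 * L| ≤ b4)
    (h5 : |S3| ≤ b5) (he : |e| ≤ 1)
    (h16 : |msp - A| ≤ b16) (h15 : |A - (N * Real.log N - N)| ≤ b15)
    (h17 : |P0 - N ^ 2| ≤ b17) :
    |VQp - (N * Real.log Q - w ^ 2 * N * L)| ≤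
      |(VAp - VAg) - (msp - msg)| + b13 + 2 * (Q * b14) + 2 * (Q * b4) + 2 * (Q * b5) + b16 + b15 +
      b17 / Q + 3 * N := by
  have hid := p18_ident N Q hN hQ
  have hc := s18p_const
  have hw2 : w ^ 2 ≤ 1 := pow_le_one₀ hw0 hw1
  have hw20 : 0 ≤ w ^ 2 := sq_nonneg w
  set T : ℝ := mainT (N / Q)
  have hQz : w ^ 2 * (Q * ((N / Q) / 2 * L)) = w ^ 2 * N * L / 2 := by
    field_simp
  set W : ℝ := (N / Q) / 2 * L
  set c0 : ℝ := - Real.eulerMascheroniConstant - Real.log (2 * Real.pi)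
  have e1 : VQp - (N * Real.log Q - w ^ 2 * N * L) =
      ((VAp - VAg) - (msp - msg)) + (VAg - msg - 2 * S) + 2 * (Q * (S1 - T)) +
      2 * (w ^ 2 * (Q * (S2 + W))) + 2 * (w * (Q * (e * S3))) + (msp - A) +
      (A - (N * Real.log N - N)) - (P0 - N ^ 2) / Q + N * c0 := by
    rw [hV, hS]
    have e2 : N * c0 = N * Real.log N - N + 2 * (Q * T) - N ^ 2 / Q - N * Real.log Q := by linarith
    rw [e2]
    linear_combination (-2) * hQz
  have k1 : |2 * (Q * (S1 - T))| ≤ 2 * (Q * b14) := by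
    rw [abs_mul, abs_mul, abs_of_pos hQ, abs_two]
    gcongr
  have hb4 : 0 ≤ b4 := (abs_nonneg _).trans h4
  have hb5 : 0 ≤ b5 := (abs_nonneg _).trans h5
  have k2 : |2 * (w ^ 2 * (Q * (S2 + W)))| ≤ 2 * (Q * b4) := by
    rw [abs_mul, abs_mul, abs_mul, abs_of_pos hQ, abs_two, abs_of_nonneg hw20]
    calc 2 * (w ^ 2 * (Q * |S2 + W|)) ≤ 2 * (1 * (Q * b4)) := by gcongr
      _ = 2 * (Q * b4) := by ring
  have k3 : |2 * (w * (Q * (e * S3)))| ≤ 2 * (Q * b5) := by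
    rw [abs_mul, abs_mul, abs_mul, abs_of_pos hQ, abs_two, abs_mul, abs_of_nonneg hw0]
    calc 2 * (w * (Q * (|e| * |S3|))) ≤ 2 * (1 * (Q * (1 * b5))) := by gcongr
      _ = 2 * (Q * b5) := by ring
  have k4 : |(P0 - N ^ 2) / Q| ≤ b17 / Q := by
    rw [abs_div, abs_of_pos hQ]
    gcongr
  have k5 : |N * c0| ≤ 3 * N := by
    rw [abs_mul, abs_of_pos hN]
    calc N * |c0| ≤ N * 3 := by gcongr
      _ = 3 * N := by ring
  obtain ⟨x0, hx⟩ : ∃ x : ℝ, |(VAp - VAg) - (msp - msg)| = x := ⟨_, rfl⟩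
  have k0 : |(VAp - VAg) - (msp - msg)| ≤ x0 := hx.le
  rw [e1, hx]
  clear hx hc h14 h4 h5 he h17
  rw [abs_le] at *
  constructor
  · linarith [k0.1, h13.1, k1.1, k2.1, k3.1, h16.1, h15.1, k4.2, k5.1]
  · linarith [k0.2, h13.2, k1.2, k2.2, k3.2, h16.2, h15.2, k4.1, k5.2]

/-- the factor `Q` out of the sums -/
theorem s18p_sum (f : ℕ → ℝ) (n : ℕ) (N Q : ℝ) (hQ : Q ≠ 0) :
    ∑ k ∈ Icc 1 n, f k * (N - k * Q) = Q * ∑ k ∈ Icc 1 n, f k * (N / Q - k) := by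
  rw [mul_sum]
  refine sum_congr rfl fun k _ => ?_
  field_simp

theorem S18p_pr (h16 : S16) (h13 : S13) (hE : E14) (h4 : C4g) (h5 : C5g) (h15 : W15) (h2 : G2) :
    S18p := by
  obtain ⟨⟨C16, hC16, K16, h16⟩, C17, hC17, K17, h17⟩ := h16
  obtain ⟨C13, hC13, K13, h13⟩ := h13
  obtain ⟨C14, hC14, h14⟩ := hE
  refine ⟨C16, hC16, fun η hη => ?_⟩
  obtain ⟨C4, q4, hC4, h4⟩ := h4 (η / 4) (by positivity)
  obtain ⟨C5, q5, hC5, h5⟩ := h5 (η / 4) (by positivity)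
  obtain ⟨N15, h15⟩ := h15 1 one_pos
  refine ⟨C13 + 2 * C14 + 2 * C4 + 2 * C5 + C17 + 4, max q4 q5,
    max (max K16 K17) (max K13 N15), by positivity,
    fun K hK N hR M hM q₁ χ w hχ hw0 hw1 hqq hqK hEE Y hY hYN Q hQ => ?_⟩
  have hq4 : q4 ≤ q₁ := (le_max_left _ _).trans hqq
  have hq5 : q5 ≤ q₁ := (le_max_right _ _).trans hqq
  have hK16 : K16 ≤ K := le_trans (le_trans (le_max_left _ _) (le_max_left _ _)) hK
  have hK17 : K17 ≤ K := le_trans (le_trans (le_max_right _ _) (le_max_left _ _)) hK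
  have hK13 : K13 ≤ K := le_trans (le_trans (le_max_left _ _) (le_max_right _ _)) hK
  have hK15 : N15 ≤ K := le_trans (le_trans (le_max_right _ _) (le_max_right _ _)) hK
  have hK10 : 10 ≤ K := hR.hK
  have hKN : K ≤ N := by
    calc K = K ^ 1 := (pow_one K).symm
      _ ≤ K ^ 400 := Nat.pow_le_pow_right (by omega) (by norm_num)
      _ ≤ N := hR.hN
  obtain ⟨-, -, hq3, hchr, -⟩ := h2 q₁ χ hχ
  have hQ' := hQ
  unfold QQ at hQ'
  rw [mem_filter, mem_Ioc] at hQ'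
  have hY1 : 1 ≤ Y := hY.hY1
  have hQ1 : 1 ≤ Q := hQ'.2.one_lt.le
  have hQR1 : (1 : ℝ) ≤ Q := by exact_mod_cast hQ1
  have hQ0 : (0 : ℝ) < Q := by linarith
  have hYR : (1 : ℝ) ≤ Y := by exact_mod_cast hY1
  have hYQ : (Y : ℝ) ≤ Q := by exact_mod_cast hQ'.1.1.le
  have hQ4 : (Q : ℝ) ≤ 4 * Y := by exact_mod_cast hQ'.1.2
  have hN10 : (10 : ℝ) ≤ N := by exact_mod_cast hK10.trans hKN
  have hN0 : (0 : ℝ) < N := by linarith
  have hL0 : 0 ≤ Real.log N := Real.log_nonneg (by linarith)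
  have hKR : (10 : ℝ) ≤ K := by exact_mod_cast hK10
  set z : ℝ := (N : ℝ) / Q with hz
  have hz0 : 0 < z := by positivity
  have hz1 : 1 ≤ z := by
    rw [hz, le_div_iff₀ hQ0, one_mul]
    have h : (4 : ℝ) * Y ≤ N := by exact_mod_cast hYN
    exact hQ4.trans h
  have hzN : z ≤ N := by
    rw [hz]
    exact div_le_self hN0.le hQR1
  have hz16 : z ^ 16 ≤ K := by
    have h : (N : ℝ) ^ 16 ≤ (Y : ℝ) ^ 16 * K := by exact_mod_cast hY.hY
    rw [hz, div_pow, div_le_iff₀ (by positivity)]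
    calc (N : ℝ) ^ 16 ≤ (Y : ℝ) ^ 16 * K := h
      _ ≤ (Q : ℝ) ^ 16 * K := by gcongr
      _ = K * (Q : ℝ) ^ 16 := by ring
  have hz8 : z ^ 8 ≤ K := by
    calc z ^ 8 ≤ z ^ 16 := pow_le_pow_right₀ hz1 (by norm_num)
      _ ≤ K := hz16
  have hzK : z ≤ K := by
    calc z = z ^ 1 := (pow_one z).symm
      _ ≤ z ^ 8 := pow_le_pow_right₀ hz1 (by norm_num)
      _ ≤ K := hz8
  have hfl : ⌊z⌋₊ = N / Q := Nat.floor_div_eq_div N Q
  have k13 := h13 K hK13 N hR M hM Y hY q₁ χ w hχ hw0 hw1 Q hQ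
  have k14 := h14 z K hz0 (by omega) hz8
  have k4 := h4 q₁ K z hq4 (by omega) hz1 hz16 hqK
  have k5 := h5 q₁ χ hχ hq5 K z hz1 hqK
  rw [hfl] at k14 k4 k5
  have k16 := h16 K hK16 N hR M hM q₁ χ w hχ hw0 hw1 hEE
  have k17 := h17 K hK17 N hR q₁ χ w hχ hw0 hw1
  have k15 := h15 N (hK15.trans hKN)
  have hsum : ∑ k ∈ Icc 1 (N / Q), (SK K k + w ^ 2 * SX q₁ K k + w * (chr χ Q * SC χ K k)) *
      ((N : ℝ) - k * Q) =
      Q * (∑ k ∈ Icc 1 (N / Q), SK K k * (z - k)) +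
        w ^ 2 * (Q * (∑ k ∈ Icc 1 (N / Q), SX q₁ K k * (z - k))) +
        w * (chr χ Q * (Q * (∑ k ∈ Icc 1 (N / Q), SC χ K k * (z - k)))) := by
    rw [← s18p_sum _ _ _ _ hQ0.ne', ← s18p_sum _ _ _ _ hQ0.ne', ← s18p_sum _ _ _ _ hQ0.ne',
      mul_sum, mul_sum, mul_sum, ← sum_add_distrib, ← sum_add_distrib]
    refine sum_congr rfl fun k _ => ?_
    ring
  have key := s18p_pt N Q w (max 0 (Real.log (z / q₁))) hN0 hQ0 hw0 hw1 _ _ _ _
    (ms M (gW χ w N K)) _ _ _ _ _ _ _ _ _ _ _ _ _ _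
    (p18_VA (fun t => fh N K t + gW χ w N K t) Q hQ1) hsum k13 k14 k4 k5 (hchr Q).2 k16 k15 k17
  have hm : mW N Q q₁ w = N * Real.log Q - w ^ 2 * N * max 0 (Real.log (z / q₁)) := by
    unfold mW
    rw [hz, div_div]
  rw [hm]
  refine key.trans ?_
  -- the errors
  have e13 : C13 * N / K ≤ C13 * N := by
    apply div_le_self (by positivity) (by linarith)
  have hQz : (Q : ℝ) * z = N := by
    rw [hz]
    field_simp
  have e14 : (Q : ℝ) * (C14 * z ^ (3 / 4 : ℝ)) ≤ C14 * N := by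
    have h : z ^ (3 / 4 : ℝ) ≤ z := by
      calc z ^ (3 / 4 : ℝ) ≤ z ^ (1 : ℝ) := Real.rpow_le_rpow_of_exponent_le hz1 (by norm_num)
        _ = z := Real.rpow_one z
    calc (Q : ℝ) * (C14 * z ^ (3 / 4 : ℝ)) ≤ Q * (C14 * z) := by gcongr
      _ = C14 * (Q * z) := by ring
      _ = C14 * N := by rw [hQz]
  have hlz : 0 ≤ Real.log z := Real.log_nonneg hz1
  have hlzN : Real.log z ≤ Real.log N := Real.log_le_log hz0 hzN
  have e4 : (Q : ℝ) * (z * (η / 4 * Real.log z + C4)) ≤ N * (η / 4 * Real.log N + C4) := by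
    calc (Q : ℝ) * (z * (η / 4 * Real.log z + C4)) = (Q * z) * (η / 4 * Real.log z + C4) := by ring
      _ = N * (η / 4 * Real.log z + C4) := by rw [hQz]
      _ ≤ N * (η / 4 * Real.log N + C4) := by gcongr
  have e5 : (Q : ℝ) * (z * (η / 4 * Real.log z + C5)) ≤ N * (η / 4 * Real.log N + C5) := by
    calc (Q : ℝ) * (z * (η / 4 * Real.log z + C5)) = (Q * z) * (η / 4 * Real.log z + C5) := by ring
      _ = N * (η / 4 * Real.log z + C5) := by rw [hQz]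
      _ ≤ N * (η / 4 * Real.log N + C5) := by gcongr
  have e17 : C17 * (N : ℝ) ^ 2 / (K : ℝ) ^ 10 / Q ≤ C17 * N := by
    have h1 : C17 * (N : ℝ) ^ 2 / (K : ℝ) ^ 10 / Q = C17 * N * (z / (K : ℝ) ^ 10) := by
      rw [hz]
      field_simp
    rw [h1]
    have h2 : z / (K : ℝ) ^ 10 ≤ 1 := by
      rw [div_le_one (by positivity)]
      calc z ≤ K := hzK
        _ = (K : ℝ) ^ 1 := (pow_one _).symm
        _ ≤ (K : ℝ) ^ 10 := pow_le_pow_right₀ (by linarith) (by norm_num)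
    calc C17 * N * (z / (K : ℝ) ^ 10) ≤ C17 * N * 1 := by gcongr
      _ = C17 * N := mul_one _
  have f1 : C13 * N + 2 * (C14 * N) + 2 * (N * (η / 4 * Real.log N + C4)) +
      2 * (N * (η / 4 * Real.log N + C5)) + 1 * N + C17 * N + 3 * N ≤
      (η * Real.log N + (C13 + 2 * C14 + 2 * C4 + 2 * C5 + C17 + 4)) * N := by
    linarith
  linarith

end Pool.Agent.SZ

/-! ## Block S18 (helper20) -/

set_option exponentiation.threshold 5000

namespace Pool.Agent.SZ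

open Finset Pool.Agent.Var35 Pool.Agent.Var73 Pool.Agent.PV Pool.Agent.FGP
open scoped ArithmeticFunction ArithmeticFunction.Moebius

theorem s18_sqrt {P F θ : ℝ} (hθ : 0 < θ) (hP : 0 ≤ P) (hF : 0 ≤ F) :
    2 * Real.sqrt (P * F) ≤ P * θ + F / θ := by
  have h1 : P * F = (P * θ) * (F / θ) := by field_simp
  have h2 : 0 ≤ P * θ := by positivity
  have h3 : 0 ≤ F / θ := by positivity
  rw [h1, Real.sqrt_mul h2]
  have h4 := Real.sq_sqrt h2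
  have h5 := Real.sq_sqrt h3
  nlinarith [sq_nonneg (Real.sqrt (P * θ) - Real.sqrt (F / θ))]

/-- the numbers: `U = N Y / L`, `t = √(EEW / N)` -/
theorem s18_num {N Y L κ t η C' Cq C8 C12 Cp S1 SF SP tot : ℝ}
    (hκ : 1 ≤ κ) (hL : 1 ≤ L) (hLκ : L ≤ κ ^ 4) (hY : 1 ≤ Y) (hN : 0 < N) (hNY : N ≤ Y * κ ^ 25)
    (ht : 0 ≤ t) (ht1 : t ≤ 1) (hsN : Real.sqrt N ≤ N / κ ^ 200)
    (hCq : 0 < Cq) (hC8 : 0 < C8) (hC12 : 0 < C12)
    (hS1 : S1 ≤ C12 * (N ^ 2 / κ ^ 200) * (1 + L) ^ 7 + Cq * (Y / L) *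
      (Cp * L * (N * t) + (η / (3 * Cq) * L + C') * N))
    (hS10 : 0 ≤ S1)
    (hSF0 : 0 ≤ SF) (hSF : SF ≤ C8 * Y * (N * t ^ 2 + Real.sqrt N))
    (hSP0 : 0 ≤ SP) (hSP : SP ≤ Cq * (Y * N) + S1)
    (htot : tot ≤ S1 + (2 * Real.sqrt (SP * SF) + SF)) :
    tot ≤ ((3 * (Cq * Cp) + Cq + 3 * C8) * t * L + η * L +
      (384 * C12 + 3 * (Cq * C') + Cq + 3 * C8)) * N * (Y / L) := by
  have hL0 : 0 < L := by linarith
  have hκ0 : 0 < κ := by linarith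
  have hY0 : 0 < Y := by linarith
  set U : ℝ := N * (Y / L) with hU
  have hU0 : 0 ≤ U := by positivity
  have hUL : U * L = N * Y := by
    rw [hU]; field_simp
  have hκL : N * Y / κ ^ 100 ≤ U := by
    have h1 : L ≤ κ ^ 100 := hLκ.trans (pow_le_pow_right₀ hκ (by norm_num))
    rw [hU, ← mul_div_assoc]
    gcongr
  set θ : ℝ := t + 1 / κ ^ 100 with hθ
  have hκ1 : 1 / κ ^ 100 ≤ 1 := by
    rw [div_le_one (by positivity)]
    exact one_le_pow₀ hκ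
  have hκ1' : 0 < 1 / κ ^ 100 := by positivity
  have hθ0 : 0 < θ := by positivity
  have hθ2 : θ ≤ 2 := by linarith
  have hθsq : t ^ 2 + 1 / κ ^ 200 ≤ θ ^ 2 := by
    have h1 : 1 / κ ^ 200 = (1 / κ ^ 100) ^ 2 := by
      rw [div_pow, one_pow, ← pow_mul]
    rw [h1, hθ]
    have h4 := mul_nonneg ht hκ1'.le
    nlinarith
  have hθU : N * Y * θ ≤ (t * L + 1) * U := by
    have h1 : N * Y * θ = t * L * U + N * Y / κ ^ 100 := by
      rw [hθ, ← hUL]; ring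
    rw [h1]
    linarith
  -- first sum
  have t1 : C12 * (N ^ 2 / κ ^ 200) * (1 + L) ^ 7 ≤ 128 * C12 * U := by
    have h1 : (1 + L) ^ 7 ≤ (2 * κ ^ 4) ^ 7 := by
      apply pow_le_pow_left₀ (by linarith)
      linarith
    have h2 : N ^ 2 / κ ^ 200 * (2 * κ ^ 4) ^ 7 ≤ 128 * U := by
      have h3 : N ^ 2 / κ ^ 200 * (2 * κ ^ 4) ^ 7 = 128 * (N * (N / κ ^ 172)) := by
        field_simp
        ring
      rw [h3, hU]
      have h4 : N / κ ^ 172 ≤ Y / L := by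
        rw [div_le_div_iff₀ (by positivity) hL0]
        calc N * L ≤ (Y * κ ^ 25) * κ ^ 4 := by gcongr
          _ = Y * κ ^ 29 := by ring
          _ ≤ Y * κ ^ 172 := by
            apply mul_le_mul_of_nonneg_left _ hY0.le
            exact pow_le_pow_right₀ hκ (by norm_num)
      gcongr
    calc C12 * (N ^ 2 / κ ^ 200) * (1 + L) ^ 7 ≤ C12 * (N ^ 2 / κ ^ 200) * (2 * κ ^ 4) ^ 7 := by
          gcongr
      _ = C12 * (N ^ 2 / κ ^ 200 * (2 * κ ^ 4) ^ 7) := by ring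
      _ ≤ C12 * (128 * U) := by gcongr
      _ = _ := by ring
  have t2 : Cq * (Y / L) * (Cp * L * (N * t) + (η / (3 * Cq) * L + C') * N) =
      (Cq * Cp * t * L + η / 3 * L + Cq * C') * U := by
    rw [hU]
    field_simp
    ring
  have hS1D : S1 ≤ 128 * C12 * U + (Cq * Cp * t * L + η / 3 * L + Cq * C') * U := by
    rw [← t2]
    linarith
  -- the second sum
  have hF2 : SF ≤ C8 * (N * Y * θ) * θ := by
    have h1 : N * t ^ 2 + Real.sqrt N ≤ N * θ ^ 2 := by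
      have h2 : N * t ^ 2 + N / κ ^ 200 = N * (t ^ 2 + 1 / κ ^ 200) := by ring
      calc N * t ^ 2 + Real.sqrt N ≤ N * t ^ 2 + N / κ ^ 200 := by linarith
        _ = N * (t ^ 2 + 1 / κ ^ 200) := h2
        _ ≤ N * θ ^ 2 := by gcongr
    calc SF ≤ C8 * Y * (N * t ^ 2 + Real.sqrt N) := hSF
      _ ≤ C8 * Y * (N * θ ^ 2) := by gcongr
      _ = _ := by ring
  have hF3 : SF / θ ≤ C8 * ((t * L + 1) * U) := by
    rw [div_le_iff₀ hθ0]
    calc SF ≤ C8 * (N * Y * θ) * θ := hF2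
      _ ≤ C8 * ((t * L + 1) * U) * θ := by gcongr
  have hF4 : SF ≤ C8 * ((t * L + 1) * U) * 2 := by
    calc SF = SF / θ * θ := by field_simp
      _ ≤ C8 * ((t * L + 1) * U) * 2 := by gcongr
  have hP3 : SP * θ ≤ Cq * ((t * L + 1) * U) + S1 * 2 := by
    calc SP * θ ≤ (Cq * (Y * N) + S1) * θ := by gcongr
      _ = Cq * (N * Y * θ) + S1 * θ := by ring
      _ ≤ Cq * ((t * L + 1) * U) + S1 * 2 := by gcongr
  have h9 := s18_sqrt hθ0 hSP0 hSF0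
  have h10 : tot ≤ 3 * (128 * C12 * U + (Cq * Cp * t * L + η / 3 * L + Cq * C') * U) +
      Cq * ((t * L + 1) * U) + C8 * ((t * L + 1) * U) + C8 * ((t * L + 1) * U) * 2 := by linarith
  refine h10.trans (le_of_eq ?_)
  rw [mul_assoc _ N (Y / L), ← hU]
  ring

theorem S18_pr (h8 : S08) (h12 : S12) (h18p : S18p) (h10 : S10) (h20 : W20) : S18 := by
  obtain ⟨C8, hC8, K8, H8⟩ := h8
  obtain ⟨C12, hC12, K12, H12⟩ := h12
  obtain ⟨Cp, hCp, h18p⟩ := h18p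
  obtain ⟨Cq, hCq, Kq, Hq⟩ := p18_card
  refine ⟨3 * (Cq * Cp) + Cq + 3 * C8, by positivity, fun η hη => ?_⟩
  obtain ⟨C', q₀, Kp, hC', Hp⟩ := h18p (η / (3 * Cq)) (by positivity)
  refine ⟨384 * C12 + 3 * (Cq * C') + Cq + 3 * C8, q₀, K8 + K12 + Kp + Kq + 100,
    fun K hK N hR q₁ χ w hχ hw0 hw1 hq0 hqK hEEN Y hRY hYN4 => ?_⟩
  have hK10 : 10 ≤ K := hR.hK
  have hKN : K ≤ N := (Nat.le_self_pow (by norm_num) K).trans hR.hN
  have hN100 : 100 ≤ N := by omega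
  have hNR : (100 : ℝ) ≤ N := by exact_mod_cast hN100
  have hN0 : (0 : ℝ) < N := by linarith
  obtain ⟨κ, hκ1, hκK⟩ := p18_kappa (K := K) (by omega)
  have hκp : 0 < κ := by linarith
  have hY1 : 1 ≤ Y := hRY.hY1
  have hYR : (1 : ℝ) ≤ Y := by exact_mod_cast hY1
  set L : ℝ := Real.log N with hL
  have hL1 : 1 ≤ L := by
    rw [hL, Real.le_log_iff_exp_le hN0]
    have h2 := Real.exp_one_lt_d9
    linarith
  have hL0 : 0 < L := by linarith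
  have hsK : Real.sqrt K = κ ^ 200 := by
    rw [← hκK]
    have : κ ^ 400 = (κ ^ 200) ^ 2 := by rw [← pow_mul]
    rw [this, Real.sqrt_sq (by positivity)]
  have hLκ : L ≤ κ ^ 4 := by
    have h1 := hR.hL
    rw [← hκK] at h1
    have h2 : κ ^ 400 = (κ ^ 4) ^ 100 := by rw [← pow_mul]
    rw [h2] at h1
    exact le_of_pow_le_pow_left₀ (by norm_num) (by positivity) h1
  have hNYκ : (N : ℝ) ≤ Y * κ ^ 25 := by
    have h1 : ((N : ℝ)) ^ 16 ≤ (Y : ℝ) ^ 16 * K := by exact_mod_cast hRY.hY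
    rw [← hκK] at h1
    have h2 : (Y : ℝ) ^ 16 * κ ^ 400 = (Y * κ ^ 25) ^ 16 := by
      rw [mul_pow, ← pow_mul]
    rw [h2] at h1
    exact le_of_pow_le_pow_left₀ (by norm_num) (by positivity) h1
  have hκN : κ ^ 400 ≤ N := by
    rw [hκK]
    exact_mod_cast hKN
  have hsN : Real.sqrt N ≤ N / κ ^ 200 := by
    rw [le_div_iff₀ (by positivity)]
    have h1 : κ ^ 200 ≤ Real.sqrt N := by
      apply Real.le_sqrt_of_sq_le
      rw [← pow_mul]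
      exact hκN
    calc Real.sqrt N * κ ^ 200 ≤ Real.sqrt N * Real.sqrt N := by gcongr
      _ = N := Real.mul_self_sqrt hN0.le
  have hEE0 : 0 ≤ EEW χ w N K := by
    unfold EEW EW
    positivity
  set t : ℝ := Real.sqrt (EEW χ w N K / N) with ht
  have ht0 : 0 ≤ t := Real.sqrt_nonneg _
  have htsq : t ^ 2 = EEW χ w N K / N := Real.sq_sqrt (by positivity)
  have hEEt : EEW χ w N K = N * t ^ 2 := by
    rw [htsq]
    field_simp
  have ht1 : t ≤ 1 := by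
    rw [ht, Real.sqrt_le_left zero_le_one, one_pow, div_le_one hN0]
    exact hEEN
  have hsqt : Real.sqrt (N * EEW χ w N K) = N * t := by
    rw [hEEt]
    have : (N : ℝ) * (N * t ^ 2) = (N * t) ^ 2 := by ring
    rw [this, Real.sqrt_sq (by positivity)]
  obtain ⟨M, hM⟩ : ∃ M, Good (2 * N) M := ⟨_, CSB_good (2 * N)⟩
  have hF := H8 K (by omega) N hR Y hRY q₁ χ w hχ hw0 hw1
  rw [hEEt] at hF
  have h12' := H12 K (by omega) N hR M hM Y hRY q₁ χ w hχ hw0 hw1 hEEN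
  have hpt := Hp K (by omega) N hR M hM q₁ χ w hχ hw0 hw1 hq0 hqK hEEN Y hRY hYN4
  rw [← hL, hsqt] at hpt
  have hcard := Hq K (by omega) N hR Y hRY
  rw [← hL] at hcard
  set P : ℝ → ℂ := fun t => fh N K t + gW χ w N K t with hP
  set a1 : ℕ → ℝ := fun Q => |(VA P Q - VA (gW χ w N K) Q) - (ms M P - ms M (gW χ w N K))| with ha1
  set m : ℕ → ℝ := fun Q => mW N Q q₁ w with hm
  set W : ℝ := Cp * L * (N * t) + (η / (3 * Cq) * L + C') * N with hW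
  have hW0 : 0 ≤ W := by positivity
  have hpt' : ∀ Q ∈ QQ Y, |VQ P Q - m Q| ≤ a1 Q + W := by
    intro Q hQ
    have h1 := hpt Q hQ
    rw [hW]
    linarith
  have hS1 : ∑ Q ∈ QQ Y, |VQ P Q - m Q| ≤ C12 * ((N : ℝ) ^ 2 / κ ^ 200) * (1 + L) ^ 7 +
      Cq * (Y / L) * W := by
    calc ∑ Q ∈ QQ Y, |VQ P Q - m Q| ≤ ∑ Q ∈ QQ Y, (a1 Q + W) := sum_le_sum hpt'
      _ = ∑ Q ∈ QQ Y, a1 Q + (QQ Y).card * W := by
          rw [sum_add_distrib, sum_const, nsmul_eq_mul]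
      _ ≤ _ := by
          rw [hsK] at h12'
          have := mul_le_mul_of_nonneg_right hcard hW0
          linarith
  -- Minkowski
  have hPs : ∀ Q ∈ QQ Y, SQ N Q = VQ (fun t => P t + FW χ w N K t) Q := by
    intro Q hQ
    unfold QQ at hQ
    rw [mem_filter, mem_Ioc] at hQ
    rw [h20.2 N Q hQ.2.one_lt.le]
    congr 1
    funext t
    exact (h10 q₁ χ w N K).2.2 t
  have hmk := p18_mink_sum P (FW χ w N K) (QQ Y)
  have hSP0 : 0 ≤ ∑ Q ∈ QQ Y, VQ P Q := sum_nonneg fun Q _ => p18_VQ_nonneg _ _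
  have hSF0 : 0 ≤ ∑ Q ∈ QQ Y, VQ (FW χ w N K) Q := sum_nonneg fun Q _ => p18_VQ_nonneg _ _
  have hSP : ∑ Q ∈ QQ Y, VQ P Q ≤ Cq * (Y * N) + ∑ Q ∈ QQ Y, |VQ P Q - m Q| := by
    have h1 : ∀ Q ∈ QQ Y, VQ P Q ≤ N * L + |VQ P Q - m Q| := by
      intro Q hQ
      have hQ' := hQ
      unfold QQ at hQ'
      rw [mem_filter, mem_Ioc] at hQ'
      have hQ0 : (0 : ℝ) < Q := by exact_mod_cast hQ'.2.pos
      have hQN : (Q : ℝ) ≤ N := by exact_mod_cast hQ'.1.2.trans hYN4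
      have h5 : Real.log Q ≤ L := Real.log_le_log hQ0 hQN
      have h2 : m Q ≤ N * L := by
        have h6 : m Q = N * Real.log Q - w ^ 2 * N * max 0 (Real.log (N / (Q * q₁))) := rfl
        have h7 : 0 ≤ w ^ 2 * N * max 0 (Real.log (N / (Q * q₁))) := by positivity
        have h8 : (N : ℝ) * Real.log Q ≤ (N : ℝ) * L := by gcongr
        linarith
      have h4 := le_abs_self (VQ P Q - m Q)
      linarith
    refine (sum_le_sum h1).trans ?_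
    rw [sum_add_distrib, sum_const, nsmul_eq_mul]
    have h2 : ((QQ Y).card : ℝ) * (N * L) ≤ Cq * (Y / L) * (N * L) :=
      mul_le_mul_of_nonneg_right hcard (by positivity)
    have h3 : Cq * (Y / L) * (N * L) = Cq * (Y * N) := by
      field_simp
    linarith
  have htot : ∑ Q ∈ QQ Y, |SQ N Q - m Q| ≤ ∑ Q ∈ QQ Y, |VQ P Q - m Q| +
      (2 * Real.sqrt ((∑ Q ∈ QQ Y, VQ P Q) * ∑ Q ∈ QQ Y, VQ (FW χ w N K) Q) +
        ∑ Q ∈ QQ Y, VQ (FW χ w N K) Q) := by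
    have h1 : ∑ Q ∈ QQ Y, |SQ N Q - m Q| ≤ ∑ Q ∈ QQ Y, |VQ P Q - m Q| +
        ∑ Q ∈ QQ Y, |VQ (fun t => P t + FW χ w N K t) Q - VQ P Q| := by
      rw [← sum_add_distrib]
      refine sum_le_sum fun Q hQ => ?_
      rw [hPs Q hQ]
      have h2 : VQ (fun t => P t + FW χ w N K t) Q - m Q =
          (VQ P Q - m Q) + (VQ (fun t => P t + FW χ w N K t) Q - VQ P Q) := by ring
      rw [h2]
      exact abs_add_le _ _
    linarith
  exact s18_num hκ1 hL1 hLκ hYR hN0 hNYκ ht0 ht1 hsN hCq hC8 hC12 hS1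
    (sum_nonneg fun Q _ => abs_nonneg _) hSF0 hF hSP0 hSP htot

end Pool.Agent.SZ

/-! ## Block S18g (helper15) -/

namespace Pool.Agent.SZ

open Finset Pool.Agent.Var35 Pool.Agent.Var73 Pool.Agent.PV Pool.Agent.FGP
open scoped ArithmeticFunction ArithmeticFunction.Moebius
open Filter Topology

open scoped Classical in
theorem s18g_ne {q₁ : ℕ} {χ : DirichletCharacter ℂ q₁} (hχ : Qd χ) : χ ≠ 1 :=
  (mem_filter.1 hχ.1).2.2

theorem s18g_beta {q₁ : ℕ} {χ : DirichletCharacter ℂ q₁} (hχ : Qd χ) {β : ℝ}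
    (hβ : GA.LF χ (β : ℂ) = 0) : β < 1 := by
  have : NeZero q₁ := ⟨by have := hχ.2.2; omega⟩
  have h1 : ((β : ℂ)).re < 1 := by
    by_contra h1
    exact GA.LF_ne_zero (s18g_ne hχ) (not_lt.1 h1) hβ
  rwa [Complex.ofReal_re] at h1

/-- facts for large `K` -/
theorem s18g_K (a b : ℝ) : ∃ K0 : ℕ, ∀ K ≥ K0, a ≤ Real.sqrt K ∧ b ≤ Real.log K := by
  have e1 : ∀ᶠ K : ℕ in atTop, a ≤ Real.sqrt K :=
    (Real.tendsto_sqrt_atTop.comp tendsto_natCast_atTop_atTop).eventually_ge_atTop a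
  have e2 : ∀ᶠ K : ℕ in atTop, b ≤ Real.log K :=
    (Real.tendsto_log_atTop.comp tendsto_natCast_atTop_atTop).eventually_ge_atTop b
  exact eventually_atTop.1 (e1.and e2)

/-- the square root of the energy -/
theorem s18g_sqrt {A E s κ : ℝ} (hA : 0 ≤ A) (hE : 0 ≤ E) (hs : 0 ≤ s) (hκ : 0 ≤ κ) :
    Real.sqrt (A * (E ^ 2 + s ^ 2 + κ ^ 2)) ≤ Real.sqrt A * (E + s + κ) := by
  rw [Real.sqrt_mul hA]
  apply mul_le_mul_of_nonneg_left _ (Real.sqrt_nonneg _)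
  apply Real.sqrt_le_iff.2
  refine ⟨by positivity, ?_⟩
  nlinarith [mul_nonneg hE hs, mul_nonneg hE hκ, mul_nonneg hs hκ]

theorem S18g_pr (h2 : Z2) (h18 : S18) : S18g := by
  obtain ⟨C₂, c₂, B₂, ε₂, hC₂, hc₂, hB₂, hε₂, K₂, hZ⟩ := h2
  obtain ⟨C₁, hC₁, hS⟩ := h18
  obtain ⟨A, hA⟩ : ∃ A : ℝ, A = Real.sqrt C₂ := ⟨_, rfl⟩
  have hA0 : 0 < A := by rw [hA]; exact Real.sqrt_pos.2 hC₂
  obtain ⟨B, hB⟩ : ∃ B : ℝ, B = max B₂ (Real.log (3 * C₂) / c₂) := ⟨_, rfl⟩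
  have hB1 : B₂ ≤ B := by rw [hB]; exact le_max_left _ _
  have hB2 : Real.log (3 * C₂) ≤ c₂ * B := by
    have h1 : Real.log (3 * C₂) / c₂ ≤ B := by rw [hB]; exact le_max_right _ _
    rw [div_le_iff₀ hc₂] at h1
    linarith
  refine ⟨C₁ * A, c₂ / 2, B, ε₂, by positivity, by positivity, hB₂.trans hB1, hε₂,
    fun η hη => ?_⟩
  obtain ⟨C', q₀, K₁, hS1⟩ := hS (η / 2) (by positivity)
  obtain ⟨K₃, hK₃⟩ := s18g_K (3 * C₂) (max 1 (max (3 * C₂ * ε₂ ^ 2) (2 * ε₂ * (C₁ * A) / η)))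
  refine ⟨C' + C₁ * A, q₀, max K₂ (max K₁ K₃), ?_⟩
  intro K hK N hRg hKB q₁ χ β hχ hq0 hqK hβ hβK Y hRY hYN
  have hK2 : K₂ ≤ K := (le_max_left _ _).trans hK
  have hK1 : K₁ ≤ K := ((le_max_left _ _).trans (le_max_right _ _)).trans hK
  have hK3 : K₃ ≤ K := ((le_max_right _ _).trans (le_max_right _ _)).trans hK
  obtain ⟨k1, k2⟩ := hK₃ K hK3
  have k3 : 1 ≤ Real.log K := (le_max_left _ _).trans k2
  have k4 : 3 * C₂ * ε₂ ^ 2 ≤ Real.log K :=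
    ((le_max_left _ _).trans (le_max_right _ _)).trans k2
  have k5 : 2 * ε₂ * (C₁ * A) / η ≤ Real.log K :=
    ((le_max_right _ _).trans (le_max_right _ _)).trans k2
  have hK10 : (10 : ℝ) ≤ K := by exact_mod_cast hRg.hK
  have hK0 : (0 : ℝ) < K := by linarith
  have hKN : (K : ℝ) ≤ N := by
    have h1 : (K : ℝ) ^ 400 ≤ N := by exact_mod_cast hRg.hN
    exact (le_self_pow₀ (by linarith) (by norm_num)).trans h1
  have hN0 : (0 : ℝ) < N := by linarith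
  have hlN : 1 ≤ Real.log N := k3.trans (Real.log_le_log hK0 hKN)
  have hlN0 : 0 < Real.log N := by linarith
  have hlK0 : 0 < Real.log K := by linarith
  -- the zero
  obtain ⟨κ, hκ⟩ : ∃ κ : ℝ, κ = 1 - β := ⟨_, rfl⟩
  have hκ0 : 0 ≤ κ := by
    have := s18g_beta hχ hβ
    rw [hκ]
    linarith
  have hκK : κ * Real.log K ≤ ε₂ := by rw [hκ]; exact hβK
  have hκ1 : κ ≤ ε₂ / Real.log K := by rwa [le_div_iff₀ hlK0]
  obtain ⟨w, hw⟩ : ∃ w : ℝ, w = (N : ℝ) ^ (β - 1) := ⟨_, rfl⟩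
  have hw0 : 0 ≤ w := by rw [hw]; exact Real.rpow_nonneg hN0.le _
  have hw1 : w ≤ 1 := by
    rw [hw]
    exact Real.rpow_le_one_of_one_le_of_nonpos (by linarith) (by linarith)
  -- the energy
  obtain ⟨E, hE⟩ : ∃ E : ℝ, E = Real.exp (-(c₂ / 2 * Real.log N / Real.log K)) := ⟨_, rfl⟩
  have hE0 : 0 < E := by rw [hE]; exact Real.exp_pos _
  have hE2 : Real.exp (-(c₂ * Real.log N / Real.log K)) = E ^ 2 := by
    rw [hE, ← Real.exp_nat_mul]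
    congr 1
    push_cast
    ring
  obtain ⟨s, hs⟩ : ∃ s : ℝ, s = 1 / Real.sqrt (Real.sqrt K) := ⟨_, rfl⟩
  have hsK0 : 0 < Real.sqrt K := Real.sqrt_pos.2 hK0
  have hssK0 : 0 < Real.sqrt (Real.sqrt K) := Real.sqrt_pos.2 hsK0
  have hs0 : 0 < s := by rw [hs]; positivity
  have hs2 : 1 / Real.sqrt K = s ^ 2 := by
    rw [hs, div_pow, one_pow, Real.sq_sqrt hsK0.le]
  have hEE := hZ K hK2 N hRg ((Real.rpow_le_rpow_of_exponent_le (by linarith) hB1).trans hKB)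
    q₁ χ β hχ hqK hβ hβK
  rw [← hw, hE2, hs2, ← hκ] at hEE
  have hEN : EEW χ w N K / N ≤ C₂ * (E ^ 2 + s ^ 2 + κ ^ 2) := by
    rw [div_le_iff₀ hN0]
    linarith
  have p1 : C₂ * E ^ 2 ≤ 1 / 3 := by
    rw [← hE2]
    have h1 : B * Real.log K ≤ Real.log N := by
      rw [← Real.log_rpow hK0]
      exact Real.log_le_log (Real.rpow_pos_of_pos hK0 _) hKB
    have h3 : c₂ * B ≤ c₂ * Real.log N / Real.log K := by
      rw [le_div_iff₀ hlK0]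
      calc c₂ * B * Real.log K = c₂ * (B * Real.log K) := by ring
        _ ≤ _ := by gcongr
    have h4 : Real.exp (-(c₂ * Real.log N / Real.log K)) ≤ Real.exp (-Real.log (3 * C₂)) := by
      apply Real.exp_le_exp.2
      linarith
    rw [Real.exp_neg (Real.log (3 * C₂)), Real.exp_log (by positivity)] at h4
    calc C₂ * Real.exp (-(c₂ * Real.log N / Real.log K)) ≤ C₂ * (3 * C₂)⁻¹ := by gcongr
      _ = 1 / 3 := by field_simp
  have p2 : C₂ * s ^ 2 ≤ 1 / 3 := by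
    rw [← hs2, mul_one_div, div_le_div_iff₀ hsK0 (by norm_num)]
    linarith
  have p3 : C₂ * κ ^ 2 ≤ 1 / 3 := by
    have h1 : κ ^ 2 ≤ (ε₂ / Real.log K) ^ 2 := by gcongr
    have h3 : C₂ * (ε₂ / Real.log K) ^ 2 ≤ 1 / 3 := by
      rw [div_pow, ← mul_div_assoc, div_le_div_iff₀ (by positivity) (by norm_num)]
      have h4 : Real.log K ≤ Real.log K ^ 2 := le_self_pow₀ k3 (by norm_num)
      linarith
    calc C₂ * κ ^ 2 ≤ C₂ * (ε₂ / Real.log K) ^ 2 := by gcongr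
      _ ≤ _ := h3
  have hENN : EEW χ w N K ≤ N := by
    have h1 : EEW χ w N K / N ≤ 1 := by
      refine hEN.trans ?_
      have : C₂ * (E ^ 2 + s ^ 2 + κ ^ 2) = C₂ * E ^ 2 + C₂ * s ^ 2 + C₂ * κ ^ 2 := by ring
      rw [this]
      linarith
    rwa [div_le_one hN0] at h1
  have hsq : Real.sqrt (EEW χ w N K / N) ≤ A * (E + s + κ) := by
    rw [hA]
    exact (Real.sqrt_le_sqrt hEN).trans (s18g_sqrt hC₂.le hE0.le hs0.le hκ0)
  have q1 : s * Real.log N ≤ 1 := by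
    have h1 : Real.log N ^ 4 ≤ K := by
      calc Real.log N ^ 4 ≤ Real.log N ^ 100 := pow_le_pow_right₀ hlN (by norm_num)
        _ ≤ K := hRg.hL
    have h3 : Real.log N ≤ Real.sqrt (Real.sqrt K) := by
      apply Real.le_sqrt_of_sq_le
      apply Real.le_sqrt_of_sq_le
      have h5 : (Real.log N ^ 2) ^ 2 = Real.log N ^ 4 := by ring
      rw [h5]
      exact h1
    rw [hs, one_div, inv_mul_le_iff₀ hssK0]
    linarith
  have q2 : C₁ * A * κ ≤ η / 2 := by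
    have h1 : C₁ * A * κ ≤ C₁ * A * (ε₂ / Real.log K) := by gcongr
    refine h1.trans ?_
    rw [div_le_iff₀ hη] at k5
    rw [← mul_div_assoc, div_le_div_iff₀ hlK0 (by norm_num)]
    linarith
  have hfin := hS1 K hK1 N hRg q₁ χ w hχ hw0 hw1 hq0 hqK hENN Y hRY hYN
  rw [← hw]
  refine hfin.trans ?_
  have hY0 : (0 : ℝ) ≤ Y := Nat.cast_nonneg _
  have hYl : 0 ≤ (Y : ℝ) / Real.log N := by positivity
  rw [← hE]
  apply mul_le_mul_of_nonneg_right _ hYl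
  apply mul_le_mul_of_nonneg_right _ hN0.le
  calc C₁ * Real.sqrt (EEW χ w N K / N) * Real.log N + η / 2 * Real.log N + C' ≤
      C₁ * (A * (E + s + κ)) * Real.log N + η / 2 * Real.log N + C' := by gcongr
    _ = C₁ * A * E * Real.log N + C₁ * A * (s * Real.log N) + C₁ * A * κ * Real.log N +
        η / 2 * Real.log N + C' := by ring
    _ ≤ C₁ * A * E * Real.log N + C₁ * A * 1 + η / 2 * Real.log N +
        η / 2 * Real.log N + C' := by gcongr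
    _ = _ := by ring

end Pool.Agent.SZ
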