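import Pool.Agent.Lib_helper59.SZ.W

/-!
# SZ: the dichotomy, from the blocks `F2 .. F5`
-/

set_option autoImplicit false

namespace Pool.Agent.SZ

open Finset Pool.Agent.Var35 Pool.Agent.Var73 Pool.Agent.PV Pool.Agent.FGP

/-- `BB` with a clean constant -/
def BBe (k : ℝ) : Prop := ∀ δ : ℝ, 0 < δ → δ ≤ k → ∃ X₀ : ℝ, ∀ X : ℝ, X₀ ≤ X →
  ∑ Q ∈ PP X δ, |V X Q - X * Real.log Q| ≤
    Real.exp (-(k / δ)) * (X * Real.log X) * (PP X δ).card

theorem fin_xlog {X : ℝ} (hX : 1 ≤ X) (n : ℕ) : 0 ≤ (X * Real.log X) * (n : ℝ) := by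
  have := Real.log_nonneg hX
  positivity

theorem fin_bb {c : ℝ} (hc : 0 < c) (h : BB c) : ∃ k : ℝ, 0 < k ∧ BBe k := by
  refine ⟨min (c / 2) (c ^ 2 / 2), lt_min (by positivity) (by positivity), fun δ hδ hδk => ?_⟩
  have h1 : δ ≤ c / 2 := hδk.trans (min_le_left _ _)
  have h2 : δ ≤ c ^ 2 / 2 := hδk.trans (min_le_right _ _)
  obtain ⟨X₀, hX₀⟩ := h δ hδ (by linarith)
  refine ⟨max X₀ 1, fun X hX => ?_⟩
  have hX1 : 1 ≤ X := (le_max_right _ _).trans hX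
  refine (hX₀ X ((le_max_left _ _).trans hX)).trans ?_
  have h3 : (1 / c) * Real.exp (-(c / δ)) ≤ Real.exp (-(min (c / 2) (c ^ 2 / 2) / δ)) := by
    have h4 : 1 / c ≤ Real.exp (c / 2 / δ) := by
      have h5 : 1 / c ≤ c / 2 / δ := by
        rw [div_le_div_iff₀ hc hδ]
        nlinarith
      have h6 := Real.add_one_le_exp (c / 2 / δ)
      linarith
    calc (1 / c) * Real.exp (-(c / δ)) ≤ Real.exp (c / 2 / δ) * Real.exp (-(c / δ)) :=
          mul_le_mul_of_nonneg_right h4 (Real.exp_pos _).le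
      _ = Real.exp (-(c / 2 / δ)) := by
          rw [← Real.exp_add]
          congr 1
          field_simp
          ring
      _ ≤ _ := by
          apply Real.exp_le_exp.2
          apply neg_le_neg
          exact div_le_div_of_nonneg_right (min_le_left _ _) hδ.le
  have h7 := fin_xlog hX1 (PP X δ).card
  calc (1 / c) * Real.exp (-(c / δ)) * (X * Real.log X) * (PP X δ).card =
      (1 / c) * Real.exp (-(c / δ)) * ((X * Real.log X) * (PP X δ).card) := by ring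
    _ ≤ Real.exp (-(min (c / 2) (c ^ 2 / 2) / δ)) * ((X * Real.log X) * (PP X δ).card) :=
        mul_le_mul_of_nonneg_right h3 h7
    _ = _ := by ring

theorem fin_bbe {k : ℝ} (hk : 0 < k) (h : BBe k) : ∃ c : ℝ, 0 < c ∧ BB c := by
  refine ⟨min k 1, lt_min hk one_pos, fun δ hδ hδk => ?_⟩
  obtain ⟨X₀, hX₀⟩ := h δ hδ (hδk.trans (min_le_left _ _))
  refine ⟨max X₀ 1, fun X hX => ?_⟩
  have hX1 : 1 ≤ X := (le_max_right _ _).trans hX
  refine (hX₀ X ((le_max_left _ _).trans hX)).trans ?_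
  have h3 : Real.exp (-(k / δ)) ≤ (1 / min k 1) * Real.exp (-(min k 1 / δ)) := by
    have h4 : 1 ≤ 1 / min k 1 := by
      rw [le_div_iff₀ (lt_min hk one_pos), one_mul]
      exact min_le_right _ _
    have h5 : Real.exp (-(k / δ)) ≤ Real.exp (-(min k 1 / δ)) := by
      apply Real.exp_le_exp.2
      apply neg_le_neg
      exact div_le_div_of_nonneg_right (min_le_left _ _) hδ.le
    have h6 := (Real.exp_pos (-(min k 1 / δ))).le
    nlinarith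
  have h7 := fin_xlog hX1 (PP X δ).card
  calc Real.exp (-(k / δ)) * (X * Real.log X) * (PP X δ).card =
      Real.exp (-(k / δ)) * ((X * Real.log X) * (PP X δ).card) := by ring
    _ ≤ (1 / min k 1) * Real.exp (-(min k 1 / δ)) * ((X * Real.log X) * (PP X δ).card) :=
        mul_le_mul_of_nonneg_right h3 h7
    _ = _ := by ring

theorem fin_dd {c c' δ : ℝ} (hcc : c ≤ c') (hδ : 0 < δ) (h : DD c' δ) : DD c δ := by
  intro X₀
  obtain ⟨X, hX, hS⟩ := h (max X₀ 1)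
  have hX1 : 1 ≤ X := (le_max_right _ _).trans hX
  refine ⟨X, (le_max_left _ _).trans hX, hS.trans ?_⟩
  have h7 := fin_xlog hX1 (PP X δ).card
  have h5 : Real.exp (-(c' / δ)) ≤ Real.exp (-(c / δ)) := by
    apply Real.exp_le_exp.2
    apply neg_le_neg
    exact div_le_div_of_nonneg_right hcc hδ.le
  calc Real.exp (-(c' / δ)) * (X * Real.log X) * (PP X δ).card =
      Real.exp (-(c' / δ)) * ((X * Real.log X) * (PP X δ).card) := by ring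
    _ ≤ Real.exp (-(c / δ)) * ((X * Real.log X) * (PP X δ).card) :=
        mul_le_mul_of_nonneg_right h5 h7
    _ = _ := by ring

/-- the dichotomy -/
theorem dichotomy (h2 : F2) (h3 : F3) (h4 : F4) (h5 : F5) : ∃ c δ₀ : ℝ, 0 < c ∧ 0 < δ₀ ∧
    (∀ δ : ℝ, 0 < δ → δ ≤ δ₀ → Real.exp (-(c / δ)) ≤ δ / 100) ∧
    ((∃ c₀ : ℝ, 0 < c₀ ∧ NS c₀) ↔ ∃ k : ℝ, 0 < k ∧ BBe k) ∧
    ((∃ c₀ : ℝ, 0 < c₀ ∧ NS c₀) ↔ ∃ δ : ℝ, 0 < δ ∧ δ ≤ δ₀ ∧ CC c δ) ∧
    ((¬ ∃ c₀ : ℝ, 0 < c₀ ∧ NS c₀) → ∀ δ : ℝ, 0 < δ → δ ≤ δ₀ → DD c δ) := by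
  obtain ⟨c', δ', hc', hδ', hδ1, hD⟩ := h4
  set c : ℝ := c' / 3 with hc
  have hc0 : 0 < c := by positivity
  have h2c : 2 * c < c' := by rw [hc]; linarith
  set δ₀ : ℝ := min δ' (c ^ 2 / 200) with hδ₀
  have hδ₀0 : 0 < δ₀ := lt_min hδ' (by positivity)
  -- the contradiction
  have key : ∀ δ : ℝ, 0 < δ → δ ≤ δ₀ → CC c δ → ∃ c₀ : ℝ, 0 < c₀ ∧ NS c₀ := by
    intro δ hδ hδδ hC
    by_contra hn
    have hδ2 : δ ≤ δ' := hδδ.trans (min_le_left _ _)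
    exact h5 c c' δ hc0 h2c hδ (by linarith) (hD hn δ hδ hδ2) hC
  have key2 : ∀ k : ℝ, 0 < k → BB k → ∃ δ : ℝ, 0 < δ ∧ δ ≤ δ₀ ∧ CC c δ := by
    intro k hk hB
    obtain ⟨δ₁, hδ₁, hC⟩ := h3 c k hc0 hk hB
    exact ⟨min δ₀ δ₁, lt_min hδ₀0 hδ₁, min_le_left _ _, hC _ (lt_min hδ₀0 hδ₁) (min_le_right _ _)⟩
  refine ⟨c, δ₀, hc0, hδ₀0, ?_, ⟨?_, ?_⟩, ⟨?_, ?_⟩, ?_⟩
  · intro δ hδ hδδ
    have h6 : δ ≤ c ^ 2 / 200 := hδδ.trans (min_le_right _ _)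
    have hx : 0 < c / δ := by positivity
    have h7 : (c / δ) ^ 2 / 2 ≤ Real.exp (c / δ) := by
      have := Real.quadratic_le_exp_of_nonneg hx.le
      linarith
    have h8 : 100 / δ ≤ Real.exp (c / δ) := by
      refine le_trans ?_ h7
      rw [div_pow, div_div, div_le_div_iff₀ hδ (by positivity)]
      nlinarith
    rw [Real.exp_neg, inv_eq_one_div, div_le_div_iff₀ (Real.exp_pos _) (by norm_num)]
    rw [div_le_iff₀ hδ] at h8
    linarith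
  · rintro ⟨c₀, hc₀, hN⟩
    obtain ⟨k, hk, hB⟩ := h2 c₀ hc₀ hN
    exact fin_bb hk hB
  · rintro ⟨k, hk, hB⟩
    obtain ⟨k', hk', hB'⟩ := fin_bbe hk hB
    obtain ⟨δ, hδ, hδδ, hC⟩ := key2 k' hk' hB'
    exact key δ hδ hδδ hC
  · rintro ⟨c₀, hc₀, hN⟩
    obtain ⟨k, hk, hB⟩ := h2 c₀ hc₀ hN
    exact key2 k hk hB
  · rintro ⟨δ, hδ, hδδ, hC⟩
    exact key δ hδ hδδ hC
  · intro hn δ hδ hδδ
    exact fin_dd (by rw [hc]; linarith) hδ (hD hn δ hδ (hδδ.trans (min_le_left _ _)))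

end Pool.Agent.SZ
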