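import Pool.Agent.Lib_helper59.SZ.W
import Pool.Agent.Lib_helper3.FGP.P08
import Pool.Agent.Lib_helper3.FGP.P12
import Pool.Agent.Lib_helper3.FGP.P16

/-!
# SZ: blocks S08, S12, S16 of sd_block
-/

set_option autoImplicit false

/-! ## Block S08 (helper87) -/

namespace Pool.Agent.SZ

open Finset Pool.Agent.Var35 Pool.Agent.Var73 Pool.Agent.PV Pool.Agent.FGP
open scoped ArithmeticFunction ArithmeticFunction.Moebius

/-! ### Cauchy -/

theorem s08_cauchy {q₁ : ℕ} (χ : DirichletCharacter ℂ q₁) (w : ℝ) (N K : ℕ) (t : ℝ) : ‖FW χ w N K t‖ ^ 2 ≤ Wt N K t *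
    ∑ r ∈ Icc 1 K, ∑ c ∈ Cd r, vh N K (t - c / r) ^ 2 * ‖XW χ w N c r t‖ ^ 2 := by
  set S := (Icc 1 K).sigma Cd with hS
  set f : (Σ _ : ℕ, ℕ) → ℝ := fun x => |vh N K (t - x.2 / x.1)| with hf
  set g : (Σ _ : ℕ, ℕ) → ℝ := fun x => |vh N K (t - x.2 / x.1)| * ‖XW χ w N x.2 x.1 t‖ with hg
  have h1 : ‖FW χ w N K t‖ ≤ ∑ x ∈ S, f x * g x := by
    unfold FW
    rw [hS, sum_sigma]
    refine (norm_sum_le _ _).trans (sum_le_sum fun r _ => (norm_sum_le _ _).trans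
      (sum_le_sum fun c _ => ?_))
    rw [norm_mul, Complex.norm_real, Real.norm_eq_abs, abs_pow, hf, hg]
    apply le_of_eq
    ring
  have h2 := sum_mul_sq_le_sq_mul_sq S f g
  have h3 : ∑ x ∈ S, f x ^ 2 = Wt N K t := by
    unfold Wt
    rw [hS, sum_sigma]
    refine sum_congr rfl fun r _ => sum_congr rfl fun c _ => ?_
    rw [hf]
    simp only
    rw [sq_abs]
  have h4 : ∑ x ∈ S, g x ^ 2 =
      ∑ r ∈ Icc 1 K, ∑ c ∈ Cd r, vh N K (t - c / r) ^ 2 * ‖XW χ w N c r t‖ ^ 2 := by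
    rw [hS, sum_sigma]
    refine sum_congr rfl fun r _ => sum_congr rfl fun c _ => ?_
    rw [hg]
    simp only
    rw [mul_pow, sq_abs]
  rw [h3, h4] at h2
  refine le_trans ?_ h2
  exact pow_le_pow_left₀ (norm_nonneg _) h1 2

/-! ### The mean square of `XW` -/

theorem s08_XW (h2 : G2) {q₁ : ℕ} {χ : DirichletCharacter ℂ q₁} {w : ℝ} (hχ : Qd χ) (hw0 : 0 ≤ w)
    (hw1 : w ≤ 1) {N M : ℕ} (hM : 4 * N < M) (c r : ℕ) (hr : 1 ≤ r) {L : ℝ} (hL1 : 1 ≤ L)
    (hL : Real.log N ≤ L) :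
    mean M (range M) (fun t => ‖XW χ w N c r t‖ ^ 2) ≤ 16 * N * L ^ 2 := by
  set b : ℕ → ℂ := fun n => (aS N n : ℂ) - Wc χ w c r * e (-(n * (c / r))) with hb
  have h1 : ∀ t, XW χ w N c r t = Bs b N t := by
    intro t
    unfold XW Ps In Bs
    rw [mul_sum, ← sum_sub_distrib]
    refine sum_congr rfl fun n _ => ?_
    rw [hb]
    simp only
    have h2 : e (n * (t - c / r)) = e (-(n * (c / r))) * e (n * t) := by
      rw [← p08_e]
      congr 1
      ring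
    rw [h2]
    ring
  unfold mean
  simp only [h1]
  rw [pars N M hM b]
  have h3 : ∀ n ∈ Icc 1 N, ‖b n‖ ^ 2 ≤ 16 * L ^ 2 := by
    intro n hn
    rw [mem_Icc] at hn
    obtain ⟨a1, a2⟩ := p08_aS hn.1 hn.2
    have h4 : ‖b n‖ ≤ L + 3 := by
      rw [hb]
      refine (norm_sub_le _ _).trans ?_
      rw [norm_mul, Complex.norm_real, Real.norm_of_nonneg a1, p08_en, mul_one]
      exact add_le_add (a2.trans hL) (((h2 q₁ χ hχ).2.2.2.2 c r hr).2 w hw0 hw1)
    calc ‖b n‖ ^ 2 ≤ (L + 3) ^ 2 := by gcongr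
      _ ≤ (4 * L) ^ 2 := by gcongr; linarith
      _ = 16 * L ^ 2 := by ring
  calc ∑ n ∈ Icc 1 N, ‖b n‖ ^ 2 ≤ ∑ n ∈ Icc 1 N, 16 * L ^ 2 := sum_le_sum h3
    _ = N * (16 * L ^ 2) := by rw [sum_const, Nat.card_Icc, nsmul_eq_mul, Nat.add_sub_cancel]
    _ = 16 * N * L ^ 2 := by ring

theorem S08_pr (h01 : W01) (h04 : W04) (h07 : S07) (h10 : W10) (hs : S10) (h2 : G2) : S08 := by
  obtain ⟨C1, hC1, K1, H1⟩ := h01
  obtain ⟨C4, hC4, K4, H4⟩ := h04
  obtain ⟨C7, hC7, K7, H7⟩ := h07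
  obtain ⟨K10, H10⟩ := h10
  obtain ⟨Cd', hCd, Nd, Hd⟩ := d_main (1 / 4) (by norm_num)
  refine ⟨2 * (Cd' * C7) + 2 * (C1 ^ 2 * 960), by positivity, max (max K1 K4) (max (max K7 K10) Nd),
    ?_⟩
  intro K hK N hR Y hRY q₁ χ w hχ hw0 hw1
  have hK1 : K1 ≤ K := (le_trans (le_max_left _ _) (le_max_left _ _)).trans hK
  have hK4 : K4 ≤ K := (le_trans (le_max_right _ _) (le_max_left _ _)).trans hK
  have hK7 : K7 ≤ K :=
    (le_trans (le_trans (le_max_left _ _) (le_max_left _ _)) (le_max_right _ _)).trans hK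
  have hK10 : K10 ≤ K :=
    (le_trans (le_trans (le_max_right _ _) (le_max_left _ _)) (le_max_right _ _)).trans hK
  have hNd : Nd ≤ K := (le_trans (le_max_right _ _) (le_max_right _ _)).trans hK
  obtain ⟨k10, k512, kKN, k200, k8, kY⟩ := p08_rng hR hRY
  have hN0 : (0 : ℝ) < N := by linarith
  have hN1 : 1 ≤ N := by
    have : (0 : ℝ) < N := hN0
    exact_mod_cast this
  have hKN : K ≤ N := by exact_mod_cast kKN
  have hK0 : (0 : ℝ) < K := by linarith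
  set L : ℝ := Real.log N with hL
  have hL1 : 1 ≤ L := by
    rw [hL, Real.le_log_iff_exp_le hN0]
    have := Real.exp_one_lt_d9
    linarith
  have hLK : L ^ 2 ≤ K := (pow_le_pow_right₀ hL1 (by norm_num)).trans hR.hL
  have hL2N : L ≤ Real.log ((2 * N : ℕ) : ℝ) := by
    rw [hL]
    apply Real.log_le_log hN0
    push_cast
    linarith
  obtain ⟨hw, -, -, -⟩ := H10 K hK10 N hR
  have hF := (hs q₁ χ w N K).2.1
  obtain ⟨b, hb⟩ := p08_bs (by positivity) hw hF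
  set M : ℕ := (4 * (2 * N) + 1) * (Nat.sqrt (2 * N)).factorial with hMdef
  have hgood : Good (2 * N) M := CSB_good (2 * N)
  have hM4 : 4 * (2 * N) < M := hgood.1
  have hM4' : 4 * N < M := by omega
  have hEE : 0 ≤ EEW χ w N K := by
    unfold EEW
    refine sum_nonneg fun n _ => ?_
    unfold EW
    exact add_nonneg (sum_nonneg fun q _ => sum_nonneg fun ψ _ => by positivity) (sq_nonneg _)
  -- the kernel
  set D : ℝ → ℝ := fun t => ∑ Q ∈ QQ Y, Ea (2 * N) Q t with hD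
  have hEa0 : ∀ Q t, 0 ≤ Ea (2 * N) Q t := by
    intro Q t
    unfold Ea
    positivity
  have hD0 : ∀ t, 0 ≤ D t := fun t => sum_nonneg fun Q _ => hEa0 Q t
  have hD1 : ∀ t, D t ≤ 30 * N * Y := by
    intro t
    have := p08_Ea (2 * N) Y (by omega) t
    push_cast at this
    calc D t ≤ 15 * (2 * N) * Y := this
      _ = 30 * N * Y := by ring
  -- reduction
  have step1 : ∑ Q ∈ QQ Y, VQ (FW χ w N K) Q ≤ mean M (range M) (fun t => ‖FW χ w N K t‖ ^ 2 * D t) := by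
    have e1 : ∀ Q ∈ QQ Y, VQ (FW χ w N K) Q ≤
        mean M (range M) (fun t => ‖FW χ w N K t‖ ^ 2 * Ea (2 * N) Q t) := by
      intro Q _
      rw [p08_var (by omega) hM4 b hb]
      refine p08_mean_le fun j _ => ?_
      exact mul_le_mul_of_nonneg_left (CSB_Eo_le _ _ _) (by positivity)
    refine (sum_le_sum e1).trans (le_of_eq ?_)
    unfold mean
    rw [← mul_sum, sum_comm]
    congr 1
    refine sum_congr rfl fun j _ => ?_
    simp only [hD]
    rw [mul_sum]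
  set Φ : ℝ := C1 ^ 2 * (K : ℝ) ^ 32 / (N : ℝ) ^ 2 * (30 * N * Y) with hΦ
  have hΦ0 : 0 ≤ Φ := by positivity
  -- the pointwise bound of a term
  have hterm : ∀ (t : ℝ) (r c : ℕ), r ∈ Icc 1 K → c ∈ Cd r →
      vh N K (t - c / r) ^ 2 * ‖XW χ w N c r t‖ ^ 2 * D t ≤
        Cd' * (Y / L) * (vh N K (t - c / r) ^ 2 * wt N Y r (t - c / r) * ‖XW χ w N c r t‖ ^ 2) +
        Φ * ‖XW χ w N c r t‖ ^ 2 := by
    intro t r c hr hc
    rw [mem_Icc] at hr
    have hcop : Nat.Coprime c r := (mem_filter.1 hc).2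
    have hr0 : (0 : ℝ) < r := by exact_mod_cast hr.1
    have hwt0 : 0 ≤ wt N Y r (t - c / r) := by
      unfold FGP.wt
      have := CSB_al_nonneg (2 * N) Y r (nn (t - c / r))
      have := CSB_ga_nonneg (2 * N) Y r (nn (t - c / r))
      linarith
    have hnn := p08_nn0 (t - c / r)
    rcases le_or_gt (nn (t - c / r) * Real.sqrt N) 1 with hn | hf
    · -- near
      obtain ⟨c1, c2, c3⟩ := p08_cond hR hRY hr.2 hnn hn
      set c' : ℤ := c + r * round (t - c / r) with hc'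
      have hc'r : t - (c' : ℝ) / r = (t - c / r) - round (t - c / r) := by
        rw [hc']
        push_cast
        field_simp
        ring
      have habs : |t - (c' : ℝ) / r| = nn (t - c / r) := by
        rw [hc'r]
        rfl
      have hcop' : IsCoprime c' (r : ℤ) := by
        rw [hc']
        have h5 : IsCoprime (c : ℤ) (r : ℤ) := Nat.isCoprime_iff_coprime.2 hcop
        exact (IsCoprime.add_mul_left_left_iff).2 h5
      have hd := Hd (2 * N) (by omega) Y c1 (by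
        have := hRY.hYN
        omega) t c' r hr.1 hcop' c2 (by rw [habs]; exact c3)
      have hal : al (2 * N) Y r (t - c' / r) = al (2 * N) Y r (nn (t - c / r)) := by
        unfold al
        rw [habs, abs_of_nonneg hnn]
      have hga : ga (2 * N) Y r (t - c' / r) = ga (2 * N) Y r (nn (t - c / r)) := by
        unfold ga
        rw [habs, abs_of_nonneg hnn]
      rw [hal, hga] at hd
      have hd' : D t ≤ Cd' * (Y / L) * wt N Y r (t - c / r) := by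
        refine hd.trans ?_
        change _ ≤ Cd' * (Y / L) * (1 + al (2 * N) Y r (nn (t - c / r)) +
          ga (2 * N) Y r (nn (t - c / r)))
        have := CSB_al_nonneg (2 * N) Y r (nn (t - c / r))
        have := CSB_ga_nonneg (2 * N) Y r (nn (t - c / r))
        gcongr
      calc vh N K (t - c / r) ^ 2 * ‖XW χ w N c r t‖ ^ 2 * D t
          ≤ vh N K (t - c / r) ^ 2 * ‖XW χ w N c r t‖ ^ 2 *
            (Cd' * (Y / L) * wt N Y r (t - c / r)) := by gcongr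
        _ = Cd' * (Y / L) * (vh N K (t - c / r) ^ 2 * wt N Y r (t - c / r) *
            ‖XW χ w N c r t‖ ^ 2) := by ring
        _ ≤ _ := le_add_of_nonneg_right (by positivity)
    · -- far
      have hv := (H1 K hK1 N hR).2.2.2.2 (t - c / r)
      have hH : Hw N K * nn (t - c / r) * Real.sqrt N ≥ N / (K : ℝ) ^ 8 := by
        unfold Hw
        calc (N : ℝ) / (K : ℝ) ^ 8 = (N : ℝ) / (K : ℝ) ^ 8 * 1 := (mul_one _).symm
          _ ≤ (N : ℝ) / (K : ℝ) ^ 8 * (nn (t - c / r) * Real.sqrt N) := by gcongr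
          _ = _ := by ring
      have hs0 : 0 < Real.sqrt N := Real.sqrt_pos.2 hN0
      have hs2 : Real.sqrt N ^ 2 = N := Real.sq_sqrt hN0.le
      have hHn : Real.sqrt N / (K : ℝ) ^ 8 ≤ Hw N K * nn (t - c / r) := by
        have h6 : (N : ℝ) / (K : ℝ) ^ 8 = Real.sqrt N / (K : ℝ) ^ 8 * Real.sqrt N := by
          rw [div_mul_eq_mul_div, ← pow_two, hs2]
        rw [h6] at hH
        exact le_of_mul_le_mul_right hH hs0
      have hvb : |vh N K (t - c / r)| ≤ C1 * (K : ℝ) ^ 16 / N := by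
        have h7 : (Real.sqrt N / (K : ℝ) ^ 8) ^ 2 ≤ (Hw N K * nn (t - c / r)) ^ 2 := by gcongr
        have h8 : (Real.sqrt N / (K : ℝ) ^ 8) ^ 2 = N / (K : ℝ) ^ 16 := by
          rw [div_pow, hs2, ← pow_mul]
        rw [h8] at h7
        have h9 : |vh N K (t - c / r)| * (N / (K : ℝ) ^ 16) ≤ C1 :=
          (mul_le_mul_of_nonneg_left h7 (abs_nonneg _)).trans hv
        rw [le_div_iff₀ hN0]
        rw [mul_div_assoc'] at h9
        rw [div_le_iff₀ (by positivity)] at h9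
        exact h9
      have hvb2 : vh N K (t - c / r) ^ 2 ≤ C1 ^ 2 * (K : ℝ) ^ 32 / (N : ℝ) ^ 2 := by
        rw [← sq_abs]
        calc |vh N K (t - c / r)| ^ 2 ≤ (C1 * (K : ℝ) ^ 16 / N) ^ 2 := by gcongr
          _ = C1 ^ 2 * (K : ℝ) ^ 32 / (N : ℝ) ^ 2 := by
            rw [div_pow, mul_pow, ← pow_mul]
      have hpos : 0 ≤ Cd' * (Y / L) * (vh N K (t - c / r) ^ 2 * wt N Y r (t - c / r) *
          ‖XW χ w N c r t‖ ^ 2) := by positivity
      calc vh N K (t - c / r) ^ 2 * ‖XW χ w N c r t‖ ^ 2 * D t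
          ≤ C1 ^ 2 * (K : ℝ) ^ 32 / (N : ℝ) ^ 2 * ‖XW χ w N c r t‖ ^ 2 * (30 * N * Y) := by
            gcongr
            · exact hD0 t
            · exact hD1 t
        _ = Φ * ‖XW χ w N c r t‖ ^ 2 := by rw [hΦ]; ring
        _ ≤ _ := le_add_of_nonneg_left hpos
  -- the pointwise bound
  have hpt : ∀ t, ‖FW χ w N K t‖ ^ 2 * D t ≤ 2 * (Cd' * (Y / L)) *
      (∑ r ∈ Icc 1 K, ∑ c ∈ Cd r, vh N K (t - c / r) ^ 2 * wt N Y r (t - c / r) *
        ‖XW χ w N c r t‖ ^ 2) + 2 * Φ * ∑ r ∈ Icc 1 K, ∑ c ∈ Cd r, ‖XW χ w N c r t‖ ^ 2 := by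
    intro t
    have h5 := s08_cauchy χ w N K t
    have h6 := (H4 K hK4 N hR).1 t
    have hS0 : 0 ≤ ∑ r ∈ Icc 1 K, ∑ c ∈ Cd r, vh N K (t - c / r) ^ 2 * ‖XW χ w N c r t‖ ^ 2 :=
      sum_nonneg fun r _ => sum_nonneg fun c _ => by positivity
    calc ‖FW χ w N K t‖ ^ 2 * D t ≤ (Wt N K t *
          ∑ r ∈ Icc 1 K, ∑ c ∈ Cd r, vh N K (t - c / r) ^ 2 * ‖XW χ w N c r t‖ ^ 2) * D t :=
          mul_le_mul_of_nonneg_right h5 (hD0 t)
      _ ≤ (2 * ∑ r ∈ Icc 1 K, ∑ c ∈ Cd r, vh N K (t - c / r) ^ 2 * ‖XW χ w N c r t‖ ^ 2) * D t := by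
          have := hD0 t
          gcongr
          exact h6.2
      _ = 2 * ∑ r ∈ Icc 1 K, ∑ c ∈ Cd r, vh N K (t - c / r) ^ 2 * ‖XW χ w N c r t‖ ^ 2 * D t := by
          rw [mul_assoc, sum_mul]
          congr 1
          refine sum_congr rfl fun r _ => ?_
          rw [sum_mul]
      _ ≤ 2 * ∑ r ∈ Icc 1 K, ∑ c ∈ Cd r,
          (Cd' * (Y / L) * (vh N K (t - c / r) ^ 2 * wt N Y r (t - c / r) * ‖XW χ w N c r t‖ ^ 2) +
        Φ * ‖XW χ w N c r t‖ ^ 2) := by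
          refine mul_le_mul_of_nonneg_left (sum_le_sum fun r hr => sum_le_sum fun c hc => ?_)
            (by norm_num)
          exact hterm t r c hr hc
      _ = _ := by
          simp only [sum_add_distrib, ← mul_sum]
          ring
  have h7 := H7 K hK7 N hR M hgood q₁ χ w hχ Y hRY.hY1 hRY.hYN
  -- the second mean
  have h8 : mean M (range M) (fun t => ∑ r ∈ Icc 1 K, ∑ c ∈ Cd r, ‖XW χ w N c r t‖ ^ 2) ≤
      (K : ℝ) ^ 2 * (16 * N * L ^ 2) := by
    have e1 : mean M (range M) (fun t => ∑ r ∈ Icc 1 K, ∑ c ∈ Cd r, ‖XW χ w N c r t‖ ^ 2) =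
        ∑ r ∈ Icc 1 K, ∑ c ∈ Cd r, mean M (range M) (fun t => ‖XW χ w N c r t‖ ^ 2) := by
      unfold mean
      rw [sum_comm, mul_sum]
      refine sum_congr rfl fun r _ => ?_
      rw [sum_comm, mul_sum]
    rw [e1]
    calc ∑ r ∈ Icc 1 K, ∑ c ∈ Cd r, mean M (range M) (fun t => ‖XW χ w N c r t‖ ^ 2)
        ≤ ∑ r ∈ Icc 1 K, ∑ c ∈ Cd r, (16 * N * L ^ 2) :=
          sum_le_sum fun r hr => sum_le_sum fun c _ =>
            s08_XW h2 hχ hw0 hw1 hM4' c r (mem_Icc.1 hr).1 hL1 le_rfl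
      _ ≤ ∑ r ∈ Icc 1 K, (K : ℝ) * (16 * N * L ^ 2) := by
          refine sum_le_sum fun r hr => ?_
          rw [sum_const, nsmul_eq_mul]
          have h9 : ((Cd r).card : ℝ) ≤ K := by
            have h10 : (Cd r).card ≤ r := by
              unfold Cd
              exact (card_filter_le _ _).trans (by rw [card_range])
            exact_mod_cast h10.trans (mem_Icc.1 hr).2
          gcongr
      _ = (K : ℝ) ^ 2 * (16 * N * L ^ 2) := by
          rw [sum_const, Nat.card_Icc, nsmul_eq_mul, Nat.add_sub_cancel]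
          ring
  have step2 : mean M (range M) (fun t => ‖FW χ w N K t‖ ^ 2 * D t) ≤
      2 * (Cd' * (Y / L)) * (C7 * L * EEW χ w N K) + 2 * Φ * ((K : ℝ) ^ 2 * (16 * N * L ^ 2)) := by
    refine (p08_mean_le (G := fun t => 2 * (Cd' * (Y / L)) *
      (∑ r ∈ Icc 1 K, ∑ c ∈ Cd r, vh N K (t - c / r) ^ 2 * wt N Y r (t - c / r) *
        ‖XW χ w N c r t‖ ^ 2) + 2 * Φ * ∑ r ∈ Icc 1 K, ∑ c ∈ Cd r, ‖XW χ w N c r t‖ ^ 2)
      fun j _ => hpt _).trans ?_
    have e2 : mean M (range M) (fun t => 2 * (Cd' * (Y / L)) *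
      (∑ r ∈ Icc 1 K, ∑ c ∈ Cd r, vh N K (t - c / r) ^ 2 * wt N Y r (t - c / r) *
        ‖XW χ w N c r t‖ ^ 2) + 2 * Φ * ∑ r ∈ Icc 1 K, ∑ c ∈ Cd r, ‖XW χ w N c r t‖ ^ 2) =
        2 * (Cd' * (Y / L)) * mean M (range M) (fun t => ∑ r ∈ Icc 1 K, ∑ c ∈ Cd r,
          vh N K (t - c / r) ^ 2 * wt N Y r (t - c / r) * ‖XW χ w N c r t‖ ^ 2) +
        2 * Φ * mean M (range M) (fun t => ∑ r ∈ Icc 1 K, ∑ c ∈ Cd r, ‖XW χ w N c r t‖ ^ 2) := by
      unfold mean
      rw [sum_add_distrib, ← mul_sum, ← mul_sum]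
      ring
    rw [e2]
    gcongr
  have hfin1 : 2 * (Cd' * (Y / L)) * (C7 * L * EEW χ w N K) = 2 * (Cd' * C7) * Y * EEW χ w N K := by
    field_simp
  have hfin2 : 2 * Φ * ((K : ℝ) ^ 2 * (16 * N * L ^ 2)) ≤ 2 * (C1 ^ 2 * 960) * Y * Real.sqrt N := by
    have e3 : 2 * Φ * ((K : ℝ) ^ 2 * (16 * N * L ^ 2)) =
        2 * (C1 ^ 2 * 480) * Y * ((K : ℝ) ^ 34 * L ^ 2) := by
      rw [hΦ]
      field_simp
      ring
    rw [e3]
    have e4 : (K : ℝ) ^ 34 * L ^ 2 ≤ Real.sqrt N := by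
      calc (K : ℝ) ^ 34 * L ^ 2 ≤ (K : ℝ) ^ 34 * K := by gcongr
        _ = (K : ℝ) ^ 35 := by ring
        _ ≤ (K : ℝ) ^ 200 := pow_le_pow_right₀ (by linarith) (by norm_num)
        _ ≤ Real.sqrt N := k200
    calc 2 * (C1 ^ 2 * 480) * Y * ((K : ℝ) ^ 34 * L ^ 2) ≤
        2 * (C1 ^ 2 * 480) * Y * Real.sqrt N := by gcongr
      _ ≤ 2 * (C1 ^ 2 * 960) * Y * Real.sqrt N := by gcongr; norm_num
  refine (step1.trans step2).trans ?_
  rw [hfin1]
  have hY0 : (0 : ℝ) ≤ Y := Nat.cast_nonneg _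
  have hs0 := Real.sqrt_nonneg (N : ℝ)
  have g1 : 0 ≤ 2 * (C1 ^ 2 * 960) * Y * EEW χ w N K := by positivity
  have g2 : 0 ≤ 2 * (Cd' * C7) * Y * Real.sqrt N := by positivity
  calc 2 * (Cd' * C7) * Y * EEW χ w N K + 2 * Φ * ((K : ℝ) ^ 2 * (16 * N * L ^ 2))
      ≤ 2 * (Cd' * C7) * Y * EEW χ w N K + 2 * (C1 ^ 2 * 960) * Y * Real.sqrt N := by linarith
    _ ≤ (2 * (Cd' * C7) + 2 * (C1 ^ 2 * 960)) * Y * (EEW χ w N K + Real.sqrt N) := by
      have : (2 * (Cd' * C7) + 2 * (C1 ^ 2 * 960)) * Y * (EEW χ w N K + Real.sqrt N) =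
          2 * (Cd' * C7) * Y * EEW χ w N K + 2 * (C1 ^ 2 * 960) * Y * Real.sqrt N +
          2 * (C1 ^ 2 * 960) * Y * EEW χ w N K + 2 * (Cd' * C7) * Y * Real.sqrt N := by ring
      linarith

end Pool.Agent.SZ

/-! ## Block S12 (helper13) -/

namespace Pool.Agent.SZ

open Finset Pool.Agent.Var35 Pool.Agent.Var73 Pool.Agent.PV Pool.Agent.FGP
open scoped ArithmeticFunction ArithmeticFunction.Moebius

theorem S12_pr (h04 : W04) (h05 : W05) (h07b : S07b) (h10 : W10) (hs10 : S10) (h11 : W11) :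
    S12 := by
  obtain ⟨C4, hC4, K4, hK4⟩ := h04
  obtain ⟨C5, hC5, K5, hK5⟩ := h05
  obtain ⟨C7, hC7, K7, hK7⟩ := h07b
  obtain ⟨K10, hK10⟩ := h10
  obtain ⟨N1, hN1⟩ := a2_asym 1 one_pos
  set C' : ℝ := 100 + 24 * C7 with hC'
  refine ⟨2 * Real.sqrt C' * C5, by positivity, max (max K4 K5) (max (max K7 K10) N1), ?_⟩
  intro K hK N hR M hG Y hY q₁ χ w hχ _ _ hEE
  have hKa : K4 ≤ K := le_trans (le_trans (le_max_left _ _) (le_max_left _ _)) hK
  have hKb : K5 ≤ K := le_trans (le_trans (le_max_right _ _) (le_max_left _ _)) hK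
  have hKc : K7 ≤ K :=
    le_trans (le_trans (le_trans (le_max_left _ _) (le_max_left _ _)) (le_max_right _ _)) hK
  have hKd : K10 ≤ K :=
    le_trans (le_trans (le_trans (le_max_right _ _) (le_max_left _ _)) (le_max_right _ _)) hK
  have hKe : N1 ≤ K := le_trans (le_trans (le_max_right _ _) (le_max_right _ _)) hK
  have hKN : K ≤ N := le_trans (Nat.le_self_pow (by norm_num) K) hR.hN
  have hN10 : 10 ≤ N := hR.hK.trans hKN
  have hNr : (0 : ℝ) < N := by positivity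
  set L : ℝ := Real.log N with hL
  have hL0 : 0 ≤ L := Real.log_nonneg (by exact_mod_cast (by omega : 1 ≤ N))
  have hM8 : 4 * (2 * N) < M := hG.1
  have hA2 : A2 N ≤ 2 * (N * L) := by
    have := hN1 N (hKe.trans hKN)
    rw [abs_le] at this
    linarith [this.2]
  have hP : ms M (Ps N) = A2 N := CSA_pars N M (by omega)
  obtain ⟨hW, -⟩ := hK4 K hKa N hR
  have hsup := hK5 K hKb N hR M hG
  have hF := hK7 K hKc N hR M hG q₁ χ w hχ
  obtain ⟨hMw, hf, -, -⟩ := hK10 K hKd N hR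
  obtain ⟨hg, -, hdec⟩ := hs10 q₁ χ w N K
  set S : ℝ := C5 * (N / Real.sqrt K) * (1 + L) ^ 6 with hS
  have hS0 : 0 ≤ S := by positivity
  -- mean squares
  have hfP : ∀ t, ‖fh N K t‖ ≤ ‖Ps N t‖ := by
    intro t
    unfold fh
    rw [norm_mul, Complex.norm_real, Real.norm_eq_abs]
    have h1 : |1 - Wt N K t| ≤ 1 := by
      rw [abs_le]; constructor <;> linarith [(hW t).1, (hW t).2]
    exact mul_le_of_le_one_right (norm_nonneg _) h1
  have hmf : ms M (fh N K) ≤ 2 * (N * L) := by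
    refine le_trans ?_ hA2
    rw [← hP]
    exact p12_mean_mono M _ _ fun j _ => pow_le_pow_left₀ (norm_nonneg _) (hfP _) 2
  have hmF : ms M (FW χ w N K) ≤ C7 * (N * L) := by
    refine hF.trans ?_
    calc C7 * Real.log N * EEW χ w N K ≤ C7 * Real.log N * N :=
          mul_le_mul_of_nonneg_left hEE (by positivity)
      _ = C7 * (N * L) := by rw [hL]; ring
  have hmg : ms M (gW χ w N K) ≤ (12 + 3 * C7) * (N * L) := by
    have h1 : ms M (gW χ w N K) ≤ 3 * (ms M (Ps N) + ms M (fh N K) + ms M (FW χ w N K)) := by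
      have h2 : ms M (gW χ w N K) ≤ mean M (range M)
          (fun t => 3 * (‖Ps N t‖ ^ 2 + ‖fh N K t‖ ^ 2 + ‖FW χ w N K t‖ ^ 2)) := by
        refine p12_mean_mono M _ _ fun j _ => ?_
        have h3 : gW χ w N K ((j : ℝ) / M) =
            Ps N (j / M) - fh N K (j / M) - FW χ w N K (j / M) := by
          rw [hdec]; ring
        rw [h3]
        exact p12_norm3 _ _ _
      refine h2.trans (le_of_eq ?_)
      unfold ms mean
      rw [← mul_sum, sum_add_distrib, sum_add_distrib]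
      ring
    rw [hP] at h1
    linarith
  -- the polynomial
  set Φ : ℝ → ℝ := fun t => ‖fh N K t + gW χ w N K t‖ ^ 2 - ‖gW χ w N K t‖ ^ 2 with hΦ
  have hTP : TP (-((2 * N : ℕ) : ℤ)) ((2 * N : ℕ) : ℤ) (fun t => (Φ t : ℂ)) := by
    have h1 := p12_sq _ _ (2 * N) _ (p12_add _ _ _ _ hf hg) (by push_cast; omega)
    have h2 := p12_sq _ _ (2 * N) _ hg (by push_cast; omega)
    have h3 := p12_sub _ _ _ _ h1 h2
    have h4 : (fun t => (Φ t : ℂ)) = fun t => (((‖fh N K t + gW χ w N K t‖ ^ 2 : ℝ) : ℂ) -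
        ((‖gW χ w N K t‖ ^ 2 : ℝ) : ℂ)) := by
      funext t
      rw [hΦ]
      push_cast
      rfl
    rw [h4]
    exact h3
  have h12 := h11 (2 * N) Y M Φ (by omega) (p12_Y N K Y hR hY) hM8 hTP
  have hlin : ∀ Q : ℕ, (VA (fun t => fh N K t + gW χ w N K t) Q - VA (gW χ w N K) Q) -
      (ms M (fun t => fh N K t + gW χ w N K t) - ms M (gW χ w N K)) =
      (1 / (Q : ℝ)) * ∑ b ∈ range Q, Φ (b / Q) - mean M (range M) Φ := by
    intro Q
    unfold VA ms mean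
    simp only [hΦ]
    rw [sum_sub_distrib, sum_sub_distrib]
    ring
  rw [sum_congr rfl fun Q _ => congrArg abs (hlin Q)]
  refine h12.trans ?_
  have hmΦ : mean M (range M) (fun t => Φ t ^ 2) ≤ S ^ 2 * (C' * (N * L)) := by
    have h1 : mean M (range M) (fun t => Φ t ^ 2) ≤ mean M (range M)
        (fun t => S ^ 2 * (2 * ‖fh N K t‖ ^ 2 + 8 * ‖gW χ w N K t‖ ^ 2)) := by
      refine p12_mean_mono M _ _ fun j hj => ?_
      exact p12_pt _ _ S (hsup j hj)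
    have h2 : mean M (range M)
        (fun t => S ^ 2 * (2 * ‖fh N K t‖ ^ 2 + 8 * ‖gW χ w N K t‖ ^ 2)) =
        S ^ 2 * (2 * ms M (fh N K) + 8 * ms M (gW χ w N K)) := by
      unfold ms mean
      rw [← mul_sum, sum_add_distrib, ← mul_sum, ← mul_sum]
      ring
    rw [h2] at h1
    refine h1.trans (mul_le_mul_of_nonneg_left ?_ (sq_nonneg S))
    rw [hC']
    linarith
  have hs1 : Real.sqrt (2 * ((2 * N : ℕ) : ℝ)) = 2 * Real.sqrt N := by
    rw [show (2 * ((2 * N : ℕ) : ℝ)) = 2 ^ 2 * (N : ℝ) by push_cast; ring,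
      Real.sqrt_mul (by norm_num), Real.sqrt_sq (by norm_num)]
  have hs2 : Real.sqrt (mean M (range M) (fun t => Φ t ^ 2)) ≤
      S * (Real.sqrt C' * (Real.sqrt N * (1 + L))) := by
    refine (Real.sqrt_le_sqrt hmΦ).trans ?_
    rw [Real.sqrt_mul (sq_nonneg S), Real.sqrt_sq hS0]
    refine mul_le_mul_of_nonneg_left ?_ hS0
    rw [Real.sqrt_mul (by positivity), Real.sqrt_mul hNr.le]
    refine mul_le_mul_of_nonneg_left (mul_le_mul_of_nonneg_left ?_ (Real.sqrt_nonneg _))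
      (Real.sqrt_nonneg _)
    refine Real.sqrt_le_iff.2 ⟨by positivity, ?_⟩
    nlinarith
  rw [hs1]
  calc 2 * Real.sqrt N * Real.sqrt (mean M (range M) (fun t => Φ t ^ 2))
      ≤ 2 * Real.sqrt N * (S * (Real.sqrt C' * (Real.sqrt N * (1 + L)))) :=
        mul_le_mul_of_nonneg_left hs2 (by positivity)
    _ = (Real.sqrt N * Real.sqrt N) * (2 * Real.sqrt C' * S * (1 + L)) := by ring
    _ = N * (2 * Real.sqrt C' * S * (1 + L)) := by rw [Real.mul_self_sqrt hNr.le]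
    _ = 2 * Real.sqrt C' * C5 * ((N : ℝ) ^ 2 / Real.sqrt K) * (1 + L) ^ 7 := by
        rw [hS]; ring

end Pool.Agent.SZ

/-! ## Block S16 (helper97) -/

namespace Pool.Agent.SZ

open Finset Pool.Agent.Var35 Pool.Agent.Var73 Pool.Agent.PV Pool.Agent.FGP
open scoped ArithmeticFunction ArithmeticFunction.Moebius

/-- `Ps = fh + gW + FW` -/
theorem s16_dec {q₁ : ℕ} (χ : DirichletCharacter ℂ q₁) (w : ℝ) (N K : ℕ) (t : ℝ) :
    Ps N t = fh N K t + gW χ w N K t + FW χ w N K t := by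
  have h1 : FW χ w N K t = ((Wt N K t : ℝ) : ℂ) * Ps N t - gW χ w N K t := by
    unfold FW gW Wt XW
    push_cast
    rw [sum_mul, ← sum_sub_distrib]
    refine sum_congr rfl fun r _ => ?_
    rw [sum_mul, ← sum_sub_distrib]
    refine sum_congr rfl fun c _ => ?_
    ring
  rw [h1]
  unfold fh
  push_cast
  ring

theorem s16_EEW_nonneg {q₁ : ℕ} (χ : DirichletCharacter ℂ q₁) (w : ℝ) (N K : ℕ) :
    0 ≤ EEW χ w N K := by
  unfold EEW EW
  exact sum_nonneg fun n _ => add_nonneg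
    (sum_nonneg fun q _ => sum_nonneg fun ψ _ => sq_nonneg _) (sq_nonneg _)

theorem s16_ms (h7 : S07b) : ∃ C : ℝ, 0 < C ∧ ∃ K0 : ℕ, ∀ K ≥ K0, ∀ N, Rg K N → ∀ M, Good (2 * N) M →
    ∀ (q₁ : ℕ) (χ : DirichletCharacter ℂ q₁) (w : ℝ), Qd χ → 0 ≤ w → w ≤ 1 → EEW χ w N K ≤ N →
    |ms M (fun t => fh N K t + gW χ w N K t) - A2 N| ≤
      C * Real.log N * Real.sqrt (N * EEW χ w N K) := by
  obtain ⟨C, hC, K0, hK0⟩ := h7
  refine ⟨2 * Real.sqrt (2 * C) + C, by positivity, max K0 10, ?_⟩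
  intro K hK N hR M hG q₁ χ w hq hw0 hw1 hEE
  have hK' : K0 ≤ K := le_trans (le_max_left _ _) hK
  have hN1 : 3 ≤ N := by
    have h10 : 10 ≤ K := hR.hK
    calc 3 ≤ 10 := by norm_num
      _ ≤ K := h10
      _ ≤ K ^ 400 := Nat.le_self_pow (by norm_num) K
      _ ≤ N := hR.hN
  set L : ℝ := Real.log N with hL
  have hL1 : 1 ≤ L := by
    rw [hL, Real.le_log_iff_exp_le (by positivity)]
    have h3 : (3 : ℝ) ≤ N := by exact_mod_cast hN1
    linarith [Real.exp_one_lt_d9]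
  have hE0 := s16_EEW_nonneg χ w N K
  have hNr : (0 : ℝ) ≤ N := by positivity
  have hF := hK0 K hK' N hR M hG q₁ χ w hq
  have hM4 : 4 * N < M := by have := hG.1; omega
  have hP : ms M (Ps N) = A2 N := CSA_pars N M hM4
  have hdec : ∀ t, fh N K t + gW χ w N K t = Ps N t - FW χ w N K t := fun t => by
    rw [s16_dec χ w N K t]; ring
  have hFnn : 0 ≤ ms M (FW χ w N K) := by
    unfold ms mean
    exact mul_nonneg (by positivity) (sum_nonneg fun _ _ => sq_nonneg _)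
  have key : |ms M (fun t => fh N K t + gW χ w N K t) - ms M (Ps N)| ≤
      2 * mean M (range M) (fun t => ‖Ps N t‖ * ‖FW χ w N K t‖) + ms M (FW χ w N K) := by
    simp_rw [hdec]
    unfold ms mean
    rw [← mul_sub, ← sum_sub_distrib, abs_mul, abs_of_nonneg (by positivity : (0:ℝ) ≤ 1 / (M : ℝ))]
    calc 1 / (M : ℝ) * |∑ j ∈ range M, (‖Ps N (j / M) - FW χ w N K (j / M)‖ ^ 2 -
            ‖Ps N (j / M)‖ ^ 2)|
        ≤ 1 / (M : ℝ) * ∑ j ∈ range M, (2 * (‖Ps N (j / M)‖ * ‖FW χ w N K (j / M)‖) +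
          ‖FW χ w N K (j / M)‖ ^ 2) := by
          refine mul_le_mul_of_nonneg_left ?_ (by positivity)
          exact (abs_sum_le_sum_abs _ _).trans (sum_le_sum fun j _ => p16_pt _ _)
      _ = _ := by
          rw [sum_add_distrib, ← mul_sum]
          ring
  rw [← hP]
  refine key.trans ?_
  have hcs := p16_cs M (Ps N) (FW χ w N K)
  have hs1 : Real.sqrt (ms M (Ps N) * ms M (FW χ w N K)) ≤
      Real.sqrt (2 * C) * (L * Real.sqrt (N * EEW χ w N K)) := by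
    rw [hP]
    have hA : A2 N ≤ 2 * (N * L) := p16_A2 N (by omega)
    have hA0 := CSA_A2_nonneg N
    have : A2 N * ms M (FW χ w N K) ≤ (2 * C) * (L ^ 2 * (N * EEW χ w N K)) := by
      calc A2 N * ms M (FW χ w N K) ≤ (2 * (N * L)) * (C * L * EEW χ w N K) :=
            mul_le_mul hA hF hFnn (by positivity)
        _ = _ := by ring
    calc Real.sqrt (A2 N * ms M (FW χ w N K)) ≤
          Real.sqrt ((2 * C) * (L ^ 2 * (N * EEW χ w N K))) :=
          Real.sqrt_le_sqrt this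
      _ = Real.sqrt (2 * C) * (L * Real.sqrt (N * EEW χ w N K)) := by
          rw [Real.sqrt_mul (by positivity : (0 : ℝ) ≤ 2 * C), Real.sqrt_mul (sq_nonneg L),
            Real.sqrt_sq (by linarith)]
  have hs2 : EEW χ w N K ≤ Real.sqrt (N * EEW χ w N K) := by
    refine Real.le_sqrt_of_sq_le ?_
    nlinarith
  have hs3 : ms M (FW χ w N K) ≤ C * (L * Real.sqrt (N * EEW χ w N K)) := by
    calc ms M (FW χ w N K) ≤ C * L * EEW χ w N K := hF
      _ ≤ C * L * Real.sqrt (N * EEW χ w N K) := mul_le_mul_of_nonneg_left hs2 (by positivity)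
      _ = _ := by ring
  calc 2 * mean M (range M) (fun t => ‖Ps N t‖ * ‖FW χ w N K t‖) + ms M (FW χ w N K)
      ≤ 2 * (Real.sqrt (2 * C) * (L * Real.sqrt (N * EEW χ w N K))) +
        C * (L * Real.sqrt (N * EEW χ w N K)) := by linarith [hcs.trans hs1]
    _ = (2 * Real.sqrt (2 * C) + C) * L * Real.sqrt (N * EEW χ w N K) := by ring

/-! ## The value at zero -/

/-- the exceptional term is absent at the denominator `1` -/
theorem s16_Wc_one {q₁ : ℕ} (χ : DirichletCharacter ℂ q₁) (w : ℝ) (c : ℕ) (h3 : 3 ≤ q₁) :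
    Wc χ w c 1 = 1 := by
  have hx : xi χ c 1 = 0 := by
    unfold xi
    rw [if_neg]
    rintro ⟨h, -⟩
    have := Nat.le_of_dvd (by norm_num) h
    omega
  unfold Wc
  rw [hx]
  simp [mr]

theorem s16_zero (h1 : W01) (h2 : G2) : ∃ C : ℝ, 0 < C ∧ ∃ K0 : ℕ, ∀ K ≥ K0, ∀ N, Rg K N →
    ∀ (q₁ : ℕ) (χ : DirichletCharacter ℂ q₁) (w : ℝ), Qd χ → 0 ≤ w → w ≤ 1 →
    |‖fh N K 0 + gW χ w N K 0‖ ^ 2 - (N : ℝ) ^ 2| ≤ C * (N : ℝ) ^ 2 / (K : ℝ) ^ 10 := by
  obtain ⟨C, hC, K0, hK0⟩ := h1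
  -- all the other fractions contribute at most `3 δ` each
  refine ⟨(9 * C ^ 2) * (2 + 9 * C ^ 2), by positivity, max K0 10, ?_⟩
  intro K hK N hR q₁ χ w hq hw0 hw1
  obtain ⟨-, -, hq3, -, hWc⟩ := h2 q₁ χ hq
  have hK' : K0 ≤ K := le_trans (le_max_left _ _) hK
  obtain ⟨-, hsum, hvle, -, hdec⟩ := hK0 K hK' N hR
  have h10 : 10 ≤ K := hR.hK
  have hKr : (10 : ℝ) ≤ K := by exact_mod_cast h10
  have hK0' : (0 : ℝ) < K := by linarith
  have hNr : (K : ℝ) ^ 400 ≤ N := by exact_mod_cast hR.hN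
  have hN0 : (0 : ℝ) ≤ N := by positivity
  have hH : (K : ℝ) ^ 392 ≤ Hw N K := by
    unfold Hw
    rw [le_div_iff₀ (by positivity)]
    calc (K : ℝ) ^ 392 * (K : ℝ) ^ 8 = (K : ℝ) ^ 400 := by ring
      _ ≤ (N : ℝ) := hNr
  have hv0 : vh N K 0 = 1 := by
    unfold vh
    rw [← hsum]
    refine sum_congr rfl fun m _ => ?_
    simp
  -- the other fractions
  have hother : ∀ r ∈ Icc 1 K, r ≠ 1 → ∀ c ∈ Cd r,
      vh N K (0 - c / r) ^ 2 ≤ C ^ 2 / (K : ℝ) ^ 20 := by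
    intro r hr h0 c hc
    rw [mem_Icc] at hr
    have h2 := p16_nn K r c hr.1 hr.2 hc h0
    have h3 := hdec (0 - c / r)
    have h5 : (K : ℝ) ^ 5 ≤ Hw N K * nn (0 - c / r) := by
      calc (K : ℝ) ^ 5 ≤ (K : ℝ) ^ 391 := pow_le_pow_right₀ (by linarith) (by norm_num)
        _ = (K : ℝ) ^ 392 * (1 / (K : ℝ)) := by field_simp
        _ ≤ Hw N K * nn (0 - c / r) := mul_le_mul hH h2 (by positivity) (by
            unfold Hw; positivity)
    have h6 : (K : ℝ) ^ 10 ≤ (Hw N K * nn (0 - c / r)) ^ 2 := by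
      calc (K : ℝ) ^ 10 = ((K : ℝ) ^ 5) ^ 2 := by ring
        _ ≤ _ := pow_le_pow_left₀ (by positivity) h5 2
    have h7 : |vh N K (0 - c / r)| * (K : ℝ) ^ 10 ≤ C :=
      (mul_le_mul_of_nonneg_left h6 (abs_nonneg _)).trans h3
    have h8 : |vh N K (0 - c / r)| ≤ C / (K : ℝ) ^ 10 := by
      rw [le_div_iff₀ (by positivity)]
      exact h7
    calc vh N K (0 - c / r) ^ 2 = |vh N K (0 - c / r)| ^ 2 := (sq_abs _).symm
      _ ≤ (C / (K : ℝ) ^ 10) ^ 2 := pow_le_pow_left₀ (abs_nonneg _) h8 2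
      _ = C ^ 2 / (K : ℝ) ^ 20 := by rw [div_pow]; ring
  -- the sums
  have hCd1 : Cd 1 = {0} := by
    unfold Cd
    decide
  have h1mem : 1 ∈ Icc 1 K := by rw [mem_Icc]; omega
  have hcount : ∀ r ∈ (Icc 1 K).erase 1, ((Cd r).card : ℝ) ≤ K := by
    intro r hr
    rw [mem_erase, mem_Icc] at hr
    rw [card_Cd]
    exact_mod_cast (Nat.totient_le r).trans hr.2.2
  set δ : ℝ := C ^ 2 / (K : ℝ) ^ 20 with hδ
  have hδ0 : 0 ≤ δ := by positivity
  have hW : Wt N K 0 = 1 + ∑ r ∈ (Icc 1 K).erase 1, ∑ c ∈ Cd r, vh N K (0 - c / r) ^ 2 := by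
    unfold Wt
    rw [← add_sum_erase _ _ h1mem, hCd1]
    simp [hv0]
  have hW2 : |1 - Wt N K 0| ≤ K ^ 2 * δ := by
    rw [hW]
    have e1 : (1 : ℝ) - (1 + ∑ r ∈ (Icc 1 K).erase 1, ∑ c ∈ Cd r, vh N K (0 - c / r) ^ 2) =
        -∑ r ∈ (Icc 1 K).erase 1, ∑ c ∈ Cd r, vh N K (0 - c / r) ^ 2 := by ring
    rw [e1, abs_neg, abs_of_nonneg (sum_nonneg fun _ _ => sum_nonneg fun _ _ => sq_nonneg _)]
    calc ∑ r ∈ (Icc 1 K).erase 1, ∑ c ∈ Cd r, vh N K (0 - c / r) ^ 2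
        ≤ ∑ r ∈ (Icc 1 K).erase 1, (K : ℝ) * δ := by
          refine sum_le_sum fun r hr => ?_
          have hr' := hr
          rw [mem_erase] at hr'
          calc ∑ c ∈ Cd r, vh N K (0 - c / r) ^ 2 ≤ ∑ c ∈ Cd r, δ :=
                sum_le_sum fun c hc => hother r hr'.2 hr'.1 c hc
            _ = (Cd r).card * δ := by rw [sum_const, nsmul_eq_mul]
            _ ≤ K * δ := mul_le_mul_of_nonneg_right (hcount r hr) hδ0
      _ = (((Icc 1 K).erase 1).card : ℝ) * (K * δ) := by rw [sum_const, nsmul_eq_mul]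
      _ ≤ K * (K * δ) := by
          refine mul_le_mul_of_nonneg_right ?_ (by positivity)
          rw [card_erase_of_mem h1mem, Nat.card_Icc]
          exact_mod_cast (by omega : K + 1 - 1 - 1 ≤ K)
      _ = K ^ 2 * δ := by ring
  have hg : ‖gW χ w N K 0 - N‖ ≤ 3 * (K ^ 2 * δ * N) := by
    have e1 : gW χ w N K 0 - N = ∑ r ∈ (Icc 1 K).erase 1, ∑ c ∈ Cd r,
        ((vh N K (0 - c / r) ^ 2 : ℝ) : ℂ) * (Wc χ w c r * In N (0 - c / r)) := by
      unfold gW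
      rw [← add_sum_erase _ _ h1mem, hCd1]
      have hm1 : Wc χ w 0 1 = 1 := s16_Wc_one χ w 0 hq3
      simp [hv0, hm1, p16_e_zero_sum]
    rw [e1]
    calc ‖∑ r ∈ (Icc 1 K).erase 1, ∑ c ∈ Cd r,
        ((vh N K (0 - c / r) ^ 2 : ℝ) : ℂ) * (Wc χ w c r * In N (0 - c / r))‖
        ≤ ∑ r ∈ (Icc 1 K).erase 1, (K : ℝ) * (δ * (3 * N)) := by
          refine (norm_sum_le _ _).trans (sum_le_sum fun r hr => ?_)
          have hr' := hr
          rw [mem_erase] at hr'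
          have hr1 : 1 ≤ r := (mem_Icc.1 hr'.2).1
          calc ‖∑ c ∈ Cd r, ((vh N K (0 - c / r) ^ 2 : ℝ) : ℂ) *
                  (Wc χ w c r * In N (0 - c / r))‖
              ≤ ∑ c ∈ Cd r, δ * (3 * N) := by
                refine (norm_sum_le _ _).trans (sum_le_sum fun c hc => ?_)
                rw [norm_mul, Complex.norm_real, Real.norm_eq_abs,
                  abs_of_nonneg (sq_nonneg (vh N K (0 - c / r)))]
                refine mul_le_mul (hother r hr'.2 hr'.1 c hc) ?_ (norm_nonneg _) hδ0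
                rw [norm_mul]
                exact mul_le_mul ((hWc c r hr1).2 w hw0 hw1) (p16_In_le _ _) (norm_nonneg _)
                  (by norm_num)
            _ = (Cd r).card * (δ * (3 * N)) := by rw [sum_const, nsmul_eq_mul]
            _ ≤ K * (δ * (3 * N)) := mul_le_mul_of_nonneg_right (hcount r hr) (by positivity)
      _ = (((Icc 1 K).erase 1).card : ℝ) * (K * (δ * (3 * N))) := by
          rw [sum_const, nsmul_eq_mul]
      _ ≤ K * (K * (δ * (3 * N))) := by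
          refine mul_le_mul_of_nonneg_right ?_ (by positivity)
          rw [card_erase_of_mem h1mem, Nat.card_Icc]
          exact_mod_cast (by omega : K + 1 - 1 - 1 ≤ K)
      _ = 3 * (K ^ 2 * δ * N) := by ring
  have hf : ‖fh N K 0‖ ≤ 2 * N * (K ^ 2 * δ) := by
    unfold fh
    rw [norm_mul, Complex.norm_real, Real.norm_eq_abs]
    refine mul_le_mul ?_ hW2 (abs_nonneg _) (by positivity)
    unfold Ps Bs
    refine (norm_sum_le _ _).trans ?_
    calc ∑ n ∈ Icc 1 N, ‖(aS N n : ℂ) * e (n * 0)‖ = ∑ n ∈ Icc 1 N, aS N n := by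
          refine sum_congr rfl fun n _ => ?_
          rw [norm_mul, norm_e, mul_one, Complex.norm_real, Real.norm_eq_abs,
            abs_of_nonneg (p16_aS_nonneg _ _)]
      _ ≤ 2 * N := p16_sum_aS N
  -- conclusion
  have hs : ‖(fh N K 0 + gW χ w N K 0) - N‖ ≤ 5 * (K ^ 2 * δ) * N := by
    calc ‖(fh N K 0 + gW χ w N K 0) - N‖ = ‖fh N K 0 + (gW χ w N K 0 - N)‖ := by ring_nf
      _ ≤ ‖fh N K 0‖ + ‖gW χ w N K 0 - N‖ := norm_add_le _ _
      _ ≤ 2 * N * (K ^ 2 * δ) + 3 * (K ^ 2 * δ * N) := add_le_add hf hg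
      _ = _ := by ring
  set η : ℝ := 5 * (K ^ 2 * δ) with hη
  have hη0 : 0 ≤ η := by positivity
  have hη1 : η ≤ 9 * C ^ 2 / (K : ℝ) ^ 10 := by
    rw [hη, hδ]
    have : (K : ℝ) ^ 2 * (C ^ 2 / K ^ 20) = C ^ 2 / K ^ 18 := by field_simp
    rw [this]
    have h18 : C ^ 2 / (K : ℝ) ^ 18 ≤ C ^ 2 / (K : ℝ) ^ 10 := by
      apply div_le_div_of_nonneg_left (by positivity) (by positivity)
      exact pow_le_pow_right₀ (by linarith) (by norm_num)
    have h0 : 0 ≤ C ^ 2 / (K : ℝ) ^ 10 := by positivity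
    calc 5 * (C ^ 2 / (K : ℝ) ^ 18) ≤ 9 * (C ^ 2 / (K : ℝ) ^ 10) := by linarith
      _ = 9 * C ^ 2 / (K : ℝ) ^ 10 := by ring
  have hη2 : η ≤ 9 * C ^ 2 := by
    refine hη1.trans ?_
    apply div_le_self (by positivity)
    exact one_le_pow₀ (by linarith)
  have ha : |‖fh N K 0 + gW χ w N K 0‖ - N| ≤ η * N := by
    have h2 := abs_norm_sub_norm_le (fh N K 0 + gW χ w N K 0) (N : ℂ)
    rw [Complex.norm_natCast] at h2
    exact h2.trans hs
  have hb : ‖fh N K 0 + gW χ w N K 0‖ ≤ N + η * N := by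
    have := (abs_le.1 ha).2
    linarith
  have e2 : ‖fh N K 0 + gW χ w N K 0‖ ^ 2 - (N : ℝ) ^ 2 =
      (‖fh N K 0 + gW χ w N K 0‖ - N) * (‖fh N K 0 + gW χ w N K 0‖ + N) := by ring
  rw [e2, abs_mul, abs_of_nonneg (by positivity : (0 : ℝ) ≤ ‖fh N K 0 + gW χ w N K 0‖ + N)]
  calc |‖fh N K 0 + gW χ w N K 0‖ - N| * (‖fh N K 0 + gW χ w N K 0‖ + N)
      ≤ (η * N) * (N + η * N + N) :=
        mul_le_mul ha (by linarith) (by positivity) (by positivity)
    _ = η * (2 + η) * (N : ℝ) ^ 2 := by ring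
    _ ≤ (9 * C ^ 2 / (K : ℝ) ^ 10) * (2 + 9 * C ^ 2) * (N : ℝ) ^ 2 := by
        refine mul_le_mul_of_nonneg_right ?_ (by positivity)
        exact mul_le_mul hη1 (by linarith) (by positivity) (by positivity)
    _ = (9 * C ^ 2) * (2 + 9 * C ^ 2) * (N : ℝ) ^ 2 / (K : ℝ) ^ 10 := by ring

theorem S16_pr (_h1 : W01) (_h4 : W04) (h7 : S07b) (h2 : G2) : S16 := ⟨s16_ms h7, s16_zero _h1 h2⟩

end Pool.Agent.SZ
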