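import Pool.Agent.Lib_helper59.SZ.W
import Pool.Agent.Lib_helper3.FGP.P13
import Pool.Agent.Lib_helper3.FGP.P13a
import Pool.Agent.Lib_helper3.FGP.P13b
import Pool.Agent.Lib_helper3.FGP.P14a

/-!
# SZ: blocks S13a, S13b, S13 of sd_block
-/

set_option autoImplicit false

/-! ## Block S13a (helper77) -/

namespace Pool.Agent.SZ

open Finset Pool.Agent.Var35 Pool.Agent.Var73 Pool.Agent.PV Pool.Agent.FGP
open scoped ArithmeticFunction ArithmeticFunction.Moebius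

theorem s13a_cZ_neg (m : ℕ) (n : ℤ) : cZ m (-n) = cZ m n := by
  unfold cZ
  refine sum_congr rfl fun c _ => ?_
  rw [← Real.cos_neg]
  congr 1
  push_cast
  ring

/-- one denominator, exceptional term -/
theorem s13a_xi (h1 : G1) (h2 : G2) (q₁ : ℕ) (χ : DirichletCharacter ℂ q₁) (hχ : Qd χ) (r : ℕ)
    (hr : 1 ≤ r) (n : ℤ) :
    ∑ c ∈ Cd r, xi χ c r * e (-(n * (c / r))) =
      if q₁ ∣ r ∧ Nat.Coprime (r / q₁) q₁ then
        -((q₁ / Nat.totient q₁ : ℝ) : ℂ) * (chr χ n : ℂ) *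
          ((mr (r / q₁) * cZ (r / q₁) n : ℝ) : ℂ) else 0 := by
  classical
  by_cases hc : q₁ ∣ r ∧ Nat.Coprime (r / q₁) q₁
  · rw [if_pos hc]
    obtain ⟨⟨m, rfl⟩, hco⟩ := hc
    obtain ⟨htau, -, hq3, hreal, -⟩ := h2 q₁ χ hχ
    have hq0 : 0 < q₁ := by omega
    rw [Nat.mul_div_cancel_left m hq0] at hco ⊢
    have hm : 1 ≤ m := Nat.pos_of_ne_zero (fun h => by subst h; simp at hr)
    by_cases hsq : Squarefree m
    · have hxi : ∀ c, xi χ c (q₁ * m) = -(((μ m : ℤ) : ℂ) * χ (m : ZMod q₁) * χ (c : ZMod q₁) *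
          tau χ / (Nat.totient (q₁ * m) : ℂ)) := by
        intro c
        unfold xi
        rw [Nat.mul_div_cancel_left m hq0, if_pos ⟨dvd_mul_right q₁ m, hsq, hco⟩]
      have h3 : ∑ c ∈ Cd (q₁ * m), xi χ c (q₁ * m) * e (-(n * (c / ((q₁ * m : ℕ) : ℝ)))) =
          -(((μ m : ℤ) : ℂ) * χ (m : ZMod q₁) * tau χ / (Nat.totient (q₁ * m) : ℂ)) *
            ∑ c ∈ Cd (q₁ * m), χ (c : ZMod q₁) * e (((-n : ℤ) : ℝ) * c / ((q₁ * m : ℕ) : ℝ)) := by
        rw [mul_sum]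
        refine sum_congr rfl fun c _ => ?_
        rw [hxi c]
        have h4 : -((n : ℝ) * ((c : ℝ) / ((q₁ * m : ℕ) : ℝ))) =
            ((-n : ℤ) : ℝ) * c / ((q₁ * m : ℕ) : ℝ) := by push_cast; ring
        rw [h4]
        ring
      rw [h3, (h1 q₁ χ hχ).2 m (-n) hm hco, s13a_cZ_neg]
      have hneg : χ ((-n : ℤ) : ZMod q₁) = χ (-1) * χ (n : ZMod q₁) := by
        rw [← map_mul]; congr 1; push_cast; ring
      have hm2 : χ (m : ZMod q₁) ^ 2 = 1 := by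
        have hu : IsUnit (m : ZMod q₁) := (ZMod.isUnit_iff_coprime m q₁).2 hco
        have h5 : (χ ^ 2) (m : ZMod q₁) = χ (m : ZMod q₁) ^ 2 := by
          exact MulChar.pow_apply' χ two_ne_zero _
        rw [← h5, hχ.2.1, MulChar.one_apply hu]
      have hm1 : χ (-1) ^ 2 = 1 := by
        have h5 : (χ ^ 2) (-1) = χ (-1) ^ 2 := by
          exact MulChar.pow_apply' χ two_ne_zero _
        rw [← h5, hχ.2.1, MulChar.one_apply isUnit_one.neg]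
      have hcop : Nat.Coprime q₁ m := hco.symm
      rw [hneg, Nat.totient_mul hcop, (hreal n).1]
      have hφ1 : (Nat.totient q₁ : ℂ) ≠ 0 := by
        exact_mod_cast (Nat.totient_pos.2 hq0).ne'
      have hφ2 : (Nat.totient m : ℂ) ≠ 0 := by
        exact_mod_cast (Nat.totient_pos.2 hm).ne'
      unfold mr
      push_cast
      have h6 : -(((μ m : ℤ) : ℂ) * χ (m : ZMod q₁) * tau χ / ((Nat.totient q₁ : ℂ) *
          (Nat.totient m : ℂ))) * (χ (m : ZMod q₁) * (χ (-1) * (chr χ n : ℂ)) * tau χ *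
            (cZ m n : ℂ)) = -(((μ m : ℤ) : ℂ) * χ (m : ZMod q₁) ^ 2 * tau χ ^ 2 * χ (-1) /
            ((Nat.totient q₁ : ℂ) * (Nat.totient m : ℂ))) * (chr χ n : ℂ) * (cZ m n : ℂ) := by ring
      rw [h6, hm2, htau]
      have h7 : ((μ m : ℤ) : ℂ) * 1 * (χ (-1) * (q₁ : ℂ)) * χ (-1) = ((μ m : ℤ) : ℂ) * q₁ := by
        have : ((μ m : ℤ) : ℂ) * 1 * (χ (-1) * (q₁ : ℂ)) * χ (-1) =
          ((μ m : ℤ) : ℂ) * q₁ * χ (-1) ^ 2 := by ring
        rw [this, hm1, mul_one]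
      rw [h7]
      field_simp
    · have hxi : ∀ c, xi χ c (q₁ * m) = 0 := by
        intro c
        unfold xi
        rw [Nat.mul_div_cancel_left m hq0, if_neg (fun h => hsq h.2.1)]
      rw [sum_eq_zero fun c _ => by rw [hxi c, zero_mul]]
      have : mr m = 0 := by
        unfold mr
        rw [ArithmeticFunction.moebius_eq_zero_of_not_squarefree hsq]
        simp
      rw [this]
      simp
  · rw [if_neg hc]
    refine sum_eq_zero fun c _ => ?_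
    unfold xi
    rw [if_neg (fun h => hc ⟨h.1, h.2.2⟩), zero_mul]

/-- all denominators -/
theorem s13a_sum (h1 : G1) (h2 : G2) (q₁ : ℕ) (χ : DirichletCharacter ℂ q₁) (hχ : Qd χ) (w : ℝ)
    (K : ℕ) (n : ℤ) :
    ∑ r ∈ Icc 1 K, ∑ c ∈ Cd r, Wc χ w c r * e (-(n * (c / r))) = (hK χ w K n : ℂ) := by
  have hq3 : 3 ≤ q₁ := (h2 q₁ χ hχ).2.2.1
  have hq0 : 0 < q₁ := by omega
  have h3 : ∀ r ∈ Icc 1 K, ∑ c ∈ Cd r, Wc χ w c r * e (-(n * (c / r))) =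
      ((mr r * cZ r n : ℝ) : ℂ) + w * (if q₁ ∣ r ∧ Nat.Coprime (r / q₁) q₁ then
        -((q₁ / Nat.totient q₁ : ℝ) : ℂ) * (chr χ n : ℂ) *
          ((mr (r / q₁) * cZ (r / q₁) n : ℝ) : ℂ) else 0) := by
    intro r hr
    rw [mem_Icc] at hr
    rw [← s13a_xi h1 h2 q₁ χ hχ r hr.1 n, Complex.ofReal_mul, ← p13a_cZ r hr.1 n, mul_sum, mul_sum,
      ← sum_add_distrib]
    refine sum_congr rfl fun c _ => ?_
    unfold Wc
    ring
  rw [sum_congr rfl h3, sum_add_distrib, ← mul_sum]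
  have h4 : ∑ r ∈ Icc 1 K, (if q₁ ∣ r ∧ Nat.Coprime (r / q₁) q₁ then
        -((q₁ / Nat.totient q₁ : ℝ) : ℂ) * (chr χ n : ℂ) *
          ((mr (r / q₁) * cZ (r / q₁) n : ℝ) : ℂ) else 0) =
      ∑ m ∈ MQ1 q₁ K, -((q₁ / Nat.totient q₁ : ℝ) : ℂ) * (chr χ n : ℂ) *
          ((mr m * cZ m n : ℝ) : ℂ) := by
    rw [← sum_filter]
    refine sum_nbij' (fun r => r / q₁) (fun m => q₁ * m) ?_ ?_ ?_ ?_ ?_
    · intro r hr
      rw [mem_filter, mem_Icc] at hr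
      unfold MQ1
      rw [mem_filter, mem_Icc]
      exact ⟨⟨Nat.div_pos (Nat.le_of_dvd (by omega) hr.2.1) hq0, Nat.div_le_div_right hr.1.2⟩,
        hr.2.2⟩
    · intro m hm
      unfold MQ1 at hm
      rw [mem_filter, mem_Icc] at hm
      rw [mem_filter, mem_Icc, Nat.mul_div_cancel_left m hq0]
      refine ⟨⟨Nat.mul_pos hq0 hm.1.1, ?_⟩, dvd_mul_right _ _, hm.2⟩
      calc q₁ * m ≤ q₁ * (K / q₁) := Nat.mul_le_mul_left _ hm.1.2
        _ ≤ K := Nat.mul_div_le K q₁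
    · intro r hr
      rw [mem_filter] at hr
      exact Nat.mul_div_cancel' hr.2.1
    · intro m _
      exact Nat.mul_div_cancel_left m hq0
    · intro r _
      rfl
  rw [h4, ← mul_sum]
  unfold hK
  push_cast
  ring

/-- `gW` as a trigonometric polynomial -/
theorem s13a_gW (h1 : G1) (h2 : G2) (q₁ : ℕ) (χ : DirichletCharacter ℂ q₁) (hχ : Qd χ) (w : ℝ)
    (N K : ℕ) (t : ℝ) :
    gW χ w N K t = ∑ n ∈ Icc (1 - 2 * (Mw N K : ℤ)) ((N : ℤ) + 2 * Mw N K),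
      (gnW χ w N K n : ℂ) * e (n * t) := by
  unfold gW
  have h3 : ∀ r ∈ Icc 1 K, ∑ c ∈ Cd r,
      ((vh N K (t - c / r) ^ 2 : ℝ) : ℂ) * (Wc χ w c r * In N (t - c / r)) =
      ∑ n ∈ Icc (1 - 2 * (Mw N K : ℤ)) ((N : ℤ) + 2 * Mw N K),
        ((∑ m ∈ Icc 1 N, v2 N K ((m : ℤ) - n) : ℝ) : ℂ) *
          (∑ c ∈ Cd r, Wc χ w c r * e (-(n * (c / r)))) * e (n * t) := by
    intro r _
    have h4 : ∀ c ∈ Cd r, ((vh N K (t - c / r) ^ 2 : ℝ) : ℂ) * (Wc χ w c r * In N (t - c / r)) =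
        ∑ n ∈ Icc (1 - 2 * (Mw N K : ℤ)) ((N : ℤ) + 2 * Mw N K),
        ((∑ m ∈ Icc 1 N, v2 N K ((m : ℤ) - n) : ℝ) : ℂ) * (Wc χ w c r * e (-(n * (c / r)))) *
          e (n * t) := by
      intro c _
      have h5 : ((vh N K (t - c / r) ^ 2 : ℝ) : ℂ) * (Wc χ w c r * In N (t - c / r)) =
        Wc χ w c r * (((vh N K (t - c / r) ^ 2 : ℝ) : ℂ) * In N (t - c / r)) := by ring
      rw [h5, p13a_term, mul_sum]
      refine sum_congr rfl fun n _ => ?_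
      have h6 : (n : ℝ) * (t - c / r) = -(n * (c / r)) + n * t := by ring
      rw [h6, e_add]
      ring
    rw [sum_congr rfl h4, sum_comm]
    refine sum_congr rfl fun n _ => ?_
    rw [← sum_mul, ← mul_sum]
  rw [sum_congr rfl h3, sum_comm]
  refine sum_congr rfl fun n _ => ?_
  rw [← sum_mul, ← mul_sum, s13a_sum h1 h2 q₁ χ hχ w K n]
  congr 1
  unfold gnW
  push_cast
  rfl

theorem s13a_zero {q₁ : ℕ} (χ : DirichletCharacter ℂ q₁) (w : ℝ) (N K : ℕ) (n : ℤ)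
    (h : n ∉ Icc (1 - 2 * (Mw N K : ℤ)) ((N : ℤ) + 2 * Mw N K)) : gnW χ w N K n = 0 := by
  unfold gnW
  rw [sum_eq_zero, zero_mul]
  intro m hm
  refine p13a_v2_zero N K _ ?_
  rw [mem_Icc] at hm h ⊢
  omega

theorem S13a_pr (h1 : G1) (h2 : G2) : S13a := by
  intro q₁ χ w hχ N K M Q hM hN hQ
  have hM0 : 4 * (2 * N) < M := hM.1
  have hB : ((N : ℤ) + 2 * Mw N K) - (1 - 2 * (Mw N K : ℤ)) < 2 * (N : ℤ) := by omega
  have key : ∀ Q : ℕ, 1 ≤ Q → VA (gW χ w N K) Q = cgW χ w N K 0 +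
      2 * ∑ k ∈ Icc 1 (2 * N / Q), cgW χ w N K ((k * Q : ℕ) : ℤ) := by
    intro Q hQ
    rw [p13a_va (gnW χ w N K) _ _ (gW χ w N K) (s13a_gW h1 h2 q₁ χ hχ w N K) Q hQ,
      p13a_corr (gnW χ w N K) _ _ (s13a_zero χ w N K) N hB Q hQ]
    rfl
  have h3 : ms M (gW χ w N K) = VA (gW χ w N K) M := rfl
  have h4 : 2 * N / M = 0 := Nat.div_eq_of_lt (by omega)
  rw [h3, key Q hQ, key M (by omega), h4]
  simp

end Pool.Agent.SZ

/-! ## Block S13b (helper87) -/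

namespace Pool.Agent.SZ

open Finset Pool.Agent.Var35 Pool.Agent.Var73 Pool.Agent.PV Pool.Agent.FGP
open scoped ArithmeticFunction ArithmeticFunction.Moebius

/-! ### the window (model P13b_cg, any coefficients) -/

theorem s13b_corr (N K h : ℕ) (H : ℤ → ℝ) :
    ∑ n ∈ Icc (1 - 2 * (Mw N K : ℤ)) ((N : ℤ) + 2 * Mw N K),
      ((∑ m ∈ Icc 1 N, v2 N K ((m : ℤ) - n)) * H n) *
      ((∑ m ∈ Icc 1 N, v2 N K ((m : ℤ) - (n + h))) * H (n + h))
    = ∑ p ∈ Iw N K ×ˢ Iw N K, ∑ p' ∈ Iw N K ×ˢ Iw N K,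
      (vw N K p.1 * vw N K p.2) * (vw N K p'.1 * vw N K p'.2) *
      ∑ n ∈ Icc (max (1 - (p.1 + p.2)) (1 - (p'.1 + p'.2) - h))
        (min ((N:ℤ) - (p.1 + p.2)) (N - (p'.1 + p'.2) - h)), H n * H (n + h) := by
  simp only [P13b_w]
  have h1 : ∀ p ∈ Iw N K ×ˢ Iw N K, ∀ p' ∈ Iw N K ×ˢ Iw N K,
      ∑ n ∈ Icc (max (1 - (p.1 + p.2)) (1 - (p'.1 + p'.2) - h))
        (min ((N:ℤ) - (p.1 + p.2)) (N - (p'.1 + p'.2) - h)), H n * H (n + h)
      = ∑ n ∈ Icc (1 - 2 * (Mw N K : ℤ)) ((N : ℤ) + 2 * Mw N K),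
        P13b_ind N (n + (p.1 + p.2)) * P13b_ind N (n + h + (p'.1 + p'.2)) *
        (H n * H (n + h)) := by
    intro p hp p' hp'
    simp only [mem_product, Iw, mem_Icc] at hp hp'
    have hsub : Icc (max (1 - (p.1 + p.2)) (1 - (p'.1 + p'.2) - h))
        (min ((N:ℤ) - (p.1 + p.2)) (N - (p'.1 + p'.2) - h))
        ⊆ Icc (1 - 2 * (Mw N K : ℤ)) ((N : ℤ) + 2 * Mw N K) := by
      intro n hn
      rw [mem_Icc] at hn ⊢
      omega
    rw [← sum_subset hsub]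
    · refine sum_congr rfl fun n hn => ?_
      rw [mem_Icc] at hn
      unfold P13b_ind
      rw [if_pos ⟨by omega, by omega⟩, if_pos ⟨by omega, by omega⟩]
      ring
    · intro n _ hn
      rw [mem_Icc] at hn
      unfold P13b_ind
      by_cases h1 : 1 ≤ n + (p.1 + p.2) ∧ n + (p.1 + p.2) ≤ N
      · rw [if_neg (fun h2 : 1 ≤ n + h + (p'.1 + p'.2) ∧ n + h + (p'.1 + p'.2) ≤ N =>
          hn ⟨by omega, by omega⟩)]
        ring
      · rw [if_neg h1]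
        ring
  rw [sum_congr rfl fun p hp => sum_congr rfl fun p' hp' => by rw [h1 p hp p' hp']]
  simp only [mul_sum (s := Icc (1 - 2 * (Mw N K : ℤ)) ((N : ℤ) + 2 * Mw N K))]
  rw [sum_congr rfl fun c _ => sum_comm]
  rw [sum_comm]
  refine sum_congr rfl fun n _ => ?_
  have h2 : ∀ a b c d : ℝ, a * b * (c * d) = (a * c) * (b * d) := fun a b c d => by ring
  rw [h2, sum_mul_sum, sum_mul]
  refine sum_congr rfl fun p _ => ?_
  rw [sum_mul]
  refine sum_congr rfl fun p' _ => ?_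
  ring

/-! ### one interval -/

theorem s13b_card (K : ℕ) : (((Icc 1 K).sigma Cd).card : ℝ) ≤ (K : ℝ) ^ 2 := by
  rw [card_sigma]
  have h1 : ∀ r ∈ Icc 1 K, (Cd r).card ≤ K := by
    intro r hr
    rw [mem_Icc] at hr
    rw [card_Cd]
    exact (Nat.totient_le r).trans hr.2
  have h2 := sum_le_card_nsmul _ _ _ h1
  simp only [Nat.card_Icc, add_tsub_cancel_right, smul_eq_mul] at h2
  have h3 : ((∑ r ∈ Icc 1 K, (Cd r).card : ℕ) : ℝ) ≤ ((K * K : ℕ) : ℝ) := by exact_mod_cast h2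
  calc ((∑ r ∈ Icc 1 K, (Cd r).card : ℕ) : ℝ) ≤ ((K * K : ℕ) : ℝ) := h3
    _ = (K : ℝ) ^ 2 := by push_cast; ring

/-- sums of products over an interval -/
theorem s13b_int (K h : ℕ) (W : ℕ → ℕ → ℂ) (H : ℤ → ℝ)
    (hW : ∀ c r : ℕ, 1 ≤ r → ‖W c r‖ ≤ 3)
    (hH : ∀ n : ℤ, ∑ r ∈ Icc 1 K, ∑ c ∈ Cd r, W c r * e (-(n * (c / r))) = (H n : ℂ))
    (A B : ℤ) :
    ‖((∑ n ∈ Icc A B, H n * H (n + h) : ℝ) : ℂ) -
      (∑ r ∈ Icc 1 K, ∑ c ∈ Cd r, W c r * (starRingEnd ℂ) (W c r) * e (h * (c / r))) *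
        ((Icc A B).card : ℂ)‖ ≤ 9 * (K : ℝ) ^ 6 := by
  classical
  set F := (Icc 1 K).sigma Cd with hF
  have hH1 : ∀ n : ℤ, (H n : ℂ) = ∑ x ∈ F, W x.2 x.1 * e (-(n * (x.2 / x.1))) := by
    intro n
    rw [← hH n, hF, sum_sigma]
  have hH2 : ∀ n : ℤ, (H n : ℂ) = ∑ x ∈ F, (starRingEnd ℂ) (W x.2 x.1) * e (n * (x.2 / x.1)) := by
    intro n
    have h1 := congrArg (starRingEnd ℂ) (hH1 n)
    rw [Complex.conj_ofReal, map_sum] at h1
    rw [h1]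
    refine sum_congr rfl fun x _ => ?_
    rw [map_mul, ← e_neg, neg_neg]
  have h1 : ((∑ n ∈ Icc A B, H n * H (n + h) : ℝ) : ℂ) =
      ∑ x ∈ F, ∑ y ∈ F, W x.2 x.1 * (starRingEnd ℂ) (W y.2 y.1) * e (h * (y.2 / y.1)) *
        ∑ n ∈ Icc A B, e (n * ((y.2 : ℝ) / y.1 - x.2 / x.1)) := by
    rw [Complex.ofReal_sum]
    simp only [mul_sum]
    rw [sum_congr rfl fun x _ => sum_comm, sum_comm]
    refine sum_congr rfl fun n _ => ?_
    rw [Complex.ofReal_mul, hH1 n, hH2 (n + h), sum_mul_sum]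
    refine sum_congr rfl fun x _ => sum_congr rfl fun y _ => ?_
    have h2 : e (-(n * ((x.2 : ℝ) / x.1))) * e (((n + h : ℤ) : ℝ) * (y.2 / y.1)) =
        e (h * (y.2 / y.1)) * e (n * ((y.2 : ℝ) / y.1 - x.2 / x.1)) := by
      rw [← e_add, ← e_add]
      congr 1
      push_cast
      ring
    linear_combination (W x.2 x.1 * (starRingEnd ℂ) (W y.2 y.1)) * h2
  have h2 : (∑ r ∈ Icc 1 K, ∑ c ∈ Cd r, W c r * (starRingEnd ℂ) (W c r) * e (h * (c / r))) *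
        ((Icc A B).card : ℂ) = ∑ x ∈ F, ∑ y ∈ F, (if y = x then
          W x.2 x.1 * (starRingEnd ℂ) (W x.2 x.1) * e (h * (x.2 / x.1)) *
            ((Icc A B).card : ℂ) else 0) := by
    rw [sum_mul]
    simp only [sum_mul]
    rw [hF, sum_sigma]
    refine sum_congr rfl fun r hr => sum_congr rfl fun c hc => ?_
    rw [sum_ite_eq', if_pos (mem_sigma.2 ⟨hr, hc⟩)]
  rw [h1, h2, ← sum_sub_distrib]
  simp only [← sum_sub_distrib]
  refine (norm_sum_le _ _).trans ?_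
  have h3 : ∀ x ∈ F, ‖∑ y ∈ F, (W x.2 x.1 * (starRingEnd ℂ) (W y.2 y.1) * e (h * (y.2 / y.1)) *
        ∑ n ∈ Icc A B, e (n * ((y.2 : ℝ) / y.1 - x.2 / x.1)) - (if y = x then
          W x.2 x.1 * (starRingEnd ℂ) (W x.2 x.1) * e (h * (x.2 / x.1)) *
            ((Icc A B).card : ℂ) else 0))‖ ≤ (F.card : ℝ) * (9 * (K : ℝ) ^ 2) := by
    intro x hx
    refine (norm_sum_le _ _).trans ?_
    have h4 : ∀ y ∈ F, ‖W x.2 x.1 * (starRingEnd ℂ) (W y.2 y.1) * e (h * (y.2 / y.1)) *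
        ∑ n ∈ Icc A B, e (n * ((y.2 : ℝ) / y.1 - x.2 / x.1)) - (if y = x then
          W x.2 x.1 * (starRingEnd ℂ) (W x.2 x.1) * e (h * (x.2 / x.1)) *
            ((Icc A B).card : ℂ) else 0)‖ ≤ 9 * (K : ℝ) ^ 2 := by
      intro y hy
      rw [hF, mem_sigma, mem_Icc] at hx hy
      split_ifs with hxy
      · subst hxy
        simp only [sub_self, mul_zero, e_zero, sum_const, nsmul_eq_mul, mul_one, norm_zero]
        positivity
      · rw [sub_zero, norm_mul, norm_mul, norm_mul, norm_e, mul_one, RCLike.norm_conj]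
        have h5 := P13b_geom A B ((y.2 : ℝ) / y.1 - x.2 / x.1) (y.1 * x.1)
          ((y.2 : ℤ) * x.1 - x.2 * y.1) (Nat.mul_pos hy.1.1 hx.1.1)
          (by
            have a1 : (x.1 : ℝ) ≠ 0 := by
              have := hx.1.1
              positivity
            have a2 : (y.1 : ℝ) ≠ 0 := by
              have := hy.1.1
              positivity
            push_cast
            field_simp)
          (P13b_frac hy.1.1 hx.1.1 hy.2 hx.2 (fun hh => hxy (Sigma.ext hh.1 (by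
            rw [hh.2]))))
        have h6 : (x.1 : ℝ) ≤ K := by exact_mod_cast hx.1.2
        have h7 : (y.1 : ℝ) ≤ K := by exact_mod_cast hy.1.2
        have h8 : (((y.1 * x.1 : ℕ) : ℝ)) / 2 ≤ (K : ℝ) ^ 2 := by
          push_cast
          have : (y.1 : ℝ) * x.1 ≤ K * K := mul_le_mul h7 h6 (by positivity) (by positivity)
          have h9 : (0:ℝ) ≤ (K : ℝ) * K := by positivity
          nlinarith
        have h9 : ‖W x.2 x.1‖ * ‖W y.2 y.1‖ ≤ 3 * 3 :=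
          mul_le_mul (hW _ _ hx.1.1) (hW _ _ hy.1.1) (norm_nonneg _) (by norm_num)
        calc ‖W x.2 x.1‖ * ‖W y.2 y.1‖ * ‖∑ n ∈ Icc A B, e (n * ((y.2 : ℝ) / y.1 - x.2 / x.1))‖
            ≤ 3 * 3 * (K : ℝ) ^ 2 :=
              mul_le_mul h9 (h5.trans h8) (norm_nonneg _) (by norm_num)
          _ = 9 * (K : ℝ) ^ 2 := by ring
    refine (sum_le_card_nsmul _ _ _ h4).trans ?_
    rw [nsmul_eq_mul]
  refine (sum_le_card_nsmul _ _ _ h3).trans ?_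
  rw [nsmul_eq_mul]
  have h5 := s13b_card K
  rw [← hF] at h5
  have h6 : (F.card : ℝ) * (F.card : ℝ) ≤ (K : ℝ) ^ 2 * (K : ℝ) ^ 2 :=
    mul_le_mul h5 h5 (by positivity) (by positivity)
  calc (F.card : ℝ) * ((F.card : ℝ) * (9 * (K : ℝ) ^ 2))
      = ((F.card : ℝ) * (F.card : ℝ)) * (9 * (K : ℝ) ^ 2) := by ring
    _ ≤ ((K : ℝ) ^ 2 * (K : ℝ) ^ 2) * (9 * (K : ℝ) ^ 2) :=
        mul_le_mul_of_nonneg_right h6 (by positivity)
    _ = 9 * (K : ℝ) ^ 6 := by ring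

/-! ### Gauss sums (as in S13a, helper77) -/

theorem s13b_cZ_neg (m : ℕ) (n : ℤ) : cZ m (-n) = cZ m n := by
  unfold cZ
  refine sum_congr rfl fun c _ => ?_
  rw [← Real.cos_neg]
  congr 1
  push_cast
  ring

/-- one denominator, exceptional term -/
theorem s13b_xi (h1 : G1) (h2 : G2) (q₁ : ℕ) (χ : DirichletCharacter ℂ q₁) (hχ : Qd χ) (r : ℕ)
    (hr : 1 ≤ r) (n : ℤ) :
    ∑ c ∈ Cd r, xi χ c r * e (-(n * (c / r))) =
      if q₁ ∣ r ∧ Nat.Coprime (r / q₁) q₁ then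
        -((q₁ / Nat.totient q₁ : ℝ) : ℂ) * (chr χ n : ℂ) *
          ((mr (r / q₁) * cZ (r / q₁) n : ℝ) : ℂ) else 0 := by
  classical
  by_cases hc : q₁ ∣ r ∧ Nat.Coprime (r / q₁) q₁
  · rw [if_pos hc]
    obtain ⟨⟨m, rfl⟩, hco⟩ := hc
    obtain ⟨htau, -, hq3, hreal, -⟩ := h2 q₁ χ hχ
    have hq0 : 0 < q₁ := by omega
    rw [Nat.mul_div_cancel_left m hq0] at hco ⊢
    have hm : 1 ≤ m := Nat.pos_of_ne_zero (fun h => by subst h; simp at hr)
    by_cases hsq : Squarefree m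
    · have hxi : ∀ c, xi χ c (q₁ * m) = -(((μ m : ℤ) : ℂ) * χ (m : ZMod q₁) * χ (c : ZMod q₁) *
          tau χ / (Nat.totient (q₁ * m) : ℂ)) := by
        intro c
        unfold xi
        rw [Nat.mul_div_cancel_left m hq0, if_pos ⟨dvd_mul_right q₁ m, hsq, hco⟩]
      have h3 : ∑ c ∈ Cd (q₁ * m), xi χ c (q₁ * m) * e (-(n * (c / ((q₁ * m : ℕ) : ℝ)))) =
          -(((μ m : ℤ) : ℂ) * χ (m : ZMod q₁) * tau χ / (Nat.totient (q₁ * m) : ℂ)) *
            ∑ c ∈ Cd (q₁ * m), χ (c : ZMod q₁) * e (((-n : ℤ) : ℝ) * c / ((q₁ * m : ℕ) : ℝ)) := by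
        rw [mul_sum]
        refine sum_congr rfl fun c _ => ?_
        rw [hxi c]
        have h4 : -((n : ℝ) * ((c : ℝ) / ((q₁ * m : ℕ) : ℝ))) =
            ((-n : ℤ) : ℝ) * c / ((q₁ * m : ℕ) : ℝ) := by push_cast; ring
        rw [h4]
        ring
      rw [h3, (h1 q₁ χ hχ).2 m (-n) hm hco, s13b_cZ_neg]
      have hneg : χ ((-n : ℤ) : ZMod q₁) = χ (-1) * χ (n : ZMod q₁) := by
        rw [← map_mul]; congr 1; push_cast; ring
      have hm2 : χ (m : ZMod q₁) ^ 2 = 1 := by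
        have hu : IsUnit (m : ZMod q₁) := (ZMod.isUnit_iff_coprime m q₁).2 hco
        have h5 : (χ ^ 2) (m : ZMod q₁) = χ (m : ZMod q₁) ^ 2 := by
          exact MulChar.pow_apply' χ two_ne_zero _
        rw [← h5, hχ.2.1, MulChar.one_apply hu]
      have hm1 : χ (-1) ^ 2 = 1 := by
        have h5 : (χ ^ 2) (-1) = χ (-1) ^ 2 := by
          exact MulChar.pow_apply' χ two_ne_zero _
        rw [← h5, hχ.2.1, MulChar.one_apply isUnit_one.neg]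
      have hcop : Nat.Coprime q₁ m := hco.symm
      rw [hneg, Nat.totient_mul hcop, (hreal n).1]
      have hφ1 : (Nat.totient q₁ : ℂ) ≠ 0 := by
        exact_mod_cast (Nat.totient_pos.2 hq0).ne'
      have hφ2 : (Nat.totient m : ℂ) ≠ 0 := by
        exact_mod_cast (Nat.totient_pos.2 hm).ne'
      unfold mr
      push_cast
      have h6 : -(((μ m : ℤ) : ℂ) * χ (m : ZMod q₁) * tau χ / ((Nat.totient q₁ : ℂ) *
          (Nat.totient m : ℂ))) * (χ (m : ZMod q₁) * (χ (-1) * (chr χ n : ℂ)) * tau χ *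
            (cZ m n : ℂ)) = -(((μ m : ℤ) : ℂ) * χ (m : ZMod q₁) ^ 2 * tau χ ^ 2 * χ (-1) /
            ((Nat.totient q₁ : ℂ) * (Nat.totient m : ℂ))) * (chr χ n : ℂ) * (cZ m n : ℂ) := by ring
      rw [h6, hm2, htau]
      have h7 : ((μ m : ℤ) : ℂ) * 1 * (χ (-1) * (q₁ : ℂ)) * χ (-1) = ((μ m : ℤ) : ℂ) * q₁ := by
        have : ((μ m : ℤ) : ℂ) * 1 * (χ (-1) * (q₁ : ℂ)) * χ (-1) =
          ((μ m : ℤ) : ℂ) * q₁ * χ (-1) ^ 2 := by ring
        rw [this, hm1, mul_one]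
      rw [h7]
      field_simp
    · have hxi : ∀ c, xi χ c (q₁ * m) = 0 := by
        intro c
        unfold xi
        rw [Nat.mul_div_cancel_left m hq0, if_neg (fun h => hsq h.2.1)]
      rw [sum_eq_zero fun c _ => by rw [hxi c, zero_mul]]
      have : mr m = 0 := by
        unfold mr
        rw [ArithmeticFunction.moebius_eq_zero_of_not_squarefree hsq]
        simp
      rw [this]
      simp
  · rw [if_neg hc]
    refine sum_eq_zero fun c _ => ?_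
    unfold xi
    rw [if_neg (fun h => hc ⟨h.1, h.2.2⟩), zero_mul]

/-- all denominators -/
theorem s13b_sum (h1 : G1) (h2 : G2) (q₁ : ℕ) (χ : DirichletCharacter ℂ q₁) (hχ : Qd χ) (w : ℝ)
    (K : ℕ) (n : ℤ) :
    ∑ r ∈ Icc 1 K, ∑ c ∈ Cd r, Wc χ w c r * e (-(n * (c / r))) = (hK χ w K n : ℂ) := by
  have hq3 : 3 ≤ q₁ := (h2 q₁ χ hχ).2.2.1
  have hq0 : 0 < q₁ := by omega
  have h3 : ∀ r ∈ Icc 1 K, ∑ c ∈ Cd r, Wc χ w c r * e (-(n * (c / r))) =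
      ((mr r * cZ r n : ℝ) : ℂ) + w * (if q₁ ∣ r ∧ Nat.Coprime (r / q₁) q₁ then
        -((q₁ / Nat.totient q₁ : ℝ) : ℂ) * (chr χ n : ℂ) *
          ((mr (r / q₁) * cZ (r / q₁) n : ℝ) : ℂ) else 0) := by
    intro r hr
    rw [mem_Icc] at hr
    rw [← s13b_xi h1 h2 q₁ χ hχ r hr.1 n, Complex.ofReal_mul, ← p13a_cZ r hr.1 n, mul_sum, mul_sum,
      ← sum_add_distrib]
    refine sum_congr rfl fun c _ => ?_
    unfold Wc
    ring
  rw [sum_congr rfl h3, sum_add_distrib, ← mul_sum]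
  have h4 : ∑ r ∈ Icc 1 K, (if q₁ ∣ r ∧ Nat.Coprime (r / q₁) q₁ then
        -((q₁ / Nat.totient q₁ : ℝ) : ℂ) * (chr χ n : ℂ) *
          ((mr (r / q₁) * cZ (r / q₁) n : ℝ) : ℂ) else 0) =
      ∑ m ∈ MQ1 q₁ K, -((q₁ / Nat.totient q₁ : ℝ) : ℂ) * (chr χ n : ℂ) *
          ((mr m * cZ m n : ℝ) : ℂ) := by
    rw [← sum_filter]
    refine sum_nbij' (fun r => r / q₁) (fun m => q₁ * m) ?_ ?_ ?_ ?_ ?_
    · intro r hr
      rw [mem_filter, mem_Icc] at hr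
      unfold MQ1
      rw [mem_filter, mem_Icc]
      exact ⟨⟨Nat.div_pos (Nat.le_of_dvd (by omega) hr.2.1) hq0, Nat.div_le_div_right hr.1.2⟩,
        hr.2.2⟩
    · intro m hm
      unfold MQ1 at hm
      rw [mem_filter, mem_Icc] at hm
      rw [mem_filter, mem_Icc, Nat.mul_div_cancel_left m hq0]
      refine ⟨⟨Nat.mul_pos hq0 hm.1.1, ?_⟩, dvd_mul_right _ _, hm.2⟩
      calc q₁ * m ≤ q₁ * (K / q₁) := Nat.mul_le_mul_left _ hm.1.2
        _ ≤ K := Nat.mul_div_le K q₁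
    · intro r hr
      rw [mem_filter] at hr
      exact Nat.mul_div_cancel' hr.2.1
    · intro m _
      exact Nat.mul_div_cancel_left m hq0
    · intro r _
      rfl
  rw [h4, ← mul_sum]
  unfold hK
  push_cast
  ring


/-! ### the diagonal -/


/-! ### the diagonal -/

theorem s13b_neg (h2 : G2) (q₁ : ℕ) (χ : DirichletCharacter ℂ q₁) (hχ : Qd χ) (h : ℤ) :
    (chr χ (-h) : ℂ) = χ (-1) * (chr χ h : ℂ) := by
  obtain ⟨-, -, -, hreal, -⟩ := h2 q₁ χ hχ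
  rw [← (hreal h).1, ← (hreal (-h)).1, ← map_mul]
  congr 1
  push_cast
  ring

theorem s13b_pm (q₁ : ℕ) (χ : DirichletCharacter ℂ q₁) (hχ : Qd χ) :
    χ (-1) = 1 ∨ χ (-1) = -1 := by
  have h5 : (χ ^ 2) (-1) = χ (-1) ^ 2 := MulChar.pow_apply' χ two_ne_zero _
  have h6 : χ (-1) ^ 2 = 1 := by
    rw [← h5, hχ.2.1, MulChar.one_apply isUnit_one.neg]
  have h7 : (χ (-1) - 1) * (χ (-1) + 1) = 0 := by linear_combination h6
  rcases mul_eq_zero.1 h7 with h | h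
  · left
    linear_combination h
  · right
    linear_combination h

theorem s13b_re (q₁ K : ℕ) (hq0 : 0 < q₁) (f : ℕ → ℂ) :
    ∑ r ∈ Icc 1 K, (if q₁ ∣ r ∧ Nat.Coprime (r / q₁) q₁ then f (r / q₁) else 0) =
      ∑ m ∈ MQ1 q₁ K, f m := by
  rw [← sum_filter]
  refine sum_nbij' (fun r => r / q₁) (fun m => q₁ * m) ?_ ?_ ?_ ?_ ?_
  · intro r hr
    rw [mem_filter, mem_Icc] at hr
    unfold MQ1
    rw [mem_filter, mem_Icc]
    exact ⟨⟨Nat.div_pos (Nat.le_of_dvd (by omega) hr.2.1) hq0, Nat.div_le_div_right hr.1.2⟩,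
      hr.2.2⟩
  · intro m hm
    unfold MQ1 at hm
    rw [mem_filter, mem_Icc] at hm
    rw [mem_filter, mem_Icc, Nat.mul_div_cancel_left m hq0]
    refine ⟨⟨Nat.mul_pos hq0 hm.1.1, ?_⟩, dvd_mul_right _ _, hm.2⟩
    calc q₁ * m ≤ q₁ * (K / q₁) := Nat.mul_le_mul_left _ hm.1.2
      _ ≤ K := Nat.mul_div_le K q₁
  · intro r hr
    rw [mem_filter] at hr
    exact Nat.mul_div_cancel' hr.2.1
  · intro m _
    exact Nat.mul_div_cancel_left m hq0
  · intro r _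
    rfl

/-- the Ramanujan sum with the other sign -/
theorem s13b_cR (r : ℕ) (hr : 1 ≤ r) (h : ℕ) :
    ∑ c ∈ Cd r, e ((h : ℝ) * (c / r)) = (cR r h : ℂ) := by
  have h1 := p13a_cZ r hr (-(h : ℤ))
  rw [s13b_cZ_neg, ← P13b_cR] at h1
  rw [← h1]
  refine sum_congr rfl fun c _ => ?_
  congr 1
  push_cast
  ring

/-- the cross term of one denominator -/
theorem s13b_cross (h1 : G1) (h2 : G2) (q₁ : ℕ) (χ : DirichletCharacter ℂ q₁) (hχ : Qd χ) (r : ℕ)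
    (hr : 1 ≤ r) (h : ℕ) :
    ∑ c ∈ Cd r, (xi χ c r + (starRingEnd ℂ) (xi χ c r)) * e ((h : ℝ) * (c / r)) =
      if q₁ ∣ r ∧ Nat.Coprime (r / q₁) q₁ then
        -((q₁ / Nat.totient q₁ : ℝ) : ℂ) * ((1 + χ (-1)) * (chr χ h : ℂ)) *
          ((mr (r / q₁) * cR (r / q₁) h : ℝ) : ℂ) else 0 := by
  have a1 := s13b_xi h1 h2 q₁ χ hχ r hr (-(h : ℤ))
  have a2 := s13b_xi h1 h2 q₁ χ hχ r hr (h : ℤ)
  have a3 : ∑ c ∈ Cd r, (starRingEnd ℂ) (xi χ c r) * e ((h : ℝ) * (c / r)) =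
      (starRingEnd ℂ) (∑ c ∈ Cd r, xi χ c r * e (-(((h : ℤ) : ℝ) * (c / r)))) := by
    rw [map_sum]
    refine sum_congr rfl fun c _ => ?_
    rw [map_mul, ← e_neg, neg_neg]
    simp
  have a4 : ∑ c ∈ Cd r, xi χ c r * e ((h : ℝ) * (c / r)) =
      ∑ c ∈ Cd r, xi χ c r * e (-(((-(h : ℤ) : ℤ) : ℝ) * (c / r))) := by
    refine sum_congr rfl fun c _ => ?_
    congr 2
    push_cast
    ring
  simp only [add_mul, sum_add_distrib]
  rw [a3, a4, a1, a2]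
  split_ifs with hc
  · rw [s13b_cZ_neg, s13b_neg h2 q₁ χ hχ, P13b_cR, RingHom.map_mul, RingHom.map_mul,
      RingHom.map_neg, Complex.conj_ofReal, Complex.conj_ofReal, Complex.conj_ofReal]
    ring
  · simp

/-- the square term of one denominator -/
theorem s13b_sq (h2 : G2) (q₁ : ℕ) (χ : DirichletCharacter ℂ q₁) (hχ : Qd χ) (r : ℕ)
    (hr : 1 ≤ r) (h : ℕ) (hh : 1 ≤ h) :
    ∑ c ∈ Cd r, xi χ c r * (starRingEnd ℂ) (xi χ c r) * e ((h : ℝ) * (c / r)) =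
      if q₁ ∣ r ∧ Nat.Coprime (r / q₁) q₁ then
        (((q₁ / (Nat.totient q₁ : ℝ) ^ 2) * cR q₁ h * (mr (r / q₁) ^ 2 * cR (r / q₁) h) : ℝ) : ℂ)
          else 0 := by
  classical
  by_cases hc : q₁ ∣ r ∧ Nat.Coprime (r / q₁) q₁
  · rw [if_pos hc]
    obtain ⟨⟨m, rfl⟩, hco⟩ := hc
    obtain ⟨-, htau, hq3, hreal, -⟩ := h2 q₁ χ hχ
    have hq0 : 0 < q₁ := by omega
    rw [Nat.mul_div_cancel_left m hq0] at hco ⊢
    have hm : 1 ≤ m := Nat.pos_of_ne_zero (fun h => by subst h; simp at hr)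
    have hcop : Nat.Coprime q₁ m := hco.symm
    have hcR : cR (q₁ * m) h = cR q₁ h * cR m h := by
      rw [p14a_cR hh hr, p14a_cR hh hq0, p14a_cR hh hm]
      exact (p14a_C_mult h hh).2 hcop
    by_cases hsq : Squarefree m
    · have hxi : ∀ c ∈ Cd (q₁ * m), xi χ c (q₁ * m) * (starRingEnd ℂ) (xi χ c (q₁ * m)) =
          (((q₁ / (Nat.totient (q₁ * m) : ℝ) ^ 2 : ℝ)) : ℂ) := by
        intro c hcc
        have hc1 : Nat.Coprime c q₁ := by
          simp only [Cd, mem_filter] at hcc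
          exact Nat.Coprime.coprime_mul_right_right hcc.2
        rw [Complex.mul_conj, Complex.normSq_eq_norm_sq]
        congr 1
        unfold xi
        rw [Nat.mul_div_cancel_left m hq0, if_pos ⟨dvd_mul_right q₁ m, hsq, hco⟩, norm_neg,
          norm_div, norm_mul, norm_mul, norm_mul]
        have b1 : ‖((μ m : ℤ) : ℂ)‖ = 1 := by
          rw [Complex.norm_intCast]
          have := ArithmeticFunction.abs_moebius_eq_one_of_squarefree hsq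
          exact_mod_cast this
        have b2 : ∀ a : ℕ, Nat.Coprime a q₁ → ‖χ (a : ZMod q₁)‖ = 1 := by
          intro a ha
          have hu : IsUnit (a : ZMod q₁) := (ZMod.isUnit_iff_coprime a q₁).2 ha
          exact χ.unit_norm_eq_one hu.unit
        rw [b1, b2 m hco, b2 c hc1, one_mul, one_mul, one_mul, div_pow, htau, Complex.norm_natCast]
      rw [sum_congr rfl fun c hcc => by rw [hxi c hcc], ← mul_sum, s13b_cR _ hr, hcR,
        ← Complex.ofReal_mul]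
      congr 1
      rw [Nat.totient_mul hcop]
      have hφ1 : (Nat.totient q₁ : ℝ) ≠ 0 := by
        exact_mod_cast (Nat.totient_pos.2 hq0).ne'
      have hφ2 : (Nat.totient m : ℝ) ≠ 0 := by
        exact_mod_cast (Nat.totient_pos.2 hm).ne'
      have b3 : mr m ^ 2 = 1 / (Nat.totient m : ℝ) ^ 2 := by
        unfold mr
        rw [div_pow]
        congr 1
        have := ArithmeticFunction.moebius_sq_eq_one_of_squarefree hsq
        exact_mod_cast this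
      rw [b3]
      push_cast
      field_simp
    · have hxi : ∀ c, xi χ c (q₁ * m) = 0 := by
        intro c
        unfold xi
        rw [Nat.mul_div_cancel_left m hq0, if_neg (fun h => hsq h.2.1)]
      rw [sum_eq_zero fun c _ => by rw [hxi c, zero_mul, zero_mul]]
      have : mr m = 0 := by
        unfold mr
        rw [ArithmeticFunction.moebius_eq_zero_of_not_squarefree hsq]
        simp
      rw [this]
      simp
  · rw [if_neg hc]
    refine sum_eq_zero fun c _ => ?_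
    unfold xi
    rw [if_neg (fun h => hc ⟨h.1, h.2.2⟩), zero_mul, zero_mul]

/-- the diagonal -/
theorem s13b_diag (h1 : G1) (h2 : G2) (q₁ : ℕ) (χ : DirichletCharacter ℂ q₁) (hχ : Qd χ) (w : ℝ)
    (K h : ℕ) (hh : 1 ≤ h) :
    ∑ r ∈ Icc 1 K, ∑ c ∈ Cd r, Wc χ w c r * (starRingEnd ℂ) (Wc χ w c r) * e (h * (c / r)) =
      ((SK K h + w ^ 2 * SX q₁ K h + w * SC χ K h : ℝ) : ℂ) := by
  classical
  obtain ⟨-, -, hq3, hreal, -⟩ := h2 q₁ χ hχ
  have hq0 : 0 < q₁ := by omega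
  have a1 : ∀ r ∈ Icc 1 K, ∑ c ∈ Cd r, Wc χ w c r * (starRingEnd ℂ) (Wc χ w c r) *
      e (h * (c / r)) = ((mr r ^ 2 * cR r h : ℝ) : ℂ) + (w : ℂ) ^ 2 *
      (if q₁ ∣ r ∧ Nat.Coprime (r / q₁) q₁ then
        (((q₁ / (Nat.totient q₁ : ℝ) ^ 2) * cR q₁ h * (mr (r / q₁) ^ 2 * cR (r / q₁) h) : ℝ) : ℂ)
          else 0) + w *
      (if q₁ ∣ r ∧ Nat.Coprime (r / q₁) q₁ then
        -((mr q₁ * (q₁ / Nat.totient q₁ : ℝ) : ℝ) : ℂ) * ((1 + χ (-1)) * (chr χ h : ℂ)) *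
          ((mr (r / q₁) ^ 2 * cR (r / q₁) h : ℝ) : ℂ) else 0) := by
    intro r hr
    rw [mem_Icc] at hr
    have b1 : (if q₁ ∣ r ∧ Nat.Coprime (r / q₁) q₁ then
        -((mr q₁ * (q₁ / Nat.totient q₁ : ℝ) : ℝ) : ℂ) * ((1 + χ (-1)) * (chr χ h : ℂ)) *
          ((mr (r / q₁) ^ 2 * cR (r / q₁) h : ℝ) : ℂ) else 0) = (mr r : ℂ) *
        (if q₁ ∣ r ∧ Nat.Coprime (r / q₁) q₁ then
        -((q₁ / Nat.totient q₁ : ℝ) : ℂ) * ((1 + χ (-1)) * (chr χ h : ℂ)) *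
          ((mr (r / q₁) * cR (r / q₁) h : ℝ) : ℂ) else 0) := by
      split_ifs with hc
      · obtain ⟨⟨m, rfl⟩, hco⟩ := hc
        rw [Nat.mul_div_cancel_left m hq0] at hco ⊢
        rw [p14a_mr_mul hco.symm]
        push_cast
        ring
      · rw [mul_zero]
    rw [b1, ← s13b_cross h1 h2 q₁ χ hχ r hr.1 h, ← s13b_sq h2 q₁ χ hχ r hr.1 h hh,
      Complex.ofReal_mul, ← s13b_cR r hr.1 h, mul_sum, mul_sum, mul_sum, mul_sum,
      ← sum_add_distrib, ← sum_add_distrib]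
    refine sum_congr rfl fun c _ => ?_
    unfold Wc
    rw [map_add, map_mul, Complex.conj_ofReal, Complex.conj_ofReal]
    push_cast
    ring
  rw [sum_congr rfl a1, sum_add_distrib, sum_add_distrib, ← mul_sum, ← mul_sum,
    s13b_re q₁ K hq0 (fun m => (((q₁ / (Nat.totient q₁ : ℝ) ^ 2) * cR q₁ h *
      (mr m ^ 2 * cR m h) : ℝ) : ℂ)),
    s13b_re q₁ K hq0 (fun m => -((mr q₁ * (q₁ / Nat.totient q₁ : ℝ) : ℝ) : ℂ) *
      ((1 + χ (-1)) * (chr χ h : ℂ)) * ((mr m ^ 2 * cR m h : ℝ) : ℂ))]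
  have a2 : ∑ m ∈ MQ1 q₁ K, (((q₁ / (Nat.totient q₁ : ℝ) ^ 2) * cR q₁ h *
      (mr m ^ 2 * cR m h) : ℝ) : ℂ) = ((SX q₁ K h : ℝ) : ℂ) := by
    unfold SX fT MQ1
    rw [mul_sum, Complex.ofReal_sum]
  have a3 : ∑ m ∈ MQ1 q₁ K, -((mr q₁ * (q₁ / Nat.totient q₁ : ℝ) : ℝ) : ℂ) *
      ((1 + χ (-1)) * (chr χ h : ℂ)) * ((mr m ^ 2 * cR m h : ℝ) : ℂ) = ((SC χ K h : ℝ) : ℂ) := by
    rw [← mul_sum, ← Complex.ofReal_sum]
    have b1 : ∑ m ∈ MQ1 q₁ K, mr m ^ 2 * cR m h = fT q₁ (K / q₁) h := rfl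
    rw [b1]
    unfold SC
    rcases s13b_pm q₁ χ hχ with hp | hp
    · rw [if_pos hp, hp]
      unfold mr
      push_cast
      ring
    · rw [if_neg (by
        rw [hp]
        norm_num), hp]
      push_cast
      ring
  rw [a2, a3]
  unfold SK
  push_cast
  ring

/-! ### the bound -/

theorem s13b_term (m h : ℕ) (hm : 1 ≤ m) : |mr m ^ 2 * cR m h| ≤ 1 := by
  rw [abs_mul, abs_pow]
  have h2 := P13b_mr_le m hm
  have h3 := P13b_cR_le m h
  have h4 : (1:ℝ) ≤ Nat.totient m := by exact_mod_cast Nat.totient_pos.mpr hm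
  have h5 : |mr m| ≤ 1 := by
    have := mul_le_mul_of_nonneg_left h4 (abs_nonneg (mr m))
    linarith
  calc |mr m| ^ 2 * |cR m h| ≤ |mr m| ^ 2 * Nat.totient m :=
        mul_le_mul_of_nonneg_left h3 (by positivity)
    _ = |mr m| * (|mr m| * Nat.totient m) := by ring
    _ ≤ 1 * 1 := mul_le_mul h5 h2 (by positivity) zero_le_one
    _ = 1 := by ring

theorem s13b_fT (q₁ K h : ℕ) (hq0 : 0 < q₁) : (q₁ : ℝ) * |fT q₁ (K / q₁) h| ≤ K := by
  have h1 : |fT q₁ (K / q₁) h| ≤ ((K / q₁ : ℕ) : ℝ) := by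
    unfold fT
    refine (abs_sum_le_sum_abs _ _).trans ?_
    have h2 : ∀ m ∈ (Icc 1 (K / q₁)).filter (fun m => Nat.Coprime m q₁), |mr m ^ 2 * cR m h| ≤ 1 := by
      intro m hm
      rw [mem_filter, mem_Icc] at hm
      exact s13b_term m h hm.1.1
    refine (sum_le_card_nsmul _ _ _ h2).trans ?_
    rw [nsmul_eq_mul, mul_one]
    have h3 : ((Icc 1 (K / q₁)).filter (fun m => Nat.Coprime m q₁)).card ≤ K / q₁ := by
      refine (card_filter_le _ _).trans ?_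
      simp
    exact_mod_cast h3
  have h4 : (q₁ : ℝ) * ((K / q₁ : ℕ) : ℝ) ≤ K := by
    exact_mod_cast Nat.mul_div_le K q₁
  exact (mul_le_mul_of_nonneg_left h1 (by positivity)).trans h4

theorem s13b_S (h2 : G2) (q₁ : ℕ) (χ : DirichletCharacter ℂ q₁) (hχ : Qd χ) (w : ℝ) (hw0 : 0 ≤ w)
    (hw1 : w ≤ 1) (K h : ℕ) :
    |SK K h + w ^ 2 * SX q₁ K h + w * SC χ K h| ≤ 4 * K := by
  obtain ⟨-, -, hq3, hreal, -⟩ := h2 q₁ χ hχ
  have hq0 : 0 < q₁ := by omega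
  have hφ : (1:ℝ) ≤ Nat.totient q₁ := by exact_mod_cast Nat.totient_pos.mpr hq0
  have a0 := s13b_fT q₁ K h hq0
  have a1 : |SK K h| ≤ K := P13b_SK_le K h
  have a2 : |SX q₁ K h| ≤ K := by
    unfold SX
    rw [abs_mul, abs_mul, abs_of_nonneg (by positivity)]
    have b1 := P13b_cR_le q₁ h
    have b2 : (q₁ / (Nat.totient q₁ : ℝ) ^ 2) * |cR q₁ h| ≤ q₁ := by
      calc (q₁ / (Nat.totient q₁ : ℝ) ^ 2) * |cR q₁ h|
          ≤ (q₁ / (Nat.totient q₁ : ℝ) ^ 2) * Nat.totient q₁ :=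
            mul_le_mul_of_nonneg_left b1 (by positivity)
        _ = q₁ / (Nat.totient q₁ : ℝ) := by field_simp
        _ ≤ q₁ / 1 := div_le_div_of_nonneg_left (by positivity) one_pos hφ
        _ = q₁ := div_one _
    exact (mul_le_mul_of_nonneg_right b2 (abs_nonneg _)).trans a0
  have a3 : |SC χ K h| ≤ 2 * K := by
    unfold SC
    split_ifs
    · rw [abs_neg, abs_mul, abs_mul, abs_mul, abs_mul, abs_two]
      have b1 : |((μ q₁ : ℤ) : ℝ)| ≤ 1 := by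
        have := ArithmeticFunction.abs_moebius_le_one (n := q₁)
        have h2 : |((μ q₁ : ℤ) : ℝ)| = ((|μ q₁| : ℤ) : ℝ) := by rw [Int.cast_abs]
        rw [h2]
        exact_mod_cast this
      have b2 : |chr χ (h : ℤ)| ≤ 1 := (hreal h).2
      have b3 : |(q₁ / (Nat.totient q₁ : ℝ) ^ 2)| ≤ q₁ := by
        rw [abs_of_nonneg (by positivity)]
        exact div_le_self (by positivity) (by nlinarith)
      calc 2 * |((μ q₁ : ℤ) : ℝ)| * |(q₁ / (Nat.totient q₁ : ℝ) ^ 2)| * |chr χ (h : ℤ)| *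
            |fT q₁ (K / q₁) h| ≤ 2 * 1 * q₁ * 1 * |fT q₁ (K / q₁) h| := by gcongr
        _ = 2 * (q₁ * |fT q₁ (K / q₁) h|) := by ring
        _ ≤ 2 * K := by linarith
    · rw [abs_zero]
      positivity
  have a4 : |w ^ 2 * SX q₁ K h| ≤ K := by
    rw [abs_mul, abs_of_nonneg (by positivity)]
    calc w ^ 2 * |SX q₁ K h| ≤ 1 * K :=
          mul_le_mul (by nlinarith) a2 (abs_nonneg _) zero_le_one
      _ = K := one_mul _
  have a5 : |w * SC χ K h| ≤ 2 * K := by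
    rw [abs_mul, abs_of_nonneg hw0]
    calc w * |SC χ K h| ≤ 1 * (2 * K) :=
          mul_le_mul hw1 a3 (abs_nonneg _) zero_le_one
      _ = 2 * K := one_mul _
  have a6 := abs_add_le (SK K h + w ^ 2 * SX q₁ K h) (w * SC χ K h)
  have a7 := abs_add_le (SK K h) (w ^ 2 * SX q₁ K h)
  linarith

/-- the window is long -/
theorem s13b_Mw (K N : ℕ) (hR : Rg K N) : (K : ℝ) ^ 5 ≤ Mw N K := by
  have hK1 : (10:ℝ) ≤ K := by exact_mod_cast hR.hK
  have hN : (K : ℝ) ^ 400 ≤ N := by exact_mod_cast hR.hN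
  have hK0 : (0:ℝ) < K := by linarith
  have h3 : (3 : ℝ) ≤ N := by
    calc (3 : ℝ) ≤ (K : ℝ) ^ 1 := by rw [pow_one]; linarith
      _ ≤ (K : ℝ) ^ 400 := pow_le_pow_right₀ (by linarith) (by norm_num)
      _ ≤ N := hN
  have hlog : 1 ≤ Real.log N := by
    rw [Real.le_log_iff_exp_le (by linarith)]
    exact Real.exp_one_lt_d9.le.trans (by linarith)
  have h4 : (K : ℝ) ^ 5 ≤ Hw N K * Real.log N := by
    have h5 : (K : ℝ) ^ 5 ≤ Hw N K := by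
      unfold Hw
      rw [le_div_iff₀ (by positivity), ← pow_add]
      exact (pow_le_pow_right₀ (by linarith) (by norm_num)).trans hN
    have h6 : 0 ≤ Hw N K := le_trans (by positivity) h5
    nlinarith
  have h7 : K ^ 5 ≤ Mw N K := by
    unfold Mw
    refine Nat.le_floor ?_
    push_cast
    exact h4
  exact_mod_cast h7

theorem S13b_pr (h1 : G1) (h2 : G2) : S13b := by
  refine ⟨25, by norm_num, 1, fun K hK1' N hR q₁ χ w hχ hw0 hw1 h hh _ => ?_⟩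
  have hK1 : (1:ℝ) ≤ K := by exact_mod_cast hK1'
  set S : ℝ := SK K h + w ^ 2 * SX q₁ K h + w * SC χ K h with hS
  set H : ℤ → ℝ := hK χ w K with hHdef
  have hW : ∀ c r : ℕ, 1 ≤ r → ‖Wc χ w c r‖ ≤ 3 := fun c r hr =>
    ((h2 q₁ χ hχ).2.2.2.2 c r hr).2 w hw0 hw1
  have hcg : cgW χ w N K (h : ℤ) = ∑ p ∈ Iw N K ×ˢ Iw N K, ∑ p' ∈ Iw N K ×ˢ Iw N K,
      (vw N K p.1 * vw N K p.2) * (vw N K p'.1 * vw N K p'.2) *
      ∑ n ∈ Icc (max (1 - (p.1 + p.2)) (1 - (p'.1 + p'.2) - h))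
        (min ((N:ℤ) - (p.1 + p.2)) (N - (p'.1 + p'.2) - h)), H n * H (n + h) := by
    rw [← s13b_corr]
    rfl
  rw [hcg]
  have h0 : S * max 0 ((N : ℝ) - h) = ∑ p ∈ Iw N K ×ˢ Iw N K, ∑ p' ∈ Iw N K ×ˢ Iw N K,
      (vw N K p.1 * vw N K p.2) * (vw N K p'.1 * vw N K p'.2) * (S * max 0 ((N : ℝ) - h)) := by
    simp only [← sum_mul, ← mul_sum, P13b_V_sum, mul_one, one_mul]
  rw [h0]
  simp only [← sum_sub_distrib, ← mul_sub]
  have hM := s13b_Mw K N hR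
  have hfin : ∀ p ∈ Iw N K ×ˢ Iw N K, ∀ p' ∈ Iw N K ×ˢ Iw N K,
      |(∑ n ∈ Icc (max (1 - (p.1 + p.2)) (1 - (p'.1 + p'.2) - h))
        (min ((N:ℤ) - (p.1 + p.2)) (N - (p'.1 + p'.2) - h)), H n * H (n + h)) -
        S * max 0 ((N : ℝ) - h)| ≤ 25 * (K * Mw N K) := by
    intro p hp p' hp'
    simp only [mem_product, Iw, mem_Icc] at hp hp'
    set A := max (1 - (p.1 + p.2)) (1 - (p'.1 + p'.2) - (h:ℤ)) with hA
    set B := min ((N:ℤ) - (p.1 + p.2)) (N - (p'.1 + p'.2) - h) with hB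
    have e1 := s13b_int K h (Wc χ w) H hW (fun n => s13b_sum h1 h2 q₁ χ hχ w K n) A B
    rw [s13b_diag h1 h2 q₁ χ hχ w K h hh] at e1
    have e2 : |∑ n ∈ Icc A B, H n * H (n + h) - S * ((Icc A B).card : ℝ)| ≤ 9 * (K : ℝ) ^ 6 := by
      rw [← Real.norm_eq_abs, ← Complex.norm_real]
      refine le_trans (le_of_eq ?_) e1
      congr 1
      rw [hS]
      push_cast
      ring
    have h2' : |((Icc A B).card : ℝ) - max 0 ((N : ℝ) - h)| ≤ 4 * Mw N K := by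
      rw [Int.card_Icc]
      have h3 : |(((B + 1 - A).toNat : ℤ)) - max 0 ((N : ℤ) - h)| ≤ 4 * (Mw N K : ℤ) := by
        rw [abs_le]
        omega
      have h4 : (((B + 1 - A).toNat : ℝ)) - max 0 ((N : ℝ) - h)
          = ((((B + 1 - A).toNat : ℤ) - max 0 ((N : ℤ) - h) : ℤ) : ℝ) := by
        push_cast
        rfl
      rw [h4, ← Int.cast_abs]
      exact_mod_cast h3
    have h5 : |S| ≤ 4 * K := s13b_S h2 q₁ χ hχ w hw0 hw1 K h
    have h6 : (∑ n ∈ Icc A B, H n * H (n + h)) - S * max 0 ((N : ℝ) - h)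
        = ((∑ n ∈ Icc A B, H n * H (n + h)) - S * ((Icc A B).card : ℝ)) +
          S * (((Icc A B).card : ℝ) - max 0 ((N : ℝ) - h)) := by ring
    rw [h6]
    refine (abs_add_le _ _).trans ?_
    rw [abs_mul]
    have h7 : |S| * |((Icc A B).card : ℝ) - max 0 ((N : ℝ) - h)| ≤ 4 * K * (4 * Mw N K) :=
      mul_le_mul h5 h2' (abs_nonneg _) (by positivity)
    have h8 : 9 * (K : ℝ) ^ 6 ≤ 9 * (K * Mw N K) := by
      have : (K : ℝ) ^ 6 = K * (K : ℝ) ^ 5 := by ring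
      rw [this]
      have h9 := mul_le_mul_of_nonneg_left hM (by linarith : (0:ℝ) ≤ K)
      linarith
    linarith
  refine (abs_sum_le_sum_abs _ _).trans ?_
  have hV : ∀ p : ℤ × ℤ, 0 ≤ vw N K p.1 * vw N K p.2 := fun p =>
    mul_nonneg (P13b_vw_nonneg N K _) (P13b_vw_nonneg N K _)
  have h3 : ∀ p ∈ Iw N K ×ˢ Iw N K, |∑ p' ∈ Iw N K ×ˢ Iw N K,
      (vw N K p.1 * vw N K p.2) * (vw N K p'.1 * vw N K p'.2) *
      ((∑ n ∈ Icc (max (1 - (p.1 + p.2)) (1 - (p'.1 + p'.2) - h))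
        (min ((N:ℤ) - (p.1 + p.2)) (N - (p'.1 + p'.2) - h)), H n * H (n + h)) -
        S * max 0 ((N : ℝ) - h))|
      ≤ ∑ p' ∈ Iw N K ×ˢ Iw N K, (vw N K p.1 * vw N K p.2) * (vw N K p'.1 * vw N K p'.2) *
        (25 * (K * Mw N K)) := by
    intro p hp
    refine (abs_sum_le_sum_abs _ _).trans (sum_le_sum fun p' hp' => ?_)
    rw [abs_mul, abs_of_nonneg (mul_nonneg (hV p) (hV p'))]
    exact mul_le_mul_of_nonneg_left (hfin p hp p' hp') (mul_nonneg (hV p) (hV p'))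
  refine (sum_le_sum h3).trans ?_
  simp only [← sum_mul, ← mul_sum, P13b_V_sum, mul_one, one_mul]
  have h4 : (0:ℝ) ≤ (K:ℝ) ^ 5 := by positivity
  linarith

end Pool.Agent.SZ

/-! ## Block S13 (helper45) -/

namespace Pool.Agent.SZ

open Finset Pool.Agent.Var35 Pool.Agent.Var73 Pool.Agent.PV Pool.Agent.FGP
open scoped ArithmeticFunction ArithmeticFunction.Moebius

/-- the singular series for the shifts `k Q` -/
noncomputable def S13f {q₁ : ℕ} (χ : DirichletCharacter ℂ q₁) (w : ℝ) (K Q k : ℕ) : ℝ :=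
  SK K k + w ^ 2 * SX q₁ K k + w * (chr χ Q * SC χ K k)

theorem s13_fT {q K Q Z : ℕ} (hZ : Z ≤ K) (hcop : ∀ r ∈ Icc 1 K, Nat.Coprime Q r) (k : ℕ) :
    fT q Z (k * Q) = fT q Z k := by
  unfold fT
  refine Finset.sum_congr rfl fun r hr => ?_
  have hr1 := mem_Icc.1 (mem_filter.1 hr).1
  rw [p13_cR hr1.1 (hcop r (mem_Icc.2 ⟨hr1.1, hr1.2.trans hZ⟩)) k]

theorem s13_fT0 {q K : ℕ} (hK : K < q) (k : ℕ) : fT q (K / q) k = 0 := by
  unfold fT
  rw [Nat.div_eq_of_lt hK]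
  simp

theorem s13_chr (h2 : G2) {q₁ : ℕ} {χ : DirichletCharacter ℂ q₁} (hχ : Qd χ) (k Q : ℕ) :
    chr χ ((k * Q : ℕ) : ℤ) = chr χ Q * chr χ k := by
  obtain ⟨-, -, -, h3, -⟩ := h2 q₁ χ hχ
  have e1 := (h3 ((k * Q : ℕ) : ℤ)).1
  have e2 := (h3 (k : ℤ)).1
  have e3 := (h3 (Q : ℤ)).1
  have e4 : χ (((k * Q : ℕ) : ℤ) : ZMod q₁) = χ ((Q : ℤ) : ZMod q₁) * χ ((k : ℤ) : ZMod q₁) := by
    rw [← map_mul]
    congr 1
    push_cast
    ring
  rw [e1, e2, e3] at e4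
  exact_mod_cast e4

theorem s13_all (h2 : G2) {q₁ K Q : ℕ} {χ : DirichletCharacter ℂ q₁} (w : ℝ) (hχ : Qd χ)
    (hcop : ∀ r ∈ Icc 1 K, Nat.Coprime Q r) (k : ℕ) :
    SK K (k * Q) + w ^ 2 * SX q₁ K (k * Q) + w * SC χ K (k * Q) = S13f χ w K Q k := by
  have h3 : 3 ≤ q₁ := (h2 q₁ χ hχ).2.2.1
  have hS : SK K (k * Q) = SK K k := by
    unfold SK
    refine Finset.sum_congr rfl fun r hr => ?_
    rw [p13_cR (mem_Icc.1 hr).1 (hcop r hr) k]
  have hf : fT q₁ (K / q₁) (k * Q) = fT q₁ (K / q₁) k := s13_fT (Nat.div_le_self _ _) hcop k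
  have hX : SX q₁ K (k * Q) = SX q₁ K k := by
    unfold SX
    by_cases hq : q₁ ≤ K
    · rw [hf, p13_cR (by omega) (hcop q₁ (mem_Icc.2 ⟨by omega, hq⟩)) k]
    · push Not at hq
      rw [s13_fT0 hq, s13_fT0 hq]
      ring
  have hC : SC χ K (k * Q) = chr χ Q * SC χ K k := by
    unfold SC
    rw [hf]
    split_ifs with h
    · rw [s13_chr h2 hχ k Q]
      ring
    · ring
  unfold S13f
  rw [hS, hX, hC]

theorem S13_pr (ha : S13a) (hb : S13b) (h2g : G2) : S13 := by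
  obtain ⟨C1, hC1, K1, h1⟩ := hb
  refine ⟨8 * C1, by positivity, max K1 10, ?_⟩
  intro K hK N hR M hM Y hY q₁ χ w hχ hw0 hw1 Q hQ
  have hK1 : K1 ≤ K := le_trans (le_max_left _ _) hK
  have hK10 : 10 ≤ K := hR.hK
  have hKr : (10 : ℝ) ≤ K := by exact_mod_cast hK10
  have hK0 : (0 : ℝ) < K := by linarith
  have hK1r : (1 : ℝ) ≤ K := by linarith
  have hNK : (K : ℝ) ^ 400 ≤ N := by exact_mod_cast hR.hN
  have hN1 : (1 : ℝ) ≤ N := le_trans (one_le_pow₀ hK1r) hNK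
  have hN0 : (0 : ℝ) < N := by linarith
  -- `log N ≤ K`
  have hlogK : Real.log N ≤ K := by
    by_cases h : 1 ≤ Real.log N
    · exact le_trans (le_self_pow₀ h (by norm_num)) hR.hL
    · push Not at h
      linarith
  have hlog0 : 0 ≤ Real.log N := Real.log_nonneg hN1
  -- the window
  have hMw : (Mw N K : ℝ) ≤ N / (K : ℝ) ^ 7 := by
    unfold Mw Hw
    refine (Nat.floor_le (by positivity)).trans ?_
    calc (N : ℝ) / (K : ℝ) ^ 8 * Real.log N ≤ (N : ℝ) / (K : ℝ) ^ 8 * K := by gcongr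
      _ = N / (K : ℝ) ^ 7 := by field_simp
  have hMw4 : 4 * Mw N K < N := by
    have h2 : (N : ℝ) / (K : ℝ) ^ 7 ≤ N / 10 := by
      apply div_le_div_of_nonneg_left hN0.le (by norm_num)
      exact le_trans hKr (le_self_pow₀ hK1r (by norm_num))
    have h3 : (4 : ℝ) * Mw N K < N := by linarith
    exact_mod_cast h3
  -- `N ≤ K Y`
  have hYpos : (0 : ℝ) < Y := by exact_mod_cast hY.hY1
  have hNY : (N : ℝ) ≤ K * Y := by
    by_contra hcon
    push Not at hcon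
    have h2 : ((K : ℝ) * Y) ^ 16 < (N : ℝ) ^ 16 := by
      apply pow_lt_pow_left₀ hcon (by positivity) (by norm_num)
    have h3 : (N : ℝ) ^ 16 ≤ (Y : ℝ) ^ 16 * K := by exact_mod_cast hY.hY
    have h4 : (K : ℝ) ≤ (K : ℝ) ^ 16 := le_self_pow₀ hK1r (by norm_num)
    have h5 : (Y : ℝ) ^ 16 * K ≤ ((K : ℝ) * Y) ^ 16 := by
      rw [mul_pow, mul_comm]
      gcongr
    linarith
  unfold QQ at hQ
  rw [mem_filter, mem_Ioc] at hQ
  obtain ⟨⟨hYQ, _⟩, hQp⟩ := hQ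
  have hYQr : (Y : ℝ) ≤ Q := by exact_mod_cast hYQ.le
  have hQ0 : (0 : ℝ) < Q := by linarith
  have hQ1 : 1 ≤ Q := hQp.one_lt.le
  -- `K < Q`
  have hKQ : K < Q := by
    have h2 : (K : ℝ) ^ 2 * K ≤ K * Y := by
      calc (K : ℝ) ^ 2 * K = (K : ℝ) ^ 3 := by ring
        _ ≤ (K : ℝ) ^ 400 := pow_le_pow_right₀ hK1r (by norm_num)
        _ ≤ N := hNK
        _ ≤ K * Y := hNY
    have h3 : (K : ℝ) ^ 2 ≤ Y := by
      have : (K : ℝ) * (K : ℝ) ^ 2 ≤ K * Y := by linarith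
      exact le_of_mul_le_mul_left this hK0
    have h4 : (K : ℝ) < (K : ℝ) ^ 2 := by nlinarith
    have h5 : (K : ℝ) < Q := by linarith
    exact_mod_cast h5
  have hcop : ∀ r ∈ Icc 1 K, Nat.Coprime Q r := by
    intro r hr
    rw [mem_Icc] at hr
    exact Nat.coprime_of_lt_prime (by omega) (by omega) hQp
  -- the truncated sum
  have hSK : ∀ k : ℕ, SK K (k * Q) + w ^ 2 * SX q₁ K (k * Q) + w * SC χ K (k * Q) = S13f χ w K Q k := by
    intro k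
    exact s13_all h2g w hχ (fun r hr => hcop r hr) k
  have hsum : ∑ k ∈ Icc 1 (N / Q), S13f χ w K Q k * ((N : ℝ) - k * Q) =
      ∑ k ∈ Icc 1 (2 * N / Q), S13f χ w K Q k * max 0 ((N : ℝ) - (k * Q : ℕ)) := by
    have hsub : Icc 1 (N / Q) ⊆ Icc 1 (2 * N / Q) := by
      apply Icc_subset_Icc_right
      apply Nat.div_le_div_right
      omega
    rw [← Finset.sum_subset hsub]
    · refine Finset.sum_congr rfl fun k hk => ?_
      rw [mem_Icc] at hk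
      have h2 : k * Q ≤ N := (Nat.le_div_iff_mul_le (by omega)).1 hk.2
      have h3 : ((k * Q : ℕ) : ℝ) ≤ N := by exact_mod_cast h2
      rw [max_eq_right (by linarith)]
      push_cast
      ring
    · intro k hk hk2
      rw [mem_Icc] at hk hk2
      have h2 : N < k * Q := by
        by_contra h3
        push Not at h3
        exact hk2 ⟨hk.1, (Nat.le_div_iff_mul_le (by omega)).2 h3⟩
      have h3 : (N : ℝ) ≤ ((k * Q : ℕ) : ℝ) := by exact_mod_cast h2.le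
      rw [max_eq_left (by linarith), mul_zero]
  have hterm : ∀ k ∈ Icc 1 (2 * N / Q), |cgW χ w N K ((k * Q : ℕ) : ℤ) -
      S13f χ w K Q k * max 0 ((N : ℝ) - (k * Q : ℕ))| ≤ C1 * ((K : ℝ) ^ 5 + K * Mw N K) := by
    intro k hk
    rw [mem_Icc] at hk
    have h2 : k * Q ≤ 2 * N := (Nat.le_div_iff_mul_le (by omega)).1 hk.2
    have h3 : 1 ≤ k * Q := Nat.mul_pos (by omega) (by omega)
    have h4 := h1 K hK1 N hR q₁ χ w hχ hw0 hw1 (k * Q) h3 h2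
    rw [hSK k] at h4
    exact h4
  show |VA (gW χ w N K) Q - ms M (gW χ w N K) -
      2 * ∑ k ∈ Icc 1 (N / Q), S13f χ w K Q k * ((N : ℝ) - k * Q)| ≤ _
  rw [ha q₁ χ w hχ N K M Q hM hMw4 hQ1, hsum, ← mul_sub, ← Finset.sum_sub_distrib, abs_mul,
    abs_of_pos (by norm_num : (0 : ℝ) < 2)]
  have hcard : ((2 * N / Q : ℕ) : ℝ) ≤ 2 * K := by
    have h2 : ((2 * N / Q : ℕ) : ℝ) ≤ ((2 * N : ℕ) : ℝ) / Q := Nat.cast_div_le
    refine h2.trans ?_
    rw [div_le_iff₀ hQ0]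
    push_cast
    calc 2 * (N : ℝ) ≤ 2 * (K * Y) := by linarith
      _ ≤ 2 * (K * Q) := by gcongr
      _ = 2 * K * Q := by ring
  have hB : ∑ k ∈ Icc 1 (2 * N / Q), |cgW χ w N K ((k * Q : ℕ) : ℤ) -
      S13f χ w K Q k * max 0 ((N : ℝ) - (k * Q : ℕ))| ≤ 2 * K * (C1 * ((K : ℝ) ^ 5 + K * Mw N K)) := by
    calc ∑ k ∈ Icc 1 (2 * N / Q), |cgW χ w N K ((k * Q : ℕ) : ℤ) -
        S13f χ w K Q k * max 0 ((N : ℝ) - (k * Q : ℕ))|
        ≤ ∑ _k ∈ Icc 1 (2 * N / Q), C1 * ((K : ℝ) ^ 5 + K * Mw N K) :=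
          Finset.sum_le_sum hterm
      _ = ((2 * N / Q : ℕ) : ℝ) * (C1 * ((K : ℝ) ^ 5 + K * Mw N K)) := by
          rw [Finset.sum_const, Nat.card_Icc, Nat.add_sub_cancel, nsmul_eq_mul]
      _ ≤ 2 * K * (C1 * ((K : ℝ) ^ 5 + K * Mw N K)) := by gcongr
  have hK6 : (K : ℝ) ^ 6 ≤ N / K := by
    rw [le_div_iff₀ hK0]
    calc (K : ℝ) ^ 6 * K = (K : ℝ) ^ 7 := by ring
      _ ≤ (K : ℝ) ^ 400 := pow_le_pow_right₀ hK1r (by norm_num)
      _ ≤ N := hNK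
  have hKM : (K : ℝ) ^ 2 * Mw N K ≤ N / K := by
    calc (K : ℝ) ^ 2 * Mw N K ≤ (K : ℝ) ^ 2 * (N / (K : ℝ) ^ 7) := by gcongr
      _ = N / (K : ℝ) ^ 5 := by field_simp
      _ ≤ N / K := by
        apply div_le_div_of_nonneg_left hN0.le hK0
        exact le_self_pow₀ hK1r (by norm_num)
  calc 2 * |∑ k ∈ Icc 1 (2 * N / Q), (cgW χ w N K ((k * Q : ℕ) : ℤ) -
        S13f χ w K Q k * max 0 ((N : ℝ) - (k * Q : ℕ)))|
      ≤ 2 * ∑ k ∈ Icc 1 (2 * N / Q), |cgW χ w N K ((k * Q : ℕ) : ℤ) -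
        S13f χ w K Q k * max 0 ((N : ℝ) - (k * Q : ℕ))| := by
          gcongr
          exact Finset.abs_sum_le_sum_abs _ _
    _ ≤ 2 * (2 * K * (C1 * ((K : ℝ) ^ 5 + K * Mw N K))) := by gcongr
    _ = 4 * C1 * ((K : ℝ) ^ 6 + (K : ℝ) ^ 2 * Mw N K) := by ring
    _ ≤ 4 * C1 * (N / K + N / K) := by gcongr
    _ = 8 * C1 * N / K := by ring

end Pool.Agent.SZ
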