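import Pool.Agent.Lib_helper59.SZ.W
import Pool.Agent.Lib_helper26.XSF.PVI
import Pool.Agent.Lib_helper3.FGP.P13
import Pool.Agent.Lib_helper3.FGP.P14a
import Pool.Agent.Lib_helper3.FGP.P14t
import Pool.Agent.Lib_helper72.FGA.A17

/-!
# SZ: blocks C1a, C3, C5g of sd_block
-/

set_option autoImplicit false

/-! ## Block C1a (helper67) -/

namespace Pool.Agent.SZ

open Finset Pool.Agent.Var35 Pool.Agent.Var73 Pool.Agent.PV Pool.Agent.FGP
open scoped ArithmeticFunction ArithmeticFunction.Moebius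

/-- `cR d h = φ(d)` if `d ∣ h` -/
theorem c1a_cR_dvd (d h : ℕ) (hd : 1 ≤ d) (hdh : d ∣ h) : cR d h = (Nat.totient d : ℝ) := by
  obtain ⟨j, rfl⟩ := hdh
  have hd0 : (d : ℝ) ≠ 0 := by positivity
  unfold cR
  have h0 : ∀ c ∈ Cd d, Real.cos (2 * Real.pi * ((c : ℝ) * ((d * j : ℕ) : ℝ) / d)) = 1 := by
    intro c _
    have h1 : 2 * Real.pi * ((c : ℝ) * ((d * j : ℕ) : ℝ) / d) =
        ((c * j : ℕ) : ℝ) * (2 * Real.pi) := by
      push_cast
      field_simp
    rw [h1, Real.cos_nat_mul_two_pi]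
  rw [sum_congr rfl h0, sum_const, card_Cd, nsmul_eq_mul, mul_one]

/-- the terms of the series prime to `q` -/
noncomputable def c1a_a (q k m : ℕ) : ℝ := if Nat.Coprime m q then mr m ^ 2 * cR m k else 0

theorem c1a_a_abs (q k m : ℕ) : |c1a_a q k m| ≤ |mr m ^ 2 * cR m k| := by
  unfold c1a_a
  split_ifs
  · exact le_rfl
  · rw [abs_zero]
    exact abs_nonneg _

theorem c1a_a_sum (q k : ℕ) (hk : 1 ≤ k) : Summable (c1a_a q k) := by
  refine Summable.of_norm_bounded (g := fun r => ‖p14a_f k r‖) (p14a_summable hk) fun m => ?_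
  rw [Real.norm_eq_abs, Real.norm_eq_abs]
  exact c1a_a_abs q k m

theorem c1a_term (q k d m : ℕ) (hq : 1 ≤ q) (hk : 1 ≤ k) (hd : d ∣ q) :
    (if Nat.gcd (d * m) q = d then p14a_f (k * q) (d * m) else 0) =
      mr d ^ 2 * (Nat.totient d : ℝ) * c1a_a q k m := by
  have hd0 : 1 ≤ d := Nat.pos_of_dvd_of_pos hd hq
  have hkq : 1 ≤ k * q := Nat.mul_pos hk hq
  unfold c1a_a
  by_cases hc : Nat.Coprime m q
  · have hg : Nat.gcd (d * m) q = d := by
      rw [Nat.Coprime.gcd_mul_right_cancel d hc, Nat.gcd_eq_left hd]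
    have hdm : Nat.Coprime d m := (Nat.Coprime.coprime_dvd_right hd hc).symm
    rw [if_pos hg, if_pos hc, p14a_f_mul hkq hdm]
    rcases Nat.eq_zero_or_pos m with hm | hm
    · subst hm
      rw [p14a_f_zero]
      simp [mr]
    · have h1 : p14a_f (k * q) d = mr d ^ 2 * (Nat.totient d : ℝ) := by
        unfold p14a_f
        rw [c1a_cR_dvd d (k * q) hd0 (Dvd.dvd.mul_left hd k)]
      have h2 : p14a_f (k * q) m = mr m ^ 2 * cR m k := by
        unfold p14a_f
        rw [p13_cR hm hc.symm]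
      rw [h1, h2]
  · rw [if_neg hc, mul_zero]
    split_ifs with hg
    · have hns : ¬ Squarefree (d * m) := by
        intro hs
        apply hc
        rw [Nat.coprime_iff_gcd_eq_one]
        by_contra h1
        obtain ⟨p, hp, hpd⟩ := Nat.exists_prime_and_dvd h1
        have hpm : p ∣ m := hpd.trans (Nat.gcd_dvd_left m q)
        have hpq : p ∣ q := hpd.trans (Nat.gcd_dvd_right m q)
        have hpd' : p ∣ d := by
          rw [← hg]
          exact Nat.dvd_gcd (Dvd.dvd.mul_left hpm d) hpq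
        have h2 : p * p ∣ d * m := mul_dvd_mul hpd' hpm
        exact hp.one_lt.ne' (Nat.isUnit_iff.1 (hs p h2))
      unfold p14a_f mr
      rw [ArithmeticFunction.moebius_eq_zero_of_not_squarefree hns]
      simp
    · rfl

theorem c1a_tsum (q k : ℕ) (hq : 1 ≤ q) (hk : 1 ≤ k) :
    SG (k * q) = (q / Nat.totient q : ℝ) * ∑' m : ℕ, c1a_a q k m := by
  classical
  have hkq : 1 ≤ k * q := Nat.mul_pos hk hq
  have hS : Summable (fun r => ‖p14a_f (k * q) r‖) := p14a_summable hkq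
  have h1 : SG (k * q) = ∑' r : ℕ, ∑ d ∈ q.divisors,
      (if Nat.gcd r q = d then p14a_f (k * q) r else 0) := by
    unfold SG
    refine tsum_congr fun r => ?_
    rw [Finset.sum_ite_eq, if_pos]
    · rfl
    · rw [Nat.mem_divisors]
      exact ⟨Nat.gcd_dvd_right r q, by omega⟩
  have hsd : ∀ d ∈ q.divisors,
      Summable (fun r => if Nat.gcd r q = d then p14a_f (k * q) r else 0) := by
    intro d _
    refine Summable.of_norm_bounded (g := fun r => ‖p14a_f (k * q) r‖) hS fun r => ?_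
    split_ifs
    · exact le_rfl
    · rw [norm_zero]
      exact norm_nonneg _
  rw [h1, Summable.tsum_finsetSum hsd]
  have h2 : ∀ d ∈ q.divisors, ∑' r : ℕ, (if Nat.gcd r q = d then p14a_f (k * q) r else 0) =
      FGA.a17F d * ∑' m : ℕ, c1a_a q k m := by
    intro d hd
    have hdq : d ∣ q := Nat.dvd_of_mem_divisors hd
    have hd0 : 0 < d := Nat.pos_of_dvd_of_pos hdq hq
    have hinj : Function.Injective (fun m : ℕ => d * m) := fun a b hab =>
      Nat.eq_of_mul_eq_mul_left hd0 hab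
    rw [← hinj.tsum_eq (f := fun r => if Nat.gcd r q = d then p14a_f (k * q) r else 0), ← tsum_mul_left]
    · refine tsum_congr fun m => ?_
      exact c1a_term q k d m hq hk hdq
    · intro r hr
      rw [Function.mem_support] at hr
      have h3 : Nat.gcd r q = d := by
        by_contra h
        exact hr (if_neg h)
      have h4 : d ∣ r := by
        rw [← h3]
        exact Nat.gcd_dvd_left r q
      obtain ⟨m, rfl⟩ := h4
      exact ⟨m, rfl⟩
  rw [sum_congr rfl h2, ← sum_mul, FGA.a17_sum q hq]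

theorem C1a_pr (_h14 : W14a) : C1a := by
  refine ⟨162, by norm_num, fun q Z k hq hZ hk => ?_⟩
  have hφ : (0 : ℝ) < Nat.totient q := by exact_mod_cast Nat.totient_pos.2 hq
  have hq0 : (0 : ℝ) < q := by exact_mod_cast hq
  have hs := c1a_a_sum q k hk
  have h0 : (Nat.totient q / q : ℝ) * SG (k * q) = ∑' m : ℕ, c1a_a q k m := by
    rw [c1a_tsum q k hq hk]
    field_simp
  have h1 := hs.sum_add_tsum_nat_add (Z + 1)
  have h2 : fT q Z k = ∑ i ∈ range (Z + 1), c1a_a q k i := by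
    unfold fT
    rw [sum_range_succ', Finset.range_eq_Ico, Finset.sum_Ico_add' (fun i => c1a_a q k i) 0 Z 1]
    have h3 : c1a_a q k 0 = 0 := by simp [c1a_a, mr]
    rw [h3, add_zero, sum_filter]
    unfold c1a_a
    refine sum_congr ?_ fun _ _ => rfl
    ext i
    simp only [mem_Icc, mem_Ico]
    omega
  have h4 : (Nat.totient q / q : ℝ) * SG (k * q) - fT q Z k =
      ∑' i : ℕ, c1a_a q k (i + (Z + 1)) := by
    rw [h0, h2, ← h1]
    ring
  rw [h4]
  have hs' : Summable (fun i : ℕ => |c1a_a q k (i + (Z + 1))|) :=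
    ((summable_nat_add_iff (Z + 1)).2 hs).abs
  refine (Real.norm_eq_abs _ ▸ norm_tsum_le_tsum_norm (by simpa only [Real.norm_eq_abs] using hs')).trans ?_
  simp only [Real.norm_eq_abs]
  refine Real.tsum_le_of_sum_range_le (fun _ => abs_nonneg _) fun n => ?_
  exact (sum_le_sum fun i _ => c1a_a_abs q k (i + (Z + 1))).trans (p14t_part Z k n hZ hk)

end Pool.Agent.SZ

/-! ## Block C3 (helper77) -/

namespace Pool.Agent.SZ

open Finset Pool.Agent.Var35 Pool.Agent.Var73 Pool.Agent.PV Pool.Agent.FGP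
open scoped ArithmeticFunction ArithmeticFunction.Moebius

/-! ### First part -/

/-- sums over the divisors of a product of coprime numbers -/
theorem c3_sum (a b : ℕ) (hab : Nat.Coprime a b) (f : ℕ → ℕ → ℝ) :
    ∑ d ∈ (a * b).divisors, f (a * b / d) d =
      ∑ x ∈ a.divisors, ∑ y ∈ b.divisors, f (a / x * (b / y)) (x * y) := by
  rw [← Finset.sum_product', Nat.divisors_mul, Finset.mul_def, Finset.sum_image]
  · refine sum_congr rfl fun p hp => ?_
    rw [mem_product, Nat.mem_divisors, Nat.mem_divisors] at hp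
    rw [Nat.div_mul_div_comm hp.1.1 hp.2.1]
  · intro p hp p' hp' h
    simp only [coe_product, Set.mem_prod, mem_coe, Nat.mem_divisors] at hp hp'
    have h1 : p.1 = Nat.gcd (p.1 * p.2) a := by
      rw [Nat.Coprime.gcd_mul_right_cancel]
      · exact (Nat.gcd_eq_left hp.1.1).symm
      · exact (Nat.Coprime.coprime_dvd_right hp.2.1 hab).symm
    have h2 : p'.1 = Nat.gcd (p'.1 * p'.2) a := by
      rw [Nat.Coprime.gcd_mul_right_cancel]
      · exact (Nat.gcd_eq_left hp'.1.1).symm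
      · exact (Nat.Coprime.coprime_dvd_right hp'.2.1 hab).symm
    have h3 : p.2 = Nat.gcd (p.1 * p.2) b := by
      rw [Nat.Coprime.gcd_mul_left_cancel]
      · exact (Nat.gcd_eq_left hp.2.1).symm
      · exact Nat.Coprime.coprime_dvd_left hp.1.1 hab
    have h4 : p'.2 = Nat.gcd (p'.1 * p'.2) b := by
      rw [Nat.Coprime.gcd_mul_left_cancel]
      · exact (Nat.gcd_eq_left hp'.2.1).symm
      · exact Nat.Coprime.coprime_dvd_left hp'.1.1 hab
    have h' : p.1 * p.2 = p'.1 * p'.2 := h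
    ext
    · rw [h1, h2, h']
    · rw [h3, h4, h']

/-- `∑ μ(q/d) d = φ(q)` -/
theorem c3_phi (q : ℕ) (hq : 1 ≤ q) :
    ∑ d ∈ q.divisors, ((μ (q / d) : ℤ) : ℝ) * d = (Nat.totient q : ℝ) := by
  have h := (ArithmeticFunction.sum_eq_iff_sum_mul_moebius_eq
    (f := fun n => (Nat.totient n : ℝ)) (g := fun n => (n : ℝ))).1 (fun n _ => by
      have := Nat.sum_totient n
      exact_mod_cast this) q (by omega)
  rw [← h, Nat.sum_divisorsAntidiagonal' (fun a b => ((μ a : ℤ) : ℝ) * (b : ℝ))]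

theorem c3_tot (q : ℕ) (hq : 1 ≤ q) :
    ∑ d ∈ q.divisors, ((μ (q / d) : ℤ) : ℝ) * d * Real.log d =
      Nat.totient q * (Real.log q + ∑ p ∈ q.primeFactors, Real.log p / ((p : ℝ) - 1)) := by
  induction q using Nat.recOnPosPrimePosCoprime with
  | prime_pow p n hp hn =>
    obtain ⟨k, rfl⟩ : ∃ k, n = k + 1 := ⟨n - 1, by omega⟩
    have hp0 : (p : ℝ) ≠ 0 := by exact_mod_cast hp.ne_zero
    have hp1 : (p : ℝ) - 1 ≠ 0 := by
      have : (1 : ℝ) < p := by exact_mod_cast hp.one_lt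
      linarith
    rw [Nat.primeFactors_prime_pow (by omega) hp, sum_singleton,
      Nat.totient_prime_pow_succ hp, Nat.sum_divisors_prime_pow hp]
    have h1 : ∀ i ∈ range (k + 1 + 1), ((μ (p ^ (k + 1) / p ^ i) : ℤ) : ℝ) * ((p ^ i : ℕ) : ℝ) *
        Real.log ((p ^ i : ℕ) : ℝ) = ((μ (p ^ (k + 1 - i)) : ℤ) : ℝ) * (p : ℝ) ^ i *
          (i * Real.log p) := by
      intro i hi
      rw [mem_range] at hi
      rw [Nat.pow_div (by omega) hp.pos]
      push_cast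
      rw [Real.log_pow]
    rw [sum_congr rfl h1, sum_range_succ, sum_range_succ]
    have h2 : ∑ i ∈ range k, ((μ (p ^ (k + 1 - i)) : ℤ) : ℝ) * (p : ℝ) ^ i *
          (i * Real.log p) = 0 := by
      refine sum_eq_zero fun i hi => ?_
      rw [mem_range] at hi
      rw [ArithmeticFunction.moebius_apply_prime_pow hp (by omega), if_neg (by omega)]
      simp
    rw [h2]
    have h3 : k + 1 - k = 1 := by omega
    rw [h3, pow_one, ArithmeticFunction.moebius_apply_prime hp, Nat.sub_self, pow_zero,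
      ArithmeticFunction.moebius_apply_one]
    have h4 : ((p - 1 : ℕ) : ℝ) = (p : ℝ) - 1 := by
      rw [Nat.cast_sub hp.one_lt.le, Nat.cast_one]
    push_cast
    rw [h4, Real.log_pow]
    field_simp
    push_cast
    ring
  | zero => omega
  | one => simp
  | coprime a b ha hb hab iha ihb =>
    rw [c3_sum a b hab (fun x d => ((μ x : ℤ) : ℝ) * d * Real.log d)]
    have h1 : ∀ x ∈ a.divisors, ∀ y ∈ b.divisors,
        ((μ (a / x * (b / y)) : ℤ) : ℝ) * ((x * y : ℕ) : ℝ) * Real.log ((x * y : ℕ) : ℝ) =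
        (((μ (a / x) : ℤ) : ℝ) * x * Real.log x) * (((μ (b / y) : ℤ) : ℝ) * y) +
        (((μ (a / x) : ℤ) : ℝ) * x) * (((μ (b / y) : ℤ) : ℝ) * y * Real.log y) := by
      intro x hx y hy
      rw [Nat.mem_divisors] at hx hy
      have hc : Nat.Coprime (a / x) (b / y) :=
        Nat.Coprime.coprime_dvd_left (Nat.div_dvd_of_dvd hx.1)
          (Nat.Coprime.coprime_dvd_right (Nat.div_dvd_of_dvd hy.1) hab)
      rw [ArithmeticFunction.isMultiplicative_moebius.map_mul_of_coprime hc]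
      have hx0 : (x : ℝ) ≠ 0 := by
        have : x ≠ 0 := fun h => hx.2 (by rw [h] at hx; exact Nat.eq_zero_of_zero_dvd hx.1)
        exact_mod_cast this
      have hy0 : (y : ℝ) ≠ 0 := by
        have : y ≠ 0 := fun h => hy.2 (by rw [h] at hy; exact Nat.eq_zero_of_zero_dvd hy.1)
        exact_mod_cast this
      push_cast
      rw [Real.log_mul hx0 hy0]
      ring
    rw [sum_congr rfl fun x hx => sum_congr rfl fun y hy => h1 x hx y hy]
    have h2 : ∑ x ∈ a.divisors, ∑ y ∈ b.divisors,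
        ((((μ (a / x) : ℤ) : ℝ) * x * Real.log x) * (((μ (b / y) : ℤ) : ℝ) * y) +
        (((μ (a / x) : ℤ) : ℝ) * x) * (((μ (b / y) : ℤ) : ℝ) * y * Real.log y)) =
        (∑ x ∈ a.divisors, ((μ (a / x) : ℤ) : ℝ) * x * Real.log x) *
          (∑ y ∈ b.divisors, ((μ (b / y) : ℤ) : ℝ) * y) +
        (∑ x ∈ a.divisors, ((μ (a / x) : ℤ) : ℝ) * x) *
          (∑ y ∈ b.divisors, ((μ (b / y) : ℤ) : ℝ) * y * Real.log y) := by
      rw [sum_mul_sum, sum_mul_sum, ← sum_add_distrib]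
      exact sum_congr rfl fun x _ => sum_add_distrib
    rw [h2, c3_phi a (by omega), c3_phi b (by omega), iha (by omega), ihb (by omega),
      Nat.totient_mul hab, Nat.Coprime.primeFactors_mul hab,
      sum_union (Nat.Coprime.disjoint_primeFactors hab)]
    have ha0 : (a : ℝ) ≠ 0 := by
      have : a ≠ 0 := by omega
      exact_mod_cast this
    have hb0 : (b : ℝ) ≠ 0 := by
      have : b ≠ 0 := by omega
      exact_mod_cast this
    push_cast
    rw [Real.log_mul ha0 hb0]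
    ring

/-! ### Third part -/

theorem c3_tot_prod (q : ℕ) (hq : 1 ≤ q) :
    (q / Nat.totient q : ℝ) = ∏ p ∈ q.primeFactors, ((p : ℝ) / ((p : ℝ) - 1)) := by
  have h := Nat.totient_mul_prod_primeFactors q
  have h1 : ((∏ p ∈ q.primeFactors, (p - 1) : ℕ) : ℝ) = ∏ p ∈ q.primeFactors, ((p : ℝ) - 1) := by
    rw [Nat.cast_prod]
    refine prod_congr rfl fun p hp => ?_
    have := (Nat.prime_of_mem_primeFactors hp).one_lt.le
    rw [Nat.cast_sub this, Nat.cast_one]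
  have h2 : (Nat.totient q : ℝ) * ∏ p ∈ q.primeFactors, (p : ℝ) =
      q * ∏ p ∈ q.primeFactors, ((p : ℝ) - 1) := by
    rw [← h1, ← Nat.cast_prod, ← Nat.cast_mul, ← Nat.cast_mul]
    exact congrArg Nat.cast h
  have h3 : (0 : ℝ) < Nat.totient q := by exact_mod_cast Nat.totient_pos.2 (by omega)
  have h4 : (0 : ℝ) < ∏ p ∈ q.primeFactors, ((p : ℝ) - 1) := by
    refine prod_pos fun p hp => ?_
    have : (1 : ℝ) < p := by exact_mod_cast (Nat.prime_of_mem_primeFactors hp).one_lt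
    linarith
  rw [prod_div_distrib, div_eq_div_iff h3.ne' h4.ne']
  linarith

theorem c3_loc (p : ℕ) (hp : p.Prime) :
    (1 + 1 / Real.sqrt p) ^ 4 * ((p : ℝ) / ((p : ℝ) - 1)) ^ 2 ≤ 64 := by
  have h2 : (2 : ℝ) ≤ p := by exact_mod_cast hp.two_le
  have h3 : 1 ≤ Real.sqrt p := by
    rw [Real.one_le_sqrt]; linarith
  have h4 : 1 / Real.sqrt p ≤ 1 := by
    rw [div_le_one (by linarith)]; exact h3
  have h5 : 0 ≤ 1 / Real.sqrt p := by positivity
  have h6 : (p : ℝ) / ((p : ℝ) - 1) ≤ 2 := by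
    rw [div_le_iff₀ (by linarith)]; linarith
  have h7 : 0 ≤ (p : ℝ) / ((p : ℝ) - 1) := div_nonneg (by linarith) (by linarith)
  calc (1 + 1 / Real.sqrt p) ^ 4 * ((p : ℝ) / ((p : ℝ) - 1)) ^ 2
      ≤ (1 + 1) ^ 4 * 2 ^ 2 := by gcongr
    _ = 64 := by norm_num

theorem c3_ks : ∃ C : ℝ, 0 < C ∧ ∀ q : ℕ, 1 ≤ q →
    FGA.ks q ^ 4 * (q / Nat.totient q : ℝ) ^ 2 ≤ C * (q : ℝ) ^ (1 / 20 : ℝ) := by
  obtain ⟨P, hP⟩ : ∃ P : ℕ, ∀ p : ℕ, P ≤ p → (64 : ℝ) ≤ (p : ℝ) ^ (1 / 20 : ℝ) := by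
    have h := (tendsto_rpow_atTop (y := (1 / 20 : ℝ)) (by norm_num)).comp
      tendsto_natCast_atTop_atTop
    have h1 := h.eventually (Filter.eventually_ge_atTop (64 : ℝ))
    obtain ⟨P, hP⟩ := Filter.eventually_atTop.1 h1
    exact ⟨P, fun p hp => hP p hp⟩
  refine ⟨64 ^ P, by positivity, fun q hq => ?_⟩
  have hq0 : q ≠ 0 := by omega
  unfold FGA.ks
  rw [c3_tot_prod q hq, ← prod_pow, ← prod_pow, ← prod_mul_distrib]
  have h1 : ∏ p ∈ q.primeFactors, ((1 + 1 / Real.sqrt p) ^ 4 * ((p : ℝ) / ((p : ℝ) - 1)) ^ 2) ≤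
      ∏ p ∈ q.primeFactors, ((if p < P then (64 : ℝ) else 1) * (p : ℝ) ^ (1 / 20 : ℝ)) := by
    refine prod_le_prod (fun p hp => ?_) (fun p hp => ?_)
    · positivity
    · have hpp := Nat.prime_of_mem_primeFactors hp
      have h2 : (1 : ℝ) ≤ p := by exact_mod_cast hpp.one_lt.le
      refine (c3_loc p hpp).trans ?_
      by_cases h3 : p < P
      · rw [if_pos h3]
        have := Real.one_le_rpow h2 (z := (1 / 20 : ℝ)) (by norm_num)
        linarith
      · rw [if_neg h3, one_mul]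
        exact hP p (by omega)
  refine h1.trans ?_
  rw [prod_mul_distrib]
  have h4 : ∏ p ∈ q.primeFactors, (if p < P then (64 : ℝ) else 1) ≤ 64 ^ P := by
    rw [prod_ite, prod_const, prod_const_one, mul_one]
    refine pow_le_pow_right₀ (by norm_num) ?_
    calc (q.primeFactors.filter (fun p => p < P)).card ≤ (range P).card :=
          card_le_card fun p hp => by
            rw [mem_filter] at hp; exact mem_range.2 hp.2
      _ = P := card_range P
  have h5 : ∏ p ∈ q.primeFactors, (p : ℝ) ^ (1 / 20 : ℝ) ≤ (q : ℝ) ^ (1 / 20 : ℝ) := by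
    rw [Real.finsetProd_rpow _ _ (fun p _ => by positivity)]
    refine Real.rpow_le_rpow (by positivity) ?_ (by norm_num)
    have h6 := Nat.le_of_dvd (by omega) (Nat.prod_primeFactors_dvd q)
    rw [← Nat.cast_prod]
    exact Nat.cast_le.2 h6
  have h7 : 0 ≤ ∏ p ∈ q.primeFactors, (p : ℝ) ^ (1 / 20 : ℝ) := by positivity
  exact mul_le_mul h4 h5 h7 (by positivity)

theorem C3_pr : C3 := by
  refine ⟨c3_tot, fun q k hq hk => ?_, c3_ks⟩
  rw [p14a_cR hk hq]
  unfold p14a_C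
  rw [ArithmeticFunction.mul_apply,
    Nat.sum_divisorsAntidiagonal' (fun a b =>
      ((ArithmeticFunction.moebius : ArithmeticFunction ℤ) : ArithmeticFunction ℝ) a *
        p14a_F k hk b), sum_filter]
  refine sum_congr rfl fun d _ => ?_
  rw [p14a_F_apply, ArithmeticFunction.intCoe_apply]
  split_ifs
  · ring
  · simp

end Pool.Agent.SZ

/-! ## Block C5g (helper70) -/

namespace Pool.Agent.SZ

open Finset Pool.Agent.Var35 Pool.Agent.Var73 Pool.Agent.PV Pool.Agent.FGP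
open scoped ArithmeticFunction ArithmeticFunction.Moebius

/-- Abel summation -/
lemma c5g_abel {f : ℕ → ℂ} {B : ℝ} (hf : ∀ y : ℕ, ‖∑ k ∈ Icc 1 y, f k‖ ≤ B) (w : ℝ) (hw : 0 ≤ w) :
    ‖∑ j ∈ Icc 1 ⌊w⌋₊, f j * ((w - j : ℝ) : ℂ)‖ ≤ B * w := by
  have hB : 0 ≤ B := (norm_nonneg _).trans (hf 0)
  have h1 : ∀ n : ℕ, ∑ j ∈ Icc 1 n, f j * ((w - j : ℝ) : ℂ) =
      ((w - n : ℝ) : ℂ) * ∑ j ∈ Icc 1 n, f j + ∑ i ∈ range n, ∑ j ∈ Icc 1 i, f j := by
    intro n
    induction n with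
    | zero => simp
    | succ n ih =>
      rw [sum_Icc_succ_top (by omega), sum_Icc_succ_top (by omega), sum_range_succ, ih]
      push_cast
      ring
  rw [h1]
  have h2 : (⌊w⌋₊ : ℝ) ≤ w := Nat.floor_le hw
  calc ‖((w - ⌊w⌋₊ : ℝ) : ℂ) * ∑ j ∈ Icc 1 ⌊w⌋₊, f j + ∑ i ∈ range ⌊w⌋₊, ∑ j ∈ Icc 1 i, f j‖
      ≤ ‖((w - ⌊w⌋₊ : ℝ) : ℂ) * ∑ j ∈ Icc 1 ⌊w⌋₊, f j‖ + ‖∑ i ∈ range ⌊w⌋₊, ∑ j ∈ Icc 1 i, f j‖ :=
        norm_add_le _ _
    _ ≤ (w - ⌊w⌋₊) * B + ∑ i ∈ range ⌊w⌋₊, B := by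
        refine add_le_add ?_ ((norm_sum_le _ _).trans (sum_le_sum fun i _ => hf i))
        rw [norm_mul, Complex.norm_real, Real.norm_eq_abs, abs_of_nonneg (by linarith)]
        exact mul_le_mul_of_nonneg_left (hf _) (by linarith)
    _ = B * w := by rw [sum_const, card_range, nsmul_eq_mul]; ring

/-- the multiples of `d` -/
lemma c5g_mult (d n : ℕ) (hd : 1 ≤ d) : (Icc 1 n).filter (fun k => d ∣ k) =
    (Icc 1 (n / d)).image (fun j => d * j) := by
  ext a
  rw [mem_filter, mem_Icc, mem_image]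
  constructor
  · rintro ⟨⟨h1, h2⟩, j, rfl⟩
    refine ⟨j, ?_, rfl⟩
    rw [mem_Icc, Nat.le_div_iff_mul_le hd]
    refine ⟨Nat.pos_of_ne_zero ?_, by rw [mul_comm]; exact h2⟩
    rintro rfl
    simp at h1
  · rintro ⟨j, hj, rfl⟩
    rw [mem_Icc, Nat.le_div_iff_mul_le hd] at hj
    exact ⟨⟨Nat.mul_pos hd hj.1, by rw [mul_comm]; exact hj.2⟩, Dvd.intro j rfl⟩

/-- the sum over the multiples of `d` -/
lemma c5g_T {q : ℕ} (χ : DirichletCharacter ℂ q) {B : ℝ}
    (hf : ∀ y : ℕ, ‖∑ k ∈ Icc 1 y, χ (k : ZMod q)‖ ≤ B) (d : ℕ) (hd : 1 ≤ d) (z : ℝ) (hz : 0 ≤ z) :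
    ‖∑ k ∈ Icc 1 ⌊z⌋₊, (if d ∣ k then χ (k : ZMod q) * ((z - k : ℝ) : ℂ) else 0)‖ ≤ B * z := by
  have hd0 : (0 : ℝ) < d := by exact_mod_cast hd
  rw [← sum_filter, c5g_mult d _ hd, sum_image (fun x _ y _ h => Nat.eq_of_mul_eq_mul_left hd h)]
  have h1 : ∑ x ∈ Icc 1 (⌊z⌋₊ / d), χ ((d * x : ℕ) : ZMod q) * ((z - (d * x : ℕ) : ℝ) : ℂ) =
      (χ (d : ZMod q) * (d : ℂ)) * ∑ x ∈ Icc 1 ⌊z / d⌋₊, χ (x : ZMod q) * ((z / d - x : ℝ) : ℂ) := by
    rw [Nat.floor_div_natCast, mul_sum]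
    refine sum_congr rfl fun x _ => ?_
    have h2 : (z : ℝ) - (d * x : ℕ) = d * (z / d - x) := by
      push_cast
      field_simp
    rw [h2]
    push_cast
    rw [map_mul]
    ring
  rw [h1, norm_mul, norm_mul, Complex.norm_natCast]
  have h3 := c5g_abel hf (z / d) (by positivity)
  have h4 : ‖χ (d : ZMod q)‖ ≤ 1 := DirichletCharacter.norm_le_one _ _
  have hB : 0 ≤ B := (norm_nonneg _).trans (hf 0)
  calc ‖χ (d : ZMod q)‖ * d * ‖∑ x ∈ Icc 1 ⌊z / d⌋₊, χ (x : ZMod q) * ((z / d - x : ℝ) : ℂ)‖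
      ≤ 1 * d * (B * (z / d)) := by
        refine mul_le_mul (mul_le_mul_of_nonneg_right h4 hd0.le) h3 (norm_nonneg _) (by positivity)
    _ = B * z := by field_simp

/-- the Ramanujan sums -/
lemma c5g_cR (m k : ℕ) (hm : 1 ≤ m) : cR m k =
    ∑ c ∈ m.divisors, ((μ (m / c) : ℤ) : ℝ) * (if c ∣ k then (c : ℝ) else 0) := by
  rw [p14t_cR, ram_eq m hm]
  obtain ⟨F, hF⟩ : ∃ F : ℕ → ℂ, ∀ c : ℕ, F c = ((μ (m / c) : ℤ) : ℂ) *
        (if ((c : ℕ) : ℤ) ∣ (k : ℤ) then ((c : ℕ) : ℂ) else 0) := ⟨_, fun _ => rfl⟩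
  have h2 : ∑ d ∈ m.divisors, ((μ d : ℤ) : ℂ) *
      (if ((m / d : ℕ) : ℤ) ∣ (k : ℤ) then ((m / d : ℕ) : ℂ) else 0) =
      ∑ d ∈ m.divisors, F (m / d) := by
    refine sum_congr rfl fun d hd => ?_
    rw [hF, Nat.div_div_self (Nat.dvd_of_mem_divisors hd) (by omega)]
  rw [h2, Nat.sum_div_divisors m F, Complex.re_sum]
  refine sum_congr rfl fun c _ => ?_
  rw [hF]
  by_cases h : c ∣ k
  · rw [if_pos h, if_pos (by exact_mod_cast h)]
    have : ((μ (m / c) : ℤ) : ℂ) * (c : ℂ) = ((((μ (m / c) : ℤ) : ℝ) * (c : ℝ) : ℝ) : ℂ) := by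
      push_cast; rfl
    rw [this, Complex.ofReal_re]
  · rw [if_neg h, if_neg (by exact_mod_cast h)]
    simp

/-- `mr` of a product -/
lemma c5g_mr (c m : ℕ) : mr (c * m) ^ 2 ≤ mr c ^ 2 * mr m ^ 2 := by
  by_cases hs : Squarefree (c * m)
  · have hcop : Nat.Coprime c m := Nat.coprime_of_squarefree_mul hs
    unfold mr
    rw [ArithmeticFunction.isMultiplicative_moebius.map_mul_of_coprime hcop,
      Nat.totient_mul hcop]
    push_cast
    rw [← mul_pow, div_mul_div_comm]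
  · have h1 : mr (c * m) = 0 := by
      unfold mr
      rw [ArithmeticFunction.moebius_eq_zero_of_not_squarefree hs]
      simp
    rw [h1]
    have h2 : 0 ≤ mr c ^ 2 * mr m ^ 2 := mul_nonneg (sq_nonneg _) (sq_nonneg _)
    simpa using h2

/-- the squares -/
lemma c5g_mr1 (r : ℕ) (hr : 1 ≤ r) : mr r ^ 2 ≤ 81 * (1 / (r * Real.sqrt r)) := by
  have hr1 : (1 : ℝ) ≤ r := by exact_mod_cast hr
  have hs1 : 1 ≤ Real.sqrt r := Real.one_le_sqrt.2 hr1
  have hphi : (0 : ℝ) < Nat.totient r := by exact_mod_cast Nat.totient_pos.2 hr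
  have h2 : mr r ^ 2 ≤ 1 / (Nat.totient r : ℝ) ^ 2 := by
    unfold mr
    rw [div_pow]
    refine div_le_div_of_nonneg_right ?_ (by positivity)
    have := ArithmeticFunction.abs_moebius_le_one (n := r)
    have h3 : |((μ r : ℤ) : ℝ)| ≤ 1 := by exact_mod_cast this
    rw [← sq_abs]
    exact pow_le_one₀ (abs_nonneg _) h3
  refine h2.trans ?_
  rw [mul_one_div, div_le_div_iff₀ (by positivity) (by positivity), one_mul]
  exact p14t_phi r hr

lemma c5g_sum1 (Z : ℕ) : ∑ m ∈ Icc 1 Z, mr m ^ 2 ≤ 243 := by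
  have h1 : ∀ n : ℕ, ∑ m ∈ Icc 1 (n + 1), 1 / ((m : ℝ) * Real.sqrt m) ≤
      3 - 2 * (1 / Real.sqrt ((n + 1 : ℕ) : ℝ)) := by
    intro n
    induction n with
    | zero => simp; norm_num
    | succ n ih =>
      rw [sum_Icc_succ_top (by omega)]
      have h2 := p14t_tel (n + 1) (by omega)
      linarith
  have h3 : ∑ m ∈ Icc 1 Z, 1 / ((m : ℝ) * Real.sqrt m) ≤ 3 := by
    rcases Z with _ | n
    · simp
    · refine (h1 n).trans ?_
      have : 0 ≤ 1 / Real.sqrt ((n + 1 : ℕ) : ℝ) := by positivity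
      linarith
  calc ∑ m ∈ Icc 1 Z, mr m ^ 2 ≤ ∑ m ∈ Icc 1 Z, 81 * (1 / ((m : ℝ) * Real.sqrt m)) :=
        sum_le_sum fun m hm => c5g_mr1 m (mem_Icc.1 hm).1
    _ = 81 * ∑ m ∈ Icc 1 Z, 1 / ((m : ℝ) * Real.sqrt m) := by rw [mul_sum]
    _ ≤ 243 := by linarith

/-- `c / φ(c)²` -/
lemma c5g_phi (c n : ℕ) (hc : 1 ≤ c) (hcn : c ≤ n) :
    (c : ℝ) * (1 / (Nat.totient c : ℝ) ^ 2) ≤ (2 * Real.log n + 1) ^ 2 * (1 / c) := by
  have hc0 : (0 : ℝ) < c := by exact_mod_cast hc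
  have hphi : (0 : ℝ) < Nat.totient c := by exact_mod_cast Nat.totient_pos.2 hc
  have h1 := totient_ge c hc
  have h2 : Real.log c ≤ Real.log n := Real.log_le_log hc0 (by exact_mod_cast hcn)
  have h3 : 0 ≤ Real.log c := Real.log_nonneg (by exact_mod_cast hc)
  have h4 : (c : ℝ) ≤ (2 * Real.log n + 1) * (Nat.totient c : ℝ) :=
    h1.trans (mul_le_mul_of_nonneg_right (by linarith) hphi.le)
  rw [mul_one_div, mul_one_div, div_le_div_iff₀ (by positivity) hc0]
  calc (c : ℝ) * c ≤ ((2 * Real.log n + 1) * (Nat.totient c : ℝ)) *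
        ((2 * Real.log n + 1) * (Nat.totient c : ℝ)) := mul_le_mul h4 h4 hc0.le (by positivity)
    _ = _ := by ring

lemma c5g_mr2 (c : ℕ) (hc : 1 ≤ c) : mr c ^ 2 ≤ 1 / (Nat.totient c : ℝ) ^ 2 := by
  unfold mr
  rw [div_pow]
  refine div_le_div_of_nonneg_right ?_ (by positivity)
  have := ArithmeticFunction.abs_moebius_le_one (n := c)
  have h3 : |((μ c : ℤ) : ℝ)| ≤ 1 := by exact_mod_cast this
  rw [← sq_abs]
  exact pow_le_one₀ (abs_nonneg _) h3

lemma c5g_harm (n : ℕ) : ∑ c ∈ Icc 1 n, 1 / (c : ℝ) ≤ 1 + Real.log n := by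
  have h1 := harmonic_le_one_add_log n
  have h2 : ((harmonic n : ℚ) : ℝ) = ∑ c ∈ Icc 1 n, 1 / (c : ℝ) := by
    rw [harmonic_eq_sum_Icc]
    push_cast
    exact sum_congr rfl fun _ _ => by rw [one_div]
  rw [← h2]
  exact h1

/-- Dirichlet product of non-negative functions -/
lemma c5g_conv (F G : ℕ → ℝ) (hF : ∀ n, 0 ≤ F n) (hG : ∀ n, 0 ≤ G n) (n : ℕ) :
    ∑ c ∈ Icc 1 n, ∑ d ∈ c.divisors, F d * G (c / d) ≤
      (∑ d ∈ Icc 1 n, F d) * ∑ e ∈ Icc 1 n, G e := by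
  have h1 : ∀ c ∈ Icc 1 n, ∑ d ∈ c.divisors, F d * G (c / d) =
      ∑ d ∈ Icc 1 n, (if d ∣ c then F d * G (c / d) else 0) := by
    intro c hc
    have hc1 := mem_Icc.1 hc
    rw [← sum_filter]
    refine sum_congr ?_ fun _ _ => rfl
    ext d
    rw [mem_filter, Nat.mem_divisors, mem_Icc]
    constructor
    · rintro ⟨a, b⟩
      exact ⟨⟨Nat.pos_of_dvd_of_pos a (by omega), (Nat.le_of_dvd (by omega) a).trans hc1.2⟩, a⟩
    · rintro ⟨_, a⟩
      exact ⟨a, by omega⟩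
  rw [sum_congr rfl h1, sum_comm, sum_mul]
  refine sum_le_sum fun d hd => ?_
  have hd1 := (mem_Icc.1 hd).1
  rw [← sum_filter, c5g_mult d _ hd1,
    sum_image (fun x _ y _ h => Nat.eq_of_mul_eq_mul_left hd1 h), mul_sum]
  refine (sum_le_sum (g := fun x => F d * G x) fun x _ => ?_).trans
    (sum_le_sum_of_subset_of_nonneg (Icc_subset_Icc le_rfl (Nat.div_le_self n d))
      fun x _ _ => mul_nonneg (hF _) (hG _))
  rw [Nat.mul_div_cancel_left x hd1]

lemma c5g_absmr (m : ℕ) : (Nat.totient m : ℝ) * |mr m| ≤ 1 := by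
  rcases Nat.eq_zero_or_pos m with h | h
  · subst h; simp
  have hphi : (0 : ℝ) < Nat.totient m := by exact_mod_cast Nat.totient_pos.2 h
  unfold mr
  rw [abs_div, abs_of_pos hphi, mul_div_cancel₀ _ hphi.ne']
  exact_mod_cast ArithmeticFunction.abs_moebius_le_one (n := m)

lemma c5g_mr' (c m : ℕ) : |mr (c * m)| ≤ |mr c| * |mr m| := by
  have h := c5g_mr c m
  rw [← mul_pow, sq_le_sq, abs_mul] at h
  exact h

lemma c5g_mrdiv (m : ℕ) : |mr m| * (1 / m) ≤ mr m ^ 2 := by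
  rcases Nat.eq_zero_or_pos m with h | h
  · subst h; simp [sq_nonneg]
  have hm : (0 : ℝ) < m := by exact_mod_cast h
  have hphi : (0 : ℝ) < Nat.totient m := by exact_mod_cast Nat.totient_pos.2 h
  have hle : (Nat.totient m : ℝ) ≤ m := by exact_mod_cast Nat.totient_le m
  by_cases h0 : mr m = 0
  · rw [h0]; simp
  · have hmu : (1 : ℝ) ≤ |((μ m : ℤ) : ℝ)| := by
      have h1 : μ m ≠ 0 := by
        intro h2
        apply h0
        unfold mr
        rw [h2]
        simp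
      exact_mod_cast Int.one_le_abs h1
    rw [← sq_abs, sq]
    refine mul_le_mul_of_nonneg_left ?_ (abs_nonneg _)
    unfold mr
    rw [abs_div, abs_of_pos hphi]
    exact div_le_div₀ (by positivity) hmu hphi hle

lemma c5g_sumabs (n : ℕ) : ∑ c ∈ Icc 1 n, |mr c| ≤ (1 + Real.log n) * 243 := by
  have h1 : ∀ c ∈ Icc 1 n, |mr c| ≤ ∑ d ∈ c.divisors, (1 / (d : ℝ)) * mr (c / d) ^ 2 := by
    intro c hc
    have hc1 := (mem_Icc.1 hc).1
    have hc0 : (0 : ℝ) < c := by exact_mod_cast hc1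
    have h2 : (c : ℝ) * |mr c| ≤ ∑ d ∈ c.divisors, |mr (c / d)| := by
      have h3 : (c : ℝ) = ∑ d ∈ c.divisors, (Nat.totient d : ℝ) := by
        exact_mod_cast (Nat.sum_totient c).symm
      calc (c : ℝ) * |mr c| = ∑ d ∈ c.divisors, (Nat.totient d : ℝ) * |mr c| := by
            rw [← sum_mul, ← h3]
        _ ≤ ∑ d ∈ c.divisors, |mr (c / d)| := by
            refine sum_le_sum fun d hd => ?_
            have h4 := c5g_mr' d (c / d)
            rw [Nat.mul_div_cancel' (Nat.dvd_of_mem_divisors hd)] at h4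
            calc (Nat.totient d : ℝ) * |mr c| ≤ Nat.totient d * (|mr d| * |mr (c / d)|) :=
                  mul_le_mul_of_nonneg_left h4 (Nat.cast_nonneg _)
              _ = (Nat.totient d * |mr d|) * |mr (c / d)| := by ring
              _ ≤ 1 * |mr (c / d)| := mul_le_mul_of_nonneg_right (c5g_absmr d) (abs_nonneg _)
              _ = _ := one_mul _
    calc |mr c| = (1 / c) * (c * |mr c|) := by field_simp
      _ ≤ (1 / c) * ∑ d ∈ c.divisors, |mr (c / d)| := mul_le_mul_of_nonneg_left h2 (by positivity)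
      _ = ∑ d ∈ c.divisors, (1 / c) * |mr (c / d)| := by rw [mul_sum]
      _ ≤ _ := by
        refine sum_le_sum fun d hd => ?_
        obtain ⟨e, he⟩ := Nat.dvd_of_mem_divisors hd
        have hd0 : 0 < d := Nat.pos_of_mem_divisors hd
        have he0 : 0 < e := by
          rcases Nat.eq_zero_or_pos e with h | h
          · subst h; omega
          · exact h
        have hd' : (0 : ℝ) < d := by exact_mod_cast hd0
        have he' : (0 : ℝ) < e := by exact_mod_cast he0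
        have h5 : c / d = e := by rw [he, Nat.mul_div_cancel_left e hd0]
        rw [h5]
        have h6 := c5g_mrdiv e
        have h7 : (1 / (c : ℝ)) * |mr e| = (1 / (d : ℝ)) * (|mr e| * (1 / e)) := by
          rw [he]; push_cast; field_simp
        rw [h7]
        exact mul_le_mul_of_nonneg_left h6 (by positivity)
  refine (sum_le_sum h1).trans ((c5g_conv (fun d => 1 / (d : ℝ)) (fun m => mr m ^ 2)
    (fun _ => by positivity) (fun _ => sq_nonneg _) n).trans ?_)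
  exact mul_le_mul (c5g_harm n) (c5g_sum1 n) (sum_nonneg fun _ _ => sq_nonneg _)
    (by have := Real.log_natCast_nonneg n; positivity)

lemma c5g_sum2 (n : ℕ) :
    ∑ c ∈ Icc 1 n, (c : ℝ) * mr c ^ 2 ≤ 243 * ((1 + Real.log n) * 243) := by
  have h1 : ∀ c ∈ Icc 1 n, (c : ℝ) * mr c ^ 2 ≤ ∑ d ∈ c.divisors, mr d ^ 2 * |mr (c / d)| := by
    intro c hc
    have hc1 := (mem_Icc.1 hc).1
    have h3 : (c : ℝ) = ∑ d ∈ c.divisors, (Nat.totient (c / d) : ℝ) := by
      rw [Nat.sum_div_divisors c (fun d => (Nat.totient d : ℝ))]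
      exact_mod_cast (Nat.sum_totient c).symm
    calc (c : ℝ) * mr c ^ 2 = ∑ d ∈ c.divisors, (Nat.totient (c / d) : ℝ) * mr c ^ 2 := by
          rw [← sum_mul, ← h3]
      _ ≤ _ := by
        refine sum_le_sum fun d hd => ?_
        have h4 := c5g_mr d (c / d)
        rw [Nat.mul_div_cancel' (Nat.dvd_of_mem_divisors hd)] at h4
        calc (Nat.totient (c / d) : ℝ) * mr c ^ 2
            ≤ Nat.totient (c / d) * (mr d ^ 2 * mr (c / d) ^ 2) :=
              mul_le_mul_of_nonneg_left h4 (Nat.cast_nonneg _)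
          _ = (mr d ^ 2 * |mr (c / d)|) * (Nat.totient (c / d) * |mr (c / d)|) := by
              rw [← sq_abs (mr (c / d))]; ring
          _ ≤ (mr d ^ 2 * |mr (c / d)|) * 1 :=
              mul_le_mul_of_nonneg_left (c5g_absmr _) (mul_nonneg (sq_nonneg _) (abs_nonneg _))
          _ = _ := mul_one _
  refine (sum_le_sum h1).trans ((c5g_conv (fun m => mr m ^ 2) (fun d => |mr d|)
    (fun _ => sq_nonneg _) (fun _ => abs_nonneg _) n).trans ?_)
  exact mul_le_mul (c5g_sum1 n) (c5g_sumabs n) (sum_nonneg fun _ _ => abs_nonneg _)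
    (by norm_num)

/-- the double sum -/
lemma c5g_sum3 (Z n : ℕ) :
    ∑ m ∈ Icc 1 Z, mr m ^ 2 * ∑ c ∈ m.divisors, (if c ≤ n then (c : ℝ) else 0) ≤
      243 * (243 * ((1 + Real.log n) * 243)) := by
  have h1 : ∀ m ∈ Icc 1 Z, mr m ^ 2 * ∑ c ∈ m.divisors, (if c ≤ n then (c : ℝ) else 0) =
      ∑ c ∈ Icc 1 n, (if c ∣ m then (c : ℝ) * mr m ^ 2 else 0) := by
    intro m hm
    have hm1 := (mem_Icc.1 hm).1
    rw [← sum_filter, ← sum_filter, mul_sum]
    have h2 : m.divisors.filter (fun c => c ≤ n) = (Icc 1 n).filter (fun c => c ∣ m) := by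
      ext c
      rw [mem_filter, mem_filter, Nat.mem_divisors, mem_Icc]
      constructor
      · rintro ⟨⟨a, b⟩, h⟩
        exact ⟨⟨Nat.pos_of_dvd_of_pos a (by omega), h⟩, a⟩
      · rintro ⟨⟨a, b⟩, h⟩
        exact ⟨⟨h, by omega⟩, b⟩
    rw [h2]
    exact sum_congr rfl fun c _ => by ring
  rw [sum_congr rfl h1, sum_comm]
  have h3 : ∀ c ∈ Icc 1 n, ∑ m ∈ Icc 1 Z, (if c ∣ m then (c : ℝ) * mr m ^ 2 else 0) ≤
      ((c : ℝ) * mr c ^ 2) * 243 := by
    intro c hc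
    have hc1 := (mem_Icc.1 hc).1
    rw [← sum_filter, c5g_mult c _ hc1,
      sum_image (fun x _ y _ h => Nat.eq_of_mul_eq_mul_left hc1 h)]
    calc ∑ x ∈ Icc 1 (Z / c), (c : ℝ) * mr (c * x) ^ 2
        ≤ ∑ x ∈ Icc 1 (Z / c), ((c : ℝ) * mr c ^ 2) * mr x ^ 2 := by
          refine sum_le_sum fun x _ => ?_
          have := c5g_mr c x
          calc (c : ℝ) * mr (c * x) ^ 2 ≤ c * (mr c ^ 2 * mr x ^ 2) :=
                mul_le_mul_of_nonneg_left this (Nat.cast_nonneg _)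
            _ = _ := by ring
      _ = ((c : ℝ) * mr c ^ 2) * ∑ x ∈ Icc 1 (Z / c), mr x ^ 2 := by rw [mul_sum]
      _ ≤ _ := mul_le_mul_of_nonneg_left (c5g_sum1 _) (by positivity)
  refine (sum_le_sum h3).trans ?_
  rw [← sum_mul]
  have := c5g_sum2 n
  linarith

/-- the twisted sum of `fT` -/
lemma c5g_fT {q : ℕ} (χ : DirichletCharacter ℂ q) {B : ℝ}
    (hf : ∀ y : ℕ, ‖∑ k ∈ Icc 1 y, χ (k : ZMod q)‖ ≤ B) (Z : ℕ) (z : ℝ) (hz : 1 ≤ z) :
    ‖∑ k ∈ Icc 1 ⌊z⌋₊, χ (k : ZMod q) * ((z - k : ℝ) : ℂ) * ((fT q Z k : ℝ) : ℂ)‖ ≤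
      B * z * (243 * (243 * ((1 + Real.log z) * 243))) := by
  have hB : 0 ≤ B := (norm_nonneg _).trans (hf 0)
  set n := ⌊z⌋₊ with hn
  have hn1 : 1 ≤ n := (Nat.one_le_floor_iff z).2 hz
  have hnz : (n : ℝ) ≤ z := Nat.floor_le (by linarith)
  have hlog : Real.log n ≤ Real.log z := Real.log_le_log (by exact_mod_cast hn1) hnz
  have hlog0 : 0 ≤ Real.log n := Real.log_nonneg (by exact_mod_cast hn1)
  set S := (Icc 1 Z).filter (fun m => Nat.Coprime m q) with hS
  obtain ⟨T, hT⟩ : ∃ T : ℕ → ℂ, ∀ c, T c =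
    ∑ k ∈ Icc 1 n, (if c ∣ k then χ (k : ZMod q) * ((z - k : ℝ) : ℂ) else 0) := ⟨_, fun _ => rfl⟩
  have h1 : ∑ k ∈ Icc 1 n, χ (k : ZMod q) * ((z - k : ℝ) : ℂ) * ((fT q Z k : ℝ) : ℂ) =
      ∑ m ∈ S, ((mr m ^ 2 : ℝ) : ℂ) * ∑ c ∈ m.divisors, (((μ (m / c) : ℤ) : ℂ) * (c : ℂ)) * T c := by
    have h2 : ∀ k ∈ Icc 1 n, χ (k : ZMod q) * ((z - k : ℝ) : ℂ) * ((fT q Z k : ℝ) : ℂ) =
        ∑ m ∈ S, ∑ c ∈ m.divisors, ((mr m ^ 2 : ℝ) : ℂ) * ((((μ (m / c) : ℤ) : ℂ) * (c : ℂ)) *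
          (if c ∣ k then χ (k : ZMod q) * ((z - k : ℝ) : ℂ) else 0)) := by
      intro k _
      have h3 : fT q Z k = ∑ m ∈ S, mr m ^ 2 * ∑ c ∈ m.divisors, ((μ (m / c) : ℤ) : ℝ) *
          (if c ∣ k then (c : ℝ) else 0) := by
        unfold fT
        refine sum_congr rfl fun m hm => ?_
        rw [c5g_cR m k (mem_Icc.1 (mem_filter.1 hm).1).1]
      rw [h3]
      push_cast
      rw [mul_sum]
      refine sum_congr rfl fun m _ => ?_
      rw [mul_sum, mul_sum]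
      refine sum_congr rfl fun c _ => ?_
      split_ifs
      · push_cast
        ring
      · simp
    rw [sum_congr rfl h2, sum_comm]
    refine sum_congr rfl fun m _ => ?_
    rw [sum_comm, mul_sum]
    refine sum_congr rfl fun c _ => ?_
    rw [hT, ← mul_sum, ← mul_sum]
  rw [h1]
  have h4 : ∀ c : ℕ, 1 ≤ c → ‖T c‖ ≤ if c ≤ n then B * z else 0 := by
    intro c hc
    split_ifs with h
    · rw [hT]
      exact c5g_T χ hf c hc z (by linarith)
    · rw [hT, sum_eq_zero]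
      · simp
      · intro k hk
        rw [if_neg]
        intro h5
        have := Nat.le_of_dvd (by have := (mem_Icc.1 hk).1; omega) h5
        have := (mem_Icc.1 hk).2
        omega
  calc ‖∑ m ∈ S, ((mr m ^ 2 : ℝ) : ℂ) * ∑ c ∈ m.divisors, (((μ (m / c) : ℤ) : ℂ) * (c : ℂ)) * T c‖
      ≤ ∑ m ∈ S, mr m ^ 2 * ∑ c ∈ m.divisors, (if c ≤ n then (c : ℝ) else 0) * (B * z) := by
        refine (norm_sum_le _ _).trans (sum_le_sum fun m hm => ?_)
        rw [norm_mul, Complex.norm_real, Real.norm_eq_abs, abs_of_nonneg (sq_nonneg _)]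
        refine mul_le_mul_of_nonneg_left ?_ (sq_nonneg _)
        refine (norm_sum_le _ _).trans (sum_le_sum fun c hc => ?_)
        have hc1 : 1 ≤ c := Nat.pos_of_mem_divisors hc
        rw [norm_mul, norm_mul, Complex.norm_natCast]
        have h6 : ‖((μ (m / c) : ℤ) : ℂ)‖ ≤ 1 := by
          rw [Complex.norm_intCast]
          exact_mod_cast ArithmeticFunction.abs_moebius_le_one (n := m / c)
        have h7 := h4 c hc1
        split_ifs at h7 ⊢ with h8
        · calc ‖((μ (m / c) : ℤ) : ℂ)‖ * c * ‖T c‖ ≤ 1 * c * (B * z) :=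
                mul_le_mul (mul_le_mul_of_nonneg_right h6 (Nat.cast_nonneg _)) h7
                  (norm_nonneg _) (by positivity)
            _ = c * (B * z) := by ring
        · have h9 : ‖T c‖ = 0 := le_antisymm h7 (norm_nonneg _)
          rw [h9]
          simp
    _ = (∑ m ∈ S, mr m ^ 2 * ∑ c ∈ m.divisors, (if c ≤ n then (c : ℝ) else 0)) * (B * z) := by
        rw [sum_mul]
        refine sum_congr rfl fun m _ => ?_
        rw [← sum_mul, mul_assoc]
    _ ≤ (∑ m ∈ Icc 1 Z, mr m ^ 2 * ∑ c ∈ m.divisors, (if c ≤ n then (c : ℝ) else 0)) * (B * z) := by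
        refine mul_le_mul_of_nonneg_right ?_ (by positivity)
        refine sum_le_sum_of_subset_of_nonneg (filter_subset _ _) fun m _ _ => ?_
        refine mul_nonneg (sq_nonneg _) (sum_nonneg fun c _ => ?_)
        split_ifs
        · exact Nat.cast_nonneg _
        · exact le_rfl
    _ ≤ (243 * (243 * ((1 + Real.log n) * 243))) * (B * z) :=
        mul_le_mul_of_nonneg_right (c5g_sum3 Z n) (by positivity)
    _ ≤ (243 * (243 * ((1 + Real.log z) * 243))) * (B * z) := by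
        refine mul_le_mul_of_nonneg_right ?_ (by positivity)
        linarith
    _ = _ := by ring

lemma c5g_lim (A : ℝ) {η : ℝ} (hη : 0 < η) : ∃ q₀ : ℕ, ∀ q : ℕ, q₀ ≤ q →
    A * ((2 * Real.log q + 1) ^ 3 * (Real.sqrt q * (1 / q))) ≤ η := by
  have h1 : Filter.Tendsto (fun x : ℝ => A * ((2 * Real.log x + 1) ^ 3 * (Real.sqrt x * (1 / x))))
      Filter.atTop (nhds 0) := by
    have h2 : Filter.Tendsto (fun x : ℝ => (2 * Real.log x + 1) / x ^ (1 / 6 : ℝ)) Filter.atTop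
        (nhds 0) := by
      have h3 := (isLittleO_log_rpow_atTop (show (0 : ℝ) < 1 / 6 by norm_num)).tendsto_div_nhds_zero
      have h4 := tendsto_rpow_neg_atTop (show (0 : ℝ) < 1 / 6 by norm_num)
      have h5 := (h3.const_mul 2).add h4
      simp only [mul_zero, add_zero] at h5
      refine h5.congr' ?_
      filter_upwards [Filter.eventually_gt_atTop 0] with x hx
      rw [Real.rpow_neg hx.le]
      field_simp
    have h6 := ((h2.pow 3).const_mul A)
    simp only [ne_eq, OfNat.ofNat_ne_zero, not_false_eq_true, zero_pow, mul_zero] at h6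
    refine h6.congr' ?_
    filter_upwards [Filter.eventually_gt_atTop 0] with x hx
    have h7 : (x ^ (1 / 6 : ℝ)) ^ 3 = Real.sqrt x := by
      rw [← Real.rpow_natCast, ← Real.rpow_mul hx.le, Real.sqrt_eq_rpow]
      norm_num
    have h8 := Real.mul_self_sqrt hx.le
    have h9 := Real.sqrt_pos.2 hx
    rw [div_pow, h7, div_eq_mul_inv]
    congr 2
    rw [mul_one_div, eq_div_iff hx.ne', ← h8]
    field_simp
    rw [Real.sqrt_sq h9.le]
  have h2 := (h1.comp tendsto_natCast_atTop_atTop).eventually (gt_mem_nhds hη)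
  obtain ⟨q₀, hq⟩ := Filter.eventually_atTop.1 h2
  exact ⟨q₀, fun q h => (hq q h).le⟩

theorem C5g_pr : C5g := by
  obtain ⟨C0, hC0, hpv⟩ := XS.pv
  intro η hη
  obtain ⟨q₀, hq₀⟩ := c5g_lim (2 * C0 * (243 * (243 * 243))) hη
  refine ⟨η, q₀, hη, ?_⟩
  intro q₁ χ hχ hqq K z hz1 _
  have hz0 : 0 ≤ z := by linarith
  have hlz := Real.log_nonneg hz1
  by_cases hp : χ (-1) = 1
  swap
  · have h0 : ∑ k ∈ Icc 1 ⌊z⌋₊, SC χ K k * (z - k) = 0 := by
      refine sum_eq_zero fun k _ => ?_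
      unfold SC
      rw [if_neg hp, zero_mul]
    rw [h0, abs_zero]
    positivity
  have hmem : χ.IsPrimitive ∧ χ ≠ 1 := by
    have h := hχ.1
    simp only [GA.Prm, Finset.mem_filter, Finset.mem_univ, true_and] at h
    exact h
  obtain ⟨hprim, hne⟩ := hmem
  have hq1 : 1 ≤ q₁ := hχ.2.2
  have hq0 : (0 : ℝ) < q₁ := by exact_mod_cast hq1
  have hlq0 : 0 ≤ Real.log q₁ := Real.log_nonneg (by exact_mod_cast hq1)
  have hPr : χ ∈ Pr q₁ := by
    simp only [Pr, Finset.mem_filter, Finset.mem_univ, true_and]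
    exact hprim
  have hf := hpv q₁ χ hq1 hPr hne
  set B := C0 * Real.sqrt q₁ * Real.log q₁ with hB
  have hB0 : 0 ≤ B := by positivity
  have h1 := c5g_fT χ hf (K / q₁) z hz1
  have h2 : ∑ k ∈ Icc 1 ⌊z⌋₊, SC χ K k * (z - k) =
      -(2 * ((μ q₁ : ℤ) : ℝ) * (q₁ / (Nat.totient q₁ : ℝ) ^ 2)) *
        (∑ k ∈ Icc 1 ⌊z⌋₊, χ (k : ZMod q₁) * ((z - k : ℝ) : ℂ) *
          ((fT q₁ (K / q₁) k : ℝ) : ℂ)).re := by
    rw [Complex.re_sum, mul_sum]
    refine sum_congr rfl fun k _ => ?_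
    unfold SC
    rw [if_pos hp, mul_assoc (χ (k : ZMod q₁)), ← Complex.ofReal_mul, Complex.re_mul_ofReal]
    unfold chr
    push_cast
    ring
  rw [h2, abs_mul]
  have h3 : |(∑ k ∈ Icc 1 ⌊z⌋₊, χ (k : ZMod q₁) * ((z - k : ℝ) : ℂ) *
          ((fT q₁ (K / q₁) k : ℝ) : ℂ)).re| ≤
      B * z * (243 * (243 * ((1 + Real.log z) * 243))) :=
    (Complex.abs_re_le_norm _).trans h1
  have h4 : |-(2 * ((μ q₁ : ℤ) : ℝ) * (q₁ / (Nat.totient q₁ : ℝ) ^ 2))| ≤
      2 * ((2 * Real.log q₁ + 1) ^ 2 * (1 / q₁)) := by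
    have h5 := ArithmeticFunction.abs_moebius_le_one (n := q₁)
    have h6 : |((μ q₁ : ℤ) : ℝ)| ≤ 1 := by exact_mod_cast h5
    have h7 := c5g_phi q₁ q₁ hq1 le_rfl
    rw [mul_one_div] at h7
    rw [abs_neg, abs_mul, abs_mul, abs_of_pos (by norm_num : (0 : ℝ) < 2),
      abs_of_nonneg (by positivity : (0 : ℝ) ≤ q₁ / (Nat.totient q₁ : ℝ) ^ 2)]
    calc 2 * |((μ q₁ : ℤ) : ℝ)| * (q₁ / (Nat.totient q₁ : ℝ) ^ 2)
        ≤ 2 * 1 * ((2 * Real.log q₁ + 1) ^ 2 * (1 / q₁)) :=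
          mul_le_mul (mul_le_mul_of_nonneg_left h6 (by norm_num)) h7 (by positivity) (by norm_num)
      _ = _ := by ring
  have hb : B ≤ C0 * Real.sqrt q₁ * (2 * Real.log q₁ + 1) := by
    rw [hB]
    exact mul_le_mul_of_nonneg_left (by linarith) (by positivity)
  calc |-(2 * ((μ q₁ : ℤ) : ℝ) * (q₁ / (Nat.totient q₁ : ℝ) ^ 2))| *
        |(∑ k ∈ Icc 1 ⌊z⌋₊, χ (k : ZMod q₁) * ((z - k : ℝ) : ℂ) *
          ((fT q₁ (K / q₁) k : ℝ) : ℂ)).re|
      ≤ (2 * ((2 * Real.log q₁ + 1) ^ 2 * (1 / q₁))) *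
        (B * z * (243 * (243 * ((1 + Real.log z) * 243)))) :=
        mul_le_mul h4 h3 (abs_nonneg _) (by positivity)
    _ ≤ (2 * ((2 * Real.log q₁ + 1) ^ 2 * (1 / q₁))) *
        ((C0 * Real.sqrt q₁ * (2 * Real.log q₁ + 1)) * z *
          (243 * (243 * ((1 + Real.log z) * 243)))) := by
        gcongr
    _ = (2 * C0 * (243 * (243 * 243)) * ((2 * Real.log q₁ + 1) ^ 3 * (Real.sqrt q₁ * (1 / q₁)))) *
        (z * (1 + Real.log z)) := by ring
    _ ≤ η * (z * (1 + Real.log z)) :=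
        mul_le_mul_of_nonneg_right (hq₀ q₁ hqq) (by positivity)
    _ = z * (η * Real.log z + η) := by ring

end Pool.Agent.SZ
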