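import Pool.Agent.Lib_helper59.SZ.W
import Pool.Agent.Lib_helper26.SD.Cnt
import Pool.Agent.Lib_helper99.FGA.Level

/-!
# SZ: blocks F1, F2, F3, F5 of sd_block
-/

set_option autoImplicit false

/-! ## Block F1 (helper26) -/

namespace Pool.Agent.SZ

open Finset Pool.Agent.FGP

theorem F1_pr : F1 := by
  obtain ⟨Y0, hY0, h⟩ := Pool.Agent.SD.cnt
  refine ⟨max 3 Y0, by positivity, fun Y hY => ?_⟩
  have hY1 : Y0 ≤ Y := (le_max_right _ _).trans hY
  obtain ⟨h1, h2⟩ := h Y hY1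
  have hY2 : 0 < Y / Real.log Y := by
    have : 100 ≤ Y := hY0.trans hY1
    have := Real.log_pos (by linarith : (1 : ℝ) < Y)
    positivity
  have h3 : (3 : ℝ) ≤ max 3 Y0 := le_max_left _ _
  have h4 : (0 : ℝ) ≤ (QR Y).card := Nat.cast_nonneg _
  constructor
  · have h5 : 3 * ((QR Y).card : ℝ) ≤ max 3 Y0 * (QR Y).card := by gcongr
    linarith
  · refine h2.trans ?_
    gcongr

end Pool.Agent.SZ

/-! ## Block F2 (helper67) -/

namespace Pool.Agent.SZ

open Finset Pool.Agent.Var35 Pool.Agent.Var73 Pool.Agent.PV Pool.Agent.FGP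
open scoped ArithmeticFunction ArithmeticFunction.Moebius

theorem f2_good (c₀ : ℝ) (hc₀ : 0 < c₀) (h : NS c₀) (D : ℕ) : GA.Good c₀ D := by
  intro q hq χ hχ h2 β hβ
  rw [mem_Icc] at hq
  rcases Nat.lt_or_ge q 2 with hq2 | hq2
  · have h1 : q = 1 := by omega
    subst h1
    exfalso
    have h5 : χ = default ∧ χ.IsPrimitive ∧ χ ≠ 1 := by
      simpa [GA.Prm] using hχ
    exact h5.2.2 (DirichletCharacter.level_one χ)
  · have h3 := h q χ hχ h2 β hβ
    have hq2' : (2 : ℝ) ≤ q := by exact_mod_cast hq2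
    have hqD : (q : ℝ) ≤ D := by exact_mod_cast hq.2
    have h4 : 0 < Real.log q := Real.log_pos (by linarith)
    have h5 : Real.log q ≤ Real.log D := Real.log_le_log (by linarith) hqD
    have h6 : c₀ / Real.log D ≤ c₀ / Real.log q := div_le_div_of_nonneg_left hc₀.le h4 h5
    linarith

theorem f2_main (X : ℝ) (hX : 0 ≤ X) (Q : ℕ) (hQ : Q.Prime) :
    |MTQ X Q - X * Real.log Q| ≤ 4 * X := by
  have h1 : ∑ p ∈ Q.primeFactors, Real.log (p : ℝ) / ((p : ℝ) - 1) =
      Real.log Q / ((Q : ℝ) - 1) := by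
    rw [hQ.primeFactors, sum_singleton]
  have hQ2 : (2 : ℝ) ≤ Q := by exact_mod_cast hQ.two_le
  have h2 : Real.log Q ≤ (Q : ℝ) - 1 := Real.log_le_sub_one_of_pos (by linarith)
  have h3 : Real.log Q / ((Q : ℝ) - 1) ≤ 1 := by
    rw [div_le_one (by linarith)]
    exact h2
  have h3' : 0 ≤ Real.log Q / ((Q : ℝ) - 1) :=
    div_nonneg (Real.log_nonneg (by linarith)) (by linarith)
  have h4 : Real.eulerMascheroniConstant < 2 / 3 := Real.eulerMascheroniConstant_lt_two_thirds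
  have h4' : 0 < Real.eulerMascheroniConstant := by
    have := Real.one_half_lt_eulerMascheroniConstant
    linarith
  have hpi := Real.pi_gt_three
  have hpi2 := Real.pi_lt_d2
  have h5 : Real.log (2 * Real.pi) ≤ 2 := by
    rw [Real.log_le_iff_le_exp (by positivity)]
    have h7 := Real.exp_one_gt_d9
    have h6 : Real.exp 2 = Real.exp 1 * Real.exp 1 := by
      rw [← Real.exp_add]
      norm_num
    rw [h6]
    nlinarith
  have h5' : 0 ≤ Real.log (2 * Real.pi) := Real.log_nonneg (by linarith)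
  unfold MTQ
  rw [h1]
  have e1 : X * (Real.log Q - (Real.eulerMascheroniConstant + Real.log (2 * Real.pi) +
      Real.log Q / ((Q : ℝ) - 1))) - X * Real.log Q =
      -(X * (Real.eulerMascheroniConstant + Real.log (2 * Real.pi) +
      Real.log Q / ((Q : ℝ) - 1))) := by ring
  rw [e1, abs_neg, abs_of_nonneg (mul_nonneg hX (by linarith))]
  nlinarith

/-- all the conditions on `X` -/
theorem f2_large (c B D₀ C₁ δ : ℝ) (hc : 0 < c) (hδ : 0 < δ) :
    ∃ X₀ : ℝ, ∀ X : ℝ, X₀ ≤ X → 1 < X ∧ (4 : ℝ) ^ B ≤ X ∧ Real.log X ≤ X ^ δ ∧ 2 ≤ X ^ δ ∧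
      2 ≤ X ^ (δ / c) ∧ D₀ ≤ X ^ (δ / c) ∧ Real.exp (c ^ 2 / (2 * δ)) ≤ X ^ δ ∧
      Real.exp (c ^ 2 / (2 * δ)) ≤ Real.log X ∧ C₁ ≤ X ^ (1 / 2 : ℝ) := by
  have hdc : 0 < δ / c := by positivity
  have t1 := tendsto_rpow_atTop hδ
  have t2 := tendsto_rpow_atTop hdc
  have t3 := tendsto_rpow_atTop (show (0 : ℝ) < 1 / 2 by norm_num)
  have h1 : ∀ᶠ X : ℝ in Filter.atTop, Real.log X ≤ X ^ δ := by
    have := (isLittleO_log_rpow_atTop hδ).bound (show (0 : ℝ) < 1 by norm_num)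
    filter_upwards [this, Filter.eventually_ge_atTop (1 : ℝ)] with X h2 h3
    rw [one_mul, Real.norm_eq_abs, Real.norm_eq_abs,
      abs_of_nonneg (Real.rpow_nonneg (by linarith) _)] at h2
    exact (le_abs_self _).trans h2
  have h := (Filter.eventually_gt_atTop (1 : ℝ)).and
    ((Filter.eventually_ge_atTop ((4 : ℝ) ^ B)).and (h1.and
      ((t1.eventually_ge_atTop 2).and ((t2.eventually_ge_atTop 2).and
        ((t2.eventually_ge_atTop D₀).and ((t1.eventually_ge_atTop (Real.exp (c ^ 2 / (2 * δ)))).and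
          ((Real.tendsto_log_atTop.eventually_ge_atTop (Real.exp (c ^ 2 / (2 * δ)))).and
            (t3.eventually_ge_atTop C₁))))))))
  rw [Filter.eventually_atTop] at h
  exact h

theorem F2_pr (h1 : F1) (hL : ∀ c₁ : ℝ, 0 < c₁ → FGA.LEV c₁) : F2 := by
  intro c₀ hc₀ hNS
  obtain ⟨C₁, hC₁, hF⟩ := h1
  obtain ⟨c, C, B, D₀, hc, hC, hB, hlev⟩ := hL c₀ hc₀
  set A : ℝ := 2 * C * C₁ + C + 4 with hA
  have hA0 : 0 < A := by positivity
  set c' : ℝ := min (min (c ^ 2 / 2) (1 / A)) (min (c / (2 * B)) (1 / 2)) with hc'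
  have hB0 : 0 < B := by linarith
  have hc'0 : 0 < c' := by
    refine lt_min (lt_min (by positivity) (by positivity)) (lt_min (by positivity) (by norm_num))
  have k1 : c' ≤ c ^ 2 / 2 := (min_le_left _ _).trans (min_le_left _ _)
  have k2 : c' ≤ 1 / A := (min_le_left _ _).trans (min_le_right _ _)
  have k3 : c' ≤ c / (2 * B) := (min_le_right _ _).trans (min_le_left _ _)
  have k4 : c' ≤ 1 / 2 := (min_le_right _ _).trans (min_le_right _ _)
  refine ⟨c', hc'0, fun δ hδ hδc => ?_⟩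
  obtain ⟨X₀, hX₀⟩ := f2_large c B D₀ C₁ δ hc hδ
  refine ⟨X₀, fun X hX => ?_⟩
  obtain ⟨x1, x2, x3, x4, x5, x6, x7, x8, x9⟩ := hX₀ X hX
  have hX0 : 0 < X := by linarith
  have hlX : 0 < Real.log X := Real.log_pos x1
  set E : ℝ := Real.exp (-(c ^ 2 / (2 * δ))) with hE
  have hE0 : 0 < E := Real.exp_pos _
  have hEE : E * Real.exp (c ^ 2 / (2 * δ)) = 1 := by
    rw [hE, ← Real.exp_add, neg_add_cancel, Real.exp_zero]
  -- the level
  set T : ℝ := X ^ (δ / c) with hT
  have hT0 : 0 < T := by linarith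
  set D : ℕ := ⌈T⌉₊ with hD
  have hD1 : T ≤ D := Nat.le_ceil T
  have hD2 : (D : ℝ) ≤ 2 * T := by
    have := Nat.ceil_lt_add_one hT0.le
    linarith
  have hD0 : (0 : ℝ) < D := by linarith
  have hD22 : (2 : ℝ) ≤ D := by linarith
  have hDc : X ^ δ ≤ (D : ℝ) ^ c := by
    have h2 : X ^ δ = T ^ c := by
      rw [hT, ← Real.rpow_mul hX0.le, div_mul_cancel₀ _ hc.ne']
    rw [h2]
    exact Real.rpow_le_rpow hT0.le hD1 hc.le
  have hXd0 : 0 < X ^ δ := Real.rpow_pos_of_pos hX0 _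
  have hDc' : (D : ℝ) ^ (-c) ≤ X ^ (-δ) := by
    rw [Real.rpow_neg hD0.le, Real.rpow_neg hX0.le]
    exact inv_anti₀ hXd0 hDc
  have hY : X * X ^ (-δ) = X ^ (1 - δ) := by
    rw [sub_eq_add_neg, Real.rpow_add hX0, Real.rpow_one]
  have hDB : (D : ℝ) ^ B ≤ X := by
    have h2 : (D : ℝ) ^ B ≤ (2 * T) ^ B := Real.rpow_le_rpow hD0.le hD2 hB0.le
    have h3 : (2 * T) ^ B = 2 ^ B * T ^ B := Real.mul_rpow (by norm_num) hT0.le
    have h4 : (2 : ℝ) ^ B ≤ X ^ (1 / 2 : ℝ) := by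
      have h5 : ((4 : ℝ) ^ B) ^ (1 / 2 : ℝ) ≤ X ^ (1 / 2 : ℝ) :=
        Real.rpow_le_rpow (by positivity) x2 (by norm_num)
      have h6 : ((4 : ℝ) ^ B) ^ (1 / 2 : ℝ) = 2 ^ B := by
        rw [show (4 : ℝ) = 2 ^ (2 : ℝ) by norm_num, ← Real.rpow_mul (by norm_num),
          ← Real.rpow_mul (by norm_num)]
        congr 1
        ring
      rwa [h6] at h5
    have h5 : T ^ B ≤ X ^ (1 / 2 : ℝ) := by
      rw [hT, ← Real.rpow_mul hX0.le]
      refine Real.rpow_le_rpow_of_exponent_le x1.le ?_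
      have h6 : δ ≤ c / (2 * B) := hδc.trans k3
      rw [le_div_iff₀ (by positivity)] at h6
      rw [div_mul_eq_mul_div, div_le_iff₀ hc]
      linarith
    calc (D : ℝ) ^ B ≤ 2 ^ B * T ^ B := h3 ▸ h2
      _ ≤ X ^ (1 / 2 : ℝ) * X ^ (1 / 2 : ℝ) := by gcongr
      _ = X := by
        rw [← Real.rpow_add hX0]
        norm_num
  have hXe : X ≤ Real.exp ((D : ℝ) ^ c) := by
    calc X = Real.exp (Real.log X) := (Real.exp_log hX0).symm
      _ ≤ _ := Real.exp_le_exp.2 (x3.trans hDc)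
  have hXY : X * (D : ℝ) ^ (-c) ≤ X ^ (1 - δ) := by
    rw [← hY]
    gcongr
  have hXd2 : X ^ (-δ) ≤ 1 / 2 := by
    rw [Real.rpow_neg hX0.le, ← one_div]
    exact one_div_le_one_div_of_le (by norm_num) x4
  have hY2 : X ^ (1 - δ) ≤ X / 2 := by
    rw [← hY]
    calc X * X ^ (-δ) ≤ X * (1 / 2) := by gcongr
      _ = X / 2 := by ring
  have hDD0 : D₀ ≤ (D : ℝ) := x6.trans hD1
  have hmain := (hlev D (f2_good c₀ hc₀ hNS D) hDD0).1 X (X ^ (1 - δ)) hDB hXe hXY hY2
  -- the size of `Y`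
  have hYC : C₁ ≤ X ^ (1 - δ) := by
    refine x9.trans (Real.rpow_le_rpow_of_exponent_le x1.le ?_)
    linarith [hδc.trans k4]
  obtain ⟨f1, -⟩ := hF _ hYC
  set Y : ℝ := X ^ (1 - δ) with hYdef
  have hY0 : 0 < Y := Real.rpow_pos_of_pos hX0 _
  have hY1 : 1 ≤ Y := Real.one_le_rpow x1.le (by linarith [hδc.trans k4])
  have hlY : 0 ≤ Real.log Y := Real.log_nonneg hY1
  have hE1 : Real.exp (-(c * Real.log X / Real.log D)) ≤ E := by
    rw [hE]
    apply Real.exp_le_exp.2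
    apply neg_le_neg
    have hlD : 0 < Real.log D := Real.log_pos (by linarith)
    have hlD2 : Real.log D ≤ 2 * (δ / c) * Real.log X := by
      have h2 : Real.log D ≤ Real.log (2 * T) := Real.log_le_log hD0 hD2
      have h3 : Real.log (2 * T) ≤ Real.log (T * T) := by
        apply Real.log_le_log (by positivity)
        nlinarith
      have h4 : Real.log (T * T) = 2 * (δ / c) * Real.log X := by
        rw [Real.log_mul hT0.ne' hT0.ne', hT, Real.log_rpow hX0]
        ring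
      linarith
    rw [div_le_div_iff₀ (by positivity) hlD]
    have h5 : c ^ 2 * Real.log D ≤ c ^ 2 * (2 * (δ / c) * Real.log X) := by gcongr
    have h6 : c ^ 2 * (2 * (δ / c) * Real.log X) = c * Real.log X * (2 * δ) := by
      field_simp
    linarith
  have hE2 : (D : ℝ) ^ (-c) ≤ E := by
    refine hDc'.trans ?_
    rw [Real.rpow_neg hX0.le, ← one_div, div_le_iff₀ hXd0]
    calc 1 = E * Real.exp (c ^ 2 / (2 * δ)) := hEE.symm
      _ ≤ E * X ^ δ := by gcongr
  have hE3 : 1 ≤ E * Real.log X := by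
    calc 1 = E * Real.exp (c ^ 2 / (2 * δ)) := hEE.symm
      _ ≤ E * Real.log X := by gcongr
  have hYX : (Y / X) ^ (1 / 4 : ℝ) ≤ 1 := by
    apply Real.rpow_le_one (by positivity)
    · rw [div_le_one hX0]
      linarith
    · norm_num
  -- one modulus
  have hone : ∀ Q ∈ QR Y, |V X Q - X * Real.log Q| ≤
      max 0 (|FGP.GV X Q - PV0 X Q - MTQ X Q| - C * X * (Y / X) ^ (1 / 4 : ℝ)) + (C + 4) * X := by
    intro Q hQ
    have hQp : Q.Prime := by
      unfold QR at hQ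
      rw [mem_filter] at hQ
      exact hQ.2.1
    have h2 := f2_main X hX0.le Q hQp
    have h3 : |V X Q - X * Real.log Q| ≤ |FGP.GV X Q - PV0 X Q - MTQ X Q| +
        |MTQ X Q - X * Real.log Q| := by
      unfold V
      have := abs_add_le (FGP.GV X Q - PV0 X Q - MTQ X Q) (MTQ X Q - X * Real.log Q)
      rw [sub_add_sub_cancel] at this
      exact this
    have h4 := le_max_right (0 : ℝ)
      (|FGP.GV X Q - PV0 X Q - MTQ X Q| - C * X * (Y / X) ^ (1 / 4 : ℝ))
    have h5 : C * X * (Y / X) ^ (1 / 4 : ℝ) ≤ C * X := by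
      have : 0 ≤ C * X := by positivity
      nlinarith
    linarith
  have hcard : (0 : ℝ) ≤ (QR Y).card := Nat.cast_nonneg _
  have hlYC : 0 ≤ Y / Real.log Y := by positivity
  have hexp : E ≤ Real.exp (-(c' / δ)) := by
    rw [hE]
    apply Real.exp_le_exp.2
    apply neg_le_neg
    calc c' / δ ≤ (c ^ 2 / 2) / δ := by gcongr
      _ = c ^ 2 / (2 * δ) := by
        field_simp
  have hAc : A ≤ 1 / c' := by
    rw [le_div_iff₀ hA0] at k2
    rw [le_div_iff₀ hc'0]
    linarith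
  have hPP : PP X δ = QR Y := rfl
  rw [hPP]
  calc ∑ Q ∈ QR Y, |V X Q - X * Real.log Q|
      ≤ ∑ Q ∈ QR Y, (max 0 (|FGP.GV X Q - PV0 X Q - MTQ X Q| -
          C * X * (Y / X) ^ (1 / 4 : ℝ)) + (C + 4) * X) := sum_le_sum hone
    _ = ∑ Q ∈ QR Y, max 0 (|FGP.GV X Q - PV0 X Q - MTQ X Q| - C * X * (Y / X) ^ (1 / 4 : ℝ)) +
          (QR Y).card * ((C + 4) * X) := by
        rw [sum_add_distrib, sum_const, nsmul_eq_mul]
    _ ≤ C * (Real.exp (-(c * Real.log X / Real.log D)) + (D : ℝ) ^ (-c)) * Real.log X * X *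
        (Y / Real.log Y) + (QR Y).card * ((C + 4) * X) := by linarith [hmain]
    _ ≤ C * (E + E) * Real.log X * X * (C₁ * (QR Y).card) +
        (QR Y).card * ((C + 4) * X * (E * Real.log X)) := by
        have h6 : (C + 4) * X ≤ (C + 4) * X * (E * Real.log X) :=
          le_mul_of_one_le_right (by positivity) hE3
        gcongr
    _ = A * E * (X * Real.log X) * (QR Y).card := by
        rw [hA]
        ring
    _ ≤ (1 / c') * Real.exp (-(c' / δ)) * (X * Real.log X) * (QR Y).card := by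
        gcongr

end Pool.Agent.SZ

/-! ## Block F3 (helper49) -/

namespace Pool.Agent.SZ

open Finset Pool.Agent.Var35 Pool.Agent.Var73 Pool.Agent.PV Pool.Agent.FGP
open scoped ArithmeticFunction ArithmeticFunction.Moebius

/-- `exp (-(c/δ)) ≤ 2 δ² / c²` -/
theorem f3_exp (c δ : ℝ) (hc : 0 < c) (hδ : 0 < δ) :
    Real.exp (-(c / δ)) ≤ 2 * δ ^ 2 / c ^ 2 := by
  have h0 : 0 < c / δ := div_pos hc hδ
  have h1 := Real.quadratic_le_exp_of_nonneg h0.le
  have h2 : (c / δ) ^ 2 / 2 ≤ Real.exp (c / δ) := by linarith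
  rw [Real.exp_neg]
  have h3 : 0 < (c / δ) ^ 2 / 2 := by positivity
  calc (Real.exp (c / δ))⁻¹ ≤ ((c / δ) ^ 2 / 2)⁻¹ := inv_anti₀ h3 h2
    _ = 2 * δ ^ 2 / c ^ 2 := by field_simp

theorem f3_pv0 (X : ℝ) (Q : ℕ) : 0 ≤ PV0 X Q := by
  unfold PV0
  positivity

/-- F3 -/
theorem F3_pr (_h1 : F1) : F3 := by
  intro c c' hc hc' hB
  refine ⟨min (min c' 1) (min (c ^ 2 / 8) (c' ^ 3 / 8)), by positivity, ?_⟩
  intro δ hδ hδ1
  have hd1 : δ ≤ c' := hδ1.trans ((min_le_left _ _).trans (min_le_left _ _))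
  have hd2 : δ ≤ 1 := hδ1.trans ((min_le_left _ _).trans (min_le_right _ _))
  have hd3 : δ ≤ c ^ 2 / 8 := hδ1.trans ((min_le_right _ _).trans (min_le_left _ _))
  have hd4 : δ ≤ c' ^ 3 / 8 := hδ1.trans ((min_le_right _ _).trans (min_le_right _ _))
  -- the two exponentials
  have he : Real.exp (-(c / δ)) ≤ δ / 4 := by
    refine (f3_exp c δ hc hδ).trans ?_
    rw [div_le_div_iff₀ (by positivity) (by norm_num)]
    nlinarith
  have he' : Real.exp (-(c' / δ)) ≤ c' * δ / 4 := by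
    refine (f3_exp c' δ hc' hδ).trans ?_
    rw [div_le_div_iff₀ (by positivity) (by norm_num)]
    have : δ * 8 ≤ c' ^ 3 := by linarith
    have h2 : δ * (δ * 8) ≤ δ * c' ^ 3 := mul_le_mul_of_nonneg_left this hδ.le
    nlinarith
  obtain ⟨X₀, hX⟩ := hB δ hδ hd1
  refine ⟨max X₀ (Real.exp (4 / δ)), ?_⟩
  intro X hX1
  have hXa : X₀ ≤ X := (le_max_left _ _).trans hX1
  have hXb : Real.exp (4 / δ) ≤ X := (le_max_right _ _).trans hX1
  have hXpos : 0 < X := (Real.exp_pos _).trans_le hXb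
  have hlog : 4 / δ ≤ Real.log X := by
    rw [← Real.log_exp (4 / δ)]
    exact Real.log_le_log (Real.exp_pos _) hXb
  have hlog4 : 4 ≤ δ * Real.log X := by
    rw [div_le_iff₀ hδ] at hlog
    linarith
  have hlogpos : 0 < Real.log X := lt_of_lt_of_le (by positivity) hlog
  have hsum := hX X hXa
  set S := PP X δ with hS
  set L := Real.log X with hL
  set ε := Real.exp (-(c / δ)) with hε
  have hε0 : 0 < ε := Real.exp_pos _
  classical
  -- bad primes
  set P : ℕ → Prop := fun Q : ℕ => X * (2 * Real.log Q - L) + ε * (X * L) ≤ FGP.GV X Q with hP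
  set G := S.filter P with hG
  set B := S.filter (fun Q => ¬ P Q) with hBd
  have hcard : G.card + B.card = S.card := by
    rw [hG, hBd]
    exact Finset.card_filter_add_card_filter_not (s := S) P
  have hbad : ∀ Q ∈ B, δ / 2 * (X * L) ≤ |V X Q - X * Real.log Q| := by
    intro Q hQ
    rw [hBd, Finset.mem_filter] at hQ
    obtain ⟨hQS, hQn⟩ := hQ
    rw [hS] at hQS
    unfold PP QR at hQS
    rw [Finset.mem_filter, Finset.mem_Icc] at hQS
    obtain ⟨⟨hQ1, hQ2⟩, hQp, hQ3⟩ := hQS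
    have hQpos : (0 : ℝ) < Q := by exact_mod_cast hQ1
    have hY : 0 < X ^ (1 - δ) := Real.rpow_pos_of_pos hXpos _
    have hQle : (Q : ℝ) ≤ 2 * X ^ (1 - δ) := by
      have : (Q : ℝ) ≤ (⌊2 * X ^ (1 - δ)⌋₊ : ℝ) := by exact_mod_cast hQ2
      exact this.trans (Nat.floor_le (by positivity))
    have hlQ : Real.log Q ≤ Real.log 2 + (1 - δ) * L := by
      calc Real.log Q ≤ Real.log (2 * X ^ (1 - δ)) := Real.log_le_log hQpos hQle
        _ = Real.log 2 + (1 - δ) * L := by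
            rw [Real.log_mul (by norm_num) hY.ne', Real.log_rpow hXpos]
    have hl2 : Real.log 2 ≤ 1 := by
      have := Real.log_two_lt_d9
      linarith
    have hG' : FGP.GV X Q < X * (2 * Real.log Q - L) + ε * (X * L) := not_le.mp hQn
    have hV : V X Q ≤ FGP.GV X Q := by
      unfold V
      linarith [f3_pv0 X Q]
    have hXL : 0 < X * L := mul_pos hXpos hlogpos
    have h1 : ε * (X * L) ≤ δ / 4 * (X * L) := mul_le_mul_of_nonneg_right he hXL.le
    have h2 : X * Real.log Q ≤ X * (1 + (1 - δ) * L) :=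
      mul_le_mul_of_nonneg_left (by linarith) hXpos.le
    have h3 : X * 4 ≤ X * (δ * L) := mul_le_mul_of_nonneg_left hlog4 hXpos.le
    have hneg : V X Q - X * Real.log Q ≤ -(δ / 2 * (X * L)) := by nlinarith
    have h5 : δ / 2 * (X * L) ≤ -(V X Q - X * Real.log Q) := by linarith
    exact h5.trans (neg_le_abs _)
  have hBsum : (B.card : ℝ) * (δ / 2 * (X * L)) ≤
      (1 / c') * Real.exp (-(c' / δ)) * (X * L) * S.card := by
    calc (B.card : ℝ) * (δ / 2 * (X * L)) = ∑ Q ∈ B, δ / 2 * (X * L) := by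
          rw [Finset.sum_const, nsmul_eq_mul]
      _ ≤ ∑ Q ∈ B, |V X Q - X * Real.log Q| := Finset.sum_le_sum hbad
      _ ≤ ∑ Q ∈ S, |V X Q - X * Real.log Q| :=
          Finset.sum_le_sum_of_subset_of_nonneg (Finset.filter_subset _ _)
            (fun _ _ _ => abs_nonneg _)
      _ ≤ _ := hsum
  have hXL : 0 < X * L := mul_pos hXpos hlogpos
  have hScard : (0 : ℝ) ≤ S.card := Nat.cast_nonneg _
  have hBle : (B.card : ℝ) ≤ S.card / 2 := by
    have h1 : (1 / c') * Real.exp (-(c' / δ)) ≤ δ / 4 := by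
      calc (1 / c') * Real.exp (-(c' / δ)) ≤ (1 / c') * (c' * δ / 4) :=
            mul_le_mul_of_nonneg_left he' (by positivity)
        _ = δ / 4 := by field_simp
    have h2 : (1 / c') * Real.exp (-(c' / δ)) * (X * L) * S.card ≤ δ / 4 * (X * L) * S.card :=
      mul_le_mul_of_nonneg_right (mul_le_mul_of_nonneg_right h1 hXL.le) hScard
    have h3 : (B.card : ℝ) * (δ / 2 * (X * L)) ≤ (S.card / 2 : ℝ) * (δ / 2 * (X * L)) := by
      calc (B.card : ℝ) * (δ / 2 * (X * L)) ≤ δ / 4 * (X * L) * S.card := hBsum.trans h2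
        _ = (S.card / 2 : ℝ) * (δ / 2 * (X * L)) := by ring
    exact le_of_mul_le_mul_right h3 (by positivity)
  have hGge : (S.card : ℝ) / 2 ≤ G.card := by
    have : (G.card : ℝ) + B.card = S.card := by exact_mod_cast hcard
    linarith
  have hε2 : ε ≤ 1 / 2 := by linarith
  calc ε * (S.card : ℝ) ≤ 1 / 2 * S.card := mul_le_mul_of_nonneg_right hε2 hScard
    _ = (S.card : ℝ) / 2 := by ring
    _ ≤ G.card := hGge
    _ = _ := by rw [hG]

end Pool.Agent.SZ

/-! ## Block F5 (helper31) -/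

namespace Pool.Agent.SZ

open Finset Pool.Agent.Var35 Pool.Agent.Var73 Pool.Agent.PV Pool.Agent.FGP
open scoped ArithmeticFunction ArithmeticFunction.Moebius

/-- Bertrand: a prime in `(Y, 2Y]` -/
theorem f5_bertrand (Y : ℝ) (hY : 1 ≤ Y) : 0 < (QR Y).card := by
  have h0 : 0 ≤ Y := by linarith
  have hn : ⌊Y⌋₊ ≠ 0 := by
    have := Nat.floor_pos.2 hY
    omega
  obtain ⟨p, hp, hlt, hle⟩ := Nat.exists_prime_lt_and_le_two_mul ⌊Y⌋₊ hn
  apply Finset.card_pos.2
  refine ⟨p, ?_⟩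
  unfold QR
  rw [Finset.mem_filter, Finset.mem_Icc]
  refine ⟨⟨hp.one_lt.le, ?_⟩, hp, ?_⟩
  · apply Nat.le_floor
    have h1 : (p : ℝ) ≤ 2 * (⌊Y⌋₊ : ℝ) := by exact_mod_cast hle
    have h2 := Nat.floor_le h0
    linarith
  · exact (Nat.floor_lt h0).1 hlt

theorem F5_pr : F5 := by
  intro c c' δ hc hcc hδ hδ1 hD hC
  obtain ⟨X₀, hX₀⟩ := hC
  obtain ⟨X, hX, hs⟩ := hD (max X₀ 2)
  have hXa : X₀ ≤ X := le_trans (le_max_left _ _) hX
  have hX2 : 2 ≤ X := le_trans (le_max_right _ _) hX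
  have h1 := hX₀ X hXa
  have hcard : 0 < (PP X δ).card := by
    unfold PP
    apply f5_bertrand
    apply Real.one_le_rpow (by linarith) (by linarith)
  have hcard' : (0 : ℝ) < (PP X δ).card := by exact_mod_cast hcard
  have hL : 0 < X * Real.log X := mul_pos (by linarith) (Real.log_pos (by linarith))
  set A := Real.exp (-(c / δ)) with hA
  have hApos : 0 < A := Real.exp_pos _
  set F := (PP X δ).filter (fun Q : ℕ =>
    X * (2 * Real.log Q - Real.log X) + A * (X * Real.log X) ≤ FGP.GV X Q) with hF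
  have h2 : A * (X * Real.log X) * F.card ≤
      ∑ Q ∈ PP X δ, |FGP.GV X Q - X * (2 * Real.log Q - Real.log X)| := by
    calc A * (X * Real.log X) * F.card = ∑ Q ∈ F, A * (X * Real.log X) := by
          rw [Finset.sum_const, nsmul_eq_mul]; ring
      _ ≤ ∑ Q ∈ F, |FGP.GV X Q - X * (2 * Real.log Q - Real.log X)| := by
          apply Finset.sum_le_sum
          intro Q hQ
          rw [hF, Finset.mem_filter] at hQ
          have := le_abs_self (FGP.GV X Q - X * (2 * Real.log Q - Real.log X))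
          linarith [hQ.2]
      _ ≤ ∑ Q ∈ PP X δ, |FGP.GV X Q - X * (2 * Real.log Q - Real.log X)| := by
          apply Finset.sum_le_sum_of_subset_of_nonneg
          · exact Finset.filter_subset _ _
          · intro i _ _
            exact abs_nonneg _
  have h3 : Real.exp (-(c' / δ)) < A * A := by
    rw [hA, ← Real.exp_add]
    apply Real.exp_lt_exp.2
    have : 2 * c / δ < c' / δ := by
      apply div_lt_div_of_pos_right hcc hδ
    have e : 2 * c / δ = c / δ + c / δ := by ring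
    linarith
  have h4 : A * (X * Real.log X) * (A * (PP X δ).card) ≤ A * (X * Real.log X) * F.card :=
    mul_le_mul_of_nonneg_left h1 (mul_pos hApos hL).le
  have h5 : (A * A) * ((X * Real.log X) * (PP X δ).card) ≤
      Real.exp (-(c' / δ)) * ((X * Real.log X) * (PP X δ).card) := by
    calc (A * A) * ((X * Real.log X) * (PP X δ).card)
        = A * (X * Real.log X) * (A * (PP X δ).card) := by ring
      _ ≤ Real.exp (-(c' / δ)) * (X * Real.log X) * (PP X δ).card := (h4.trans h2).trans hs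
      _ = _ := by ring
  have h6 := mul_lt_mul_of_pos_right h3 (mul_pos hL hcard')
  linarith

end Pool.Agent.SZ
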