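import Pool.Agent.Lib_helper59.SZ.M1
import Pool.Agent.Lib_helper59.SZ.M2
import Pool.Agent.Lib_helper59.SZ.M3
import Pool.Agent.Lib_helper59.SZ.M4
import Pool.Agent.Lib_helper59.SZ.M5
import Pool.Agent.Lib_helper59.SZ.M6
import Pool.Agent.Lib_helper59.SZ.Fin
import Pool.Agent.Lib_helper99.SZX.X3b
import Pool.Agent.Lib_helper99.SZX.X4
import Pool.Agent.Lib_helper59.LHM.ZA
import Pool.Agent.Lib_helper59.LHM.ZB
import Pool.Agent.Lib_helper59.LHM.ZC
import Pool.Agent.Lib_helper59.LHM.ZD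
import Pool.Agent.Lib_helper59.LHM.ZE
import Pool.Agent.Lib_helper3.FGP.FinalE
import Pool.Agent.Lib_helper99.FGA.EE
import Pool.Agent.Lib_helper99.FGA.Level
import Pool.Agent.Lib_helper67.FGA.A09
import Pool.Agent.Lib_helper10.FGA.A10
import Pool.Agent.Lib_helper85.FGA.A11

/-!
# SZ: the blocks put together
-/

set_option autoImplicit false

namespace Pool.Agent.SZ

open Pool.Agent.FGP Pool.Agent.FGA

theorem g1 : G1 := G1_pr
theorem g2 : G2 := G2_pr g1
theorem s06 : S06 := S06_pr W06_pr g1 g2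
theorem s07a : S07a := S07a_pr
theorem s07 : S07 := S07_pr s06 s07a W09_pr
theorem s07b : S07b := S07b_pr f04 s07
theorem s10 : S10 := S10_pr
theorem s08 : S08 := S08_pr f01 f04 s07 f10 s10 g2
theorem s12 : S12 := S12_pr f04 f05 s07b f10 s10 f11
theorem s16 : S16 := S16_pr f01 f04 s07b g2
theorem s13a : S13a := S13a_pr g1 g2
theorem s13b : S13b := S13b_pr g1 g2
theorem s13 : S13 := S13_pr s13a s13b g2

theorem c1a : C1a := C1a_pr W14a_pr
theorem c3 : C3 := C3_pr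

theorem a13 : FGA.A13 := by
  obtain ⟨C, hC, h⟩ := A13E_pr E14d_pr
  intro η hη
  refine ⟨C, hC, fun x hx => (h x hx).trans ?_⟩
  have : 0 ≤ η * x := by positivity
  linarith

theorem x3 : X3 := X3_pr W14a_pr A09_pr A10_pr A11_pr a13 c1a
theorem c4g : C4g := X4_pr X1_pr x3 c3
theorem c5g : C5g := C5g_pr
theorem s18p : S18p := S18p_pr s16 s13 fe14 c4g c5g f15 g2
theorem s18 : S18 := S18_pr s08 s12 s18p s10 W20_pr

theorem ze (c : ℝ) (hc : LHM.ZF c) : LHM.ZE c := by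
  have hB := LHM.WZB_pr c hc
  exact LHM.ZE_pr c f01 hB (LHM.ZD_pr c hB (LHM.ZC_pr c hc hB) f01 f02)

theorem z1 : Z1 := Z1_pr
theorem z2 : Z2 := Z2_pr z1 ze
theorem s18g : S18g := S18g_pr z2 s18

theorem f1 : F1 := F1_pr
theorem f2 : F2 := F2_pr f1 (fun c hc => lev_pr fe18 c hc)
theorem f3 : F3 := F3_pr f1
theorem f5 : F5 := F5_pr

end Pool.Agent.SZ
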