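import Pool.Agent.Lib_helper3.FGP.Wanted
import Pool.Agent.Lib_helper59.LHM.Wanted
import Pool.Agent.Lib_helper99.FGA.Wanted

/-!
# SZ: the variance of the primes in a world with Siegel zeros (MP_5dd4bb_nt). Definitions

`χ` is a primitive quadratic character modulo `q₁` whose L-function has a real zero very near `1`; then
`∑_{n ≤ N} aS(n) χ(n) e(n b)` is about `- w In N b`, `w = N ^ (β - 1)`. The exceptional term at the fraction `c / r` has the coefficient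
`xi χ c r`; `Ps = fh + gW + FW` as in FGP (`gh`, `Fh` without the exceptional term).
-/

set_option autoImplicit false

namespace Pool.Agent.SZ

open Finset Pool.Agent.Var35 Pool.Agent.Var73 Pool.Agent.PV Pool.Agent.FGP
open scoped ArithmeticFunction ArithmeticFunction.Moebius

/-! ## The exceptional character -/

/-- primitive quadratic characters -/
def Qd {q₁ : ℕ} (χ : DirichletCharacter ℂ q₁) : Prop := χ ∈ GA.Prm q₁ ∧ χ ^ 2 = 1 ∧ 1 ≤ q₁

/-- the Gauss sum -/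
noncomputable def tau {q₁ : ℕ} (χ : DirichletCharacter ℂ q₁) : ℂ :=
  ∑ a ∈ range q₁, χ (a : ZMod q₁) * e (a / q₁)

/-- the same character -/
def Same {q₁ q : ℕ} (χ : DirichletCharacter ℂ q₁) (ψ : DirichletCharacter ℂ q) : Prop :=
  q₁ = q ∧ ∀ a : ℕ, χ (a : ZMod q₁) = ψ (a : ZMod q)

open scoped Classical in
/-- the coefficient of the exceptional term at `c / r` -/
noncomputable def xi {q₁ : ℕ} (χ : DirichletCharacter ℂ q₁) (c r : ℕ) : ℂ :=
  if q₁ ∣ r ∧ Squarefree (r / q₁) ∧ Nat.Coprime (r / q₁) q₁ then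
    -(((μ (r / q₁) : ℤ) : ℂ) * χ ((r / q₁ : ℕ) : ZMod q₁) * χ (c : ZMod q₁) * tau χ /
      (Nat.totient r : ℂ)) else 0

/-- the coefficient at `c / r`; the weight `w` stands for `N ^ (β - 1)` -/
noncomputable def Wc {q₁ : ℕ} (χ : DirichletCharacter ℂ q₁) (w : ℝ) (c r : ℕ) : ℂ :=
  ((mr r : ℝ) : ℂ) + w * xi χ c r

/-! ## The decomposition `Ps = fh + gW + FW` -/

/-- the explicit part -/
noncomputable def gW {q₁ : ℕ} (χ : DirichletCharacter ℂ q₁) (w : ℝ) (N K : ℕ) (t : ℝ) : ℂ :=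
  ∑ r ∈ Icc 1 K, ∑ c ∈ Cd r, ((vh N K (t - c / r) ^ 2 : ℝ) : ℂ) * (Wc χ w c r * In N (t - c / r))

/-- `S(t) - W(c, r) I(t - c/r)` -/
noncomputable def XW {q₁ : ℕ} (χ : DirichletCharacter ℂ q₁) (w : ℝ) (N c r : ℕ) (t : ℝ) : ℂ :=
  Ps N t - Wc χ w c r * In N (t - c / r)

/-- the part controlled by the other zeros -/
noncomputable def FW {q₁ : ℕ} (χ : DirichletCharacter ℂ q₁) (w : ℝ) (N K : ℕ) (t : ℝ) : ℂ :=
  ∑ r ∈ Icc 1 K, ∑ c ∈ Cd r, ((vh N K (t - c / r) ^ 2 : ℝ) : ℂ) * XW χ w N c r t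

/-! ## The energy -/

open scoped Classical in
/-- twisted sum over the primes of the window around `n`, corrected for the exceptional character -/
noncomputable def TW {q₁ q : ℕ} (χ : DirichletCharacter ℂ q₁) (w : ℝ) (ψ : DirichletCharacter ℂ q)
    (N K : ℕ) (n : ℤ) : ℂ :=
  TS ψ N K n + (if Same χ ψ then ((w * ∑ m ∈ Icc 1 N, vw N K ((m : ℤ) - n) : ℝ) : ℂ) else 0)

/-- the energy of the window around `n` -/
noncomputable def EW {q₁ : ℕ} (χ : DirichletCharacter ℂ q₁) (w : ℝ) (N K : ℕ) (n : ℤ) : ℝ :=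
  (∑ q ∈ Ioc 1 K, ∑ ψ ∈ Pr q, ‖TW χ w ψ N K n‖ ^ 2) + T0 N K n ^ 2

/-- the total energy -/
noncomputable def EEW {q₁ : ℕ} (χ : DirichletCharacter ℂ q₁) (w : ℝ) (N K : ℕ) : ℝ :=
  ∑ n ∈ Icc (1 - (Mw N K : ℤ)) ((N : ℤ) + Mw N K), EW χ w N K n

open scoped Classical in
/-- the primitive characters modulo `q`, corrected for the exceptional one -/
noncomputable def TpW {q₁ : ℕ} (χ : DirichletCharacter ℂ q₁) (w : ℝ) (N q : ℕ) (b : ℝ) : ℝ :=
  ∑ ψ ∈ Pr q, ‖∑ n ∈ Icc 1 N, ((aS N n : ℂ) * e (n * b)) * ψ (n : ZMod q) +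
    (if Same χ ψ then w * In N b else 0)‖ ^ 2

/-! ## The coefficients of `gW` -/

/-- the values of `χ` as real numbers -/
noncomputable def chr {q₁ : ℕ} (χ : DirichletCharacter ℂ q₁) (n : ℤ) : ℝ := (χ (n : ZMod q₁)).re

/-- the cofactors -/
def MQ1 (q₁ K : ℕ) : Finset ℕ := (Icc 1 (K / q₁)).filter (fun m => Nat.Coprime m q₁)

/-- the model of the primes -/
noncomputable def hK {q₁ : ℕ} (χ : DirichletCharacter ℂ q₁) (w : ℝ) (K : ℕ) (n : ℤ) : ℝ :=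
  ∑ r ∈ Icc 1 K, mr r * cZ r n -
    w * (q₁ / Nat.totient q₁ : ℝ) * chr χ n * ∑ m ∈ MQ1 q₁ K, mr m * cZ m n

/-- the coefficients of `gW` -/
noncomputable def gnW {q₁ : ℕ} (χ : DirichletCharacter ℂ q₁) (w : ℝ) (N K : ℕ) (n : ℤ) : ℝ :=
  (∑ m ∈ Icc 1 N, v2 N K ((m : ℤ) - n)) * hK χ w K n

/-- their correlations -/
noncomputable def cgW {q₁ : ℕ} (χ : DirichletCharacter ℂ q₁) (w : ℝ) (N K : ℕ) (h : ℤ) : ℝ :=
  ∑ n ∈ Icc (1 - 2 * (Mw N K : ℤ)) ((N : ℤ) + 2 * Mw N K), gnW χ w N K n * gnW χ w N K (n + h)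

/-! ## The singular series -/

/-- truncated singular series of the moduli prime to `q` -/
noncomputable def fT (q Z k : ℕ) : ℝ :=
  ∑ m ∈ (Icc 1 Z).filter (fun m => Nat.Coprime m q), mr m ^ 2 * cR m k

/-- the exceptional singular series -/
noncomputable def SX (q₁ K k : ℕ) : ℝ :=
  (q₁ / (Nat.totient q₁ : ℝ) ^ 2) * cR q₁ k * fT q₁ (K / q₁) k

open scoped Classical in
/-- the mixed singular series -/
noncomputable def SC {q₁ : ℕ} (χ : DirichletCharacter ℂ q₁) (K k : ℕ) : ℝ :=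
  if χ (-1) = 1 then
    -(2 * ((μ q₁ : ℤ) : ℝ) * (q₁ / (Nat.totient q₁ : ℝ) ^ 2) * chr χ k * fT q₁ (K / q₁) k) else 0

end Pool.Agent.SZ
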