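import Pool.Agent.Lib_helper59.SZ.W
import Pool.Agent.Lib_helper3.FGP.P06
import Pool.Agent.Lib_helper3.FGP.P07
import Pool.Agent.Lib_helper3.FGP.P07a
import Pool.Agent.Lib_helper3.FGP.P07b
import Pool.Agent.Lib_helper3.FGP.P10
import Pool.Agent.Lib_helper3.FGP.P13b

/-!
# SZ: blocks G1, G2, S06, S07a, S07, S07b, S10 of sd_block
-/

set_option autoImplicit false

/-! ## Block G1 (helper39) -/

namespace Pool.Agent.SZ

open Finset Pool.Agent.Var35 Pool.Agent.Var73 Pool.Agent.PV Pool.Agent.FGP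

lemma g1m_range (q : ℕ) [NeZero q] (F : ZMod q → ℂ) :
    ∑ a ∈ range q, F (a : ZMod q) = ∑ a : ZMod q, F a := by
  refine Finset.sum_nbij' (fun c => (c : ZMod q)) (fun x => x.val) ?_ ?_ ?_ ?_ ?_
  · intro c _; exact mem_univ _
  · intro x _; rw [mem_range]; exact ZMod.val_lt x
  · intro c hc; rw [mem_range] at hc; exact ZMod.val_cast_of_lt hc
  · intro x _; exact ZMod.natCast_zmod_val x
  · intro c _; rfl

lemma g1m_tau {q : ℕ} [NeZero q] (χ : DirichletCharacter ℂ q) :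
    tau χ = gaussSum χ (ZMod.stdAddChar (N := q)) := by
  unfold tau gaussSum
  rw [← g1m_range q (fun a => χ a * ZMod.stdAddChar (N := q) a)]
  refine sum_congr rfl fun a _ => ?_
  rw [std_eq_nat]

lemma g1m_inv {q : ℕ} (χ : DirichletCharacter ℂ q) (h2 : χ ^ 2 = 1) : χ⁻¹ = χ := by
  rw [inv_eq_iff_mul_eq_one, ← sq, h2]

lemma g1m_univ {q : ℕ} [NeZero q] (χ : DirichletCharacter ℂ q) (hp : χ.IsPrimitive)
    (h2 : χ ^ 2 = 1) (n : ZMod q) :
    ∑ a : ZMod q, χ a * ZMod.stdAddChar (N := q) (n * a) = χ n * tau χ := by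
  rw [gauss_shift_eq χ hp n, g1m_inv χ h2, g1m_tau]

lemma g1m_shift {q : ℕ} [NeZero q] (χ : DirichletCharacter ℂ q) (hp : χ.IsPrimitive)
    (h2 : χ ^ 2 = 1) (n : ℤ) :
    ∑ a ∈ range q, χ (a : ZMod q) * e (n * a / q) = χ (n : ZMod q) * tau χ := by
  have h1 : ∀ a : ℕ, e (n * a / q) = ZMod.stdAddChar (N := q) ((n : ZMod q) * (a : ZMod q)) := by
    intro a
    have := std_eq q (n * a)
    push_cast at this
    rw [this]
  rw [← g1m_univ χ hp h2 (n : ZMod q),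
    ← g1m_range q (fun a => χ a * ZMod.stdAddChar (N := q) ((n : ZMod q) * a))]
  refine sum_congr rfl fun a _ => ?_
  rw [h1 a]

open scoped Classical in
lemma g1m_cZ (m : ℕ) [NeZero m] (n : ℤ) :
    (∑ b : ZMod m, if IsUnit b then ZMod.stdAddChar (N := m) ((n : ZMod m) * b) else 0)
      = (cZ m n : ℂ) := by
  rw [P13b_cZ, ← g1m_range m
    (fun b => if IsUnit b then ZMod.stdAddChar (N := m) ((n : ZMod m) * b) else 0)]
  unfold Cd
  rw [sum_filter]
  refine sum_congr rfl fun c _ => ?_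
  have e4 : IsUnit ((c : ℕ) : ZMod m) ↔ Nat.Coprime c m := ZMod.isUnit_iff_coprime c m
  by_cases hc : Nat.Coprime c m
  · rw [if_pos (e4.mpr hc), if_pos hc]
    have := std_eq m (n * c)
    push_cast at this
    rw [this, mul_comm (n:ℝ)]
  · rw [if_neg hc, if_neg (fun h => hc (e4.mp h))]

open scoped Classical in
lemma g1m_subst (m : ℕ) [NeZero m] (n u : ℤ) (hu : IsUnit (u : ZMod m)) :
    (∑ b : ZMod m, if IsUnit b then ZMod.stdAddChar (N := m) (((n * u : ℤ) : ZMod m) * b) else 0)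
      = ∑ b : ZMod m, if IsUnit b then ZMod.stdAddChar (N := m) ((n : ZMod m) * b) else 0 := by
  obtain ⟨U, hU⟩ := hu
  refine Fintype.sum_equiv (Units.mulLeft U) _ _ ?_
  intro b
  have h1 : (Units.mulLeft U) b = (u : ZMod m) * b := by
    rw [← hU]; rfl
  rw [h1]
  have h2 : IsUnit ((u : ZMod m) * b) ↔ IsUnit b := by
    rw [← hU]; exact Units.isUnit_units_mul U b
  by_cases hb : IsUnit b
  · rw [if_pos hb, if_pos (h2.2 hb)]
    push_cast
    rw [mul_assoc]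
  · rw [if_neg hb, if_neg (fun h => hb (h2.1 h))]

open scoped Classical in
lemma g1m_two {q m : ℕ} [NeZero q] [NeZero m] (hc : Nat.Coprime m q)
    (χ : DirichletCharacter ℂ q) (hp : χ.IsPrimitive) (h2 : χ ^ 2 = 1) (n : ℤ) :
    ∑ c ∈ Cd (q * m), χ (c : ZMod q) * e (n * c / ((q * m : ℕ) : ℝ)) =
      χ (m : ZMod q) * χ (n : ZMod q) * tau χ * cZ m n := by
  have : NeZero (q * m) := ⟨Nat.mul_ne_zero (NeZero.ne q) (NeZero.ne m)⟩
  have hq0 : (q:ℝ) ≠ 0 := by exact_mod_cast NeZero.ne q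
  have hm0 : (m:ℝ) ≠ 0 := by exact_mod_cast NeZero.ne m
  have h : Nat.Coprime q m := hc.symm
  obtain ⟨u, v, huv⟩ : ∃ u v : ℤ, (q:ℤ) * u + m * v = 1 := by
    have h1 : IsCoprime (q:ℤ) (m:ℤ) := Nat.isCoprime_iff_coprime.mpr h
    obtain ⟨u, v, h2⟩ := h1
    exact ⟨u, v, by linarith⟩
  set E := ZMod.chineseRemainder h with hE
  set f : ZMod q → ℂ := fun a => χ a * ZMod.stdAddChar (N := q) (((n * v : ℤ) : ZMod q) * a) with hf
  set g : ZMod m → ℂ := fun b =>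
    if IsUnit b then ZMod.stdAddChar (N := m) (((n * u : ℤ) : ZMod m) * b) else 0 with hg
  have h1 : ∀ j : ℕ, (if Nat.Coprime j (q * m) then
      χ (j : ZMod q) * e (n * j / ((q * m : ℕ) : ℝ)) else 0)
      = f (E (j : ZMod (q * m))).1 * g (E (j : ZMod (q * m))).2 := by
    intro j
    have e1 : (E ((j : ℕ) : ZMod (q * m))) = ((j : ℕ) : ZMod q × ZMod m) := map_natCast E j
    rw [e1]
    have e2 : ((j : ℕ) : ZMod q × ZMod m).1 = (j : ZMod q) := rfl
    have e3 : ((j : ℕ) : ZMod q × ZMod m).2 = (j : ZMod m) := rfl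
    rw [e2, e3]
    simp only [hf, hg]
    have e4 : IsUnit ((j : ℕ) : ZMod m) ↔ Nat.Coprime j m := ZMod.isUnit_iff_coprime j m
    have e5 : ZMod.stdAddChar (N := q) (((n * v : ℤ) : ZMod q) * (j : ZMod q))
        = e (((n * v * j : ℤ) : ℝ) / q) := by
      rw [← std_eq q (n * v * j)]; push_cast; rfl
    have e6 : ZMod.stdAddChar (N := m) (((n * u : ℤ) : ZMod m) * (j : ZMod m))
        = e (((n * u * j : ℤ) : ℝ) / m) := by
      rw [← std_eq m (n * u * j)]; push_cast; rfl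
    by_cases hc1 : Nat.Coprime j m
    · rw [if_pos (e4.mpr hc1), e5, e6]
      have e7 : (n * (j:ℝ) / ((q * m : ℕ) : ℝ))
          = ((n * v * j : ℤ) : ℝ) / q + ((n * u * j : ℤ) : ℝ) / m := by
        have huv' : (q:ℝ) * u + m * v = 1 := by exact_mod_cast huv
        push_cast
        field_simp
        linear_combination (-((n:ℝ) * j)) * huv'
      by_cases hc2 : Nat.Coprime j q
      · rw [if_pos (Nat.Coprime.mul_right hc2 hc1), e7, e_add]; ring
      · rw [if_neg (fun h => hc2 (Nat.Coprime.coprime_mul_right_right h)),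
          MulChar.map_nonunit χ (fun h => hc2 ((ZMod.isUnit_iff_coprime j q).1 h))]
        simp
    · rw [if_neg (fun h => hc1 (Nat.Coprime.coprime_mul_left_right h)),
        if_neg (fun h => hc1 (e4.mp h)), mul_zero]
  have h3 : ∑ c ∈ Cd (q * m), χ (c : ZMod q) * e (n * c / ((q * m : ℕ) : ℝ))
      = ∑ z : ZMod (q * m), f (E z).1 * g (E z).2 := by
    unfold Cd
    rw [sum_filter, sum_congr rfl fun j _ => h1 j]
    exact g1m_range (q * m) (fun z => f (E z).1 * g (E z).2)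
  have h4 : ∑ z : ZMod (q * m), f (E z).1 * g (E z).2 = ∑ x : ZMod q × ZMod m, f x.1 * g x.2 :=
    Equiv.sum_comp E.toEquiv (fun x : ZMod q × ZMod m => f x.1 * g x.2)
  have hmv : χ (m : ZMod q) * χ (v : ZMod q) = 1 := by
    have h5 : ((m : ZMod q) * (v : ZMod q)) = 1 := by
      have h6 := congrArg (Int.cast : ℤ → ZMod q) huv
      push_cast at h6
      simpa using h6
    rw [← map_mul, h5, map_one]
  have hmu : IsUnit (m : ZMod q) := (ZMod.isUnit_iff_coprime m q).2 hc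
  have hm2 : χ (m : ZMod q) * χ (m : ZMod q) = 1 := by
    have h5 := congrArg (fun ψ : DirichletCharacter ℂ q => ψ (m : ZMod q)) h2
    simp only [MulChar.one_apply hmu] at h5
    rw [MulChar.pow_apply' _ (by norm_num), sq] at h5
    exact h5
  have hv : χ (v : ZMod q) = χ (m : ZMod q) := by
    calc χ (v : ZMod q) = (χ (m : ZMod q) * χ (m : ZMod q)) * χ (v : ZMod q) := by rw [hm2, one_mul]
      _ = χ (m : ZMod q) * (χ (m : ZMod q) * χ (v : ZMod q)) := by ring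
      _ = χ (m : ZMod q) := by rw [hmv, mul_one]
  have huu : IsUnit (u : ZMod m) := by
    have h5 : ((q : ZMod m) * (u : ZMod m)) = 1 := by
      have h6 := congrArg (Int.cast : ℤ → ZMod m) huv
      push_cast at h6
      simpa using h6
    exact IsUnit.of_mul_eq_one (q : ZMod m) (by rw [mul_comm]; exact h5)
  have hfs : ∑ a : ZMod q, f a = χ (n : ZMod q) * χ (m : ZMod q) * tau χ := by
    rw [hf, g1m_univ χ hp h2]
    push_cast
    rw [map_mul, hv]
  have hgs : ∑ b : ZMod m, g b = (cZ m n : ℂ) := by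
    rw [hg, g1m_subst m n u huu, g1m_cZ]
  rw [h3, h4, Fintype.sum_prod_type, ← sum_mul_sum, hfs, hgs]
  ring

theorem G1_pr : G1 := by
  intro q₁ χ hQ
  have hp : χ.IsPrimitive := (GA.mem_Prm.1 hQ.1).1
  have h2 : χ ^ 2 = 1 := hQ.2.1
  have : NeZero q₁ := ⟨by have := hQ.2.2; omega⟩
  refine ⟨fun n => g1m_shift χ hp h2 n, fun m n hm hc => ?_⟩
  have : NeZero m := ⟨by omega⟩
  exact g1m_two hc χ hp h2 n

end Pool.Agent.SZ

/-! ## Block G2 (helper23) -/

namespace Pool.Agent.SZ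

open Finset Pool.Agent.Var35 Pool.Agent.Var73 Pool.Agent.PV Pool.Agent.FGP
open scoped ArithmeticFunction ArithmeticFunction.Moebius

theorem g2_std (r : ℕ) [NeZero r] (j : ℕ) : (ZMod.stdAddChar (N := r) (j : ZMod r)) = e ((j:ℝ) / r) := by
  have h := ZMod.stdAddChar_coe (N := r) (j : ℤ)
  push_cast at h
  rw [h]
  unfold e
  congr 1
  push_cast
  ring

theorem g2_sum {q : ℕ} [NeZero q] (F : ZMod q → ℂ) : ∑ a ∈ range q, F (a : ZMod q) = ∑ a : ZMod q, F a := by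
  refine Finset.sum_nbij' (fun a => (a : ZMod q)) ZMod.val ?_ ?_ ?_ ?_ ?_
  · intro a _; exact Finset.mem_univ _
  · intro a _; exact Finset.mem_range.2 (ZMod.val_lt a)
  · intro a ha; exact ZMod.val_natCast_of_lt (Finset.mem_range.1 ha)
  · intro a _; exact ZMod.natCast_rightInverse a
  · intro a _; rfl

theorem g2_tau {q : ℕ} [NeZero q] (χ : DirichletCharacter ℂ q) :
    tau χ = ∑ a : ZMod q, χ a * ZMod.stdAddChar (N := q) a := by
  rw [← g2_sum (fun a => χ a * ZMod.stdAddChar (N := q) a), tau]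
  refine Finset.sum_congr rfl fun a _ => ?_
  rw [g2_std]

theorem g2_val {q : ℕ} {χ : DirichletCharacter ℂ q} (h2 : χ ^ 2 = 1) (a : ZMod q) :
    χ a = 0 ∨ χ a = 1 ∨ χ a = -1 := by
  by_cases ha : IsUnit a
  · obtain ⟨u, rfl⟩ := ha
    right
    have h3 : χ u ^ 2 = 1 := by
      have := congrArg (fun ψ : DirichletCharacter ℂ q => ψ (u : ZMod q)) h2
      simp only [MulChar.pow_apply_coe, MulChar.one_apply_coe] at this
      exact this
    have h4 : (χ (u : ZMod q) - 1) * (χ (u : ZMod q) + 1) = 0 := by linear_combination h3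
    rcases mul_eq_zero.1 h4 with h5 | h5
    · left; linear_combination h5
    · right; linear_combination h5
  · left; exact MulChar.map_nonunit _ ha

theorem g2_conj {q : ℕ} {χ : DirichletCharacter ℂ q} (h2 : χ ^ 2 = 1) (a : ZMod q) :
    (starRingEnd ℂ) (χ a) = χ a := by
  rcases g2_val h2 a with h | h | h <;> rw [h] <;> simp

theorem g2_tsq (n : ℕ) (hn : 0 < n) :
    n ≤ 2 * n.totient ^ 2 ∧ (¬ 2 ∣ n → n ≤ n.totient ^ 2) := by
  induction n using Nat.recOnPosPrimePosCoprime with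
  | prime_pow p k hp hk =>
    rw [Nat.totient_prime_pow hp hk]
    have hk1 : p ^ (k - 1) * p = p ^ k := by
      rw [← pow_succ]; congr 1; omega
    have hle : p ^ k ≤ p ^ (k - 1) * p ^ k := by
      exact Nat.le_mul_of_pos_left _ (pow_pos hp.pos _)
    have hodd : ¬ 2 ∣ p ^ k → p ^ k ≤ (p ^ (k - 1) * (p - 1)) ^ 2 := by
      intro h2
      have hp2 : p ≠ 2 := by
        rintro rfl
        exact h2 (dvd_pow_self 2 hk.ne')
      have hp3 : 3 ≤ p := by
        have := hp.two_le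
        omega
      obtain ⟨r, rfl⟩ : ∃ r, p = r + 3 := ⟨p - 3, by omega⟩
      have e : r + 3 - 1 = r + 2 := by omega
      rw [e]
      calc (r + 3) ^ k ≤ (r + 3) ^ (k - 1) * (r + 3) ^ k := hle
        _ = ((r + 3) ^ (k - 1)) ^ 2 * (r + 3) := by rw [← hk1]; ring
        _ ≤ ((r + 3) ^ (k - 1)) ^ 2 * (r + 2) ^ 2 := Nat.mul_le_mul_left _ (by nlinarith)
        _ = _ := by ring
    refine ⟨?_, hodd⟩
    by_cases h2 : 2 ∣ p ^ k
    · have hp2 : p = 2 := ((Nat.prime_dvd_prime_iff_eq Nat.prime_two hp).1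
        (Nat.prime_two.dvd_of_dvd_pow h2)).symm
      subst hp2
      have e : (2 : ℕ) - 1 = 1 := rfl
      rw [e, mul_one]
      calc 2 ^ k ≤ 2 ^ (k - 1) * 2 ^ k := hle
        _ = 2 * (2 ^ (k - 1)) ^ 2 := by rw [← hk1]; ring
    · exact (hodd h2).trans (Nat.le_mul_of_pos_left _ (by norm_num))
  | zero => omega
  | one => simp
  | coprime a b ha hb hab iha ihb =>
    rw [Nat.totient_mul hab]
    obtain ⟨a1, a2⟩ := iha (by omega)
    obtain ⟨b1, b2⟩ := ihb (by omega)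
    constructor
    · by_cases h2 : 2 ∣ a
      · have h3 : ¬ 2 ∣ b := by
          intro h3
          have := Nat.dvd_gcd h2 h3
          rw [hab] at this
          omega
        calc a * b ≤ (2 * a.totient ^ 2) * (b.totient ^ 2) := Nat.mul_le_mul a1 (b2 h3)
          _ = _ := by ring
      · calc a * b ≤ (a.totient ^ 2) * (2 * b.totient ^ 2) := Nat.mul_le_mul (a2 h2) b1
          _ = _ := by ring
    · intro h2
      have h3 : ¬ 2 ∣ a := fun h => h2 (Dvd.dvd.mul_right h b)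
      have h4 : ¬ 2 ∣ b := fun h => h2 (Dvd.dvd.mul_left h a)
      calc a * b ≤ (a.totient ^ 2) * (b.totient ^ 2) := Nat.mul_le_mul (a2 h3) (b2 h4)
        _ = _ := by ring

theorem g2_prim {q : ℕ} {χ : DirichletCharacter ℂ q} (h : χ ∈ GA.Prm q) : χ.IsPrimitive := by
  classical
  unfold GA.Prm at h
  simp only [Finset.mem_filter, Finset.mem_univ, true_and] at h
  exact h.1

theorem g2_ne {q : ℕ} {χ : DirichletCharacter ℂ q} (h : χ ∈ GA.Prm q) : χ ≠ 1 := by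
  classical
  unfold GA.Prm at h
  simp only [Finset.mem_filter, Finset.mem_univ, true_and] at h
  exact h.2

theorem g2_gnorm {q : ℕ} [NeZero q] (χ : DirichletCharacter ℂ q) (h : χ.IsPrimitive) :
    ‖∑ a : ZMod q, χ a * ZMod.stdAddChar (N := q) a‖ ^ 2 = q :=
  Pool.Agent.Var73.gauss_norm_prim χ h

/-- G2 -/
theorem G2_pr (_h : G1) : G2 := by
  intro q₁ χ hχ
  obtain ⟨hP, h2, hq⟩ := hχ
  have : NeZero q₁ := ⟨by omega⟩
  have hprim : χ.IsPrimitive := g2_prim hP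
  have hne : χ ≠ 1 := g2_ne hP
  -- the conjugate of the Gauss sum
  have hconj : (starRingEnd ℂ) (tau χ) = χ (-1) * tau χ := by
    rw [g2_tau, map_sum, Finset.mul_sum]
    refine (Equiv.sum_comp (Equiv.neg (ZMod q₁)) _).symm.trans ?_
    refine Finset.sum_congr rfl fun a _ => ?_
    rw [Equiv.neg_apply, map_mul, g2_conj h2, ← AddChar.map_neg_eq_conj, neg_neg,
      show (-a : ZMod q₁) = (-1) * a by ring, map_mul]
    ring
  have hnorm : ‖tau χ‖ ^ 2 = q₁ := by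
    rw [g2_tau]
    exact g2_gnorm χ hprim
  have hm1 : χ (-1) * χ (-1) = 1 := by
    rw [← map_mul]; simp
  have hsq : tau χ ^ 2 = χ (-1) * q₁ := by
    have h3 : tau χ * (starRingEnd ℂ) (tau χ) = q₁ := by
      rw [Complex.mul_conj, Complex.normSq_eq_norm_sq, hnorm]
      push_cast; rfl
    rw [hconj] at h3
    calc tau χ ^ 2 = (χ (-1) * χ (-1)) * tau χ ^ 2 := by rw [hm1, one_mul]
      _ = χ (-1) * (tau χ * (χ (-1) * tau χ)) := by ring
      _ = _ := by rw [h3]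
  have h3 : 3 ≤ q₁ := by
    by_contra hcon
    have h4 : q₁ = 1 ∨ q₁ = 2 := by omega
    apply hne
    rcases h4 with rfl | rfl
    · exact DirichletCharacter.level_one χ
    · ext u
      have : u = 1 := Subsingleton.elim _ _
      rw [this]; simp
  have hreal : ∀ n : ℤ, χ (n : ZMod q₁) = (chr χ n : ℂ) ∧ |chr χ n| ≤ 1 := by
    intro n
    unfold chr
    rcases g2_val h2 (n : ZMod q₁) with h | h | h <;> rw [h] <;> simp
  refine ⟨hsq, hnorm, h3, hreal, ?_⟩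
  have hxi : ∀ c r : ℕ, 1 ≤ r → ‖xi χ c r‖ ≤ 2 := by
    intro c r hr
    unfold xi
    split_ifs with hc
    · have hφ : 0 < Nat.totient r := Nat.totient_pos.2 hr
      have hφ' : (0 : ℝ) < Nat.totient r := by exact_mod_cast hφ
      have hle : Nat.totient q₁ ≤ Nat.totient r :=
        Nat.le_of_dvd hφ (Nat.totient_dvd_of_dvd hc.1)
      have hle' : (Nat.totient q₁ : ℝ) ≤ Nat.totient r := by exact_mod_cast hle
      have ht : ‖tau χ‖ ≤ 2 * Nat.totient r := by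
        have h5 : (q₁ : ℝ) ≤ 2 * (Nat.totient q₁ : ℝ) ^ 2 := by exact_mod_cast (g2_tsq q₁ hq).1
        have h6 : ‖tau χ‖ ^ 2 ≤ (2 * (Nat.totient r : ℝ)) ^ 2 := by
          rw [hnorm]
          have h7 : (0 : ℝ) ≤ Nat.totient q₁ := Nat.cast_nonneg _
          nlinarith
        exact le_of_sq_le_sq h6 (by positivity)
      have hmu : ‖((μ (r / q₁) : ℤ) : ℂ)‖ ≤ 1 := by
        rw [Complex.norm_intCast]
        exact_mod_cast ArithmeticFunction.abs_moebius_le_one (n := r / q₁)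
      rw [norm_neg, norm_div, Complex.norm_natCast, div_le_iff₀ hφ', norm_mul, norm_mul, norm_mul]
      have a1 := DirichletCharacter.norm_le_one χ ((r / q₁ : ℕ) : ZMod q₁)
      have a2 := DirichletCharacter.norm_le_one χ (c : ZMod q₁)
      calc ‖((μ (r / q₁) : ℤ) : ℂ)‖ * ‖χ ((r / q₁ : ℕ) : ZMod q₁)‖ * ‖χ (c : ZMod q₁)‖ * ‖tau χ‖
          ≤ 1 * 1 * 1 * (2 * Nat.totient r) := by gcongr
        _ = _ := by ring
    · rw [norm_zero]; norm_num
  intro c r hr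
  refine ⟨hxi c r hr, ?_⟩
  intro w hw0 hw1
  unfold Wc
  refine (norm_add_le _ _).trans ?_
  have h8 : ‖(w : ℂ) * xi χ c r‖ ≤ ‖xi χ c r‖ := by
    rw [norm_mul, Complex.norm_real, Real.norm_eq_abs, abs_of_nonneg hw0]
    exact mul_le_of_le_one_left (norm_nonneg _) hw1
  have h5 := hxi c r hr
  have h6 : ‖((mr r : ℝ) : ℂ)‖ ≤ 1 := by
    have hφ : 1 ≤ Nat.totient r := Nat.totient_pos.2 hr
    have hφ' : (1 : ℝ) ≤ Nat.totient r := by exact_mod_cast hφ
    have hmu : |((μ r : ℤ) : ℝ)| ≤ 1 := by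
      exact_mod_cast ArithmeticFunction.abs_moebius_le_one (n := r)
    rw [Complex.norm_real, Real.norm_eq_abs, mr, abs_div, abs_of_pos (a := (Nat.totient r : ℝ)) (by linarith)]
    rw [div_le_one (by linarith)]
    linarith
  linarith

end Pool.Agent.SZ

/-! ## Block S06 (helper33) -/

namespace Pool.Agent.SZ

open Finset Pool.Agent.Var35 Pool.Agent.Var73 Pool.Agent.PV Pool.Agent.FGP
open scoped ArithmeticFunction ArithmeticFunction.Moebius

lemma s06_cZ {m n : ℕ} (hm : 1 ≤ m) (h : Nat.Coprime n m) :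
    cZ m (n : ℤ) = ((μ m : ℤ) : ℝ) := by
  have h1 := congrArg Complex.re (p06_ram n m hm h)
  rw [Complex.re_sum, Complex.intCast_re] at h1
  rw [← h1]
  unfold cZ
  refine sum_congr rfl fun c _ => ?_
  unfold e
  rw [Complex.exp_ofReal_mul_I_re]
  congr 1
  push_cast
  ring

lemma s06_exp (x y : ℂ) :
    ‖x - y‖ ^ 2 = ‖x‖ ^ 2 - 2 * (x * (starRingEnd ℂ) y).re + ‖y‖ ^ 2 := by
  rw [← Complex.normSq_eq_norm_sq, ← Complex.normSq_eq_norm_sq, ← Complex.normSq_eq_norm_sq,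
    Complex.normSq_sub]
  ring

lemma s06_exp' (x y : ℂ) :
    ‖x + y‖ ^ 2 = ‖x‖ ^ 2 + (2 * (x * (starRingEnd ℂ) y).re + ‖y‖ ^ 2) := by
  rw [← Complex.normSq_eq_norm_sq, ← Complex.normSq_eq_norm_sq, ← Complex.normSq_eq_norm_sq,
    Complex.normSq_add]
  ring

lemma s06_Tp_ne {q₁ q : ℕ} (χ : DirichletCharacter ℂ q₁) (w : ℝ) (N : ℕ) (b : ℝ) (h : q ≠ q₁) :
    TpW χ w N q b = Tp (fun n => (aS N n : ℂ) * e (n * b)) N q := by
  unfold TpW Tp
  refine sum_congr rfl fun ψ _ => ?_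
  rw [if_neg (fun hs : Same χ ψ => h hs.1.symm), add_zero]

lemma s06_Same {q₁ : ℕ} (hq : q₁ ≠ 0) (χ ψ : DirichletCharacter ℂ q₁) : Same χ ψ ↔ ψ = χ := by
  constructor
  · rintro ⟨-, h⟩
    have : NeZero q₁ := ⟨hq⟩
    ext a
    have h1 := h (a : ZMod q₁).val
    rw [ZMod.natCast_val, ZMod.cast_id', id] at h1
    exact h1.symm
  · rintro rfl
    exact ⟨rfl, fun _ => rfl⟩

lemma s06_Tp_eq {q₁ : ℕ} (χ : DirichletCharacter ℂ q₁) (w : ℝ) (hχ : Qd χ) (hq : q₁ ≠ 0) (N : ℕ)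
    (b : ℝ) :
    TpW χ w N q₁ b = Tp (fun n => (aS N n : ℂ) * e (n * b)) N q₁ +
      (2 * ((∑ n ∈ Icc 1 N, ((aS N n : ℂ) * e (n * b)) * χ (n : ZMod q₁)) *
        (starRingEnd ℂ) (w * In N b)).re + ‖w * In N b‖ ^ 2) := by
  classical
  have hm : χ ∈ Pr q₁ := by
    rw [mem_Pr]
    have h := hχ.1
    unfold GA.Prm at h
    rw [mem_filter] at h
    exact h.2.1
  unfold TpW Tp
  rw [← add_sum_erase _ _ hm,
    ← add_sum_erase (Pr q₁)
      (fun ψ : DirichletCharacter ℂ q₁ => ‖∑ n ∈ Icc 1 N, (aS N n : ℂ) * e (n * b) *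
        ψ (n : ZMod q₁)‖ ^ 2) hm,
    if_pos ((s06_Same hq χ χ).2 rfl), s06_exp']
  have h1 : ∑ ψ ∈ (Pr q₁).erase χ, ‖∑ n ∈ Icc 1 N, ((aS N n : ℂ) * e (n * b)) * ψ (n : ZMod q₁) +
      (if Same χ ψ then w * In N b else 0)‖ ^ 2 =
      ∑ ψ ∈ (Pr q₁).erase χ, ‖∑ n ∈ Icc 1 N, ((aS N n : ℂ) * e (n * b)) * ψ (n : ZMod q₁)‖ ^ 2 := by
    refine sum_congr rfl fun ψ hψ => ?_
    rw [if_neg (fun h => ne_of_mem_erase hψ ((s06_Same hq χ ψ).1 h)), add_zero]
  rw [h1]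
  ring

lemma s06_norm {q₁ : ℕ} (χ : DirichletCharacter ℂ q₁) {c : ℕ} (h : Nat.Coprime c q₁) :
    ‖χ (c : ZMod q₁)‖ = 1 := by
  have h1 := DirichletCharacter.unit_norm_eq_one χ (ZMod.unitOfCoprime c h)
  rwa [ZMod.coe_unitOfCoprime] at h1

lemma s06_Cd {r c : ℕ} (h : c ∈ Cd r) : Nat.Coprime c r := by
  simp only [Cd, mem_filter] at h
  exact h.2

/-- S06 -/
theorem S06_pr (hW : W06) (g1 : G1) (g2 : G2) : S06 := by
  intro q₁ χ w hχ N r b hr1 hr
  obtain ⟨-, hτ, hq3, hreal, -⟩ := g2 q₁ χ hχ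
  obtain ⟨-, g⟩ := g1 q₁ χ hχ
  have hW' := hW N r b hr1 hr
  have hq0 : q₁ ≠ 0 := by omega
  by_cases hc : q₁ ∣ r ∧ Squarefree (r / q₁) ∧ Nat.Coprime (r / q₁) q₁
  · obtain ⟨⟨m, rfl⟩, hsq, hcop⟩ := hc
    have hmm : q₁ * m / q₁ = m := Nat.mul_div_cancel_left m (by omega)
    rw [hmm] at hsq hcop
    have hm1 : 1 ≤ m := Nat.pos_of_mul_pos_left hr1
    set r := q₁ * m with hrdef
    set φ : ℝ := (Nat.totient r : ℝ) with hφ
    have hφ0 : φ ≠ 0 := by
      rw [hφ]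
      exact_mod_cast (Nat.totient_pos.2 (by omega : 0 < r)).ne'
    set I : ℂ := In N b with hI
    set J : ℂ := (w : ℂ) * I with hJ
    set B : ℂ := ∑ n ∈ Icc 1 N, ((aS N n : ℂ) * e (n * b)) * χ (n : ZMod q₁) with hB
    set D : ℂ := -((((μ m : ℤ) : ℂ) * χ (m : ZMod q₁)) * tau χ / (φ : ℂ)) with hD
    have hxi : ∀ c : ℕ, xi χ c r = D * χ (c : ZMod q₁) := by
      intro c
      unfold xi
      rw [if_pos ⟨Dvd.intro m rfl, by rw [hmm]; exact hsq, by rw [hmm]; exact hcop⟩, hmm, hD, hφ]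
      push_cast
      ring
    have hμ : ((μ m : ℤ) : ℂ) * ((μ m : ℤ) : ℂ) = 1 := by
      have h2 : ((μ m : ℤ)) ^ 2 = 1 := ArithmeticFunction.moebius_sq_eq_one_of_squarefree hsq
      have h3 : (((μ m : ℤ) : ℂ)) ^ 2 = 1 := by exact_mod_cast h2
      rw [← sq, h3]
    have hconj : ∀ c : ℕ, (starRingEnd ℂ) (χ (c : ZMod q₁)) = χ (c : ZMod q₁) := by
      intro c
      have h1 := (hreal (c : ℤ)).1
      rw [Int.cast_natCast] at h1
      rw [h1, Complex.conj_ofReal]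
    have hχm : χ (m : ZMod q₁) * χ (m : ZMod q₁) = 1 := by
      have h1 := s06_norm χ hcop
      have h2 : χ (m : ZMod q₁) * (starRingEnd ℂ) (χ (m : ZMod q₁)) = 1 := by
        rw [Complex.mul_conj, Complex.normSq_eq_norm_sq, h1]
        simp
      rwa [hconj] at h2
    have hττ : tau χ * (starRingEnd ℂ) (tau χ) = (q₁ : ℂ) := by
      rw [Complex.mul_conj, Complex.normSq_eq_norm_sq, hτ]
      simp
    have hDn : ‖D‖ ^ 2 = q₁ / φ ^ 2 := by
      have h1 : ‖((μ m : ℤ) : ℂ)‖ = 1 := by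
        have h2 := congrArg norm hμ
        rw [norm_mul, norm_one] at h2
        nlinarith [norm_nonneg ((μ m : ℤ) : ℂ)]
      rw [hD, norm_neg, norm_div, norm_mul, norm_mul, h1, s06_norm χ hcop, one_mul, one_mul,
        div_pow, hτ, Complex.norm_real, Real.norm_eq_abs, sq_abs]
    -- the sum of the values
    have hz : ∑ c ∈ Cd r, χ (c : ZMod q₁) = 0 := by
      have h1 := g m 0 hm1 hcop
      have h2 : χ ((0 : ℤ) : ZMod q₁) = 0 := by
        have : Fact (1 < q₁) := ⟨by omega⟩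
        rw [Int.cast_zero]
        exact χ.map_nonunit (by simp)
      rw [h2] at h1
      simp only [mul_zero, zero_mul] at h1
      rw [← h1]
      refine sum_congr rfl fun c _ => ?_
      have h3 : e ((((0 : ℤ) : ℝ) * c / ((q₁ * m : ℕ) : ℝ))) = 1 := by
        unfold e
        simp
      rw [h3, mul_one]
    have hP : ∑ c ∈ Cd r, Ps N ((c : ℝ) / r + b) * χ (c : ZMod q₁) =
        χ (m : ZMod q₁) * tau χ * ((μ m : ℤ) : ℂ) * B := by
      unfold Ps Bs
      simp only [sum_mul]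
      rw [sum_comm, hB, mul_sum]
      refine sum_congr rfl fun n _ => ?_
      by_cases h : aS N n = 0
      · simp only [h, Complex.ofReal_zero, zero_mul, sum_const_zero, mul_zero]
      · have h0 := p06_cop hr hr1 h
        have h1 := g m (n : ℤ) hm1 hcop
        rw [s06_cZ hm1 (h0.coprime_dvd_right (Dvd.intro_left q₁ rfl))] at h1
        have h2 : ∑ c ∈ Cd r, (aS N n : ℂ) * e (n * ((c : ℝ) / r + b)) * χ (c : ZMod q₁) =
            (aS N n : ℂ) * e (n * b) *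
              ∑ c ∈ Cd (q₁ * m), χ (c : ZMod q₁) * e (((n : ℤ) : ℝ) * c / ((q₁ * m : ℕ) : ℝ)) := by
          rw [mul_sum]
          refine sum_congr rfl fun c _ => ?_
          rw [show (n : ℝ) * ((c : ℝ) / r + b) = ((n : ℤ) : ℝ) * c / ((q₁ * m : ℕ) : ℝ) + n * b by
            rw [hrdef, Int.cast_natCast]
            ring, e_add]
          ring
        simp only [Int.cast_natCast] at h1 h2
        rw [h2, h1]
        push_cast
        ring
    set A : ℕ → ℂ := fun c => Ps N ((c : ℝ) / r + b) - ((mr r : ℝ) : ℂ) * I with hA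
    have hAs : ∑ c ∈ Cd r, A c * χ (c : ZMod q₁) =
        χ (m : ZMod q₁) * tau χ * ((μ m : ℤ) : ℂ) * B := by
      simp only [hA, sub_mul, sum_sub_distrib]
      rw [hP, ← mul_sum, hz, mul_zero, sub_zero]
    have h1 : ∑ c ∈ Cd r, ‖Ps N (c / r + b) - Wc χ w c r * I‖ ^ 2 =
        ∑ c ∈ Cd r, ‖A c‖ ^ 2 - 2 * ∑ c ∈ Cd r, (A c * (starRingEnd ℂ) (D * χ (c : ZMod q₁) * J)).re
          + ∑ c ∈ Cd r, ‖D * χ (c : ZMod q₁) * J‖ ^ 2 := by
      rw [mul_sum, ← sum_sub_distrib, ← sum_add_distrib]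
      refine sum_congr rfl fun c _ => ?_
      rw [← s06_exp]
      congr 2
      unfold Wc
      rw [hxi, hA, hJ]
      ring
    have h2 : ∑ c ∈ Cd r, ‖D * χ (c : ZMod q₁) * J‖ ^ 2 = q₁ / φ * ‖J‖ ^ 2 := by
      have h3 : ∀ c ∈ Cd r, ‖D * χ (c : ZMod q₁) * J‖ ^ 2 = q₁ / φ ^ 2 * ‖J‖ ^ 2 := by
        intro c hc
        rw [norm_mul, norm_mul, s06_norm χ ((s06_Cd hc).coprime_dvd_right (Dvd.intro m rfl)),
          mul_one, mul_pow, hDn]
      rw [sum_congr rfl h3, sum_const, card_Cd, nsmul_eq_mul, ← hφ]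
      field_simp
    have h3 : ∑ c ∈ Cd r, (A c * (starRingEnd ℂ) (D * χ (c : ZMod q₁) * J)).re =
        -(q₁ / φ * (B * (starRingEnd ℂ) J).re) := by
      rw [← Complex.re_sum]
      have h4 : ∑ c ∈ Cd r, A c * (starRingEnd ℂ) (D * χ (c : ZMod q₁) * J) =
          (((-(q₁ / φ) : ℝ)) : ℂ) * (B * (starRingEnd ℂ) J) := by
        have h5 : ∑ c ∈ Cd r, A c * (starRingEnd ℂ) (D * χ (c : ZMod q₁) * J) =
            (∑ c ∈ Cd r, A c * χ (c : ZMod q₁)) * ((starRingEnd ℂ) D * (starRingEnd ℂ) J) := by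
          rw [sum_mul]
          refine sum_congr rfl fun c _ => ?_
          rw [map_mul, map_mul, hconj]
          ring
        have hDc : (starRingEnd ℂ) D =
            -((((μ m : ℤ) : ℂ) * χ (m : ZMod q₁)) * (starRingEnd ℂ) (tau χ) / (φ : ℂ)) := by
          rw [hD, map_neg, map_div₀, map_mul, map_mul, hconj, Complex.conj_ofReal]
          congr 4
          simp
        rw [h5, hAs, hDc]
        have hφc : (φ : ℂ) ≠ 0 := by exact_mod_cast hφ0
        push_cast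
        have h6 : χ (m : ZMod q₁) * tau χ * ((μ m : ℤ) : ℂ) * B *
            (-((((μ m : ℤ) : ℂ) * χ (m : ZMod q₁)) * (starRingEnd ℂ) (tau χ) / (φ : ℂ)) *
              (starRingEnd ℂ) J) =
            -((((μ m : ℤ) : ℂ) * ((μ m : ℤ) : ℂ)) * (χ (m : ZMod q₁) * χ (m : ZMod q₁)) *
              (tau χ * (starRingEnd ℂ) (tau χ)) / (φ : ℂ)) * (B * (starRingEnd ℂ) J) := by
          ring
        rw [h6, hμ, hχm, hττ]
        ring
      rw [h4, Complex.re_ofReal_mul]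
      ring
    have hmem : q₁ ∈ (r.divisors.erase 1) := by
      rw [mem_erase, Nat.mem_divisors]
      exact ⟨by omega, Dvd.intro m rfl, by omega⟩
    have h4 : ∑ q ∈ r.divisors.erase 1, (if Squarefree (r / q) ∧ Nat.Coprime (r / q) q then
        (q / Nat.totient q : ℝ) * (1 / (Nat.totient (r / q) : ℝ)) else 0) * TpW χ w N q b =
        (∑ q ∈ r.divisors.erase 1, (if Squarefree (r / q) ∧ Nat.Coprime (r / q) q then
          (q / Nat.totient q : ℝ) * (1 / (Nat.totient (r / q) : ℝ)) else 0) *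
            Tp (fun n => (aS N n : ℂ) * e (n * b)) N q) +
          q₁ / φ * (2 * (B * (starRingEnd ℂ) J).re + ‖J‖ ^ 2) := by
      rw [← add_sum_erase _ _ hmem, ← add_sum_erase (r.divisors.erase 1) (fun q =>
        (if Squarefree (r / q) ∧ Nat.Coprime (r / q) q then
          (q / Nat.totient q : ℝ) * (1 / (Nat.totient (r / q) : ℝ)) else 0) *
            Tp (fun n => (aS N n : ℂ) * e (n * b)) N q) hmem, s06_Tp_eq χ w hχ hq0]
      have h5 : ∑ q ∈ (r.divisors.erase 1).erase q₁,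
          (if Squarefree (r / q) ∧ Nat.Coprime (r / q) q then
          (q / Nat.totient q : ℝ) * (1 / (Nat.totient (r / q) : ℝ)) else 0) * TpW χ w N q b =
          ∑ q ∈ (r.divisors.erase 1).erase q₁,
          (if Squarefree (r / q) ∧ Nat.Coprime (r / q) q then
          (q / Nat.totient q : ℝ) * (1 / (Nat.totient (r / q) : ℝ)) else 0) *
            Tp (fun n => (aS N n : ℂ) * e (n * b)) N q := by
        refine sum_congr rfl fun q hq => ?_
        rw [s06_Tp_ne χ w N b (ne_of_mem_erase hq)]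
      have h6 : (if Squarefree (r / q₁) ∧ Nat.Coprime (r / q₁) q₁ then
          (q₁ / Nat.totient q₁ : ℝ) * (1 / (Nat.totient (r / q₁) : ℝ)) else 0) = q₁ / φ := by
        rw [if_pos ⟨by rw [hmm]; exact hsq, by rw [hmm]; exact hcop⟩, hmm, hφ, hrdef,
          Nat.totient_mul hcop.symm]
        push_cast
        rw [div_mul_div_comm, mul_one]
      rw [h5, h6]
      ring
    rw [h1, h2, h3, h4, hW']
    ring
  · have hx : ∀ c, xi χ c r = 0 := by
      intro c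
      unfold xi
      rw [if_neg hc]
    have h1 : ∑ c ∈ Cd r, ‖Ps N (c / r + b) - Wc χ w c r * In N b‖ ^ 2 =
        ∑ c ∈ Cd r, ‖Ps N (c / r + b) - ((mr r : ℝ) : ℂ) * In N b‖ ^ 2 := by
      refine sum_congr rfl fun c _ => ?_
      unfold Wc
      rw [hx, mul_zero, add_zero]
    rw [h1, hW']
    congr 1
    refine sum_congr rfl fun q hq => ?_
    by_cases hqq : q = q₁
    · subst hqq
      have hd : q ∣ r := Nat.dvd_of_mem_divisors (mem_of_mem_erase hq)
      rw [if_neg (fun h => hc ⟨hd, h⟩), zero_mul, zero_mul]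
    · rw [s06_Tp_ne χ w N b hqq]

end Pool.Agent.SZ

/-! ## Block S07a (helper35) -/

namespace Pool.Agent.SZ

open Finset Pool.Agent.Var35 Pool.Agent.Var73 Pool.Agent.PV Pool.Agent.FGP
open scoped ArithmeticFunction ArithmeticFunction.Moebius

theorem S07a_pr : S07a := by
  classical
  intro q₁ χ w N K M hG hMw
  have hM8 : 4 * (2 * N) < M := hG.1
  have hM1 : 1 ≤ M := by omega
  have hlen : ((N : ℤ) + Mw N K) - (1 - (Mw N K : ℤ)) < M := by omega
  -- one polynomial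
  have hpoly : ∀ a : ℕ → ℂ,
      (1 / (M : ℝ)) * ∑ j ∈ range M,
        vh N K ((j : ℝ) / M) ^ 2 * ‖∑ p ∈ Icc 1 N, a p * e (p * ((j : ℝ) / M))‖ ^ 2 =
      ∑ n ∈ Icc (1 - (Mw N K : ℤ)) ((N : ℤ) + Mw N K),
        ‖∑ p ∈ Icc 1 N, a p * (vw N K ((p : ℤ) - n) : ℂ)‖ ^ 2 := by
    intro a
    rw [← p07a_pars M _ _ hlen hM1]
    congr 1
    refine sum_congr rfl fun j _ => ?_
    rw [← p07a_mul, norm_mul, mul_pow, Complex.norm_real, Real.norm_eq_abs, sq_abs]
  have hT : ∀ (q : ℕ) (ψ : DirichletCharacter ℂ q),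
      (1 / (M : ℝ)) * ∑ j ∈ range M, vh N K ((j : ℝ) / M) ^ 2 *
        ‖∑ n ∈ Icc 1 N, ((aS N n : ℂ) * e (n * ((j : ℝ) / M))) * ψ (n : ZMod q) +
          (if Same χ ψ then (w : ℂ) * In N ((j : ℝ) / M) else 0)‖ ^ 2 =
      ∑ n ∈ Icc (1 - (Mw N K : ℤ)) ((N : ℤ) + Mw N K), ‖TW χ w ψ N K n‖ ^ 2 := by
    intro q ψ
    have h := hpoly (fun p => (aS N p : ℂ) * ψ (p : ZMod q) + (if Same χ ψ then (w : ℂ) else 0))
    have e1 : ∀ b : ℝ, ∑ n ∈ Icc 1 N, ((aS N n : ℂ) * e (n * b)) * ψ (n : ZMod q) +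
          (if Same χ ψ then (w : ℂ) * In N b else 0) =
        ∑ p ∈ Icc 1 N, ((aS N p : ℂ) * ψ (p : ZMod q) + (if Same χ ψ then (w : ℂ) else 0)) *
          e (p * b) := by
      intro b
      simp_rw [add_mul, sum_add_distrib]
      congr 1
      · exact sum_congr rfl fun p _ => by ring
      · split_ifs
        · unfold In
          rw [mul_sum]
        · simp
    have e2 : ∀ n : ℤ, TW χ w ψ N K n =
        ∑ p ∈ Icc 1 N, ((aS N p : ℂ) * ψ (p : ZMod q) + (if Same χ ψ then (w : ℂ) else 0)) *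
          (vw N K ((p : ℤ) - n) : ℂ) := by
      intro n
      simp_rw [add_mul, sum_add_distrib]
      unfold TW
      congr 1
      · unfold TS
        exact sum_congr rfl fun p _ => by push_cast; ring
      · by_cases hc : Same χ ψ
        · rw [if_pos hc, if_pos hc]
          push_cast
          rw [mul_sum]
        · rw [if_neg hc, if_neg hc]
          simp
    simp_rw [e1, e2]
    exact h
  have h0 : (1 / (M : ℝ)) * ∑ j ∈ range M, vh N K ((j : ℝ) / M) ^ 2 *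
        ‖Ps N ((j : ℝ) / M) - In N ((j : ℝ) / M)‖ ^ 2 =
      ∑ n ∈ Icc (1 - (Mw N K : ℤ)) ((N : ℤ) + Mw N K), T0 N K n ^ 2 := by
    have h := hpoly (fun p => (aS N p : ℂ) - 1)
    have e1 : ∀ b : ℝ, Ps N b - In N b = ∑ p ∈ Icc 1 N, ((aS N p : ℂ) - 1) * e (p * b) := by
      intro b
      unfold Ps Bs In
      rw [← sum_sub_distrib]
      exact sum_congr rfl fun p _ => by ring
    have e2 : ∀ n : ℤ, T0 N K n ^ 2 =
        ‖∑ p ∈ Icc 1 N, ((aS N p : ℂ) - 1) * (vw N K ((p : ℤ) - n) : ℂ)‖ ^ 2 := by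
      intro n
      have : ∑ p ∈ Icc 1 N, ((aS N p : ℂ) - 1) * (vw N K ((p : ℤ) - n) : ℂ) =
          ((T0 N K n : ℝ) : ℂ) := by
        unfold T0
        rw [← sum_sub_distrib]
        push_cast
        exact sum_congr rfl fun p _ => by ring
      rw [this, Complex.norm_real, Real.norm_eq_abs, sq_abs]
    simp_rw [e1, e2]
    exact h
  unfold mean EEW EW TpW
  rw [sum_add_distrib, ← h0]
  have hsum : ∑ n ∈ Icc (1 - (Mw N K : ℤ)) ((N : ℤ) + Mw N K),
      ∑ q ∈ Ioc 1 K, ∑ ψ ∈ Pr q, ‖TW χ w ψ N K n‖ ^ 2 =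
      ∑ q ∈ Ioc 1 K, ∑ ψ ∈ Pr q, ∑ n ∈ Icc (1 - (Mw N K : ℤ)) ((N : ℤ) + Mw N K),
        ‖TW χ w ψ N K n‖ ^ 2 := by
    rw [sum_comm]
    exact sum_congr rfl fun q _ => sum_comm
  rw [hsum]
  simp_rw [← hT]
  simp_rw [mul_add, sum_add_distrib, mul_add]
  congr 1
  simp_rw [mul_sum]
  rw [sum_comm]
  refine sum_congr rfl fun q _ => ?_
  rw [sum_comm]

end Pool.Agent.SZ

/-! ## Block S07 (helper37) -/

namespace Pool.Agent.SZ

open Finset Pool.Agent.Var35 Pool.Agent.Var73 Pool.Agent.PV Pool.Agent.FGP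
open scoped ArithmeticFunction ArithmeticFunction.Moebius

section S07

/-- the pointwise bound -/
theorem s07_point {q₁ : ℕ} (χ : DirichletCharacter ℂ q₁) (w : ℝ) (hχ : Qd χ) {C : ℝ} {N Y K : ℕ}
    (hKN : K ≤ Nat.sqrt N) (h06 : S06) (b : ℝ)
    (h09 : ∀ q ∈ Icc 1 K, ∀ x : ℝ,
      (q / Nat.totient q : ℝ) * ∑ m ∈ (Icc 1 (K / q)).filter
        (fun m => Squarefree m ∧ Nat.Coprime m q),
        1 / (Nat.totient m : ℝ) * wt N Y (q * m) x ≤ C * Real.log N) (hK : 1 ≤ K) :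
    ∑ r ∈ Icc 1 K, wt N Y r b *
      ∑ c ∈ Cd r, ‖Ps N (c / r + b) - Wc χ w c r * In N b‖ ^ 2 ≤
      C * Real.log N * ((∑ q ∈ Ioc 1 K, TpW χ w N q b) +
        ‖Ps N b - In N b‖ ^ 2) := by
  classical
  set T : ℕ → ℝ := fun q => TpW χ w N q b with hT
  have hT0 : ∀ q, 0 ≤ T q := fun q => by
    rw [hT]
    exact sum_nonneg fun ψ _ => by positivity
  set Z : ℝ := ‖Ps N b - In N b‖ ^ 2 with hZ
  have hZ0 : 0 ≤ Z := by positivity
  obtain ⟨f, hf⟩ : ∃ f : ℕ → ℕ → ℝ, ∀ q m, f q m = (if Squarefree m ∧ Nat.Coprime m q then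
        (q / Nat.totient q : ℝ) * (1 / (Nat.totient m : ℝ)) else 0) * wt N Y (q * m) b * T q :=
    ⟨_, fun _ _ => rfl⟩
  have e1 : ∀ r ∈ Icc 1 K, wt N Y r b *
      ∑ c ∈ Cd r, ‖Ps N (c / r + b) - Wc χ w c r * In N b‖ ^ 2 =
      (∑ q ∈ r.divisors.erase 1, f q (r / q)) +
      (if Squarefree r then 1 / (Nat.totient r : ℝ) else 0) * wt N Y r b * Z := by
    intro r hr
    have hr1 := (mem_Icc.1 hr).1
    rw [h06 q₁ χ w hχ N r b hr1 ((mem_Icc.1 hr).2.trans hKN), mul_add, mul_sum]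
    congr 1
    · refine sum_congr rfl fun q hq => ?_
      have hqr : q ∣ r := (Nat.mem_divisors.1 (mem_of_mem_erase hq)).1
      rw [hf, Nat.mul_div_cancel' hqr]
      simp only [hT]
      ring
    · rw [hZ]
      ring
  rw [sum_congr rfl e1, sum_add_distrib, p07_exch, ← sum_mul, mul_add]
  have e2 : ∀ q ∈ Ioc 1 K, ∑ m ∈ Icc 1 (K / q), f q m ≤ C * Real.log N * T q := by
    intro q hq
    simp only [hf]
    have hq1 := mem_Ioc.1 hq
    have h := h09 q (mem_Icc.2 ⟨hq1.1.le, hq1.2⟩) b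
    rw [← sum_mul]
    refine mul_le_mul_of_nonneg_right ?_ (hT0 q)
    refine le_of_eq_of_le ?_ h
    rw [sum_filter, mul_sum]
    refine sum_congr rfl fun m _ => ?_
    split_ifs <;> ring
  refine add_le_add ?_ ?_
  · rw [mul_sum]
    exact sum_le_sum e2
  · refine mul_le_mul_of_nonneg_right ?_ hZ0
    have h := h09 1 (mem_Icc.2 ⟨le_rfl, hK⟩) b
    refine le_of_eq_of_le ?_ h
    rw [sum_filter, Nat.totient_one, Nat.cast_one, div_one, one_mul, Nat.div_one]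
    refine sum_congr rfl fun m _ => ?_
    rw [one_mul]
    simp only [Nat.coprime_one_right_iff, and_true]
    split_ifs <;> ring

theorem S07_pr (h06 : S06) (h07a : S07a) (h09 : W09) : S07 := by
  obtain ⟨C, hC, N0, h09⟩ := h09
  refine ⟨C, hC, N0, fun K hK N hR M hM q₁ χ w hχ Y hY1 hYN => ?_⟩
  have hK10 := hR.hK
  have hKs := p07_sqrt hR
  have hKN : K ≤ N := hKs.trans (Nat.sqrt_le_self N)
  have hN0 : N0 ≤ N := hK.trans hKN
  have hM0 : 0 < M := by have := hM.1; omega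
  have h09' := h09 N hN0 Y K hY1 hYN hKN
  rw [← h07a q₁ χ w N K M hM (p07_Mw hR), ← p07_mul]
  -- move the sums out, shift, move the sums in
  have e1 : mean M (range M) (fun t => ∑ r ∈ Icc 1 K, ∑ c ∈ Cd r,
      vh N K (t - c / r) ^ 2 * wt N Y r (t - c / r) * ‖XW χ w N c r t‖ ^ 2) =
      mean M (range M) (fun b => vh N K b ^ 2 * ∑ r ∈ Icc 1 K, wt N Y r b *
        ∑ c ∈ Cd r, ‖Ps N (c / r + b) - Wc χ w c r * In N b‖ ^ 2) := by
    have e2 : (fun b => vh N K b ^ 2 * ∑ r ∈ Icc 1 K, wt N Y r b *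
        ∑ c ∈ Cd r, ‖Ps N (c / r + b) - Wc χ w c r * In N b‖ ^ 2) =
        fun b => ∑ r ∈ Icc 1 K, ∑ c ∈ Cd r, vh N K b ^ 2 * wt N Y r b *
          ‖Ps N (c / r + b) - Wc χ w c r * In N b‖ ^ 2 := by
      funext b
      rw [mul_sum]
      refine sum_congr rfl fun r _ => ?_
      rw [← mul_assoc, mul_sum]
    rw [e2, p07_sum, p07_sum]
    refine sum_congr rfl fun r hr => ?_
    rw [p07_sum, p07_sum]
    refine sum_congr rfl fun c _ => ?_
    have hr1 := mem_Icc.1 hr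
    have hrM : r ∣ M := hM.2 r hr1.1 (hr1.2.trans (hKs.trans (Nat.sqrt_le_sqrt (by omega))))
    have e3 : (fun t => vh N K (t - c / r) ^ 2 * wt N Y r (t - c / r) * ‖XW χ w N c r t‖ ^ 2) =
        fun t => (fun b : ℝ => vh N K b ^ 2 * wt N Y r b *
          ‖Ps N (c / r + b) - Wc χ w c r * In N b‖ ^ 2) (t - c / r) := by
      funext t
      have e4 : (c : ℝ) / r + (t - c / r) = t := by ring
      simp only [XW, e4]
    rw [e3]
    refine p07_mean_shift hM0 (G := fun b : ℝ => vh N K b ^ 2 * wt N Y r b *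
          ‖Ps N (c / r + b) - Wc χ w c r * In N b‖ ^ 2) (fun x => ?_) hr1.1 hrM
    rw [p07_vh, p07_wt, p07_In, ← add_assoc, p07_Ps]
  rw [e1]
  refine p07_mono fun b => ?_
  have h := s07_point χ w hχ hKs h06 b h09' (by omega)
  calc vh N K b ^ 2 * ∑ r ∈ Icc 1 K, wt N Y r b *
        ∑ c ∈ Cd r, ‖Ps N (c / r + b) - Wc χ w c r * In N b‖ ^ 2
      ≤ vh N K b ^ 2 * (C * Real.log N * ((∑ q ∈ Ioc 1 K,
          TpW χ w N q b) + ‖Ps N b - In N b‖ ^ 2)) :=
        mul_le_mul_of_nonneg_left h (by positivity)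
    _ = _ := by ring

end S07

end Pool.Agent.SZ

/-! ## Block S07b (helper37) -/

namespace Pool.Agent.SZ

open Finset Pool.Agent.Var35 Pool.Agent.Var73 Pool.Agent.PV Pool.Agent.FGP
open scoped ArithmeticFunction ArithmeticFunction.Moebius

theorem s07b_point {q₁ : ℕ} (χ : DirichletCharacter ℂ q₁) (w : ℝ) (N K Y : ℕ) (t : ℝ) (hW : Wt N K t ≤ 2) :
    ‖FW χ w N K t‖ ^ 2 ≤ 2 * ∑ r ∈ Icc 1 K, ∑ c ∈ Cd r,
      vh N K (t - c / r) ^ 2 * wt N Y r (t - c / r) * ‖XW χ w N c r t‖ ^ 2 := by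
  have h1 : ‖FW χ w N K t‖ ≤ ∑ x ∈ (Icc 1 K).sigma fun r => Cd r,
      vh N K (t - x.2 / x.1) * (vh N K (t - x.2 / x.1) * ‖XW χ w N x.2 x.1 t‖) := by
    unfold FW
    rw [Finset.sum_sigma']
    refine (norm_sum_le _ _).trans (Finset.sum_le_sum fun x _ => ?_)
    rw [norm_mul, Complex.norm_real, Real.norm_eq_abs, abs_of_nonneg (sq_nonneg _)]
    apply le_of_eq
    ring
  have h2 : (∑ x ∈ (Icc 1 K).sigma fun r => Cd r,
      vh N K (t - x.2 / x.1) * (vh N K (t - x.2 / x.1) * ‖XW χ w N x.2 x.1 t‖)) ^ 2 ≤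
      (∑ x ∈ (Icc 1 K).sigma fun r => Cd r, vh N K (t - x.2 / x.1) ^ 2) *
      ∑ x ∈ (Icc 1 K).sigma fun r => Cd r, (vh N K (t - x.2 / x.1) * ‖XW χ w N x.2 x.1 t‖) ^ 2 :=
    Finset.sum_mul_sq_le_sq_mul_sq _ _ _
  have h3 : (∑ x ∈ (Icc 1 K).sigma fun r => Cd r, vh N K (t - x.2 / x.1) ^ 2) = Wt N K t := by
    unfold Wt
    rw [Finset.sum_sigma']
  have h4 : ∑ x ∈ (Icc 1 K).sigma fun r => Cd r,
      (vh N K (t - x.2 / x.1) * ‖XW χ w N x.2 x.1 t‖) ^ 2 ≤ ∑ r ∈ Icc 1 K, ∑ c ∈ Cd r,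
      vh N K (t - c / r) ^ 2 * wt N Y r (t - c / r) * ‖XW χ w N c r t‖ ^ 2 := by
    rw [Finset.sum_sigma']
    refine Finset.sum_le_sum fun x _ => ?_
    rw [mul_pow]
    refine mul_le_mul_of_nonneg_right ?_ (sq_nonneg _)
    exact le_mul_of_one_le_right (sq_nonneg _) (p07b_wt _ _ _ _)
  have h5 : 0 ≤ ∑ x ∈ (Icc 1 K).sigma fun r => Cd r,
      (vh N K (t - x.2 / x.1) * ‖XW χ w N x.2 x.1 t‖) ^ 2 := Finset.sum_nonneg fun _ _ => sq_nonneg _
  calc ‖FW χ w N K t‖ ^ 2 ≤ (∑ x ∈ (Icc 1 K).sigma fun r => Cd r,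
      vh N K (t - x.2 / x.1) * (vh N K (t - x.2 / x.1) * ‖XW χ w N x.2 x.1 t‖)) ^ 2 :=
        pow_le_pow_left₀ (norm_nonneg _) h1 2
    _ ≤ _ := h2
    _ ≤ 2 * ∑ x ∈ (Icc 1 K).sigma fun r => Cd r,
        (vh N K (t - x.2 / x.1) * ‖XW χ w N x.2 x.1 t‖) ^ 2 := by
        rw [h3]
        exact mul_le_mul_of_nonneg_right hW h5
    _ ≤ _ := mul_le_mul_of_nonneg_left h4 (by norm_num)

theorem S07b_pr (h04 : W04) (h07 : S07) : S07b := by
  obtain ⟨C4, hC4, K4, h4⟩ := h04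
  obtain ⟨C7, hC7, K7, h7⟩ := h07
  refine ⟨2 * C7, by positivity, max K4 K7, fun K hK N hR M hM q₁ χ w hχ => ?_⟩
  have hN : 1 ≤ N := by
    have h1 := hR.hN
    have hK0 : 0 < K := by
      have := hR.hK
      omega
    have h2 : 0 < K ^ 400 := pow_pos hK0 _
    exact lt_of_lt_of_le h2 h1
  have h1 := h7 K (le_trans (le_max_right _ _) hK) N hR M hM q₁ χ w hχ N hN le_rfl
  have hW := (h4 K (le_trans (le_max_left _ _) hK) N hR).1
  have h2 : ms M (FW χ w N K) ≤ 2 * mean M (range M) (fun t => ∑ r ∈ Icc 1 K, ∑ c ∈ Cd r,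
      vh N K (t - c / r) ^ 2 * wt N N r (t - c / r) * ‖XW χ w N c r t‖ ^ 2) := by
    have h4 : ∀ (f g : ℝ → ℝ), (∀ t, f t ≤ 2 * g t) →
        mean M (range M) f ≤ 2 * mean M (range M) g := by
      intro f g hfg
      unfold mean
      have h3 : (0 : ℝ) ≤ 1 / (M : ℝ) := by positivity
      have h5 : 2 * (1 / (M : ℝ) * ∑ j ∈ range M, g ((j : ℝ) / M)) =
          1 / (M : ℝ) * ∑ j ∈ range M, 2 * g ((j : ℝ) / M) := by
        rw [← Finset.mul_sum]
        ring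
      rw [h5]
      exact mul_le_mul_of_nonneg_left (Finset.sum_le_sum fun j _ => hfg _) h3
    unfold ms
    exact h4 _ _ fun t => s07b_point χ w N K N t (hW t).2
  refine h2.trans ((mul_le_mul_of_nonneg_left h1 (by norm_num)).trans (le_of_eq ?_))
  ring

end Pool.Agent.SZ

/-! ## Block S10 (helper89) -/

namespace Pool.Agent.SZ

open Finset Pool.Agent.Var35 Pool.Agent.Var73 Pool.Agent.PV Pool.Agent.FGP
open scoped ArithmeticFunction ArithmeticFunction.Moebius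

theorem s10_gW {q₁ : ℕ} (χ : DirichletCharacter ℂ q₁) (w : ℝ) (N K : ℕ) :
    TP (1 - 2 * (Mw N K : ℤ)) (N + 2 * (Mw N K : ℤ)) (gW χ w N K) := by
  refine p10_congr (p10_sum (Icc 1 K) (P := fun r t => ∑ c ∈ Cd r,
    Wc χ w c r * (((vh N K (t - c / r) ^ 2 : ℝ) : ℂ) * In N (t - c / r)))
    fun r _ => p10_sum _ fun c _ => ?_) fun t => ?_
  · refine p10_const ?_ _
    exact p10_mono (p10_mul (p10_vh2 N K _) (p10_shift (p10_In N) _)) (by omega) (by omega)
  · unfold gW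
    refine sum_congr rfl fun r _ => sum_congr rfl fun c _ => ?_
    push_cast
    ring

theorem s10_XW {q₁ : ℕ} (χ : DirichletCharacter ℂ q₁) (w : ℝ) (N c r : ℕ) : TP 1 N (XW χ w N c r) := by
  refine p10_congr (p10_add (p10_Ps N) (p10_const (p10_shift (p10_In N) (c / r))
    (-(Wc χ w c r)))) fun t => ?_
  unfold XW
  ring

theorem s10_FW {q₁ : ℕ} (χ : DirichletCharacter ℂ q₁) (w : ℝ) (N K : ℕ) :
    TP (1 - 2 * (Mw N K : ℤ)) (N + 2 * (Mw N K : ℤ)) (FW χ w N K) := by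
  refine p10_congr (p10_sum (Icc 1 K) (P := fun r t => ∑ c ∈ Cd r,
    (((vh N K (t - c / r) ^ 2 : ℝ) : ℂ) * XW χ w N c r t))
    fun r _ => p10_sum _ fun c _ => ?_) fun t => rfl
  exact p10_mono (p10_mul (p10_vh2 N K _) (s10_XW χ w N c r)) (by omega) (by omega)

theorem s10_dec {q₁ : ℕ} (χ : DirichletCharacter ℂ q₁) (w : ℝ) (N K : ℕ) (t : ℝ) :
    Ps N t = fh N K t + gW χ w N K t + FW χ w N K t := by
  have h1 : FW χ w N K t = ((Wt N K t : ℝ) : ℂ) * Ps N t - gW χ w N K t := by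
    unfold FW gW Wt XW
    push_cast
    rw [sum_mul, ← sum_sub_distrib]
    refine sum_congr rfl fun r _ => ?_
    rw [sum_mul, ← sum_sub_distrib]
    refine sum_congr rfl fun c _ => ?_
    ring
  rw [h1]
  unfold fh
  push_cast
  ring

/-- S10 -/
theorem S10_pr : S10 := fun _ χ w N K => ⟨s10_gW χ w N K, s10_FW χ w N K, s10_dec χ w N K⟩

end Pool.Agent.SZ
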