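import Pool.Agent.Lib_helper59.SZ.Defs

/-!
# SZ: the blocks (MP_5dd4bb_nt), SIEGEL DICHOTOMY

GOAL: (A) for EVERY large `X` and the primes `Q ~ Y = X^(1-δ)`, on average `V(X,Q) = X log Q - X^(2β-1) log⁺(X/(Q q₁))`
up to `exp(-c/δ) X log X` (`V` = the variance of the primes modulo `Q` without the principal character; the second term
only if there is an exceptional zero `β`, of the real character `χ` modulo `q₁`); (B) so several statements about the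
variance are EQUIVALENT to the non-existence of Siegel zeros. (v2: constant weight `w = N^(β-1)`, `0 ≤ w ≤ 1`.)

METHOD: as FGP (helper3), with the exceptional character put into the explicit part: `Ps = fh + gW + FW`. The blocks
`S06 .. S17` are adaptations of `FGP/P06 .. P17` (files Lib_helper3/FGP/P*.lean, copy the file, replace `gh N K` by
`gW χ w N K`, `Fh N K` by `FW χ w N K`, `Xc N` by `XW χ w N`, `EE N K` by `EEW χ w N K`, the bound `|mr r| ≤ 1` by `‖Wc χ w c r‖ ≤ 3`; the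
lemmas `p07_*`, `p08_*`, ... of those files may be imported instead of copied). The main term is new: `S13a`, `S13b`,
`S13` and `C2 .. C5`.

Blocks are Props; a block proves `theorem <name>_pr (hypotheses = the Props of the column uses, in this order) : <name>`,
file `SZ_<name>_<seat>.lean` in namespace `Pool.Agent.SZ`. Landed files may be imported: Lib_helper98/GAF,
Lib_helper3/FGP, Lib_helper59/LHM, Lib_helper99/FGA, Lib_helper92/PVF, Lib_helper92/HCF, Lib_helper73/Var ...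
-/

set_option autoImplicit false

namespace Pool.Agent.SZ

open Finset Pool.Agent.Var35 Pool.Agent.Var73 Pool.Agent.PV Pool.Agent.FGP
open scoped ArithmeticFunction ArithmeticFunction.Moebius

/-! ## Zeros -/

/-- Z1 : one bad zero at most, with multiplicity. PROOF: `c₀` small (smaller than the constants of
`GA.zero_free_complex`, `GA.zero_free_real`, `GA.landau`, and see below): a bad zero `ρ` of `χ` is real (`zero_free_*`), so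
`χ² = 1`. Two bad zeros of different characters of different conductors: `GA.landau`. Two characters of the SAME conductor
`q`: same proof as `landau` (the product `χ₁ χ₂ ≠ 1`, no need to lift). Two zeros of the same character, or a double zero:
`GA.pos_two` (`0 ≤ ζ-part + χ-part`), `principal_upper`, and `nontrivial_upper` in a version with multiplicities (its
proof in GAF/Z3 gives `∑_{ρ ∈ T} mlt ρ (1/(1+σ+it-ρ)).re` for free): `2/(σ + (1-β)) ≤ 1/σ + C ℒ`. -/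
def Z1 : Prop := ∃ c₀ : ℝ, LHM.ZF c₀ ∧ ∀ D : ℕ, 2 ≤ D →
  ∑ q ∈ Icc 1 D, ∑ χ ∈ GA.Prm q, ∑ ρ ∈ LHM.BZ c₀ D χ, GA.mlt (GA.LF χ) ρ ≤ 1

/-- Z2 : the energy (uses `Z1` and `hE : ∀ c, LHM.ZF c → LHM.ZE c`). PROOF: `D = K ^ 20`; `(1-β) log K ≤ ε₀` small, so
`β ∈ BZ c₀ D χ`. By `Z1` it is the only bad zero, simple (`GA.one_le_mlt`), so `wz c₀ D χ m = m ^ (β-1)` and
`wz c₀ D ψ = 0` for the other characters: `TW = TX` for them. With `w = N ^ (β-1)`, `κ = 1 - β`: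
`TW χ w χ - TX c₀ χ = ∑_m (w - m ^ (β-1)) vw(m-n)`, and `∑_n (∑_m f(m) vw(m-n))² ≤ ∑_m f(m)²` (Jensen),
`∑_{m ≤ N} ((N/m)^κ - 1)² ≤ C N κ²` (`(N/m)^κ - 1 ≤ κ log(N/m) (N/m)^κ`, `κ ≤ 1/8`). `‖TW‖² ≤ 2 ‖TX‖² + 2 ‖·‖²`. -/
def Z2 : Prop := ∃ C c B ε₀ : ℝ, 0 < C ∧ 0 < c ∧ 1 ≤ B ∧ 0 < ε₀ ∧ ∃ K0 : ℕ, ∀ K ≥ K0, ∀ N : ℕ,
  Rg K N → (K : ℝ) ^ B ≤ N → ∀ (q₁ : ℕ) (χ : DirichletCharacter ℂ q₁) (β : ℝ), Qd χ → q₁ ≤ K →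
  GA.LF χ (β : ℂ) = 0 → (1 - β) * Real.log K ≤ ε₀ →
  EEW χ ((N : ℝ) ^ (β - 1)) N K ≤
    C * N * (Real.exp (-(c * Real.log N / Real.log K)) + 1 / Real.sqrt K + (1 - β) ^ 2)

/-! ## Gauss sums -/

/-- G1 : the Gauss sums of the characters induced by `χ`, at every integer. PROOF: `χ` is primitive, so
`∑_a χ(a) e(a n/q₁) = conj(χ(n)) tau χ = χ(n) tau χ` for ALL `n` (Mathlib: `gaussSum_mulShift`,
`DirichletCharacter.IsPrimitive`, `gaussSum_mulShift_of_isPrimitive`; or Lib_helper73/Var/Char.lean, Lib_helper35/Var/Char.lean,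
FGP/P06). Second part: for `(m, q₁) = 1` Chinese remainder theorem `c/r = a/q₁ + b/m`, `c = a m + b q₁`, `χ(c) = χ(a) χ(m)`. -/
def G1 : Prop := ∀ (q₁ : ℕ) (χ : DirichletCharacter ℂ q₁), Qd χ →
  (∀ n : ℤ, ∑ a ∈ range q₁, χ (a : ZMod q₁) * e (n * a / q₁) = χ (n : ZMod q₁) * tau χ) ∧
  (∀ (m : ℕ) (n : ℤ), 1 ≤ m → Nat.Coprime m q₁ →
    ∑ c ∈ Cd (q₁ * m), χ (c : ZMod q₁) * e (n * c / ((q₁ * m : ℕ) : ℝ)) =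
      χ (m : ZMod q₁) * χ (n : ZMod q₁) * tau χ * cZ m n)

/-- G2 : the size of the Gauss sum; real values. PROOF: `∑_n |∑_a χ(a) e(a n/q₁)|² = q₁ φ(q₁)` and `G1` (uses `G1`), or
Mathlib; `χ² = 1` gives values in `{0, 1, -1}`; `conj (tau χ) = χ(-1) tau χ`. No primitive nontrivial character has modulus
`≤ 2`. `φ(q) ≥ √(q/2)`, so `‖xi‖ ≤ √q₁/φ(q₁) ≤ 2`. -/
def G2 : Prop := ∀ (q₁ : ℕ) (χ : DirichletCharacter ℂ q₁), Qd χ →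
  tau χ ^ 2 = χ (-1) * q₁ ∧ ‖tau χ‖ ^ 2 = q₁ ∧ 3 ≤ q₁ ∧
  (∀ n : ℤ, χ (n : ZMod q₁) = (chr χ n : ℂ) ∧ |chr χ n| ≤ 1) ∧
  (∀ c r : ℕ, 1 ≤ r → ‖xi χ c r‖ ≤ 2 ∧ ∀ w : ℝ, 0 ≤ w → w ≤ 1 → ‖Wc χ w c r‖ ≤ 3)

/-! ## Energy -/

/-- S06 : the additive energy of one denominator (uses `W06`, `G1`, `G2`). PROOF: expand
`‖X - xi In‖² = ‖X‖² - 2 Re (X conj(xi In)) + ‖xi In‖²` over `c ∈ Cd r` and use `W06`; with `m = r/q₁` squarefree and coprime to `q₁`,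
`∑_c Ps(c/r + b) χ(c) = ∑_n aS(n) e(n b) ∑_c χ(c) e(n c/r)` (`G1`), and `aS(n) ≠ 0` implies `(n, r) = 1`, `cZ m n = μ(m)`; the
term `mr r In` contributes `∑_c χ(c) = 0` (`G1` with `n = 0`, `χ(0) = 0`). Only the term `q = q₁`, `ψ = χ` of the right side changes. -/
def S06 : Prop := ∀ (q₁ : ℕ) (χ : DirichletCharacter ℂ q₁) (w : ℝ), Qd χ → ∀ (N r : ℕ) (b : ℝ),
  1 ≤ r → r ≤ Nat.sqrt N →
  ∑ c ∈ Cd r, ‖Ps N (c / r + b) - Wc χ w c r * In N b‖ ^ 2 =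
    (∑ q ∈ r.divisors.erase 1, (if Squarefree (r / q) ∧ Nat.Coprime (r / q) q then
      (q / Nat.totient q : ℝ) * (1 / (Nat.totient (r / q) : ℝ)) else 0) * TpW χ w N q b) +
    (if Squarefree r then 1 / (Nat.totient r : ℝ) else 0) * ‖Ps N b - In N b‖ ^ 2

/-- S07a : Parseval for the energy (model FGP/P07a; the coefficients of `∑ aS(n) ψ(n) e(nb) + [ψ = χ] In` are
`aS(n) ψ(n) + [ψ = χ] w`) -/
def S07a : Prop := ∀ (q₁ : ℕ) (χ : DirichletCharacter ℂ q₁) (w : ℝ), ∀ N K M : ℕ, Good (2 * N) M →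
  2 * Mw N K ≤ N →
  mean M (range M) (fun b => vh N K b ^ 2 * ((∑ q ∈ Ioc 1 K, TpW χ w N q b) +
    ‖Ps N b - In N b‖ ^ 2)) = EEW χ w N K

/-- S07 : the weighted mean square (model FGP/P07; uses `S06`, `S07a`, `W09`) -/
def S07 : Prop := ∃ C : ℝ, 0 < C ∧ ∃ K0 : ℕ, ∀ K ≥ K0, ∀ N, Rg K N → ∀ M, Good (2 * N) M →
  ∀ (q₁ : ℕ) (χ : DirichletCharacter ℂ q₁) (w : ℝ), Qd χ → ∀ Y : ℕ, 1 ≤ Y → Y ≤ N →
  mean M (range M) (fun t => ∑ r ∈ Icc 1 K, ∑ c ∈ Cd r,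
    vh N K (t - c / r) ^ 2 * wt N Y r (t - c / r) * ‖XW χ w N c r t‖ ^ 2) ≤
      C * Real.log N * EEW χ w N K

/-- S07b : mean square of `FW` (model FGP/P07b; uses `W04`, `S07`) -/
def S07b : Prop := ∃ C : ℝ, 0 < C ∧ ∃ K0 : ℕ, ∀ K ≥ K0, ∀ N, Rg K N → ∀ M, Good (2 * N) M →
  ∀ (q₁ : ℕ) (χ : DirichletCharacter ℂ q₁) (w : ℝ), Qd χ →
  ms M (FW χ w N K) ≤ C * Real.log N * EEW χ w N K

/-- S10 : the pieces are trigonometric polynomials (model FGP/P10) -/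
def S10 : Prop := ∀ (q₁ : ℕ) (χ : DirichletCharacter ℂ q₁) (w : ℝ) (N K : ℕ),
  TP (1 - 2 * (Mw N K : ℤ)) (N + 2 * (Mw N K : ℤ)) (gW χ w N K) ∧
  TP (1 - 2 * (Mw N K : ℤ)) (N + 2 * (Mw N K : ℤ)) (FW χ w N K) ∧
  ∀ t, Ps N t = fh N K t + gW χ w N K t + FW χ w N K t

/-- S08 : variance of `FW` over the prime moduli (model FGP/P08; uses `W01`, `W04`, `S07`, `W10`, `S10`, `G2`) -/
def S08 : Prop := ∃ C : ℝ, 0 < C ∧ ∃ K0 : ℕ, ∀ K ≥ K0, ∀ N, Rg K N → ∀ Y, RY K N Y →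
  ∀ (q₁ : ℕ) (χ : DirichletCharacter ℂ q₁) (w : ℝ), Qd χ → 0 ≤ w → w ≤ 1 →
  ∑ Q ∈ QQ Y, VQ (FW χ w N K) Q ≤ C * Y * (EEW χ w N K + Real.sqrt N)

/-- S12 : the off-diagonal terms of `fh` (model FGP/P12; uses `W04`, `W05`, `S07b`, `W10`, `S10`, `W11`) -/
def S12 : Prop := ∃ C : ℝ, 0 < C ∧ ∃ K0 : ℕ, ∀ K ≥ K0, ∀ N, Rg K N → ∀ M, Good (2 * N) M →
  ∀ Y, RY K N Y → ∀ (q₁ : ℕ) (χ : DirichletCharacter ℂ q₁) (w : ℝ), Qd χ → 0 ≤ w → w ≤ 1 →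
  EEW χ w N K ≤ N →
  ∑ Q ∈ QQ Y, |(VA (fun t => fh N K t + gW χ w N K t) Q - VA (gW χ w N K) Q) -
      (ms M (fun t => fh N K t + gW χ w N K t) - ms M (gW χ w N K))| ≤
    C * ((N : ℝ) ^ 2 / Real.sqrt K) * (1 + Real.log N) ^ 7

/-- S16 : mean square of `fh + gW`, and the value at zero (model FGP/P16, `W16`, `W17`; uses `W01`, `W04`, `S07b`, `G2`) -/
def S16 : Prop := (∃ C : ℝ, 0 < C ∧ ∃ K0 : ℕ, ∀ K ≥ K0, ∀ N, Rg K N → ∀ M, Good (2 * N) M →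
  ∀ (q₁ : ℕ) (χ : DirichletCharacter ℂ q₁) (w : ℝ), Qd χ → 0 ≤ w → w ≤ 1 → EEW χ w N K ≤ N →
  |ms M (fun t => fh N K t + gW χ w N K t) - A2 N| ≤ C * Real.log N * Real.sqrt (N * EEW χ w N K)) ∧
  ∃ C : ℝ, 0 < C ∧ ∃ K0 : ℕ, ∀ K ≥ K0, ∀ N, Rg K N →
    ∀ (q₁ : ℕ) (χ : DirichletCharacter ℂ q₁) (w : ℝ), Qd χ → 0 ≤ w → w ≤ 1 →
    |‖fh N K 0 + gW χ w N K 0‖ ^ 2 - (N : ℝ) ^ 2| ≤ C * (N : ℝ) ^ 2 / (K : ℝ) ^ 10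

/-! ## The main term -/

/-- S13a : the variance of `gW` in terms of its correlations (model FGP/P13a; uses `G1`, `G2`). By `G1`, `r = q₁ m`:
`∑_{c ∈ Cd r} xi(c, r) e(-c n / r) = -(q₁/φ(q₁)) χ(n) mr(m) cZ m n` (`tau² χ(-1) = q₁`, `χ(m)² = 1`), so the coefficient of `gW`
at `n` is `gnW χ w N K n`; then `p13a_va`, `p13a_corr`. -/
def S13a : Prop := ∀ (q₁ : ℕ) (χ : DirichletCharacter ℂ q₁) (w : ℝ), Qd χ →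
  ∀ N K M Q : ℕ, Good (2 * N) M →
  4 * Mw N K < N → 1 ≤ Q →
  VA (gW χ w N K) Q - ms M (gW χ w N K) = 2 * ∑ k ∈ Icc 1 (2 * N / Q), cgW χ w N K ((k * Q : ℕ) : ℤ)

/-- S13b : the correlations of `gW` (model FGP/P13b; uses `G1`, `G2`). PROOF: `hK χ w K n = ∑_{r ≤ K} ∑_{c ∈ Cd r} W(c,r) e(-c n/r)`
(real). The product `hK(n) hK(n+h)` summed over an interval: the pairs of different fractions cost `≤ K²` each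
(`P13b_pair`), `∑ ‖W‖ ≤ 3 K..`; the diagonal `∑_{r,c} |W(c,r)|² e(..c h/r)` is `SK K h + w² SX q₁ K h + w SC χ K h`:
`|mr r + w xi|² = mr² + w² |xi|² + 2 w mr Re xi`, `∑_c mr(r)² e(c h/r) = mr² cR r h`; `|xi|² = q₁/φ(r)²` for `r = q₁ m`, `cR r h =
cR q₁ h · cR m h`; `2 mr(r) Re ∑_c xi(c,r) e(c h/r)`: by `G1` `= -2 mr(q₁) mr(m)² (q₁/φ(q₁)) χ(h) cR m h` if `χ(-1) = 1`, and `0`
if `χ(-1) = -1`. -/
def S13b : Prop := ∃ C : ℝ, 0 < C ∧ ∃ K0 : ℕ, ∀ K ≥ K0, ∀ N, Rg K N →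
  ∀ (q₁ : ℕ) (χ : DirichletCharacter ℂ q₁) (w : ℝ), Qd χ → 0 ≤ w → w ≤ 1 →
  ∀ h : ℕ, 1 ≤ h → h ≤ 2 * N →
  |cgW χ w N K (h : ℤ) - (SK K h + w ^ 2 * SX q₁ K h + w * SC χ K h) * max 0 ((N : ℝ) - h)| ≤
    C * ((K : ℝ) ^ 5 + K * Mw N K)

/-- S13 : the variance of `gW` for prime moduli (model FGP/P13; uses `S13a`, `S13b`, `G2`). `Q > K` is prime, so
`cR r (k Q) = cR r k` (`p13_cR`), `chr χ (k Q) = chr χ Q * chr χ k`. -/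
def S13 : Prop := ∃ C : ℝ, 0 < C ∧ ∃ K0 : ℕ, ∀ K ≥ K0, ∀ N, Rg K N → ∀ M, Good (2 * N) M →
  ∀ Y, RY K N Y → ∀ (q₁ : ℕ) (χ : DirichletCharacter ℂ q₁) (w : ℝ), Qd χ → 0 ≤ w → w ≤ 1 →
  ∀ Q ∈ QQ Y, |VA (gW χ w N K) Q - ms M (gW χ w N K) -
      2 * ∑ k ∈ Icc 1 (N / Q), (SK K k + w ^ 2 * SX q₁ K k + w * (chr χ Q * SC χ K k)) *
        ((N : ℝ) - k * Q)| ≤
    C * N / K

/-! ## The singular series -/

/-- C1a : the singular series of the moduli prime to `q` (uses `W14a`). PROOF: for `k ≥ 1`, `∑'_{(m,q)=1} mr(m)² cR m k =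
(φ(q)/q) SG (k q)` (`r = d m`, `d ∣ q`, `m` prime to `q`: `mr(r)² cR r (kq) = mr(d)² φ(d) mr(m)² cR m k`, `∑_{d ∣ q} μ²(d)/φ(d) =
q/φ(q)`; `W14a` gives summability); truncation at `Z` as in `W14t_pr` (FGP/P14t) and `A08_pr` (Lib_helper65/FGA/A08). -/
def C1a : Prop := ∃ C : ℝ, 0 < C ∧ ∀ q Z k : ℕ, 1 ≤ q → 1 ≤ Z → 1 ≤ k →
    |(Nat.totient q / q : ℝ) * SG (k * q) - fT q Z k| ≤ C * k / Real.sqrt Z

/-- C1b : the same in mean (uses `W14a`, `FGA.A09`, `FGA.A14E`). As in `A15E_pr` (Lib_helper65/FGA/A15E.lean): `q` even: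
`M = q`; `q` odd: `M = 2q`, `y/2`, `k = 2k'` (`CQ (2q) = CQ q + log 2`, `ks (2q) ≤ 2 ks q`). -/
def C1b : Prop := ∃ C : ℝ, 0 < C ∧ ∀ (q : ℕ) (y : ℝ), 1 ≤ q → 0 < y →
    |∑ k ∈ Icc 1 ⌊y⌋₊, (y - k) * SG (k * q) -
      ((q / Nat.totient q : ℝ) * y ^ 2 / 2 - y / 2 * (Real.log y + HC.CQ q - 1))| ≤
    C * y ^ (3 / 4 : ℝ) * FGA.ks q ^ 4

/-- C2 : the truncated series in mean (uses `C1a`, `C1b`). `∑_{k ≤ y} (y - k) k ≤ y³`. -/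
def C2 : Prop := ∃ C : ℝ, 0 < C ∧ ∀ (q Z : ℕ) (y : ℝ), 1 ≤ q → 1 ≤ Z → 0 < y →
  |∑ k ∈ Icc 1 ⌊y⌋₊, (y - k) * fT q Z k -
      (y ^ 2 / 2 - (Nat.totient q / q : ℝ) * (y / 2) * (Real.log y + HC.CQ q - 1))| ≤
    C * (y ^ (3 / 4 : ℝ) * FGA.ks q ^ 4 + y ^ 3 / Real.sqrt Z)

/-- C3 : `∑_{d ∣ q} μ(q/d) d log d = φ(q) (log q + ∑_{p ∣ q} log p / (p-1))`, and small facts. PROOF of the first:
`log d = log q - log (q/d)`; `-∑_{e ∣ q} μ(e) (q/e) log e = q ∑_{p ∣ q} (log p / p) ∏_{p' ∣ q, p' ≠ p} (1 - 1/p')`; or induction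
on the prime powers. Second: `cR q k = ∑_{d ∣ (q,k)} d μ(q/d)`. Third: `ks q ^ 4 (q/φ(q)) ≤ C q^(1/20)` (Euler product: the local
factors are `≤ p^(1/20)` for `p` large). -/
def C3 : Prop := (∀ q : ℕ, 1 ≤ q →
    ∑ d ∈ q.divisors, ((μ (q / d) : ℤ) : ℝ) * d * Real.log d =
      Nat.totient q * (Real.log q + ∑ p ∈ q.primeFactors, Real.log p / ((p : ℝ) - 1))) ∧
  (∀ q k : ℕ, 1 ≤ q → 1 ≤ k →
    cR q k = ∑ d ∈ q.divisors.filter (fun d => d ∣ k), (d : ℝ) * ((μ (q / d) : ℤ) : ℝ)) ∧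
  ∃ C : ℝ, 0 < C ∧ ∀ q : ℕ, 1 ≤ q →
    FGA.ks q ^ 4 * (q / Nat.totient q : ℝ) ^ 2 ≤ C * (q : ℝ) ^ (1 / 20 : ℝ)

/-- C4 : the exceptional singular series in mean (uses `C2`, `C3`). PROOF: `cR q₁ k = ∑_{d ∣ (q₁,k)} d μ(q₁/d)`,
`fT q₁ Z (j d) = fT q₁ Z j` for `d ∣ q₁` (`(m, q₁) = 1`), so the sum is
`(q₁/φ²) ∑_{d ∣ q₁} d² μ(q₁/d) ∑_{j ≤ z/d} (z/d - j) fT q₁ Z j`, `Z = K/q₁`; `C2` with `y = z/d`: the terms `y²/2` cancel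
(`∑ μ = 0`), the second terms give `-(z/2)(log (z/q₁) + γ + log 2π - 1)` by `C3`
(`CQ q = γ + log 2π + ∑_{p ∣ q} log p/(p-1)`); error: `(q₁/φ²) ∑ d² (z/d)^(3/4) ks⁴ ≤ C z^(3/4) q₁^(1/4) (q₁/φ)² ks⁴`
(`∑_{d ∣ q} d^(5/4) ≤ C q^(5/4)`), `q₁ ≤ √z`; and `(q₁/φ²) ∑ d² (z/d)³/√Z ≤ C z³ (q₁/φ)²../√Z`, `Z ≥ z^16/(2 √z)`. -/
def C4 : Prop := ∃ C : ℝ, 0 < C ∧ ∀ (q₁ K : ℕ) (z : ℝ), 2 ≤ q₁ → (q₁ : ℝ) ^ 2 ≤ z → z ^ 16 ≤ K →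
  |∑ k ∈ Icc 1 ⌊z⌋₊, SX q₁ K k * (z - k) +
      z / 2 * (Real.log (z / q₁) + Real.eulerMascheroniConstant + Real.log (2 * Real.pi) - 1)| ≤
    C * z ^ (19 / 20 : ℝ)

/-- C5 : the mixed singular series in mean. PROOF: `fT q₁ Z k = ∑_{m ≤ Z, (m,q₁)=1} mr(m)² ∑_{d ∣ (m,k)} d μ(m/d)`, and
`∑_{k ≤ z, d ∣ k} χ(k) (z - k) = χ(d) d ∑_{j ≤ z/d} χ(j) (z/d - j)`, which by the Pólya–Vinogradov inequality (`XS.pv`,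
Lib_helper26/XSF/PVI.lean) and Abel summation is at most `z √q₁ (1 + log q₁)` in absolute value (zero if `d > z`); so the sum is
`≤ (2 q₁/φ(q₁)²) z √q₁ (1 + log q₁) ∑_{m} mr(m)² ∑_{d ∣ m, d ≤ z} d`; `∑_m μ²(m)/φ(m)² ∑_{d ∣ m, d ≤ z} d ≤ ∑_{d ≤ z} d/φ(d)² ∑ 1/φ(m')² ≤
C (1 + log z)^3`. `(q₁/φ(q₁))² ≤ C (1 + log q₁)²` (or `≤ C q₁^(1/20)`), `q₁ ≤ z`. Powers of logarithms are given away. -/
def C5 : Prop := ∃ C : ℝ, 0 < C ∧ ∀ (q₁ : ℕ) (χ : DirichletCharacter ℂ q₁), Qd χ → ∀ (K : ℕ) (z : ℝ),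
  (q₁ : ℝ) ≤ z →
  |∑ k ∈ Icc 1 ⌊z⌋₊, SC χ K k * (z - k)| ≤
    C * z * (1 + Real.log z) ^ 8 / (q₁ : ℝ) ^ (1 / 4 : ℝ)

/-- C4g : the exceptional singular series in mean, all ranges of `z / q₁` (helper99) -/
def C4g : Prop := ∀ η : ℝ, 0 < η → ∃ (C : ℝ) (q₀ : ℕ), 0 < C ∧ ∀ (q₁ K : ℕ) (z : ℝ), q₀ ≤ q₁ →
  2 ≤ q₁ → 1 ≤ z → z ^ 16 ≤ K → q₁ ≤ K →
  |∑ k ∈ Icc 1 ⌊z⌋₊, SX q₁ K k * (z - k) + z / 2 * max 0 (Real.log (z / q₁))| ≤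
    z * (η * Real.log z + C)

/-- C5g : the mixed singular series in mean, all ranges (helper99) -/
def C5g : Prop := ∀ η : ℝ, 0 < η → ∃ (C : ℝ) (q₀ : ℕ), 0 < C ∧ ∀ (q₁ : ℕ)
  (χ : DirichletCharacter ℂ q₁), Qd χ → q₀ ≤ q₁ → ∀ (K : ℕ) (z : ℝ), 1 ≤ z → q₁ ≤ K →
  |∑ k ∈ Icc 1 ⌊z⌋₊, SC χ K k * (z - k)| ≤ z * (η * Real.log z + C)

/-! ## The main theorem -/

/-- the main term -/
noncomputable def mW (N Q q₁ w : ℝ) : ℝ := N * Real.log Q - w ^ 2 * N * max 0 (Real.log (N / (Q * q₁)))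

/-- S18p : pointwise part (model `p18_pt` FGP/P18b; uses `S16`, `S13`, `E14`, `C4g`, `C5g`, `W15`, `G2`). PROOF:
`VQ(fh+gW) = (VA - VA gW - (ms - ms gW)) + (VA gW - ms gW) + ms - ‖.(0)‖²/Q` (`p18_VA`); with `z = N/Q`
`2 ∑ SK (N - kQ) = 2 Q mainT z + .. = N²/Q - N log z + O(N)`, `2 ∑ SX (N - kQ) = -N log⁺ (z/q₁) + N(2η log z + 2C)`,
`|2 ∑ SC (N - kQ)| ≤ N (2η log z + 2C)`, `A2 N = N log N + O(N)` (`W15`, `η = 1`), `log z ≤ log N`.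
(`Icc 1 (N / Q) = Icc 1 ⌊(N : ℝ) / Q⌋₊`, `Nat.floor_div_eq_div`.) -/
def S18p : Prop := ∃ C : ℝ, 0 < C ∧ ∀ η : ℝ, 0 < η → ∃ (C' : ℝ) (q₀ K0 : ℕ), 0 < C' ∧
  ∀ K ≥ K0, ∀ N : ℕ, Rg K N →
  ∀ M, Good (2 * N) M → ∀ (q₁ : ℕ) (χ : DirichletCharacter ℂ q₁) (w : ℝ), Qd χ → 0 ≤ w → w ≤ 1 →
  q₀ ≤ q₁ → q₁ ≤ K → EEW χ w N K ≤ N → ∀ Y, RY K N Y → 4 * Y ≤ N → ∀ Q ∈ QQ Y,
  |VQ (fun t => fh N K t + gW χ w N K t) Q - mW N Q q₁ w| ≤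
    |(VA (fun t => fh N K t + gW χ w N K t) Q - VA (gW χ w N K) Q) -
      (ms M (fun t => fh N K t + gW χ w N K t) - ms M (gW χ w N K))| +
    C * Real.log N * Real.sqrt (N * EEW χ w N K) + (η * Real.log N + C') * N

/-- S18 : the main theorem for the primes in `(√N, N]`, for one weight, in terms of the energy (model FGP/E18F, E18N, P18,
P18a; uses `S08`, `S12`, `S18p`, `S10`, `W20`). `FW` by Minkowski (`p18_mink_sum`): `∑ VQ FW ≤ C Y (EEW + √N)`,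
`∑ VQ (fh+gW) ≤ C Y N`; `p18_card`; `K ≥ log^100 N` absorbs the powers of `log N` against `√K`. -/
def S18 : Prop := ∃ C : ℝ, 0 < C ∧ ∀ η : ℝ, 0 < η → ∃ (C' : ℝ) (q₀ K0 : ℕ), ∀ K ≥ K0, ∀ N : ℕ,
  Rg K N → ∀ (q₁ : ℕ) (χ : DirichletCharacter ℂ q₁) (w : ℝ), Qd χ → 0 ≤ w → w ≤ 1 →
  q₀ ≤ q₁ → q₁ ≤ K → EEW χ w N K ≤ N → ∀ Y, RY K N Y → 4 * Y ≤ N →
  ∑ Q ∈ QQ Y, |SQ N Q - mW N Q q₁ w| ≤
    (C * Real.sqrt (EEW χ w N K / N) * Real.log N + η * Real.log N + C') * N * (Y / Real.log N)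

/-- S18g : the main theorem for the primes in `(√N, N]` (uses `Z2`, `S18`). `w = N ^ (β-1)`, `√(EEW/N) ≤
C (exp(-c/2 ..) + K^(-1/4) + (1-β))`, `K^(-1/4) log N ≤ 1`, `(1-β) log N ≤ η log N` for `K ≥ K0` (`1-β ≤ ε₀/log K`);
`EEW ≤ N` since `B`, `K0` are large. -/
def S18g : Prop := ∃ C c B ε₀ : ℝ, 0 < C ∧ 0 < c ∧ 1 ≤ B ∧ 0 < ε₀ ∧ ∀ η : ℝ, 0 < η →
  ∃ (C' : ℝ) (q₀ K0 : ℕ), ∀ K ≥ K0, ∀ N : ℕ,
  Rg K N → (K : ℝ) ^ B ≤ N → ∀ (q₁ : ℕ) (χ : DirichletCharacter ℂ q₁) (β : ℝ), Qd χ →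
  q₀ ≤ q₁ → q₁ ≤ K → GA.LF χ (β : ℂ) = 0 → (1 - β) * Real.log K ≤ ε₀ → ∀ Y, RY K N Y → 4 * Y ≤ N →
  ∑ Q ∈ QQ Y, |SQ N Q - mW N Q q₁ ((N : ℝ) ^ (β - 1))| ≤
    (C * Real.exp (-(c * Real.log N / Real.log K)) * Real.log N + η * Real.log N + C') * N *
      (Y / Real.log N)

/-- the variance without the principal character -/
noncomputable def V (X : ℝ) (Q : ℕ) : ℝ := FGP.GV X Q - PV0 X Q

/-- `|ψ(N) - N| ≤ N^(3/4)` -/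
def Near (N : ℕ) : Prop := |∑ n ∈ Icc 1 N, ArithmeticFunction.vonMangoldt n - N| ≤ (N : ℝ) ^ (3 / 4 : ℝ)

/-- an exceptional zero for `X` and `d` (helper26) -/
def IsExc (a b d X : ℝ) (q : ℕ) (χ : DirichletCharacter ℂ q) (β : ℝ) : Prop :=
  (q : ℝ) ≤ X ^ (a * d) ∧ Qd χ ∧ GA.LF χ (β : ℂ) = 0 ∧ 1 - b / (d * Real.log X) < β

/-- AA : the two-sided formula for every `X` (helper26; uses `S18g`, `Z1`, `FGA.LEV`, `cmp_pr`) -/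
def AA : Prop := ∃ a b c C : ℝ, 0 < a ∧ 0 < b ∧ 0 < c ∧ 0 < C ∧ ∀ d : ℝ, 0 < d → d ≤ c →
  ∃ X₀ : ℝ, ∀ X : ℝ, X₀ ≤ X → ∀ W : ℕ → ℝ,
  (((∀ Q, W Q = 0) ∧ ∀ (q : ℕ) (χ : DirichletCharacter ℂ q) (β : ℝ), ¬ IsExc a b d X q χ β) ∨
    ∃ (q : ℕ) (χ : DirichletCharacter ℂ q) (β : ℝ), IsExc a b d X q χ β ∧
      ∀ Q : ℕ, W Q = X ^ (2 * β - 1) * max 0 (Real.log (X / (q * Q)))) →
  ∀ Y : ℝ, X ^ (1 - d) ≤ Y → Y ≤ X / C →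
  ∑ Q ∈ QR Y, |V X Q - X * Real.log Q + W Q| ≤
    C * Real.exp (-(c / d)) * (X * Real.log X) * (Y / Real.log Y)

/-! ## The dichotomy -/

/-- no Siegel zeros, with the constant `c₀` -/
def NS (c₀ : ℝ) : Prop := ∀ q : ℕ, ∀ χ ∈ GA.Prm q, χ ^ 2 = 1 → ∀ β : ℝ, GA.LF χ (β : ℂ) = 0 →
  β ≤ 1 - c₀ / Real.log q

/-- the primes near `X^(1-δ)` -/
noncomputable def PP (X δ : ℝ) : Finset ℕ := QR (X ^ (1 - δ))

/-- the variance is `X log Q` on average -/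
def BB (c : ℝ) : Prop := ∀ δ : ℝ, 0 < δ → δ ≤ c → ∃ X₀ : ℝ, ∀ X : ℝ, X₀ ≤ X →
  ∑ Q ∈ PP X δ, |V X Q - X * Real.log Q| ≤
    (1 / c) * Real.exp (-(c / δ)) * (X * Real.log X) * (PP X δ).card

/-- a small proportion of the primes has a variance exceeding `X (2 log Q - log X)` -/
def CC (c δ : ℝ) : Prop := ∃ X₀ : ℝ, ∀ X : ℝ, X₀ ≤ X →
  Real.exp (-(c / δ)) * (PP X δ).card ≤ (((PP X δ).filter (fun Q : ℕ =>
    X * (2 * Real.log Q - Real.log X) + Real.exp (-(c / δ)) * (X * Real.log X) ≤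
      FGP.GV X Q)).card : ℝ)

/-- the variance is `X (2 log Q - log X)` on average, for arbitrarily large `X` -/
def DD (c δ : ℝ) : Prop := ∀ X₀ : ℝ, ∃ X : ℝ, X₀ ≤ X ∧
  ∑ Q ∈ PP X δ, |FGP.GV X Q - X * (2 * Real.log Q - Real.log X)| ≤
    Real.exp (-(c / δ)) * (X * Real.log X) * (PP X δ).card

/-- F1 : the number of primes in `(Y, 2Y]`. (Prime number theorem, or Chebyshev: Lib_helper73/Var/Pnt.lean, and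
`p18_card` for the upper bound.) -/
def F1 : Prop := ∃ C : ℝ, 0 < C ∧ ∀ Y : ℝ, C ≤ Y →
  Y / Real.log Y ≤ C * (QR Y).card ∧ ((QR Y).card : ℝ) ≤ C * (Y / Real.log Y)

/-- F2 : no Siegel zeros imply `BB` (uses `F1`, `hL : ∀ c₁ > 0, FGA.LEV c₁`). PROOF: `NS c₀ → GA.Good c₀ D` for all
`D ≥ 2`; `FGA.LEV c₀` (first part) with `D = ⌈X^(δ/c)⌉`: `X D^(-c) ≤ X^(1-δ)`, `exp(-c log X/log D)` is about `exp(-c²/δ)`,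
`D^(-c) ≤ X^(-δ)`; `MTQ X Q = X log Q + O(X)` (`Q` prime); `1/log X ≤ exp(-c'/δ)` for `X ≥ X₀(δ)`; `F1`. -/
def F2 : Prop := ∀ c₀ : ℝ, 0 < c₀ → NS c₀ → ∃ c : ℝ, 0 < c ∧ BB c

/-- F3 : `BB` implies `CC` (uses `F1`). PROOF: `log X - log Q ≥ δ log X - log 2`, so `X log Q ≥ X (2 log Q - log X) +
(δ/2) X log X`; the primes with `V < X log Q - (δ/4) X log X` have proportion at most `(4/δ)(1/c') exp(-c'/δ) ≤ 1/2` for small `δ`;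
`G ≥ V`; `exp(-c/δ) ≤ min (1/2) (δ/4)` for all small `δ`. -/
def F3 : Prop := ∀ c c' : ℝ, 0 < c → 0 < c' → BB c' → ∃ δ₁ : ℝ, 0 < δ₁ ∧ ∀ δ : ℝ, 0 < δ → δ ≤ δ₁ →
  CC c δ

/-- F4 : Siegel zeros imply `DD` (uses `AA`, `F1`, `FGP.WSC`). PROOF: `A = exp (κ/δ)`; if there are Siegel zeros then
for every `η > 0` there is a zero with `(1-β) log q₁ ≤ η`, and `q₁ → ∞` as `η → 0` (for `q ≤ Q₀` the real zeros stay away from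
`1`: `GA.z4_finite`, `GA.z3_zero_re`); `WSC` gives `N ∈ [q₁^A, q₁^(40A)]`, `Near N`; `AA` with `X = N`, `Y = X^(1-δ)`:
`IsExc` holds, `X^(2β-1) = X (1 + O(A η))`, `log (X/(q₁ Q)) = log X - log Q - log q₁`, `log q₁ ≤ log X / A`; `PV0 ≤ X^(1/2+2δ)`. -/
def F4 : Prop := ∃ c δ₀ : ℝ, 0 < c ∧ 0 < δ₀ ∧ δ₀ < 1 ∧ ((¬ ∃ c₀ : ℝ, 0 < c₀ ∧ NS c₀) →
  ∀ δ : ℝ, 0 < δ → δ ≤ δ₀ → DD c δ)

/-- F5 : `DD` contradicts `CC` (Markov; `PP X δ` is not empty for large `X`: Bertrand's postulate,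
`Nat.exists_prime_lt_and_le_two_mul`) -/
def F5 : Prop := ∀ c c' δ : ℝ, 0 < c → 2 * c < c' → 0 < δ → δ < 1 → DD c' δ → ¬ CC c δ

end Pool.Agent.SZ
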